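import Pool.Agent.P.MP_e0c037_lc.SG.Base

/-! The bound for the negative part. -/

namespace Pool.Agent.P.MP_e0c037_lc.SG

open Finset Function

namespace BoundRAux

/-- The data of one instance of the bound. -/
structure Dat (C : KF → Finset ℕ → Prop) (B : ℝ) (J : ℕ) (t : ℕ → ℝ) (k : KF) (E S : Finset ℕ)
    (f : ℕ) (v : ℕ → ℝ) (gr : ℕ → ℕ) : Prop where
  c : C k E
  conn : Conn k E
  sub : S ⊆ E
  red : Red k S
  mem : f ∈ E
  nS : f ∉ S
  two : 2 ≤ E.card
  vf : |1 + v f| ≤ B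
  sp : ∀ x ∈ S, v x = -2 ∧ gr x = 0
  lv : ∀ x ∈ E, x ≠ f → x ∉ S → 1 ≤ gr x ∧ gr x ≤ J ∧ |1 + v x| ≤ t (gr x)

variable {C : KF → Finset ℕ → Prop} {q B : ℝ} {J : ℕ} {t : ℕ → ℝ} {k k' : KF}
  {E E' E1 S S' : Finset ℕ} {e f g x : ℕ} {v : ℕ → ℝ} {gr gr' : ℕ → ℕ}

theorem sum_mono {A A' : Finset ℕ} (h : ∀ x ∈ A, gr x = 0 ∨ (x ∈ A' ∧ gr x ≤ gr' x)) :
    ∑ x ∈ A, (2 ^ gr x - 1) ≤ ∑ x ∈ A', (2 ^ gr' x - 1) := by
  calc ∑ x ∈ A, (2 ^ gr x - 1) ≤ ∑ x ∈ A, if x ∈ A' then 2 ^ gr' x - 1 else 0 := by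
        refine sum_le_sum fun x hx => ?_
        rcases h x hx with h0 | ⟨h1, h2⟩
        · simp [h0]
        · rw [if_pos h1]
          exact Nat.sub_le_sub_right (Nat.pow_le_pow_right (by norm_num) h2) 1
    _ = ∑ x ∈ A ∩ A', (2 ^ gr' x - 1) := sum_ite_mem _ _ _
    _ ≤ _ := sum_le_sum_of_subset inter_subset_right

theorem sum_merge' (he : e ∈ E) (hg : g ∈ E) (heg : e ≠ g) (hef : e ≠ f) (hgf : g ≠ f) {n c : ℕ}
    (hn : 2 ^ gr e + 2 ^ gr g + c ≤ 2 ^ n + 1) :
    ∑ x ∈ E.erase f, (2 ^ gr x - 1) + c ≤ ∑ x ∈ (E.erase g).erase f, (2 ^ update gr e n x - 1) := by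
  have hg' : g ∈ E.erase f := mem_erase.2 ⟨hgf, hg⟩
  have he' : e ∈ (E.erase f).erase g := by simp [he, heg, hef]
  rw [erase_right_comm, ← add_sum_erase _ _ hg', ← add_sum_erase _ _ he',
    ← add_sum_erase _ _ he', update_self]
  have a1 : ∑ x ∈ ((E.erase f).erase g).erase e, (2 ^ update gr e n x - 1) =
      ∑ x ∈ ((E.erase f).erase g).erase e, (2 ^ gr x - 1) :=
    sum_congr rfl fun x hx => by rw [update_of_ne (ne_of_mem_erase hx)]
  have a2 : 0 < 2 ^ gr e := by positivity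
  have a3 : 0 < 2 ^ gr g := by positivity
  have a4 : 0 < 2 ^ n := by positivity
  rw [a1]
  omega

theorem pow_max (a b : ℕ) : 2 ^ a + 2 ^ b ≤ 2 ^ (max a b + 1) := by
  have a2 : 2 ^ a ≤ 2 ^ max a b := Nat.pow_le_pow_right (by norm_num) (le_max_left _ _)
  have a3 : 2 ^ b ≤ 2 ^ max a b := Nat.pow_le_pow_right (by norm_num) (le_max_right _ _)
  rw [pow_succ]
  omega

theorem Dat.chg (d : Dat C B J t k E S f v gr) (c : C k' E') (hc : Conn k' E') (hE : E' ⊆ E)
    (hf : f ∈ E') (h2 : 2 ≤ E'.card) (hS : ∀ x, x ∈ S' ↔ x ∈ S ∧ x ∈ E') (hr : Red k' S') :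
    Dat C B J t k' E' S' f v gr :=
  ⟨c, hc, fun x hx => ((hS x).1 hx).2, hr, hf, fun hh => d.nS ((hS f).1 hh).1, h2, d.vf,
    fun x hx => d.sp x ((hS x).1 hx).1,
    fun x hx hxf hxS => d.lv x (hE hx) hxf fun hh => hxS ((hS x).2 ⟨hh, hx⟩)⟩

theorem Dat.rew (d : Dat C B J t k E S f v gr) (hx : x ≠ f) {w : ℝ} {n : ℕ} (n1 : 1 ≤ n)
    (nJ : n ≤ J) (hw : |1 + w| ≤ t n) :
    Dat C B J t k E (S.erase x) f (update v x w) (update gr x n) := by
  refine ⟨d.c, d.conn, (erase_subset _ _).trans d.sub, d.red.mono (erase_subset _ _), d.mem,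
    fun hh => d.nS (mem_of_mem_erase hh), d.two, by rw [update_of_ne hx.symm]; exact d.vf,
    fun y hy => ?_, fun y hy hyf hyS => ?_⟩
  · rw [update_of_ne (ne_of_mem_erase hy), update_of_ne (ne_of_mem_erase hy)]
    exact d.sp y (mem_of_mem_erase hy)
  · by_cases hyx : y = x
    · rw [hyx, update_self, update_self]; exact ⟨n1, nJ, hw⟩
    · rw [update_of_ne hyx, update_of_ne hyx]
      exact d.lv y hy hyf fun hh => hyS (mem_erase.2 ⟨hyx, hh⟩)

theorem Dat.del (d : Dat C B J t k E S f v gr) (mc : Mc C) (hg : g ∈ E) (hgf : g ≠ f)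
    (hc : Conn k (E.erase g)) (h3 : 3 ≤ E.card) : Dat C B J t k (E.erase g) (S.erase g) f v gr :=
  d.chg (mc.del _ _ _ d.c (erase_subset _ _)) hc (erase_subset _ _)
    (mem_erase.2 ⟨hgf.symm, d.mem⟩) (by rw [card_erase_of_mem hg]; omega)
    (fun x => by simp only [mem_erase]; have := @d.sub x; tauto) (d.red.mono (erase_subset _ _))

theorem Dat.ctr (d : Dat C B J t k E S f v gr) (mc : Mc C) (c : Ctr k E S e E1) (hef : e ≠ f) :
    Dat C B J t (con k e) E1 (S ∩ E1) f v gr :=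
  d.chg (mc.del _ _ _ (mc.con _ _ _ d.c c.mem) c.subset) c.conn
    (c.subset.trans (erase_subset _ _)) (c.mem' d.mem hef.symm d.nS)
    (by have := c.three (mc.isK _ _ d.c); omega) (fun _ => mem_inter) c.red

theorem Dat.vB (d : Dat C B J t k E S f v gr) (sy : Sy q B J t) (hx : x ∈ E) (hS : x ∉ S) :
    |1 + v x| ≤ B := by
  by_cases hxf : x = f
  · rw [hxf]; exact d.vf
  · obtain ⟨a, b, c⟩ := d.lv x hx hxf hS
    exact c.trans ((sy.tg _ a b).trans sy.tB)

theorem Dat.v1 (d : Dat C B J t k E S f v gr) (sy : Sy q B J t) (hx : x ∈ E) : |1 + v x| ≤ 1 := by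
  by_cases hS : x ∈ S
  · rw [(d.sp x hS).1]; norm_num
  · exact (d.vB sy hx hS).trans sy.B1.le

theorem Dat.vo (d : Dat C B J t k E S f v gr) (sy : Sy q B J t) (hx : x ∈ E) :
    v x = -2 ∨ |1 + v x| ≤ B := by
  by_cases hS : x ∈ S
  · exact Or.inl (d.sp x hS).1
  · exact Or.inr (d.vB sy hx hS)

theorem Dat.vt (d : Dat C B J t k E S f v gr) (sy : Sy q B J t) (hx : x ∈ E) (hxf : x ≠ f) :
    v x = -2 ∨ |1 + v x| ≤ t 1 := by
  by_cases hS : x ∈ S
  · exact Or.inl (d.sp x hS).1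
  · obtain ⟨a, b, c⟩ := d.lv x hx hxf hS
    exact Or.inr (c.trans (sy.tg _ a b))

theorem Dat.pos (d : Dat C B J t k E S f v gr) (mc : Mc C) (sy : Sy q B J t) (cp : ClaimP C q B) :
    0 < al q k v E f ∧ |ga q k v E f| ≤ al q k v E f := by
  by_cases h3 : 3 ≤ E.card
  · obtain ⟨a, b⟩ := cp k E S f v d.c d.conn d.sub d.red d.mem d.nS d.two (Or.inl h3)
      (fun x hx => (d.sp x hx).1) fun x hx _ hS => d.vB sy hx hS
    exact ⟨a, b.trans (by nlinarith [sy.B1])⟩
  · obtain ⟨e, hef, rfl⟩ := card_two d.mem (by have := d.two; omega)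
    obtain ⟨n, h1, h2⟩ := al_two (v := v) (mc.isK _ _ d.c) hef d.conn sy.q1.ne
    have := pow_pos sy.q0 n
    have h4 := d.v1 sy (x := e) (by simp)
    rw [h1, h2, abs_mul, abs_of_pos this]
    exact ⟨this, by nlinarith⟩

theorem Dat.other (d : Dat C B J t k E S f v gr) (sy : Sy q B J t) (cp : ClaimP C q B)
    (he : e ∈ E) (hef : e ≠ f) :
    0 < al q k v E e ∧ |ga q k v E e| ≤ B * al q k v E e := by
  refine cp k E (S.erase e) e v d.c d.conn ((erase_subset _ _).trans d.sub)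
    (d.red.mono (erase_subset _ _)) he (notMem_erase _ _) d.two ?_
    (fun x hx => (d.sp x (mem_of_mem_erase hx)).1)
    fun x hx hxe hS => d.vB sy hx fun hh => hS (mem_erase.2 ⟨hxe, hh⟩)
  by_cases h4 : 3 ≤ E.card
  · exact Or.inl h4
  · refine Or.inr (eq_empty_of_forall_notMem fun x hx => h4 ?_)
    obtain ⟨h5, h6⟩ := mem_erase.1 hx
    have h7 : x ≠ f := fun hh => d.nS (hh ▸ h6)
    have : ({x, e, f} : Finset ℕ) ⊆ E := by
      simp only [insert_subset_iff, singleton_subset_iff]; exact ⟨d.sub h6, he, d.mem⟩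
    have h8 := card_le_card this
    rwa [card_eq_three.2 ⟨x, e, f, h5, h7, hef, rfl⟩] at h8

theorem Dat.par_w (d : Dat C B J t k E S f v gr) (sy : Sy q B J t) (he : e ∈ E) (hg : g ∈ E)
    (hef : e ≠ f) (hgf : g ≠ f) (eS : e ∉ S) (l1 : gr e < J) (l2 : gr g < J) :
    ∃ n, 1 ≤ n ∧ n ≤ J ∧ |1 + (v e + v g + v e * v g)| ≤ t n ∧
      2 ^ gr e + 2 ^ gr g + 0 ≤ 2 ^ n + 1 := by
  obtain ⟨a1, a2, a3⟩ := d.lv e he hef eS
  have e0 : 1 + (v e + v g + v e * v g) = (1 + v e) * (1 + v g) := by ring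
  rw [e0, abs_mul]
  by_cases gS : g ∈ S
  · obtain ⟨b1, b2⟩ := d.sp g gS
    refine ⟨gr e, a1, a2, ?_, by rw [b2]; omega⟩
    rw [b1]; norm_num; exact a3
  · obtain ⟨b1, b2, b3⟩ := d.lv g hg hgf gS
    refine ⟨max (gr e) (gr g) + 1, by omega, Nat.succ_le_of_lt (max_lt l1 l2), ?_,
      by have := pow_max (gr e) (gr g); omega⟩
    rcases le_total (gr e) (gr g) with h | h
    · rw [max_eq_right h, mul_comm]
      exact (mul_le_mul b3 (a3.trans (sy.tg _ a1 a2)) (abs_nonneg _)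
        ((abs_nonneg _).trans b3)).trans (sy.gpar _ b1 l2)
    · rw [max_eq_left h]
      exact (mul_le_mul a3 (b3.trans (sy.tg _ b1 b2)) (abs_nonneg _)
        ((abs_nonneg _).trans a3)).trans (sy.gpar _ a1 l1)

theorem Dat.ser_w' (d : Dat C B J t k E S f v gr) (sy : Sy q B J t) (he : e ∈ E) (hg : g ∈ E)
    (hef : e ≠ f) (hgf : g ≠ f) (l1 : gr e < J) (h : gr g ≤ gr e) :
    |1 + v e * v g / (q + v e + v g)| ≤ t (gr e + 1) := by
  by_cases eS : e ∈ S
  · obtain ⟨b1, b2⟩ := d.sp e eS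
    have gS : g ∈ S := by
      by_contra hn
      have := (d.lv g hg hgf hn).1
      omega
    have q0 := sy.q0
    have q1 := sy.q1
    have e1 : 1 + (-2 : ℝ) * -2 / (q + -2 + -2) = -(q / (4 - q)) := by
      have : q + -2 + -2 ≠ 0 := by linarith
      have : 4 - q ≠ 0 := by linarith
      field_simp
      ring
    rw [b1, b2, (d.sp g gS).1, e1, abs_neg, abs_of_pos (div_pos q0 (by linarith))]
    refine le_trans ?_ sy.t1
    rw [div_le_iff₀ (by linarith)]
    linarith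
  · obtain ⟨a1, a2, a3⟩ := d.lv e he hef eS
    exact sy.gser _ a1 l1 _ _ a3 (d.vt sy hg hgf)

theorem Dat.ser_w (d : Dat C B J t k E S f v gr) (sy : Sy q B J t) (he : e ∈ E) (hg : g ∈ E)
    (hef : e ≠ f) (hgf : g ≠ f) (l1 : gr e < J) (l2 : gr g < J) :
    |1 + v e * v g / (q + v e + v g)| ≤ t (max (gr e) (gr g) + 1) := by
  rcases le_total (gr e) (gr g) with h | h
  · rw [max_eq_right h, mul_comm, add_right_comm q]
    exact d.ser_w' sy hg he hgf hef l2 h
  · rw [max_eq_left h]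
    exact d.ser_w' sy he hg hef hgf l1 h

/-- The potential after a good contraction. -/
theorem Dat.ctr_pot (d : Dat C B J t k E S f v gr) (mc : Mc C) (c : Ctr k E S e E1) (hef : e ≠ f) :
    k ∅ + ∑ x ∈ E.erase f, (2 ^ gr x - 1) + con k e E1 ≤
      con k e ∅ + ∑ x ∈ E1.erase f, (2 ^ gr x - 1) + 2 ^ gr e + k E := by
  obtain ⟨s1, -⟩ := d.conn.single (mc.isK _ _ d.c) c.mem d.mem hef
  have h1 : ∑ x ∈ (E.erase f).erase e, (2 ^ gr x - 1) ≤ ∑ x ∈ E1.erase f, (2 ^ gr x - 1) := by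
    refine sum_mono fun x hx => ?_
    obtain ⟨a, b⟩ := mem_erase.1 hx
    obtain ⟨b, b'⟩ := mem_erase.1 b
    by_cases hS : x ∈ S
    · exact Or.inl (d.sp x hS).2
    · exact Or.inr ⟨mem_erase.2 ⟨b, c.mem' b' a hS⟩, le_rfl⟩
  have h2 := c.span
  have h3 : 0 < 2 ^ gr e := by positivity
  rw [← add_sum_erase _ _ (mem_erase.2 ⟨hef, c.mem⟩)]
  unfold con
  rw [insert_empty_eq]
  omega

theorem card_ctr (c : Ctr k E S e E1) {T : Finset ℕ} (hT : S ⊆ T) :
    E1.card + (S ∩ E1).card < E.card + T.card := by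
  have h1 := card_le_card c.subset
  have h2 := card_le_card (inter_subset_left.trans hT : S ∩ E1 ⊆ T)
  have h3 := card_erase_lt_of_mem c.mem
  omega

theorem main (mc : Mc C) (st : Step C) (sy : Sy q B J t) (cp : ClaimP C q B) (N : ℕ) :
    ∀ (k : KF) E S f v gr m, Dat C B J t k E S f v gr → E.card + S.card = N →
      m * 2 ^ J + k E ≤ k ∅ + ∑ x ∈ E.erase f, (2 ^ gr x - 1) →
      -(sg k E * Zk q k v E) ≤ max B (3 / 4) ^ m * al q k v E f := by
  have hk0 : (0 : ℝ) ≤ max B (3 / 4) := le_trans (by norm_num) (le_max_right _ _)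
  have q1 : q ≠ 1 := sy.q1.ne
  have q2 : 0 < 1 - q := sub_pos.2 sy.q1
  induction N using Nat.strong_induction_on with
  | _ N ih0 =>
  intro k E S f v gr m d hN hm
  have ih : ∀ {k' : KF} {E' S' v' gr'} (m' : ℕ), Dat C B J t k' E' S' f v' gr' →
      E'.card + S'.card < E.card + S.card →
      m' * 2 ^ J + k' E' ≤ k' ∅ + ∑ x ∈ E'.erase f, (2 ^ gr' x - 1) →
      -(sg k' E' * Zk q k' v' E') ≤ max B (3 / 4) ^ m' * al q k' v' E' f :=
    fun m' d' hlt hm' => ih0 _ (hN ▸ hlt) _ _ _ _ _ _ m' d' rfl hm'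
  clear ih0 hN
  have h := mc.isK _ _ d.c
  have hf := d.mem
  obtain ⟨p1, p2⟩ := d.pos mc sy cp
  by_cases htop : ∃ e ∈ E, e ≠ f ∧ e ∉ S ∧ gr e = J
  · obtain ⟨e, he, hef, eS, hJ⟩ := htop
    obtain ⟨a1, a2⟩ := d.other sy cp he hef
    have a3 := (d.lv e he hef eS).2.2
    rw [hJ] at a3
    have a4 : |(1 + v e) * ga q k v E e| ≤ t J * (B * al q k v E e) := by
      rw [abs_mul]
      exact mul_le_mul a3 a2 (abs_nonneg _) ((abs_nonneg _).trans a3)
    have a5 := mul_le_mul_of_nonneg_right sy.top a1.le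
    have a6 := mul_nonneg (pow_nonneg hk0 m) p1.le
    have a7 := (abs_le.1 a4).2
    rw [Z_eq q1 he]
    linarith
  have hlt : ∀ e ∈ E, e ≠ f → gr e < J := fun e he hef => by
    by_cases eS : e ∈ S
    · rw [(d.sp e eS).2]; exact sy.J1
    · exact lt_of_le_of_ne (d.lv e he hef eS).2.1 fun hh => htop ⟨e, he, hef, eS, hh⟩
  rcases Nat.eq_zero_or_pos m with rfl | hm0
  · rw [Z_eq q1 hf, pow_zero, one_mul]
    have a0 := mul_pos q2 p1
    have a1 := d.v1 sy hf
    have a3 : |(1 + v f) * ga q k v E f| ≤ 1 * al q k v E f := by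
      rw [abs_mul]
      exact mul_le_mul a1 p2 (abs_nonneg _) zero_le_one
    have := (abs_le.1 a3).2
    linarith
  by_cases h3 : E.card < 3
  · exfalso
    obtain ⟨e, hef, rfl⟩ := card_two hf (by have := d.two; omega)
    have e1 : ({e, f} : Finset ℕ).erase f = {e} := by
      rw [pair_comm, erase_insert (by simpa using hef.symm)]
    obtain ⟨s1, -⟩ := d.conn.single h (e := e) (by simp) hf hef
    obtain ⟨-, s2⟩ := d.conn.single h (f := e) hf (by simp) hef.symm
    rw [e1] at s2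
    rw [e1, sum_singleton] at hm
    have := Nat.pow_lt_pow_right (by norm_num : 1 < 2) (hlt e (by simp) hef)
    have := Nat.mul_le_mul_right (2 ^ J) hm0
    have : 0 < 2 ^ gr e := by positivity
    omega
  replace h3 : 3 ≤ E.card := by omega
  have third : ∀ w : ℝ, w = -2 / 3 ∨ w = -4 / 3 → |1 + w| ≤ t 1 := fun w hw => by
    refine le_trans (abs_le.2 ?_) sy.t1
    rcases hw with rfl | rfl <;> norm_num
  rcases st k E S f d.c d.conn d.sub d.red hf d.nS h3 with
    ⟨e, he, g, hg, heg, hef, hgf, eS, hh⟩ | ⟨e, he, g, hg, heg, hef, hgf, hh⟩ |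
    ⟨e, he, hef, c1, E1, c⟩ | ⟨e, he, g, hg, heg, ⟨E1, c1⟩, E2, c2⟩
  · obtain ⟨n, n1, nJ, hw, hn⟩ := d.par_w sy he hg hef hgf eS (hlt e he hef) (hlt g hg hgf)
    obtain ⟨c1, c2, a1, a2⟩ := al_par (q := q) (v := v) h d.conn he hg heg hef hgf hh
    have d' := (d.rew hef n1 nJ hw).del mc hg hgf c1 h3
    have b := ih m d' (by
      have := card_erase_lt_of_mem hg
      have := card_le_card ((erase_subset g (S.erase e)).trans (erase_subset e S))
      omega) (by have := sum_merge' he hg heg hef hgf hn; omega)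
    rw [Z_eq q1 d'.mem, update_of_ne hef.symm] at b
    rw [Z_eq q1 hf, a1, a2]
    exact b
  · have l1 := hlt e he hef
    have l2 := hlt g hg hgf
    obtain ⟨t1, -⟩ := sy.ser _ _ (d.vo sy he) (d.vo sy hg)
    obtain ⟨a1, a2⟩ := al_ser (q := q) (v := v) h d.conn hf he hg heg hef hgf hh t1.ne
    obtain ⟨s1, -⟩ := d.conn.single h hg hf hgf
    have d' := (d.rew hef (by omega) (Nat.succ_le_of_lt (max_lt l1 l2))
      (d.ser_w sy he hg hef hgf l1 l2)).chg (S' := (S.erase g).erase e) (mc.con _ _ _ d.c hg)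
      (conn_ser h d.conn he hg heg hh) (erase_subset _ _) (mem_erase.2 ⟨hgf.symm, hf⟩)
      (by rw [card_erase_of_mem hg]; omega)
      (fun x => by simp only [mem_erase]; have := @d.sub x; tauto)
      (red_ser h d.conn he hg heg hh d.sub d.red)
    have b := ih m d' (by
      have := card_erase_lt_of_mem hg
      have := card_le_card ((erase_subset e (S.erase g)).trans (erase_subset g S))
      omega) (by
      have := sum_merge' (gr := gr) (c := 1) (n := max (gr e) (gr g) + 1) he hg heg hef hgf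
        (by have := pow_max (gr e) (gr g); omega)
      unfold con
      rw [insert_erase hg, insert_empty_eq]
      simp only [Nat.succ_eq_add_one]
      omega)
    rw [Z_eq q1 d'.mem, update_of_ne hef.symm] at b
    have := mul_le_mul_of_nonneg_left b (by linarith : 0 ≤ -(q + v e + v g))
    rw [Z_eq q1 hf, a1, a2]
    linarith
  · obtain ⟨m, rfl⟩ : ∃ m', m = m' + 1 := ⟨m - 1, by omega⟩
    rw [Nat.succ_mul] at hm
    obtain ⟨s1, s2⟩ := d.conn.single h he hf hef
    have l1 := Nat.pow_lt_pow_right (by norm_num : 1 < 2) (hlt e he hef)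
    have hv : ∀ x ∈ S, x ≠ e → v x = -2 := fun x hx _ => (d.sp x hx).1
    have d2 := d.ctr mc c hef
    obtain ⟨p5, -⟩ := d2.pos mc sy cp
    obtain ⟨p6, -⟩ := d.other sy cp he hef
    obtain ⟨r1, -⟩ := c.al_eq (q := q) h d.nS hv
    have a0 := mul_pos q2 p6
    have hp := pow_nonneg hk0 m
    rcases le_or_gt 0 (1 + v e) with hy | hy
    · have eS : e ∉ S := fun hh => by rw [(d.sp e hh).1] at hy; norm_num at hy
      have v2 := (abs_le.1 (d.vB sy he eS)).2
      have hneg : 0 < -v e := by have := sy.B1; linarith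
      have d1 := d.del mc he hef c1 h3
      obtain ⟨p4, -⟩ := d1.pos mc sy cp
      obtain ⟨a1, -⟩ := al_dc (q := q) (v := v) he hef s1 s2
      have b1 := ih m d1 (by
        have := card_erase_lt_of_mem he
        have := card_le_card (erase_subset e S)
        omega) (by
        rw [← add_sum_erase _ _ (mem_erase.2 ⟨hef, he⟩), erase_right_comm] at hm
        have : 0 < 2 ^ gr e := by positivity
        omega)
      rw [sg_del s2] at b1
      have f1 : -(sg k E * Zk q k v E) ≤ (1 + v e) * -(sg k E * Zk q k v (E.erase e)) := by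
        rw [Z_del q1 he]; nlinarith [mul_pos hneg a0]
      have f2 : al q k v (E.erase e) f ≤ al q k v E f := by
        rw [a1, r1]; nlinarith [mul_pos hneg p5]
      calc _ ≤ _ := f1
        _ ≤ (1 + v e) * (max B (3 / 4) ^ m * al q k v (E.erase e) f) :=
          mul_le_mul_of_nonneg_left b1 hy
        _ ≤ max B (3 / 4) * (max B (3 / 4) ^ m * al q k v E f) :=
          mul_le_mul (v2.trans (le_max_left _ _)) (mul_le_mul_of_nonneg_left f2 hp)
            (mul_nonneg hp p4.le) hk0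
        _ = _ := by ring
    · have v1 := (abs_le.1 (d.v1 sy he)).1
      obtain ⟨p4, -⟩ := (d.rew hef le_rfl sy.J1 (third _ (Or.inl rfl))).pos mc sy cp
      obtain ⟨a1, -⟩ := al_rew (q := q) (v := v) he hef s1 s2 (-2 / 3)
      have b2 := ih m d2 (card_ctr c Subset.rfl) (by have := d.ctr_pot mc c hef; omega)
      rw [c.sg_eq, ← c.Z_eq h hv, sg_con he s1] at b2
      have f1 : -(sg k E * Zk q k v E) ≤
          -(1 + v e) * -(-sg k E * Zk q (con k e) v (E.erase e)) := by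
        rw [Z_con q1 he]; nlinarith
      have f2 : -(1 + v e) * al q (con k e) v E1 f ≤ 3 / 4 * al q k v E f := by
        rw [a1, r1]; nlinarith [mul_nonneg (by linarith : 0 ≤ 2 + v e) p5.le]
      calc _ ≤ _ := f1
        _ ≤ -(1 + v e) * (max B (3 / 4) ^ m * al q (con k e) v E1 f) :=
          mul_le_mul_of_nonneg_left b2 (by linarith)
        _ = max B (3 / 4) ^ m * (-(1 + v e) * al q (con k e) v E1 f) := by ring
        _ ≤ max B (3 / 4) ^ m * (max B (3 / 4) * al q k v E f) :=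
          mul_le_mul_of_nonneg_left
            (f2.trans (mul_le_mul_of_nonneg_right (le_max_right _ _) p1.le)) hp
        _ = _ := by ring
  · have hef : e ≠ f := fun hh => d.nS (hh ▸ he)
    have hgf : g ≠ f := fun hh => d.nS (hh ▸ hg)
    obtain ⟨s1, -⟩ := d.conn.single h c1.mem hf hef
    obtain ⟨s2, -⟩ := d.conn.single h c2.mem hf hgf
    have key : ∀ {e g E1}, e ∈ S → g ∈ S → e ≠ g → Ctr k E (S.erase g) e E1 →
        -(sg (con k e) (E.erase e) * Zk q (con k e) (update v g (-4 / 3)) (E.erase e)) ≤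
          max B (3 / 4) ^ m * al q (con k e) (update v g (-4 / 3)) (E.erase e) f := by
      intro e g E1 he hg heg c
      have hef : e ≠ f := fun hh => d.nS (hh ▸ he)
      have hgf : g ≠ f := fun hh => d.nS (hh ▸ hg)
      have d1 := d.rew hgf le_rfl sy.J1 (third _ (Or.inr rfl))
      have hv : ∀ x ∈ S.erase g, x ≠ e → update v g (-4 / 3) x = -2 := fun x hx _ => (d1.sp x hx).1
      have g' : g ∈ E.erase f := mem_erase.2 ⟨hgf, d.sub hg⟩
      have b := ih m (d1.ctr mc c hef) (card_ctr c (erase_subset _ _)) (by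
        have a1 := d1.ctr_pot mc c hef
        have a2 : ∑ x ∈ (E.erase f).erase g, (2 ^ gr x - 1) ≤
            ∑ x ∈ (E.erase f).erase g, (2 ^ update gr g 1 x - 1) :=
          sum_mono fun x hx => Or.inr ⟨hx, by rw [update_of_ne (ne_of_mem_erase hx)]⟩
        rw [← add_sum_erase _ _ g', update_self, update_of_ne heg, (d.sp e he).2] at a1
        rw [← add_sum_erase _ _ g', (d.sp g hg).2] at hm
        omega)
      rwa [c.sg_eq, ← c.Z_eq h hv, ← (c.al_eq h d1.nS hv).1] at b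
    have b1 := key he hg heg c1
    have b2 := key hg he heg.symm c2
    have b0 := ih m ((d.rew hef le_rfl sy.J1 (third _ (Or.inl rfl))).rew hgf le_rfl sy.J1
      (third _ (Or.inl rfl))) (by
        have := card_erase_lt_of_mem he
        have := card_le_card (erase_subset g (S.erase e))
        omega) (hm.trans (Nat.add_le_add_left (sum_mono fun x hx => by
          by_cases xS : x ∈ S
          · exact Or.inl (d.sp x xS).2
          · refine Or.inr ⟨hx, ?_⟩
            rw [update_of_ne (ne_of_mem_of_not_mem hg xS).symm,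
              update_of_ne (ne_of_mem_of_not_mem he xS).symm]) _))
    rw [sgZ_two c1.mem c2.mem heg s1 s2 (d.sp e he).1 (d.sp g hg).1,
      (al_two_id c1.mem c2.mem heg hef hgf s1 s2 (d.sp e he).1 (d.sp g hg).1).1]
    linarith

end BoundRAux

theorem p_BoundR : S_BoundR := fun _ _ _ _ _ mc st sy cp k E S f v gr m a1 a2 a3 a4 a5 a6 a7 a8 a9
    a10 hm =>
  BoundRAux.main mc st sy cp _ k E S f v gr m ⟨a1, a2, a3, a4, a5, a6, a7, a8, a9, a10⟩ rfl hm

end Pool.Agent.P.MP_e0c037_lc.SG
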