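import Pool.Agent.P.MP_e0c037_lc.SG.Base

/-! Lifting a good contraction from a torso. -/

namespace Pool.Agent.P.MP_e0c037_lc.SG

open Finset

namespace Lift

variable {k k' : KF} {Y R S : Finset ℕ} {f g h : ℕ}

/-- Removal of parallel pairs away from `R` transfers from the torso. -/
theorem rm_transfer {S' H H' : Finset ℕ} {c c' : ℕ} (r : Rm k' S' H H') (h1 : S' ⊆ S)
    (h2 : S' ⊆ Y) (hd : Disjoint Y R) (hk : ∀ A ⊆ Y, k' A + c' = k A + c) :
    Rm k S (H ∪ R) (H' ∪ R) := by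
  induction r with
  | refl => exact .refl _
  | @step E E' x y a b sx sy e p _ ih =>
    have nx : x ∉ R := disjoint_left.1 hd (h2 sx)
    have ny : y ∉ R := disjoint_left.1 hd (h2 sy)
    refine .step (mem_union_left _ a) (mem_union_left _ b) (h1 sx) (h1 sy) e
      (par_congr hk (h2 sx) (h2 sy) p) ?_
    rwa [erase_union_distrib, erase_union_distrib, erase_eq_of_notMem nx, erase_eq_of_notMem ny]

/-- The data of a two-sum along the torso element `f`. -/
structure Dat (k k' : KF) (Y R : Finset ℕ) (f : ℕ) : Prop where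
  isK : IsK k
  isK' : IsK k'
  disj : Disjoint Y R
  mem : f ∈ R
  t1 : ∀ A ⊆ Y, k' A + k ∅ = k A + k' ∅
  t2 : ∀ A ⊆ Y, k' (insert f A) + 1 + k R = k' ∅ + k (A ∪ R)
  conn : Conn k' (insert f Y)
  ne : Y.Nonempty
  lamR : ∀ B ⊆ R, B.Nonempty → k B + k (Y ∪ R \ B) < k ∅ + k (Y ∪ R)

theorem Dat.notMem (d : Dat k k' Y R f) : f ∉ Y := fun hh => disjoint_left.1 d.disj hh d.mem

theorem Dat.lamY (d : Dat k k' Y R f) : k ∅ + k (Y ∪ R) = k Y + k R + 1 := by
  obtain ⟨y, hy⟩ := d.ne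
  have h1 := (d.conn.single d.isK' (mem_insert_self f Y) (mem_insert_of_mem hy)
    (fun hh => d.notMem (hh ▸ hy))).2
  rw [erase_insert d.notMem] at h1
  have h2 := d.t1 Y Subset.rfl
  have h3 := d.t2 Y Subset.rfl
  omega

theorem Dat.lam_le (d : Dat k k' Y R f) : lam k (Y ∪ R) Y ≤ 1 := by
  have := d.lamY
  unfold lam
  rw [union_sdiff_cancel_left d.disj]
  omega

theorem Dat.inY (d : Dat k k' Y R f) {A : Finset ℕ} (hA : A ⊆ Y) (hn : A.Nonempty) :
    1 ≤ lam k (Y ∪ R) A := by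
  have nf : f ∉ A := fun hh => d.notMem (hA hh)
  have h1 := d.conn.one_le (hA.trans (subset_insert _ _)) hn (mem_insert_self f Y) nf
  have h2 := d.t1 A hA
  have h3 := d.t2 Y Subset.rfl
  have h4 := d.t2 (Y \ A) sdiff_subset
  have e1 : (Y ∪ R) \ A = Y \ A ∪ R := by
    rw [union_sdiff_distrib, sdiff_eq_self_of_disjoint (d.disj.mono_left hA).symm]
  unfold lam at h1 ⊢
  rw [insert_sdiff_of_notMem _ nf] at h1
  rw [e1]
  omega

theorem Dat.inR (d : Dat k k' Y R f) {B : Finset ℕ} (hB : B ⊆ R) (hn : B.Nonempty) :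
    1 ≤ lam k (Y ∪ R) B := by
  have h1 := d.lamR B hB hn
  have e1 : (Y ∪ R) \ B = Y ∪ R \ B := by
    rw [union_sdiff_distrib, sdiff_eq_self_of_disjoint (d.disj.mono_right hB)]
  unfold lam
  rw [e1]
  omega

theorem Dat.side (d : Dat k k' Y R f) {A : Finset ℕ} (hA : A ⊆ Y ∪ R) (hn : A.Nonempty)
    (hl : lam k (Y ∪ R) A ≤ 0) : Y ⊆ A := by
  by_cases hY : A ⊆ Y
  · have := d.inY hY hn
    omega
  have h1 := d.isK.lam_pos hA (subset_union_left : Y ⊆ Y ∪ R)
  have h2 := d.inR (B := A \ Y) (fun x hx =>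
    (mem_union.1 (hA (mem_sdiff.1 hx).1)).resolve_left (mem_sdiff.1 hx).2) (sdiff_nonempty.2 hY)
  have h3 := d.lam_le
  by_contra hn'
  have := d.inY (A := Y \ A) sdiff_subset (sdiff_nonempty.2 hn')
  omega

theorem Dat.conn_union (d : Dat k k' Y R f) : Conn k (Y ∪ R) := by
  intro A hA h1 h2
  by_contra hn
  have l1 : lam k (Y ∪ R) A ≤ 0 := by unfold lam; omega
  have s1 := d.side hA h1 l1
  have s2 := d.side sdiff_subset h2 (by rwa [lam_compl hA])
  obtain ⟨y, hy⟩ := d.ne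
  exact (mem_sdiff.1 (s2 hy)).2 (s1 hy)

theorem par_absorb (hk : IsK k) (p : Par k g h) {A : Finset ℕ} (hg : g ∈ A) :
    k (insert h A) = k A := by
  have := par_eq hk p.1 p.2.2 A
  rwa [insert_eq_of_mem hg] at this

theorem Dat.connY (d : Dat k k' Y R f) (hg : g ∈ Y) (hh : h ∈ R) (p : Par k g h) : Conn k Y := by
  have h1 := d.t2 {g} (singleton_subset_iff.2 hg)
  have h2 := par_absorb d.isK p.symm hh
  rw [← insert_eq, h2, pair_comm] at h1
  have h3 := conn_par d.isK' d.conn (mem_insert_of_mem hg) (mem_insert_self f Y)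
    (fun e => d.notMem (e ▸ hg)) (by omega)
  rw [erase_insert d.notMem] at h3
  exact conn_congr d.t1 h3

theorem Dat.connR (d : Dat k k' Y R f) (hg : g ∈ Y) (hh : h ∈ R) (p : Par k g h) : Conn k R := by
  have key : ∀ A ⊆ R, A.Nonempty → h ∉ A → k A + k (R \ A) < k ∅ + k R := by
    intro A hA h1 h2
    have a1 := d.lamR A hA h1
    have a2 := d.isK.dimin (singleton_subset_iff.2 (mem_sdiff.2 ⟨hh, h2⟩)) Y
    have a3 := par_absorb d.isK p hg
    have a4 := d.lamY
    have a5 := p.2.1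
    rw [← insert_eq, a3, union_comm] at a2
    omega
  intro A hA h1 h2
  by_cases hm : h ∈ A
  · have := key (R \ A) sdiff_subset h2 (by simp [hm])
    rw [Finset.sdiff_sdiff_eq_self hA] at this
    omega
  · exact key A hA h1 hm

theorem Dat.par_par (d : Dat k k' Y R f) {g' h' : ℕ} (hg : g ∈ Y) (hh : h ∈ R) (p : Par k g h)
    (hg' : g' ∈ Y) (hh' : h' ∈ R) (p' : Par k g' h') : Par k h h' := by
  refine ⟨p.2.1, p'.2.1, ?_⟩
  have a1 := d.isK.dimin (insert_subset hh (singleton_subset_iff.2 hh')) Y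
  have a2 := par_absorb d.isK p' hg'
  have a3 := par_absorb d.isK p (mem_insert_of_mem hg : g ∈ insert h' Y)
  have a4 := d.lamY
  have a5 := p.2.1
  have a6 := d.isK.anti (by simp : ({h} : Finset ℕ) ⊆ {h, h'})
  rw [insert_union, ← insert_eq, a3, a2, union_comm] at a1
  omega

theorem red_union (r1 : Red k (S ∩ Y)) (r2 : Red k (S ∩ R))
    (hn : ∀ g ∈ S ∩ Y, ∀ h ∈ S ∩ R, ¬ Par k g h) : Red k (S ∩ (Y ∪ R)) := by
  intro x hx y hy hxy p
  rw [inter_union_distrib_left, mem_union] at hx hy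
  rcases hx with hx | hx <;> rcases hy with hy | hy
  · exact r1 x hx y hy hxy p
  · exact hn x hx y hy p
  · exact hn y hy x hx p.symm
  · exact r2 x hx y hy hxy p

theorem Dat.finish (hs : S_Sum) (d : Dat k k' Y R f) (h2 : 2 ≤ Y.card) (r1 : Red k (S ∩ Y))
    (r2 : Red k (S ∩ R)) (hf : f ∉ S ∨ 2 ≤ R.card) :
    ∃ E1, Rm k S (Y ∪ R) E1 ∧ Conn k E1 ∧ k E1 = k (Y ∪ R) ∧ Red k (S ∩ E1) := by
  by_cases hn : ∀ g ∈ S ∩ Y, ∀ h ∈ S ∩ R, ¬ Par k g h
  · exact ⟨_, .refl _, d.conn_union, rfl, red_union r1 r2 hn⟩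
  push Not at hn
  obtain ⟨g, hg, h, hh, p⟩ := hn
  obtain ⟨sg, hg⟩ := mem_inter.1 hg
  obtain ⟨sh, hh⟩ := mem_inter.1 hh
  have ng : g ∉ R := disjoint_left.1 d.disj hg
  have nh : h ∉ Y := disjoint_right.1 d.disj hh
  have hR : 2 ≤ R.card := by
    rcases hf with hf | hf
    · exact one_lt_card.2 ⟨f, d.mem, h, hh, fun e => hf (e ▸ sh)⟩
    · exact hf
  obtain ⟨c1, c2⟩ := hs k Y R g h d.isK d.disj hg hh p (d.connY hg hh p) (d.connR hg hh p) h2 hR
    d.lam_le
  refine ⟨Y.erase g ∪ R.erase h, .step (mem_union_left _ hg) (mem_union_right _ hh) sg sh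
    (fun e => ng (e ▸ hh)) p ?_, c1, c2, red_union
      (r1.mono (inter_subset_inter_left (erase_subset _ _)))
      (r2.mono (inter_subset_inter_left (erase_subset _ _))) fun g' hg' h' hh' p' => ?_⟩
  · rw [erase_union_distrib, erase_union_distrib, erase_eq_of_notMem ng,
      erase_eq_of_notMem (fun e => nh (mem_of_mem_erase e))]
    exact .refl _
  · obtain ⟨-, hg'⟩ := mem_inter.1 hg'
    obtain ⟨sh', hh'⟩ := mem_inter.1 hh'
    exact r2 h (mem_inter.2 ⟨sh, hh⟩) h' (mem_inter.2 ⟨sh', mem_of_mem_erase hh'⟩)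
      (ne_of_mem_erase hh').symm
      (d.par_par hg hh p (mem_of_mem_erase hg') (mem_of_mem_erase hh') p')

end Lift

open Lift in
theorem p_Lift (hs : S_Sum) : S_Lift := by
  intro k k' E Y S f e H1 hk hk' hc hY hf h3 hl hm ht hS hr hfS he c
  obtain ⟨hfE, hfY⟩ := mem_sdiff.1 hf
  have hfe : f ≠ e := fun hh => hfY (hh ▸ he)
  have hfH : f ∈ H1 := c.mem' (mem_insert_self _ _) hfe fun hh => hfY (mem_inter.1 hh).2
  have hH3 := c.three hk'
  obtain ⟨Y1, hY1, rfl⟩ : ∃ Y1, f ∉ Y1 ∧ H1 = insert f Y1 :=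
    ⟨H1.erase f, notMem_erase _ _, (insert_erase hfH).symm⟩
  rw [card_insert_of_notMem hY1] at hH3
  have sub1 : Y1 ⊆ Y := fun x hx =>
    (mem_insert.1 (mem_of_mem_erase (c.subset (mem_insert_of_mem hx)))).resolve_left
      fun hh => hY1 (hh ▸ hx)
  have hd : Disjoint Y (E \ Y) := disjoint_sdiff
  have hE : Y ∪ E \ Y = E := union_sdiff_of_subset hY
  -- `e` is not spanned by the outside
  have hser : ∀ B ⊆ E \ Y, k B = k (insert e B) + 1 := by
    have a1 := hm (Y.erase e) (erase_subset _ _) (erase_ne_self.2 he)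
      (by rw [card_erase_of_mem he]; omega)
    have e1 : E \ Y.erase e = insert e (E \ Y) := sdiff_erase (hY he)
    have a2 := hk.anti (erase_subset e Y)
    have a3 := hk.ge (E \ Y) e
    unfold lam at a1 hl
    rw [e1] at a1
    exact fun B hB => ser_eq hk (by omega) hB
  have t1 : ∀ A ⊆ Y, con k' e A + k ∅ = con k e A + k' ∅ := fun A hA =>
    (ht _ (insert_subset he hA)).1
  have s0 := hser ∅ (empty_subset _)
  have sR := hser _ Subset.rfl
  have t0 := t1 ∅ (empty_subset _)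
  obtain ⟨y, hy⟩ : Y1.Nonempty := card_pos.1 (by omega)
  -- the reduced part spans `Y`
  have hsp : ∀ T, con k e (Y1 ∪ T) = k (Y ∪ T) := by
    have a1 := (c.conn.single (hk'.con e) (mem_insert_self f Y1) (mem_insert_of_mem hy)
      (fun hh => hY1 (hh ▸ hy))).2
    have a2 := c.span
    have a3 := hk'.le Y f
    have a4 := t1 Y1 sub1
    have a5 := (ht Y Subset.rfl).1
    have sub2 : insert e Y1 ⊆ Y := insert_subset he sub1
    rw [erase_insert hY1] at a1
    intro T
    have a6 := hk.dimin sub2 T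
    have a7 := hk.anti (union_subset_union sub2 (Subset.rfl : T ⊆ T))
    unfold con at *
    rw [insert_union] at a6 a7
    omega
  have d : Dat (con k e) (con k' e) Y1 (E \ Y) f := by
    refine ⟨hk.con e, hk'.con e, hd.mono_left sub1, hf, fun A hA => ?_, fun A hA => ?_, c.conn,
      ⟨y, hy⟩, fun B hB hn => ?_⟩
    · have := t1 A (hA.trans sub1)
      unfold con at *
      omega
    · have := (ht _ (insert_subset he (hA.trans sub1))).2
      unfold con at *
      rw [insert_union, Finset.insert_comm] at this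
      omega
    · have e1 : E \ B = Y ∪ (E \ Y) \ B := by
        conv_lhs => rw [← hE]
        rw [union_sdiff_distrib, sdiff_eq_self_of_disjoint (hd.mono_right hB)]
      have a1 := hc B (hB.trans sdiff_subset) hn (by rw [e1]; exact ⟨e, mem_union_left _ he⟩)
      have a2 := hser B hB
      rw [hsp, hsp, hE, ← e1]
      unfold con
      omega
  obtain ⟨E1, r1, r2, r3, r4⟩ := d.finish (S := S) hs (by omega)
    (fun x hx z hz hxz p => c.red x
      (mem_inter.2 ⟨inter_subset_inter_left sub1 hx, mem_insert_of_mem (mem_inter.1 hx).2⟩) z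
      (mem_inter.2 ⟨inter_subset_inter_left sub1 hz, mem_insert_of_mem (mem_inter.1 hz).2⟩) hxz
      (par_congr (fun A hA => (d.t1 A hA).symm) (mem_inter.1 hx).2 (mem_inter.1 hz).2 p))
    (fun x hx z hz hxz p => hr x (mem_inter.1 hx).1 z (mem_inter.1 hz).1 hxz
      (par_congr (c := 1) (c' := 0) (fun A hA => (hser A hA).symm) (mem_inter.1 hx).2
        (mem_inter.1 hz).2 p)) hfS
  have r0 := rm_transfer c.rm inter_subset_left inter_subset_right hd t1
  have e2 : (insert f Y).erase e ∪ E \ Y = E.erase e := by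
    ext x
    simp only [mem_union, mem_erase, mem_insert, mem_sdiff]
    have := @hY x
    by_cases hx : x = f
    · subst hx; tauto
    · by_cases hx' : x = e
      · subst hx'; tauto
      · tauto
  rw [e2, insert_union, insert_eq_of_mem (mem_union_right _ hf)] at r0
  refine ⟨E1, hY he, r0.trans r1, r2, ?_, ?_, r4⟩
  · rw [hsp, hE] at r3
    exact r3
  · have a1 := (ht Y Subset.rfl).2
    have a2 := c.rk
    have a3 := (hc.single hk hfE (hY he) hfe).1
    have a4 := hk.anti (singleton_subset_iff.2 hf)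
    rw [hE] at a1
    omega

end Pool.Agent.P.MP_e0c037_lc.SG
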