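import Pool.Agent.P.MP_e0c037_lc.SG.Base

/-! The graded system of bounds exists for every `0 < q < 1`. -/

namespace Pool.Agent.P.MP_e0c037_lc.SG

namespace Sys

/-- The bound on the series weight as two polynomial inequalities. -/
theorem absle {q v w s : ℝ} (hD : q + v + w < 0)
    (h1 : 0 ≤ (s - (1 + v)) * (s - (1 + w)) + (1 - s) * (s - (1 - q)))
    (h2 : (s + (1 + v)) * (s + (1 + w)) ≤ (1 + s) * (s + (1 - q))) :
    |1 + v * w / (q + v + w)| ≤ s := by
  rw [abs_le]
  constructor
  · have : -(1 + s) ≤ v * w / (q + v + w) := by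
      rw [le_div_iff_of_neg hD]; nlinarith
    linarith
  · have : v * w / (q + v + w) ≤ s - 1 := by
      rw [div_le_iff_of_neg hD]; nlinarith
    linarith

theorem ser {q B : ℝ} (q0 : 0 < q) (q1 : q < 1) (b0 : 1 / 3 < B) (b1 : B < 1 - q / 2)
    (b2 : 1 - q ≤ B) (b3 : q * (1 + B) ≤ (1 - B) * (1 + 3 * B)) (v w : ℝ)
    (hv : v = -2 ∨ |1 + v| ≤ B) (hw : w = -2 ∨ |1 + w| ≤ B) :
    q + v + w < 0 ∧ |1 + v * w / (q + v + w)| ≤ B := by
  have hv1 : 1 + v ≤ B := by
    rcases hv with h | h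
    · rw [h]; linarith
    · exact (abs_le.1 h).2
  have hw1 : 1 + w ≤ B := by
    rcases hw with h | h
    · rw [h]; linarith
    · exact (abs_le.1 h).2
  have hD : q + v + w < 0 := by linarith
  refine ⟨hD, absle hD ?_ ?_⟩
  · have e1 : 0 ≤ (B - (1 + v)) * (B - (1 + w)) := mul_nonneg (by linarith) (by linarith)
    have e2 : 0 ≤ (1 - B) * (B - (1 - q)) := mul_nonneg (by linarith) (by linarith)
    linarith
  · have p0 : 0 ≤ (1 + B) * (B + (1 - q)) := mul_nonneg (by linarith) (by linarith)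
    rcases hv with h | h <;> rcases hw with h' | h'
    · subst h; subst h'
      have : 0 ≤ (1 + B) * (1 - q) := mul_nonneg (by linarith) (by linarith)
      nlinarith
    · subst h
      have := mul_nonneg (show 0 ≤ 1 - B by linarith)
        (show 0 ≤ B + (1 + w) by linarith [(abs_le.1 h').1])
      nlinarith
    · subst h'
      have := mul_nonneg (show 0 ≤ 1 - B by linarith)
        (show 0 ≤ B + (1 + v) by linarith [(abs_le.1 h).1])
      nlinarith
    · have e1 : (B + (1 + v)) * (B + (1 + w)) ≤ (2 * B) * (2 * B) :=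
        mul_le_mul (by linarith) (by linarith) (by linarith [(abs_le.1 h').1]) (by linarith)
      nlinarith

/-- One step of the grading. -/
theorem gstep {e s v w : ℝ} (e0 : 0 < e) (e1 : e < 1 / 8) (s0 : 3 * e * (1 - e) ≤ s)
    (s1 : s ≤ 1 / 3) (hv : |1 + v| ≤ s + e ^ 2) (hw : w = -2 ∨ |1 + w| ≤ 1 / 3) :
    |1 + v * w / (1 - e + v + w)| ≤ s := by
  obtain ⟨v0, v1⟩ := abs_le.1 hv
  have ee : e ^ 2 ≤ e / 8 := by nlinarith
  have ee0 : 0 < e ^ 2 := by positivity
  have s2 : 21 / 8 * e ≤ s := by nlinarith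
  have hw1 : 1 + w ≤ 1 / 3 := by
    rcases hw with h | h
    · rw [h]; norm_num
    · exact (abs_le.1 h).2
  have hD : 1 - e + v + w < 0 := by linarith
  have k1 : 13 / 12 * e ≤ (1 - s) * (s - e) := by
    have : (2 / 3 : ℝ) * (13 / 8 * e) ≤ (1 - s) * (s - e) :=
      mul_le_mul (by linarith) (by linarith) (by positivity) (by linarith)
    linarith
  refine absle hD ?_ ?_
  · rw [show 1 - (1 - e) = e by ring]
    rcases le_total (s - (1 + v)) 0 with hx | hx
    · have hw0 : s - (1 + w) ≤ 4 / 3 := by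
        rcases hw with h | h
        · rw [h]; linarith
        · linarith [(abs_le.1 h).1]
      rcases le_total (s - (1 + w)) 0 with hy | hy
      · have := mul_nonneg_of_nonpos_of_nonpos hx hy
        linarith
      · have a1 : (1 + v - s) * (s - (1 + w)) ≤ e ^ 2 * (4 / 3) :=
          mul_le_mul (by linarith) hw0 hy ee0.le
        nlinarith
    · have a1 : (s - (1 + v)) * (s - 1 / 3) ≤ (s - (1 + v)) * (s - (1 + w)) :=
        mul_le_mul_of_nonneg_left (by linarith) hx
      have a2 : (s - (1 + v)) * (1 / 3 - s) ≤ (2 * s + e ^ 2) * (1 / 3 - s) :=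
        mul_le_mul_of_nonneg_right (by linarith) (by linarith)
      have a3 : e * e ≤ e * s := mul_le_mul_of_nonneg_left (by linarith) e0.le
      have a4 : e * e ≤ s * s := mul_le_mul (by linarith) (by linarith) e0.le (by linarith)
      have a5 : 0 ≤ e ^ 2 * s := mul_nonneg ee0.le (by linarith)
      nlinarith
  · rw [show 1 - (1 - e) = e by ring]
    have k2 : s + e ≤ (1 + s) * (s + e) := by nlinarith
    rcases hw with h | h
    · subst h
      have a1 : (-(s + (1 + v))) * (1 - s) ≤ e ^ 2 * (1 - s) :=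
        mul_le_mul_of_nonneg_right (by linarith) (by linarith)
      have a5 : 0 ≤ e ^ 2 * s := mul_nonneg ee0.le (by linarith)
      nlinarith
    · obtain ⟨w0, w1⟩ := abs_le.1 h
      rcases le_total (s + (1 + v)) 0 with hx | hx
      · have a1 : (-(s + (1 + v))) * (-(s + (1 + w))) ≤ (-(s + (1 + v))) * (1 / 3) :=
          mul_le_mul_of_nonneg_left (by linarith) (by linarith)
        nlinarith
      · have a1 : (s + (1 + v)) * (s + (1 + w)) ≤ (s + (1 + v)) * (s + 1 / 3) :=
          mul_le_mul_of_nonneg_left (by linarith) hx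
        have a2 : (s + (1 + v)) * (s + 1 / 3) ≤ (2 * s + e ^ 2) * (s + 1 / 3) :=
          mul_le_mul_of_nonneg_right (by linarith) (by linarith)
        have a3 : s * s ≤ s * (1 / 3) := mul_le_mul_of_nonneg_left s1 (by linarith)
        have a4 : e ^ 2 * s ≤ e ^ 2 * (1 / 3) := mul_le_mul_of_nonneg_left s1 ee0.le
        have a5 : 0 ≤ s * e := mul_nonneg (by linarith) e0.le
        nlinarith

/-- One level suffices when `q ≤ 7 / 8`. -/
theorem small {q : ℝ} (q0 : 0 < q) (q1 : q ≤ 7 / 8) :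
    Sy q (max ((2 - q) / 3) (1 - q)) 1 fun _ => 1 / 3 := by
  have b0 : 1 / 3 < max ((2 - q) / 3) (1 - q) := lt_max_of_lt_left (by linarith)
  have b1 : max ((2 - q) / 3) (1 - q) < 1 - q / 2 := max_lt (by linarith) (by linarith)
  refine ⟨q0, by linarith, b0, by linarith, le_rfl, le_rfl, b0.le, fun _ _ _ => le_rfl,
    ser q0 (by linarith) b0 b1 (le_max_right _ _) ?_, fun g h1 h2 => by omega,
    fun g h1 h2 => by omega, ?_⟩
  · rcases max_choice ((2 - q) / 3) (1 - q) with h | h <;> rw [h] <;> nlinarith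
  · rcases max_choice ((2 - q) / 3) (1 - q) with h | h <;> rw [h] <;> linarith

/-- The levels. -/
noncomputable def lev (e : ℝ) (g : ℕ) : ℝ := max (3 * e * (1 - e)) (1 / 3 - ((g : ℝ) - 1) * e ^ 2)

theorem large {e : ℝ} (e0 : 0 < e) (e1 : e < 1 / 8) : ∃ J, Sy (1 - e) ((1 + e) / 3) J (lev e) := by
  have ee0 : 0 < e ^ 2 := by positivity
  have tau : 3 * e * (1 - e) ≤ 1 / 3 := by nlinarith
  obtain ⟨n, hn⟩ := exists_nat_ge (1 / 3 / e ^ 2)
  rw [div_le_iff₀ ee0] at hn
  have l1 : lev e 1 = 1 / 3 := by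
    unfold lev
    rw [Nat.cast_one, sub_self, zero_mul, sub_zero, max_eq_right tau]
  have l2 : ∀ g, 1 ≤ g → lev e g ≤ 1 / 3 := fun g hg => by
    have : (1 : ℝ) ≤ g := by exact_mod_cast hg
    exact max_le tau (by nlinarith)
  have l3 : ∀ g, 3 * e * (1 - e) ≤ lev e g := fun g => le_max_left _ _
  have l4 : ∀ g, lev e g ≤ lev e (g + 1) + e ^ 2 := fun g => by
    refine max_le (by linarith [l3 (g + 1)]) ?_
    have : 1 / 3 - (((g + 1 : ℕ) : ℝ) - 1) * e ^ 2 ≤ lev e (g + 1) := le_max_right _ _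
    push_cast at this
    linarith
  have l5 : lev e (n + 1) = 3 * e * (1 - e) := by
    unfold lev
    refine max_eq_left ?_
    push_cast
    nlinarith
  refine ⟨n + 1, by linarith, by linarith, by linarith, by linarith, by omega, l1.ge,
    by rw [l1]; linarith, fun g h1 _ => by rw [l1]; exact l2 g h1,
    ser (by linarith) (by linarith) (by linarith) (by linarith) (by linarith) (by nlinarith),
    fun g _ _ v w hv hw => ?_, fun g _ _ => ?_, ?_⟩
  · rw [l1] at hw
    exact gstep e0 e1 (l3 _) (l2 _ (by omega)) (hv.trans (l4 g)) hw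
  · rw [l1]
    have := l4 g
    have := l3 (g + 1)
    nlinarith
  · rw [l5]
    nlinarith [mul_pos e0 ee0]

end Sys

theorem p_Sys : S_Sys := by
  intro q q0 q1
  rcases le_or_gt q (7 / 8) with h | h
  · exact ⟨_, _, _, Sys.small q0 h⟩
  · obtain ⟨J, hJ⟩ := Sys.large (e := 1 - q) (by linarith) (by linarith)
    rw [sub_sub_cancel] at hJ
    exact ⟨_, J, _, hJ⟩

end Pool.Agent.P.MP_e0c037_lc.SG
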