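import Pool.Agent.P.MP_e0c037_lc.SG.Base

/-! The class lemma for graphic and cographic counts. -/

namespace Pool.Agent.P.MP_e0c037_lc.SG

open Finset

namespace CLaux

variable {n : ℕ} {L : List (ℕ × ℕ)} {E S F : Finset ℕ} {k : KF}

/-- Simplicity of the edge set `E`. -/
def Simp (n : ℕ) (L : List (ℕ × ℕ)) (E : Finset ℕ) : Prop :=
  ∀ i ∈ E, ∀ j ∈ E, ∀ x y : Fin n, Ends L i x y → Ends L j x y → i = j

theorem tc_of_lam {k' : KF} (h : Tc k E) (hl : ∀ Z ⊆ E, lam k E Z = lam k' E Z) : Tc k' E := by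
  refine ⟨fun Z hZ h1 h2 => ?_, fun Z hZ h1 h2 => hl Z hZ ▸ h.2 Z hZ h1 h2⟩
  have a := h.1 Z hZ h1 h2
  have b := hl Z hZ
  unfold lam at b
  omega

theorem tc_gr {c : ℕ} (h : Tc k E) (hk : ∀ A ⊆ E, k A + c = comps n L A) :
    Tc (comps n L) E := by
  refine tc_of_lam h fun Z hZ => ?_
  have := hk Z hZ
  have := hk (E \ Z) sdiff_subset
  have := hk ∅ (empty_subset _)
  have := hk E Subset.rfl
  unfold lam
  omega

theorem tc_du {c c' : ℕ} (h : Tc k E)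
    (hk : ∀ A ⊆ E, k A + A.card + c' = c + comps n L (E \ A)) : Tc (comps n L) E := by
  refine tc_of_lam h fun Z hZ => ?_
  have a1 := hk Z hZ
  have a2 := hk (E \ Z) sdiff_subset
  have a3 := hk ∅ (empty_subset _)
  have a4 := hk E Subset.rfl
  have a5 := card_sdiff_add_card_eq_card hZ
  rw [Finset.sdiff_sdiff_eq_self hZ] at a2
  rw [sdiff_empty, card_empty] at a3
  rw [Finset.sdiff_self] at a4
  unfold lam
  omega

theorem empty_of_no (hL : Valid (n, L)) (hE : E ⊆ range L.length) (hF : F ⊆ E)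
    (h : ∀ x y, ¬ Ad n L F x y) : F = ∅ := by
  by_contra hne
  obtain ⟨i, hi⟩ := nonempty_iff_ne_empty.2 hne
  obtain ⟨x, y, e⟩ := exists_ends hL (mem_range.1 (hE (hF hi)))
  exact h x y ⟨i, hi, e⟩

theorem mk (hL : Valid (n, L)) (hE : E ⊆ range L.length) (hs : Simp n L E) (hS : S ⊆ E)
    (hF : F ⊆ E) (h1 : F.card ≤ 1) (hd : Disjoint S F) (h0 : F = ∅ → S = E) :
    Mk (Ad n L E) (Ad n L S) (Ad n L F) where
  sps _ _ h := h.symm
  spa _ _ h := let ⟨i, hi, e⟩ := h; ⟨i, hS hi, e⟩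
  fes _ _ h := h.symm
  fea x y h := by
    obtain ⟨i, hi, e⟩ := h
    refine ⟨⟨i, hF hi, e⟩, ?_⟩
    rintro ⟨j, hj, e'⟩
    have := hs i (hF hi) j (hS hj) x y e e'
    subst this
    exact disjoint_left.1 hd hj hi
  fe1 x y z w h h' := by
    obtain ⟨i, hi, e⟩ := h
    obtain ⟨j, hj, e'⟩ := h'
    have := card_le_one.1 h1 i hi j hj
    subst this
    exact Ends_same e e'
  all h x y hxy := by
    rw [h0 (empty_of_no hL hE hF h)]
    exact hxy

theorem erase_le (hs : Simp n L E) (hS : S ⊆ E) {e : ℕ} (he : e ∈ S) {c d : Fin n}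
    (h : Ends L e c d) (x y : Fin n) (hxy : Ad n L (S.erase e) x y) :
    rem (Ad n L S) c d x y := by
  obtain ⟨i, hi, e'⟩ := hxy
  obtain ⟨hie, hi⟩ := mem_erase.1 hi
  refine ⟨⟨i, hi, e'⟩, ?_⟩
  rintro (⟨rfl, rfl⟩ | ⟨rfl, rfl⟩)
  · exact hie (hs i (hS hi) e (hS he) _ _ e' h)
  · exact hie (hs i (hS hi) e (hS he) _ _ e' h.symm)

theorem not_sub {c d : Fin n} (h1 : Ad n L E c d) (h2 : ¬ Ad n L F c d) (h3 : ¬ Ad n L S c d) :
    ¬ E \ F ⊆ S := by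
  obtain ⟨j, hj, e⟩ := h1
  exact fun hh => h3 ⟨j, hh (mem_sdiff.2 ⟨hj, fun hF => h2 ⟨j, hF, e⟩⟩), e⟩

theorem card_le {U : Finset (Fin n)} (hL : Valid (n, L)) (hE : E ⊆ range L.length)
    (hs : Simp n L E) (hU : T3 U (Ad n L E)) : E.card ≤ U.card * U.card := by
  rw [← card_product]
  refine card_le_card_of_forall_subsingleton (fun i (p : Fin n × Fin n) => Ends L i p.1 p.2)
    (fun i hi => ?_) fun p _ i hi j hj => hs i hi.1 j hj.1 _ _ hi.2 hj.2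
  obtain ⟨x, y, e⟩ := exists_ends hL (mem_range.1 (hE hi))
  have a : Ad n L E x y := ⟨i, hi, e⟩
  exact ⟨(x, y), mem_product.2 ⟨hU.mem _ _ a, hU.mem' a⟩, e⟩

end CLaux

open CLaux

theorem p_CL (hA : S_GA) (hR : S_Reg) (hD : S_GD) (hT : S_T3) (hG : S_GCtr) (hC : S_DCtr) :
    S_CL := by
  constructor
  · rintro k E S F ⟨-, n, L, c, hL, hE, hk⟩ hc h4 hS hF h1 hd h0
    obtain ⟨U, hU, hn, hs⟩ := hT n L E hL hE (tc_gr hc hk) h4
    have hM := mk hL hE hs hS hF h1 hd h0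
    have key : ∀ S' ⊆ E, ∀ e ∈ E, ∀ u v : Fin n, Ends L e u v →
        ¬ Trip U (Ad n L E) (Ad n L S') u v → ∃ E1, Ctr k E S' e E1 := by
      intro S' hS' e he u v h ht
      obtain ⟨E1, h'⟩ := hG n L E S' U e u v hL hE hU hn hs hS' he h ht
      exact ⟨E1, h'.congr (c := 0) (c' := c) fun A hA => by rw [hk A hA, add_zero]⟩
    rcases hA _ U _ _ _ hU hM with
      ⟨a, b, c', d, ⟨e1, m1, f1⟩, ⟨e2, m2, f2⟩, hne, t1, t2⟩ |
      ⟨⟨a, b, ⟨e, he, f⟩, hf, t⟩, c', d, g1, g2, g3⟩ | ⟨g1, g2⟩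
    · refine Or.inl ⟨e1, m1, e2, m2, fun hh => hne (Ends_same f1 (hh ▸ f2)), ?_, ?_⟩
      · exact key _ ((erase_subset _ _).trans hS) e1 (hS m1) a b f1
          fun hh => t1 (hh.mono (erase_le hs hS m2 f2))
      · exact key _ ((erase_subset _ _).trans hS) e2 (hS m2) c' d f2
          fun hh => t2 (hh.mono (erase_le hs hS m1 f1))
    · exact Or.inr (Or.inl ⟨⟨e, mem_sdiff.2 ⟨he, fun hh => hf ⟨e, hh, f⟩⟩,
        key S hS e he a b f t⟩, not_sub g1 g2 g3⟩)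
    · refine Or.inr (Or.inr ⟨empty_of_no hL hE hF g1, n, L, c, U, hL, hE, hk, ?_,
        fun x y h => ⟨hU.mem _ _ h, hU.ne h⟩, g2, hs⟩)
      have a1 := hk E Subset.rfl
      have a2 := hk ∅ (empty_subset _)
      rw [comps_empty] at a2
      omega
  · rintro k E S F ⟨hK, n, L, c, c0, hL, hE, hk⟩ hc h4 hS hF h1 hd h0
    obtain ⟨U, hU, hn, hs⟩ := hT n L E hL hE (tc_du hc hk) h4
    have hM := mk hL hE hs hS hF h1 hd h0
    have key : ∀ S' ⊆ E, ∀ e ∈ E, ∀ u v : Fin n, Ends L e u v →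
        Gd U (Ad n L E) (Ad n L S') u v → ∃ E1, Ctr k E S' e E1 :=
      fun S' hS' e he u v h ht => hC k n L c c0 E S' U e u v hK hL hE hk hU hn hs hS' he h ht
    obtain ⟨A, hA'⟩ := hR _ U _ _ _ hU hM
    rcases hD _ U _ _ _ A hU hM hA' with
      ⟨a, b, c', d, ⟨e1, m1, f1⟩, ⟨e2, m2, f2⟩, hne, t1, t2⟩ |
      ⟨⟨a, b, hf, t⟩, c', d, g1, g2, g3⟩ | ⟨g1, g2⟩
    · refine Or.inl ⟨e1, m1, e2, m2, fun hh => hne (Ends_same f1 (hh ▸ f2)), ?_, ?_⟩
      · exact key _ ((erase_subset _ _).trans hS) e1 (hS m1) a b f1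
          (t1.mono (erase_le hs hS m2 f2))
      · exact key _ ((erase_subset _ _).trans hS) e2 (hS m2) c' d f2
          (t2.mono (erase_le hs hS m1 f1))
    · obtain ⟨e, he, f⟩ := t.1
      exact Or.inr (Or.inl ⟨⟨e, mem_sdiff.2 ⟨he, fun hh => hf ⟨e, hh, f⟩⟩,
        key S hS e he a b f t⟩, not_sub g1 g2 g3⟩)
    · refine Or.inr (Or.inr ⟨empty_of_no hL hE hF g1, ?_⟩)
      have a0 := card_le hL hE hs hU
      have a1 := hk E Subset.rfl
      have a2 := hk ∅ (empty_subset _)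
      rw [Finset.sdiff_self, comps_empty] at a1
      rw [sdiff_empty, card_empty] at a2
      rw [g2] at a0 hn
      unfold XD
      omega

end Pool.Agent.P.MP_e0c037_lc.SG
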