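import Pool.Agent.P.MP_e0c037_lc.SG.Base

/-! Identification of the two ends of an edge; the graphic and cographic classes are closed
under minors. -/

namespace Pool.Agent.P.MP_e0c037_lc.SG

open Finset SimpleGraph

namespace Con

variable {n : ℕ} {L : List (ℕ × ℕ)}

theorem val_mrg (u v x : Fin n) : (if x = v then u else x).val = mrg u v x := by
  unfold mrg
  by_cases h : x = v
  · rw [if_pos h, if_pos (congrArg Fin.val h)]
  · rw [if_neg h, if_neg fun e => h (Fin.ext e)]

theorem some_iff (hL : Valid (n, L)) (u v : Fin n) (j : ℕ) (x y : Fin n) :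
    (mrgL L u v)[j]? = some (x.val, y.val) ↔ ∃ x' y' : Fin n, L[j]? = some (x'.val, y'.val) ∧
      (if x' = v then u else x') = x ∧ (if y' = v then u else y') = y := by
  unfold mrgL
  rw [List.getElem?_map]
  constructor
  · intro h
    obtain ⟨e, he, h2⟩ := Option.map_eq_some_iff.1 h
    obtain ⟨ha, hb⟩ := hL e (List.mem_of_getElem? he)
    obtain ⟨h3, h4⟩ := Prod.mk.inj h2
    exact ⟨⟨e.1, ha⟩, ⟨e.2, hb⟩, he, Fin.ext ((val_mrg _ _ _).trans h3),
      Fin.ext ((val_mrg _ _ _).trans h4)⟩
  · rintro ⟨x', y', h, rfl, rfl⟩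
    rw [h, val_mrg, val_mrg]
    rfl

theorem ends_iff (hL : Valid (n, L)) (u v : Fin n) (j : ℕ) (x y : Fin n) :
    Ends (mrgL L u v) j x y ↔ ∃ x' y' : Fin n, Ends L j x' y' ∧
      (if x' = v then u else x') = x ∧ (if y' = v then u else y') = y := by
  constructor
  · rintro (h | h)
    · obtain ⟨x', y', h1, h2, h3⟩ := (some_iff hL u v j x y).1 h
      exact ⟨x', y', Or.inl h1, h2, h3⟩
    · obtain ⟨x', y', h1, h2, h3⟩ := (some_iff hL u v j y x).1 h
      exact ⟨y', x', Or.inr h1, h3, h2⟩
  · rintro ⟨x', y', h1 | h1, h2, h3⟩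
    · exact Or.inl ((some_iff hL u v j x y).2 ⟨x', y', h1, h2, h3⟩)
    · exact Or.inr ((some_iff hL u v j y x).2 ⟨y', x', h1, h3, h2⟩)

theorem reach_of_ends {A : Finset ℕ} {j : ℕ} {x y : Fin n} (hj : j ∈ A) (h : Ends L j x y) :
    (spanning n L A).Reachable x y := by
  by_cases e : x = y
  · rw [e]
  · exact Adj.reachable (adj_iff.2 ⟨e, j, hj, h⟩)

theorem comps_mrg (hL : Valid (n, L)) {i : ℕ} {u v : Fin n} (hi : Ends L i u v) (huv : u ≠ v)
    (A : Finset ℕ) : comps n (mrgL L u v) A = comps n L (insert i A) + 1 := by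
  classical
  set G := spanning n L (insert i A) with hG
  set G' := spanning n (mrgL L u v) A with hG'
  have ruv : G.Reachable u v := reach_of_ends (mem_insert_self _ _) hi
  have rm : ∀ a : Fin n, G.Reachable (if a = v then u else a) a := fun a => by
    split_ifs with h
    · rw [h]; exact ruv
    · rfl
  have mne : ∀ a : Fin n, (if a = v then u else a) ≠ v := fun a => by
    split_ifs with h
    · exact huv
    · exact h
  have h1 : ∀ x y, G'.Reachable x y → (x = v ↔ y = v) ∧ G.Reachable x y := by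
    intro x y hh
    rw [reachable_iff_reflTransGen] at hh
    induction hh with
    | refl => exact ⟨Iff.rfl, Reachable.refl _⟩
    | tail _ hyz ih =>
      obtain ⟨-, j, hj, hE⟩ := adj_iff.1 hyz
      obtain ⟨x', y', h2, rfl, rfl⟩ := (ends_iff hL u v j _ _).1 hE
      refine ⟨ih.1.trans (iff_of_false (mne _) (mne _)), ih.2.trans ?_⟩
      exact ((rm _).trans (reach_of_ends (mem_insert_of_mem hj) h2)).trans (rm _).symm
  have h2 : ∀ x y, G.Reachable x y →
      G'.Reachable (if x = v then u else x) (if y = v then u else y) := by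
    intro x y hh
    rw [reachable_iff_reflTransGen] at hh
    induction hh with
    | refl => rfl
    | @tail b c _ hyz ih =>
      obtain ⟨-, j, hj, hE⟩ := adj_iff.1 hyz
      refine ih.trans ?_
      rcases mem_insert.1 hj with rfl | hj
      · have e : ∀ a : Fin n, a = u ∨ a = v → (if a = v then u else a) = u := by
          rintro a (rfl | rfl) <;> simp
        rw [e b (hi.eq hE), e c (hi.eq hE.symm)]
      · exact reach_of_ends hj ((ends_iff hL u v j _ _).2 ⟨b, c, hE, rfl, rfl⟩)
  have h3 : ∀ x y : Fin n, (if x = v then none else some (G.connectedComponentMk x)) =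
      (if y = v then none else some (G.connectedComponentMk y)) ↔ G'.Reachable x y := by
    intro x y
    constructor
    · intro hh
      split_ifs at hh with a b b
      · rw [a, b]
      · have := h2 x y (ConnectedComponent.exact (Option.some.inj hh))
        rwa [if_neg a, if_neg b] at this
    · intro hh
      obtain ⟨a, b⟩ := h1 x y hh
      by_cases c : x = v
      · rw [if_pos c, if_pos (a.1 c)]
      · rw [if_neg c, if_neg fun d => c (a.2 d), ConnectedComponent.sound b]
  have h4 : ∀ x y, G.connectedComponentMk x = G.connectedComponentMk y ↔ G.Reachable x y :=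
    fun x y => ConnectedComponent.eq
  unfold comps
  rw [← hG, ← hG', card_comp h3, card_comp h4,
    ← card_image_of_injective (univ.image G.connectedComponentMk) (Option.some_injective _),
    ← card_insert_of_notMem (a := none) (by simp)]
  congr 1
  ext z
  simp only [mem_image, mem_univ, true_and, mem_insert]
  constructor
  · rintro ⟨x, rfl⟩
    split_ifs
    · exact Or.inl rfl
    · exact Or.inr ⟨_, ⟨x, rfl⟩, rfl⟩
  · rintro (rfl | ⟨_, ⟨x, rfl⟩, rfl⟩)
    · exact ⟨v, if_pos rfl⟩
    · exact ⟨_, (if_neg (mne x)).trans (congrArg some (ConnectedComponent.sound (rm x)))⟩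

/-- Contraction of any edge, loop or not. -/
theorem step (h : S_Con) (hL : Valid (n, L)) {e : ℕ} (he : e < L.length) :
    ∃ L' d, Valid (n, L') ∧ L'.length = L.length ∧
      ∀ A, comps n L' A = comps n L (insert e A) + d := by
  obtain ⟨x, y, hxy⟩ := exists_ends hL he
  by_cases c : x = y
  · exact ⟨L, 0, hL, rfl, fun A => (hxy.comps.1 (by rw [c])).symm⟩
  · obtain ⟨a, b, d, -⟩ := h n L e x y hL hxy c
    exact ⟨_, 1, a, b, d⟩

theorem du_del (h : S_Con) {k : KF} {F : Finset ℕ} (T : Finset ℕ) : Du k (F ∪ T) → Du k F := by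
  induction T using Finset.induction_on with
  | empty => rw [union_empty]; exact id
  | insert e T _ ih =>
    rw [union_insert]
    intro hd
    refine ih ?_
    by_cases c : e ∈ F ∪ T
    · rwa [insert_eq_of_mem c] at hd
    · obtain ⟨hk, n, L, c1, c2, hL, hE, hA⟩ := hd
      obtain ⟨L', d, a, b, f⟩ := step h hL (mem_range.1 (hE (mem_insert_self _ _)))
      refine ⟨hk, n, L', c1, c2 + d, a, b ▸ (subset_insert _ _).trans hE, fun A hs => ?_⟩
      have := hA A (hs.trans (subset_insert _ _))
      rw [insert_sdiff_of_notMem _ fun hh => c (hs hh)] at this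
      rw [f]
      omega

end Con

theorem p_Con : S_Con := by
  intro n L i u v hL hi huv
  refine ⟨fun e he => ?_, List.length_map _, Con.comps_mrg hL hi huv, Con.ends_iff hL u v⟩
  obtain ⟨e', he', rfl⟩ := List.mem_map.1 he
  obtain ⟨ha, hb⟩ := hL e' he'
  constructor
  · exact Con.val_mrg u v ⟨e'.1, ha⟩ ▸ Fin.isLt _
  · exact Con.val_mrg u v ⟨e'.2, hb⟩ ▸ Fin.isLt _

theorem p_Mc (h : S_Con) : S_Mc := by
  refine ⟨⟨fun _ _ hk => hk.1, ?_, ?_⟩, ⟨fun _ _ hk => hk.1, ?_, ?_⟩⟩
  · rintro k E F ⟨hk, n, L, c, hL, hE, hA⟩ hF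
    exact ⟨hk, n, L, c, hL, hF.trans hE, fun A hs => hA A (hs.trans hF)⟩
  · rintro k E e ⟨hk, n, L, c, hL, hE, hA⟩ he
    obtain ⟨L', d, a, b, f⟩ := Con.step h hL (mem_range.1 (hE he))
    refine ⟨hk.con e, n, L', c + d, a, b ▸ (erase_subset _ _).trans hE, fun A hs => ?_⟩
    have := hA (insert e A) (insert_subset he (hs.trans (erase_subset _ _)))
    rw [f]
    unfold con
    omega
  · intro k E F hd hF
    exact Con.du_del h E (by rwa [union_eq_right.2 hF])
  · rintro k E e ⟨hk, n, L, c, c', hL, hE, hA⟩ he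
    refine ⟨hk.con e, n, L, c, c' + 1, hL, (erase_subset _ _).trans hE, fun A hs => ?_⟩
    have := hA (insert e A) (insert_subset he (hs.trans (erase_subset _ _)))
    rw [card_insert_of_notMem fun hh => notMem_erase e E (hs hh), sdiff_insert,
      ← erase_sdiff_comm] at this
    unfold con
    omega

end Pool.Agent.P.MP_e0c037_lc.SG
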