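import Pool.Agent.P.MP_e0c037_lc.SG.Base

/-! The four moves from the class lemma. -/

namespace Pool.Agent.P.MP_e0c037_lc.SG

open Finset

namespace StepP

variable {k k' : KF} {E Y S : Finset ℕ} {f : ℕ} {C X : KF → Finset ℕ → Prop}

theorem least (P : Finset ℕ → Prop) (h : ∃ Y, P Y) : ∃ Y, P Y ∧ ∀ Z, P Z → Y.card ≤ Z.card := by
  classical
  have h1 : ∃ n, ∃ Y, P Y ∧ Y.card = n := let ⟨Y, hY⟩ := h; ⟨_, Y, hY, rfl⟩
  obtain ⟨Y, hY, hn⟩ := Nat.find_spec h1
  exact ⟨Y, hY, fun Z hZ => hn ▸ Nat.find_min' h1 ⟨Z, hZ, rfl⟩⟩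

theorem lam_tor (hY : Y ⊆ E) (hf : f ∉ Y) (t : Tor k k' E Y f) {Z : Finset ℕ} (hZ : Z ⊆ Y) :
    lam k' (insert f Y) Z = lam k E Z := by
  have e1 : insert f Y \ Z = insert f (Y \ Z) :=
    insert_sdiff_of_notMem _ fun hh => hf (hZ hh)
  have e2 : Y \ Z ∪ E \ Y = E \ Z := by
    ext a; simp only [mem_union, mem_sdiff]; have := @hY a; have := @hZ a; tauto
  have a1 := (t Z hZ).1
  have a2 := (t (Y \ Z) sdiff_subset).2
  have a3 := (t Y Subset.rfl).2
  rw [e2] at a2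
  rw [union_sdiff_of_subset hY] at a3
  unfold lam
  rw [e1]
  omega

theorem tc_tor (hY : Y ⊆ E) (hf : f ∉ Y) (t : Tor k k' E Y f) (m : MinY k E Y)
    (hc : Conn k' (insert f Y)) : Tc k' (insert f Y) := by
  have key : ∀ Z ⊆ insert f Y, f ∉ Z → 2 ≤ Z.card → 2 ≤ (insert f Y \ Z).card →
      2 ≤ lam k' (insert f Y) Z := by
    intro Z hZ hfZ h1 h2
    have hZY : Z ⊆ Y := (subset_insert_iff_of_notMem hfZ).1 hZ
    rw [lam_tor hY hf t hZY]
    refine m Z hZY ?_ h1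
    rintro rfl
    rw [insert_sdiff_of_notMem _ hf] at h2
    simp at h2
  refine ⟨hc, fun Z hZ h1 h2 => ?_⟩
  by_cases hfZ : f ∈ Z
  · rw [← lam_compl hZ]
    exact key _ sdiff_subset (by simp [hfZ]) h2 (by rwa [Finset.sdiff_sdiff_eq_self hZ])
  · exact key Z hZ hfZ h1 h2

theorem core (h1 : S_Tor) (h2 : S_Del) (h3 : S_Lift) (hM : Mc C) (hL : CL C X) (hC : C k E)
    (hc : Conn k E) (hS : S ⊆ E) (hr : Red k S) (hY : Y ⊆ E) (hf : f ∈ E \ Y) (h3Y : 3 ≤ Y.card)
    (hl : lam k E Y ≤ 1) (m : MinY k E Y) (ho : f ∉ S ∨ 2 ≤ (E \ Y).card) :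
    Mut k E S ∨ ((∃ e ∈ Y, Conn k (E.erase e) ∧ ∃ E1, Ctr k E S e E1) ∧ ¬ Y ⊆ S) := by
  have hK := hM.isK _ _ hC
  have hfY := (mem_sdiff.1 hf).2
  obtain ⟨k', c1, c2, c3⟩ := h1 C hM k E Y f hC hc hY hf (card_pos.1 (by omega)) hl
  have hK' := hM.isK _ _ c1
  have lift : ∀ a b, a ∈ Y → (∃ H1, Ctr k' (insert f Y) ((S ∩ Y).erase b) a H1) →
      ∃ E1, Ctr k E (S.erase b) a E1 := fun a b ha ⟨H1, hH⟩ =>
    h3 k k' E Y (S.erase b) f a H1 hK hK' hc hY hf h3Y hl m c3 ((erase_subset _ _).trans hS)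
      (hr.mono (erase_subset _ _)) (ho.imp_left fun hh h' => hh (mem_of_mem_erase h')) ha
      (by rwa [erase_inter])
  have e1 : insert f Y \ {f} = Y := by rw [sdiff_singleton_eq_erase, erase_insert hfY]
  rcases hL k' (insert f Y) (S ∩ Y) {f} c1 (tc_tor hY hfY c3 m c2)
    (by rw [card_insert_of_notMem hfY]; omega) (inter_subset_right.trans (subset_insert _ _))
    (by simp) (by simp) (by simp [hfY]) (by simp) with h | ⟨⟨e, he, H1, hH⟩, hn⟩ | ⟨h, -⟩
  · obtain ⟨a, ha, b, hb, hab, p1, p2⟩ := h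
    rw [mem_inter] at ha hb
    exact Or.inl ⟨a, ha.1, b, hb.1, hab, lift a b ha.2 p1, lift b a hb.2 p2⟩
  · rw [e1] at he hn
    exact Or.inr ⟨⟨e, he, h2 k E Y f e hK hc hY hf h3Y hl m he,
      h3 k k' E Y S f e H1 hK hK' hc hY hf h3Y hl m c3 hS hr ho he hH⟩,
      fun hh => hn (subset_inter hh Subset.rfl)⟩
  · simp at h

theorem pair (h : IsK k) (hc : Conn k E) {e g : ℕ} (he : e ∈ E) (hg : g ∈ E) (heg : e ≠ g)
    (hl : lam k E {e, g} ≤ 1) : Par k e g ∨ k ((E.erase g).erase e) = k E + 1 := by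
  obtain ⟨s1, -⟩ := hc.single h he hg heg
  obtain ⟨s3, s2⟩ := hc.single h hg he heg.symm
  have e1 : E \ {e, g} = (E.erase g).erase e := by
    ext x; simp only [mem_insert, mem_sdiff, mem_erase, mem_singleton]; tauto
  unfold lam at hl
  rw [e1] at hl
  have a1 := h.le {g} e
  have a2 := h.ge ((E.erase g).erase e) e
  rw [insert_erase (mem_erase.2 ⟨heg, he⟩)] at a2
  by_cases hp : k {e, g} + 1 = k ∅
  · exact Or.inl ⟨s1, s3, hp⟩
  · right; omega

end StepP

open StepP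

theorem p_Step (h1 : S_Tor) (h2 : S_Del) (h3 : S_Lift) : S_Step := by
  intro C X hM hL
  constructor
  · intro k E S f hC hc hS hr hf hfS h3E
    have hK := hM.isK _ _ hC
    obtain ⟨Y, ⟨y1, y2, y3⟩, hmin⟩ := least
      (fun Y => Y ⊆ E.erase f ∧ 2 ≤ Y.card ∧ lam k E Y ≤ 1) ⟨E.erase f, Subset.rfl,
        by rw [card_erase_of_mem hf]; omega, by
          obtain ⟨a, ha, haf⟩ := exists_mem_ne (by omega : 1 < E.card) f
          obtain ⟨s1, s2⟩ := hc.single hK hf ha haf.symm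
          rw [← sdiff_singleton_eq_erase, lam_compl (by simpa)]
          unfold lam
          rw [sdiff_singleton_eq_erase]
          omega⟩
    have hY : Y ⊆ E := y1.trans (erase_subset _ _)
    have hfY : f ∉ Y := fun hh => notMem_erase f E (y1 hh)
    by_cases h3Y : 3 ≤ Y.card
    · have m : MinY k E Y := fun Z hZ hne hc2 => by
        by_contra hn
        have := hmin Z ⟨hZ.trans y1, hc2, by omega⟩
        have := card_lt_card (ssubset_of_subset_of_ne hZ hne)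
        omega
      rcases core h1 h2 h3 hM hL hC hc hS hr hY (mem_sdiff.2 ⟨hf, hfY⟩) h3Y y3 m (Or.inl hfS) with
        h | ⟨⟨e, he, h⟩, -⟩
      · exact Or.inr (Or.inr (Or.inr h))
      · exact Or.inr (Or.inr (Or.inl ⟨e, hY he, fun hh => hfY (hh ▸ he), h⟩))
    · obtain ⟨e, g, heg, rfl⟩ := card_eq_two.1 (show Y.card = 2 by omega)
      have he : e ∈ E := hY (by simp)
      have hg : g ∈ E := hY (by simp)
      have hef : e ≠ f := fun hh => hfY (by simp [hh])
      have hgf : g ≠ f := fun hh => hfY (by simp [hh])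
      rcases pair hK hc he hg heg y3 with p | p
      · left
        by_cases heS : e ∈ S
        · exact ⟨g, hg, e, he, heg.symm, hgf, hef, fun hgS => hr e heS g hgS heg p, p.symm.2.2⟩
        · exact ⟨e, he, g, hg, heg, hef, hgf, heS, p.2.2⟩
      · exact Or.inr (Or.inl ⟨e, he, g, hg, heg, hef, hgf, p⟩)
  · intro k E hC hc hr h4
    have hK := hM.isK _ _ hC
    by_cases hT : Tc k E
    · rcases hL k E E ∅ hC hT h4 Subset.rfl (empty_subset _) (by simp) (by simp) (fun _ => rfl)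
        with h | ⟨-, h⟩ | ⟨-, h⟩
      · exact Or.inr (Or.inl h)
      · exact absurd sdiff_subset h
      · exact Or.inr (Or.inr h)
    obtain ⟨Y, ⟨hY, y1, y2, y3⟩, hmin⟩ := least
      (fun Y => Y ⊆ E ∧ 2 ≤ Y.card ∧ 2 ≤ (E \ Y).card ∧ lam k E Y ≤ 1) (by
        by_contra hn
        exact hT ⟨hc, fun Z a b c => by
          by_contra hz
          exact hn ⟨Z, a, b, c, by omega⟩⟩)
    by_cases h3Y : 3 ≤ Y.card
    · have m : MinY k E Y := fun Z hZ hne hc2 => by
        by_contra hn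
        have := hmin Z ⟨hZ.trans hY, hc2,
          y2.trans (card_le_card (sdiff_subset_sdiff Subset.rfl hZ)), by omega⟩
        have := card_lt_card (ssubset_of_subset_of_ne hZ hne)
        omega
      obtain ⟨f, hf⟩ : (E \ Y).Nonempty := card_pos.1 (by omega)
      rcases core h1 h2 h3 hM hL hC hc Subset.rfl hr hY hf h3Y y3 m (Or.inr y2) with h | ⟨-, h⟩
      · exact Or.inr (Or.inl h)
      · exact absurd hY h
    · obtain ⟨e, g, heg, rfl⟩ := card_eq_two.1 (show Y.card = 2 by omega)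
      have he : e ∈ E := hY (by simp)
      have hg : g ∈ E := hY (by simp)
      rcases pair hK hc he hg heg y3 with p | p
      · exact absurd p (hr e he g hg heg)
      · exact Or.inl ⟨e, he, g, hg, heg, p⟩

end Pool.Agent.P.MP_e0c037_lc.SG
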