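import Pool.Agent.P.MP_e0c037_lc.SG.Base

/-! Good contractions in three-connected graphs. -/

namespace Pool.Agent.P.MP_e0c037_lc.SG

open Finset SimpleGraph

namespace GCtr

variable {n : ℕ} {L : List (ℕ × ℕ)} {i j : ℕ} {a b c d : Fin n}

theorem single (h : Ends L i a b) (hab : a ≠ b) : comps n L {i} + 1 = comps n L ∅ := by
  have := (h.comps (A := ∅)).2 fun hh => hab (Fin.ext ((reach_empty a b).2 hh))
  rwa [insert_empty_eq] at this

theorem par_of (h : Ends L i a b) (h' : Ends L j a b) (hab : a ≠ b) : Par (comps n L) i j := by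
  have h1 := single h' hab
  have h2 := (h.comps (A := {j})).1
    (Adj.reachable (adj_iff.2 ⟨hab, j, mem_singleton_self _, h'⟩))
  exact ⟨single h hab, h1, by rw [← h1, ← h2]⟩

theorem of_par (h : Ends L i a b) (h' : Ends L j c d) (p : Par (comps n L) i j) :
    a ≠ b ∧ Same a b c d := by
  obtain ⟨p1, p2, p3⟩ := p
  have hab : a ≠ b := by
    rintro rfl
    have := (h.comps (A := ∅)).1 (Reachable.refl _)
    rw [insert_empty_eq] at this
    omega
  have hr : (spanning n L {j}).Reachable a b := by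
    by_contra hn
    have := (h.comps (A := {j})).2 hn
    omega
  have key : ∀ x, (spanning n L {j}).Reachable a x → a = x ∨ Same a x c d := by
    intro x hx
    rw [reachable_iff_reflTransGen] at hx
    induction hx with
    | refl => exact Or.inl rfl
    | @tail x y _ hxy ih =>
      obtain ⟨h1, l, hl, e⟩ := adj_iff.1 hxy
      rw [mem_singleton.1 hl] at e
      have h2 := Ends_same e h'
      unfold Same at *
      grind
  exact ⟨hab, (key b hr).resolve_left hab⟩

/-- The edges left after the removal of the edges from `T` to `u` and `v`. -/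
noncomputable def rest (L : List (ℕ × ℕ)) (E : Finset ℕ) (u v : Fin n) (T : Finset (Fin n)) :
    Finset ℕ :=
  open Classical in E.filter fun i => ∀ w ∈ T, ¬ Ends L i w u ∧ ¬ Ends L i w v

theorem mem_rest {E : Finset ℕ} {u v : Fin n} {T : Finset (Fin n)} :
    i ∈ rest L E u v T ↔ i ∈ E ∧ ∀ w ∈ T, ¬ Ends L i w u ∧ ¬ Ends L i w v := by
  classical
  unfold rest; exact mem_filter

theorem rm_rest {k : KF} {E S : Finset ℕ} {u v : Fin n} (huv : u ≠ v)
    (hs : ∀ i ∈ E, ∀ j ∈ E, ∀ x y : Fin n, Ends L i x y → Ends L j x y → i = j)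
    (T : Finset (Fin n))
    (hT : ∀ w ∈ T, w ≠ u ∧ w ≠ v ∧ ∃ x ∈ E, ∃ y ∈ E, x ∈ S ∧ y ∈ S ∧ Ends L x w u ∧
      Ends L y w v ∧ Par k x y) : Rm k S E (rest L E u v T) := by
  induction T using Finset.induction_on with
  | empty =>
    have : rest L E u v ∅ = E := by ext i; simp [mem_rest]
    rw [this]; exact .refl _
  | insert w T hw ih =>
    refine (ih fun z hz => hT z (mem_insert_of_mem hz)).trans ?_
    obtain ⟨h1, h2, x, hx, y, hy, sx, sy, ex, ey, p⟩ := hT w (mem_insert_self _ _)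
    have hxy : x ≠ y := by
      rintro rfl
      have := Ends_same ex ey
      unfold Same at this
      grind
    have e : rest L E u v (insert w T) = ((rest L E u v T).erase x).erase y := by
      ext l
      simp only [mem_rest, mem_erase, forall_mem_insert]
      constructor
      · rintro ⟨h3, ⟨h4, h5⟩, h6⟩
        exact ⟨fun hh => h5 (hh ▸ ey), fun hh => h4 (hh ▸ ex), h3, h6⟩
      · rintro ⟨h3, h4, h5, h6⟩
        exact ⟨h5, ⟨fun hh => h4 (hs _ h5 _ hx _ _ hh ex), fun hh => h3 (hs _ h5 _ hy _ _ hh ey)⟩,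
          h6⟩
    rw [e]
    refine .step (mem_rest.2 ⟨hx, fun z hz => ⟨fun hh => ?_, fun hh => ?_⟩⟩)
      (mem_rest.2 ⟨hy, fun z hz => ⟨fun hh => ?_, fun hh => ?_⟩⟩) sx sy hxy p (.refl _)
    · have := Ends_same ex hh
      unfold Same at this
      grind
    · have := Ends_same ex hh
      unfold Same at this
      grind
    · have := Ends_same ey hh
      unfold Same at this
      grind
    · have := Ends_same ey hh
      unfold Same at this
      grind

/-- Two-connectivity after the identification of `v` with `u`. -/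
theorem t2 {V : Type} [DecidableEq V] {U : Finset V} {adj sp ad : V → V → Prop} {u v : V}
    (h3 : T3 U adj) (hu : u ∈ U.erase v) (hT : ¬ Trip U adj sp u v)
    (sy : ∀ x y, ad x y → ad y x) (hm : ∀ x y, ad x y → x ∈ U.erase v)
    (hA : ∀ x y, adj x y → x ≠ u → x ≠ v → y ≠ u → y ≠ v → ad x y)
    (hB : ∀ w, w ≠ u → w ≠ v → ¬ (sp w u ∧ sp w v) → adj w u ∨ adj w v → ad w u) :
    T2 (U.erase v) ad := by
  have key : ∀ W ⊆ U.erase v, ∀ c, W.Nonempty → c ∉ W → u ∉ W →
      (∀ w ∈ W, ∀ x, ad w x → x ∈ W ∨ x = c) → ∀ x ∈ U.erase v, x ∈ W ∨ x = c := by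
    intro W hW c h1 h2 h4 h5
    have hv : v ∉ W := fun hh => notMem_erase v U (hW hh)
    have hWU : W ⊆ U := hW.trans (erase_subset _ _)
    have cl : ∀ w ∈ W, ∀ x, adj w x → x ∈ W ∨ x = u ∨ x = v ∨ x = c := by
      intro w hw x hx
      by_cases e1 : x = u
      · exact Or.inr (Or.inl e1)
      by_cases e2 : x = v
      · exact Or.inr (Or.inr (Or.inl e2))
      exact (h5 w hw x (hA w x hx (fun hh => h4 (hh ▸ hw)) (fun hh => hv (hh ▸ hw)) e1 e2)).imp_right
        fun hh => Or.inr (Or.inr hh)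
    by_cases hc : c = u
    · subst hc
      intro x hx
      have := h3.cut W hWU c v h1 h2 hv (fun w hw x hx => by have := cl w hw x hx; tauto) x
        (mem_of_mem_erase hx)
      have := ne_of_mem_erase hx
      tauto
    · refine absurd ⟨W, hWU, c, h1, h4, hv, h2, cl, fun w hw => ?_⟩ hT
      by_contra hn
      rw [not_or] at hn
      rcases h5 w hw u (hB w (fun hh => h4 (hh ▸ hw)) (fun hh => hv (hh ▸ hw)) hn.1
        (by have := hn.2; tauto)) with hh | hh
      · exact h4 hh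
      · exact hc hh.symm
  intro W hW c h1 h2 h5
  by_cases h4 : u ∈ W
  swap
  · exact key W hW c h1 h2 h4 h5
  intro x hx
  by_contra hn
  rw [not_or] at hn
  have := key ((U.erase v \ W).erase c) ((erase_subset _ _).trans sdiff_subset) c
    ⟨x, mem_erase.2 ⟨hn.2, mem_sdiff.2 ⟨hx, hn.1⟩⟩⟩ (notMem_erase _ _)
    (fun hh => (mem_sdiff.1 (mem_of_mem_erase hh)).2 h4) (fun w hw y hy => ?_) u hu
  · rcases this with hh | hh
    · exact (mem_sdiff.1 (mem_of_mem_erase hh)).2 h4
    · exact h2 (hh ▸ h4)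
  · by_cases e : y = c
    · exact Or.inr e
    refine Or.inl (mem_erase.2 ⟨e, mem_sdiff.2 ⟨hm _ _ (sy _ _ hy), fun hh => ?_⟩⟩)
    rcases h5 y hh w (sy _ _ hy) with h6 | h6
    · exact (mem_sdiff.1 (mem_of_mem_erase hw)).2 h6
    · exact ne_of_mem_erase hw h6

end GCtr

open GCtr in
theorem p_GCtr (h1 : S_Con) (h2 : S_C2) : S_GCtr := by
  classical
  intro n L E S U e u v hL hE h3 hc hs hS he hu hT
  have huv : u ≠ v := h3.ne ⟨e, he, hu⟩
  have uU : u ∈ U := h3.mem u v ⟨e, he, hu⟩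
  have vU : v ∈ U := h3.mem' ⟨e, he, hu⟩
  obtain ⟨c1, c2, c3, c4⟩ := h1 n L e u v hL hu huv
  have nl : ∀ i ∈ E, ∀ x y : Fin n, Ends L i x y → x ≠ y := fun i hi x y h => h3.ne ⟨i, hi, h⟩
  have ne : ∀ i, ∀ x y : Fin n, Ends L i x y → x ≠ u → x ≠ v → i ≠ e := by
    rintro i x y h a b rfl
    have := Ends_same h hu
    unfold Same at this
    grind
  have k1 : ∀ A, con (comps n L) e A + 1 = comps n (mrgL L u v) A + 0 := fun A => (c3 A).symm
  let T : Finset (Fin n) := univ.filter fun w => Ad n L S w u ∧ Ad n L S w v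
  have hTm : ∀ w, w ∈ T ↔ Ad n L S w u ∧ Ad n L S w v := fun w => by simp [T]
  have sub : rest L (E.erase e) u v T ⊆ E.erase e := fun i hi => (mem_rest.1 hi).1
  have hm : ∀ x y, Ad n (mrgL L u v) (rest L (E.erase e) u v T) x y → x ∈ U.erase v ∧ x ≠ y := by
    rintro x y ⟨i, hi, h0⟩
    obtain ⟨x', y', h, rfl, rfl⟩ := (c4 i x y).1 h0
    obtain ⟨hie, hiE⟩ := mem_erase.1 (sub hi)
    have a1 := nl i hiE _ _ h
    have a2 : x' ∈ U := h3.mem x' y' ⟨i, hiE, h⟩
    have a3 : ¬ (x' = u ∧ y' = v) := by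
      rintro ⟨rfl, rfl⟩; exact hie (hs i hiE e he _ _ h hu)
    have a4 : ¬ (x' = v ∧ y' = u) := by
      rintro ⟨rfl, rfl⟩; exact hie (hs i hiE e he _ _ h hu.symm)
    rw [mem_erase]
    grind
  have t := t2 (ad := Ad n (mrgL L u v) (rest L (E.erase e) u v T)) h3 (mem_erase.2 ⟨huv, uU⟩) hT
    (fun _ _ => Ad.symm) (fun x y h => (hm x y h).1) ?_ ?_
  rotate_left
  · rintro x y ⟨i, hi, h⟩ a1 a2 a3 a4
    refine ⟨i, mem_rest.2 ⟨mem_erase.2 ⟨ne i x y h a1 a2, hi⟩, fun w _ => ⟨fun hh => ?_,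
      fun hh => ?_⟩⟩, (c4 i x y).2 ⟨x, y, h, if_neg a2, if_neg a4⟩⟩
    · have := Ends_same h hh
      unfold Same at this
      grind
    · have := Ends_same h hh
      unfold Same at this
      grind
  · intro w a1 a2 a3 a4
    rw [← hTm] at a3
    obtain ⟨z, hz, i, hi, h⟩ : ∃ z, (z = u ∨ z = v) ∧ Ad n L E w z := by
      rcases a4 with h | h
      · exact ⟨u, Or.inl rfl, h⟩
      · exact ⟨v, Or.inr rfl, h⟩
    refine ⟨i, mem_rest.2 ⟨mem_erase.2 ⟨ne i w z h a1 a2, hi⟩, fun w' hw' => ⟨fun hh => ?_,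
      fun hh => ?_⟩⟩, (c4 i w u).2 ⟨w, z, h, if_neg a2, by grind⟩⟩
    · have := Ends_same h hh
      unfold Same at this
      grind
    · have := Ends_same h hh
      unfold Same at this
      grind
  have four := h3.four
  have hcard := card_erase_add_one vU
  obtain ⟨d1, d2⟩ := h2 n (mrgL L u v) _ (U.erase v) c1
    (by rw [c2]; exact sub.trans ((erase_subset _ _).trans hE)) (by omega) hm t
  have d3 := c3 (rest L (E.erase e) u v T)
  refine ⟨rest L (E.erase e) u v T, he, ?_, conn_congr (fun A _ => (k1 A).symm) d1, by omega,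
    by rw [comps_empty]; omega, ?_⟩
  · refine rm_rest huv (fun i hi j hj => hs i (mem_of_mem_erase hi) j (mem_of_mem_erase hj)) T
      fun w hw => ?_
    obtain ⟨⟨x, hx, ex⟩, y, hy, ey⟩ := (hTm w).1 hw
    have a1 := nl x (hS hx) _ _ ex
    have a2 := nl y (hS hy) _ _ ey
    refine ⟨a1, a2, x, mem_erase.2 ⟨ne _ _ _ ex a1 a2, hS hx⟩, y,
      mem_erase.2 ⟨ne _ _ _ ey a1 a2, hS hy⟩, hx, hy, ex, ey,
      par_congr (E := E) (fun A _ => (k1 A).symm) (hS hx) (hS hy) (par_of (a := w) (b := u)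
        ((c4 _ _ _).2 ⟨w, u, ex, if_neg a2, if_neg huv⟩)
        ((c4 _ _ _).2 ⟨w, v, ey, if_neg a2, if_pos rfl⟩) a1)⟩
  · intro x hx y hy hxy p
    obtain ⟨xS, hx⟩ := mem_inter.1 hx
    obtain ⟨yS, hy⟩ := mem_inter.1 hy
    have p' := par_congr (E := E) (fun A _ => k1 A) (hS xS) (hS yS) p
    have key : ∀ a b c d : Fin n, Ends L x a b → Ends L y c d → a ≠ c →
        (if a = v then u else a) = (if c = v then u else c) →
        (if b = v then u else b) = (if d = v then u else d) →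
        (if a = v then u else a) ≠ (if b = v then u else b) → False := by
      intro a b c d ex ey b1 b2 b3 b4
      have b5 : b = d ∧ ((a = u ∧ c = v) ∨ (a = v ∧ c = u)) := by grind
      obtain ⟨rfl, ⟨rfl, rfl⟩ | ⟨rfl, rfl⟩⟩ := b5
      · exact ((mem_rest.1 hx).2 b ((hTm b).2 ⟨⟨x, xS, ex.symm⟩, y, yS, ey.symm⟩)).1 ex.symm
      · exact ((mem_rest.1 hx).2 b ((hTm b).2 ⟨⟨y, yS, ey.symm⟩, x, xS, ex.symm⟩)).2 ex.symm
    have key2 : ∀ a b c d : Fin n, Ends L x a b → Ends L y c d →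
        (if a = v then u else a) = (if c = v then u else c) →
        (if b = v then u else b) = (if d = v then u else d) →
        (if a = v then u else a) ≠ (if b = v then u else b) → False := by
      intro a b c d ex ey b2 b3 b4
      by_cases b1 : a = c
      · by_cases b5 : b = d
        · subst b1 b5; exact hxy (hs x (hS xS) y (hS yS) _ _ ex ey)
        · exact key b a d c ex.symm ey.symm b5 b3 b2 b4.symm
      · exact key a b c d ex ey b1 b2 b3 b4
    obtain ⟨a, b, ex⟩ := exists_ends hL (mem_range.1 (hE (hS xS)))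
    obtain ⟨c, d, ey⟩ := exists_ends hL (mem_range.1 (hE (hS yS)))
    obtain ⟨b1, ⟨b2, b3⟩ | ⟨b2, b3⟩⟩ := of_par ((c4 _ _ _).2 ⟨a, b, ex, rfl, rfl⟩)
      ((c4 _ _ _).2 ⟨c, d, ey, rfl, rfl⟩) p'
    · exact key2 a b c d ex ey b2 b3 b1
    · exact key2 a b d c ex ey.symm b2 b3 b1

end Pool.Agent.P.MP_e0c037_lc.SG
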