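import Pool.Agent.P.MP_e0c037_lc.SG.Base

/-! A good edge of a three-connected graph gives a good contraction of the dual count. -/

namespace Pool.Agent.P.MP_e0c037_lc.SG

open Finset

namespace DCtr

theorem conn_dual {k K : KF} {F : Finset ℕ} {c c' : ℕ}
    (h : ∀ A ⊆ F, k A + A.card + c' = c + K (F \ A)) (hc : Conn K F) : Conn k F := by
  intro S hS h1 h2
  have a1 := hc S hS h1 h2
  have a2 := h S hS
  have a3 := h (F \ S) sdiff_subset
  have a4 := h ∅ (empty_subset _)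
  have a5 := h F Subset.rfl
  have a6 := card_sdiff_add_card_eq_card hS
  rw [Finset.sdiff_sdiff_eq_self hS] at a3
  rw [sdiff_empty, card_empty] at a4
  rw [Finset.sdiff_self] at a5
  omega

section graphs

variable {V : Type} [DecidableEq V] {U : Finset V} {adj adj' : V → V → Prop} {u v c d : V}

theorem t2_del (h : T3 U adj) (h1 : ∀ x y, adj x y → adj' x y ∨ Same x y u v) : T2 U adj' := by
  have key : ∀ u v : V, (∀ x y, adj x y → adj' x y ∨ Same x y u v) → ∀ W ⊆ U, ∀ c, W.Nonempty →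
      c ∉ W → (∀ w ∈ W, ∀ x, adj' w x → x ∈ W ∨ x = c) → v ∉ W → ∀ x ∈ U, x ∈ W ∨ x = c := by
    intro u v h1 W hW c hn hc hcl hv x hx
    have h2 := h.cut W hW c v hn hc hv fun w hw y hy => by
      rcases h1 w y hy with h2 | ⟨-, h2⟩ | ⟨h2, -⟩
      · exact (hcl w hw y h2).imp_right Or.inl
      · exact Or.inr (Or.inr h2)
      · exact absurd (h2 ▸ hw) hv
    rcases h2 x hx with h3 | h3 | rfl
    · exact Or.inl h3
    · exact Or.inr h3
    · obtain ⟨y, h3, h4, h5⟩ := h.deg hx u c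
      have h6 := ((h2 y (h.mem' h3)).resolve_right fun e => e.elim h5 (h.ne h3).symm)
      rcases h1 y x (h.symm _ _ h3) with h7 | ⟨h7, -⟩ | ⟨h7, -⟩
      · exact hcl y h6 x h7
      · exact absurd h7 h4
      · exact absurd h7 (h.ne h3).symm
  intro W hW c hn hc hcl
  by_cases hv : v ∈ W
  · by_cases hu : u ∈ W
    · intro x hx
      refine (h.cut W hW c c hn hc hc (fun w hw y hy => ?_) x hx).imp_right fun e => e.elim id id
      rcases h1 w y hy with h2 | ⟨-, h2⟩ | ⟨-, h2⟩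
      · exact (hcl w hw y h2).imp_right Or.inl
      · exact Or.inl (h2 ▸ hv)
      · exact Or.inl (h2 ▸ hu)
    · exact key v u (fun x y e => (h1 x y e).imp_right Or.symm) W hW c hn hc hcl hu
  · exact key u v h1 W hW c hn hc hcl hv

theorem t2_mrg (h : T3 U adj) (hc : adj v c) (hv : v ≠ d)
    (h0 : ∀ x, adj v x → x = u ∨ x = c ∨ x = d) (hs : ∀ x y, adj' x y → adj' y x)
    (hm : ∀ x y, adj' x y → x ∈ (U.erase v).erase d)
    (h1 : ∀ x y, adj x y → x ≠ v → x ≠ d → y ≠ v → adj' x (if y = d then c else y)) :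
    T2 ((U.erase v).erase d) adj' := by
  have key : ∀ W ⊆ (U.erase v).erase d, ∀ c₀, W.Nonempty → c₀ ∉ W →
      (∀ w ∈ W, ∀ x, adj' w x → x ∈ W ∨ x = c₀) → c ≠ c₀ → c ∈ W := by
    intro W hW c₀ hn h2 hcl h3
    by_contra h4
    have h5 : ∀ w ∈ W, w ≠ d ∧ w ≠ v ∧ w ∈ U := fun w hw => by simpa using hW hw
    rcases h.cut W (fun w hw => (h5 w hw).2.2) c₀ v hn h2 (fun e => (h5 v e).2.1 rfl)
      (fun w hw y hy => by
        by_cases h6 : y = v
        · exact Or.inr (Or.inr h6)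
        · have h7 := hcl w hw _ (h1 w y hy (h5 w hw).2.1 (h5 w hw).1 h6)
          split_ifs at h7
          · exact (h7.elim h4 h3).elim
          · exact h7.imp_right Or.inl) c (h.mem' hc) with h6 | h6 | h6
    · exact h4 h6
    · exact h3 h6
    · exact h.ne hc h6.symm
  intro W hW c₀ hn h2 hcl x hx
  by_cases h3 : c = c₀
  · subst h3
    have h5 : ∀ w ∈ W, w ≠ d ∧ w ≠ v ∧ w ∈ U := fun w hw => by simpa using hW hw
    have h6 : ∀ w ∈ W, ∀ y, adj w y → y ≠ v → y ∈ W ∨ y = c ∨ y = d := fun w hw y hy h6 => by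
      have h7 := hcl w hw _ (h1 w y hy (h5 w hw).2.1 (h5 w hw).1 h6)
      split_ifs at h7 with h8
      · exact Or.inr (Or.inr h8)
      · exact h7.imp_right Or.inl
    have h7 : d ∉ W := fun e => (h5 d e).1 rfl
    simp only [mem_erase] at hx
    by_cases hu : u ∈ W
    · have h8 := h.cut (insert v W) (insert_subset (h.mem _ _ hc) fun w hw => (h5 w hw).2.2) c d
        (insert_nonempty _ _) (by simp [h2, (h.ne hc).symm]) (by simp [h7, hv.symm])
        (fun w hw y hy => by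
          rcases mem_insert.1 hw with rfl | hw
          · exact (h0 y hy).imp_left fun e : y = u => mem_insert_of_mem (e ▸ hu)
          · by_cases h8 : y = v
            · exact Or.inl (h8 ▸ mem_insert_self _ _)
            · exact (h6 w hw y hy h8).imp_left mem_insert_of_mem) x hx.2.2
      simpa [hx.1, hx.2.1] using h8
    · have h8 := h.cut W (fun w hw => (h5 w hw).2.2) c d hn h2 h7 (fun w hw y hy =>
        h6 w hw y hy fun e => by
          rcases h0 w (h.symm _ _ (e ▸ hy)) with h8 | h8 | h8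
          · exact hu (h8 ▸ hw)
          · exact h2 (h8 ▸ hw)
          · exact h7 (h8 ▸ hw)) x hx.2.2
      simpa [hx.1] using h8
  · by_contra h4
    have h5 := key (((U.erase v).erase d).filter fun y => ¬ (y ∈ W ∨ y = c₀)) (filter_subset _ _)
      c₀ ⟨x, mem_filter.2 ⟨hx, h4⟩⟩ (by simp) (fun w hw y hy => by
        by_cases h5 : y = c₀
        · exact Or.inr h5
        · exact Or.inl (mem_filter.2 ⟨hm _ _ (hs _ _ hy), fun e => (mem_filter.1 hw).2
            (hcl y (e.resolve_right h5) w (hs _ _ hy))⟩)) h3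
    exact (mem_filter.1 h5).2 (Or.inl (key W hW c₀ hn h2 hcl h3))

end graphs

variable {n : ℕ} {L : List (ℕ × ℕ)} {E : Finset ℕ} {U : Finset (Fin n)}

theorem dc_le {B : Finset (Fin n)} {D : Finset ℕ}
    (h : ∀ j ∈ E, ∀ p q, Ends L j p q → p ∈ B → q ∉ B → j ∈ D) :
    dc U (Ad n L E) B ≤ D.card := by
  classical
  unfold dc
  have h1 : ∀ p : Fin n × Fin n, ∃ j, Ad n L E p.1 p.2 → j ∈ E ∧ Ends L j p.1 p.2 := fun p => by
    by_cases hp : Ad n L E p.1 p.2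
    · exact ⟨hp.choose, fun _ => hp.choose_spec⟩
    · exact ⟨0, fun e => absurd e hp⟩
  choose f hf using h1
  refine card_le_card_of_injOn f (fun p hp => ?_) fun p hp q hq e => ?_
  · simp only [coe_filter, mem_product, mem_sdiff, Set.mem_ofPred_eq] at hp
    exact h _ (hf p hp.2).1 _ _ (hf p hp.2).2 hp.1.1 hp.1.2.2
  · simp only [coe_filter, mem_product, mem_sdiff, Set.mem_ofPred_eq] at hp hq
    rcases Ends_same (hf p hp.2).2 (e ▸ (hf q hq.2).2) with ⟨h1, h2⟩ | ⟨h1, -⟩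
    · exact Prod.ext h1 h2
    · exact absurd (h1 ▸ hp.1.1) hq.1.2.2

theorem cut3 (h2 : S_Cmp) (h4 : S_Dc) (h : T3 U (Ad n L E)) {e x y : ℕ} {u v : Fin n}
    (he : e ∈ E) (hx : x ∈ E) (hy : y ∈ E) (huv : Ends L e u v) (hs : Star U (Ad n L E) u v)
    (hlt : comps n L E < comps n L (E \ {e, x, y})) :
    ∃ p, (p = u ∨ p = v) ∧ ∀ j ∈ E, ∀ z, Ends L j p z → j = e ∨ j = x ∨ j = y := by
  have hD : {e, x, y} ⊆ E := insert_subset he (insert_subset hx (singleton_subset_iff.2 hy))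
  obtain ⟨B, h5, w, hw, t, ht, i, hi, h6⟩ := h2.2.2 n L (E \ {e, x, y}) {e, x, y}
    (by rwa [sdiff_union_of_subset hD])
  obtain ⟨d1, -, d3, -⟩ := h4 _ U _ h
  have hm : ∀ j ∈ E, ∀ p q, Ends L j p q → p ∈ U := fun j hj p q e => h.mem p q ⟨j, hj, e⟩
  have key : ∀ B ⊆ U, (∀ j ∈ E, ∀ p q, Ends L j p q → p ∈ B → q ∉ B → j ∈ ({e, x, y} : Finset ℕ)) →
      u ∈ B → v ∉ B →
      ∃ p, (p = u ∨ p = v) ∧ ∀ j ∈ E, ∀ z, Ends L j p z → j = e ∨ j = x ∨ j = y := by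
    intro B hB h7 h8 h9
    rcases hs B hB h8 h9 ((dc_le h7).trans card_le_three) with rfl | rfl
    · exact ⟨u, Or.inl rfl, fun j hj z hz => by
        simpa using h7 j hj u z hz h8 (by simpa using (h.ne ⟨j, hj, hz⟩).symm)⟩
    · exact ⟨v, Or.inr rfl, fun j hj z hz => by
        simpa using h7 j hj z v hz.symm
          (mem_erase.2 ⟨(h.ne ⟨j, hj, hz⟩).symm, hm j hj _ _ hz.symm⟩) h9⟩
  have h7 : ∀ j ∈ E, ∀ p q, Ends L j p q → p ∈ B ∩ U → q ∉ B ∩ U → j ∈ ({e, x, y} : Finset ℕ) :=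
    fun j hj p q h7 hp hq => by_contra fun h8 => hq (mem_inter.2
      ⟨h5 p (mem_inter.1 hp).1 q ⟨j, mem_sdiff.2 ⟨hj, h8⟩, h7⟩, hm j hj _ _ h7.symm⟩)
  have h8 : ¬ (u ∈ B ∩ U ↔ v ∈ B ∩ U) := fun h8 => by
    have h9 := d3 (B ∩ U) inter_subset_right ⟨w, mem_inter.2 ⟨hw, hm i (hD hi) _ _ h6⟩⟩
      fun e => ht (mem_inter.1 (e.symm ▸ hm i (hD hi) _ _ h6.symm : t ∈ B ∩ U)).1
    have h10 := dc_le (U := U) (B := B ∩ U) (D := {x, y}) fun j hj p q h10 hp hq =>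
      (mem_insert.1 (h7 j hj p q h10 hp hq)).resolve_left fun e => by
        rcases Ends_same h10 (e ▸ huv) with ⟨rfl, rfl⟩ | ⟨rfl, rfl⟩
        · exact hq (h8.1 hp)
        · exact hq (h8.2 hp)
    have := card_le_two (a := x) (b := y)
    omega
  by_cases h9 : u ∈ B ∩ U
  · exact key _ inter_subset_right h7 h9 fun e => h8 (iff_of_true h9 e)
  · refine key (U \ (B ∩ U)) sdiff_subset (fun j hj p q h10 hp hq => h7 j hj q p h10.symm
      (by_contra fun e => hq (mem_sdiff.2 ⟨hm j hj _ _ h10.symm, e⟩)) (mem_sdiff.1 hp).2)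
      (mem_sdiff.2 ⟨hm e he _ _ huv, h9⟩) fun e => h8 (iff_of_false h9 (mem_sdiff.1 e).2)

theorem star_al (h : T3 U (Ad n L E)) {S : Finset ℕ} {e x y : ℕ} {u v : Fin n} (he : e ∈ E)
    (hx : x ∈ S) (hy : y ∈ S) (huv : Ends L e u v)
    (h1 : ∀ j ∈ E, ∀ z, Ends L j u z → j = e ∨ j = x ∨ j = y) :
    (∃ a b, Al (Ad n L E) (Ad n L S) u v a b) ∧ ∃ z, Ends L x u z := by
  have hu : u ∈ U := h.mem u v ⟨e, he, huv⟩
  have sm : ∀ {j a b}, j ∈ E → Ends L j u a → Ends L j u b → a = b := fun hj h2 h3 => by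
    rcases Ends_same h2 h3 with ⟨-, h4⟩ | ⟨-, h4⟩
    · exact h4
    · exact absurd h4.symm (h.ne ⟨_, hj, h2⟩)
  obtain ⟨a, ⟨i, hi, ha⟩, h2, -⟩ := h.deg hu v v
  obtain ⟨b, ⟨j, hj, hb⟩, h3, h4⟩ := h.deg hu v a
  have h5 := (h1 i hi a ha).resolve_left fun e => h2 (sm hi ha (e ▸ huv))
  have h6 := (h1 j hj b hb).resolve_left fun e => h3 (sm hj hb (e ▸ huv))
  have h7 : i ≠ j := fun e => h4 (sm hj hb (e ▸ ha))
  have h8 : (i = x ∧ j = y) ∨ (i = y ∧ j = x) := by omega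
  refine ⟨⟨a, b, h4.symm, h2, h3, ⟨i, h5.elim (· ▸ hx) (· ▸ hy), ha⟩,
    ⟨j, h6.elim (· ▸ hx) (· ▸ hy), hb⟩, ?_⟩, ?_⟩
  · rintro z ⟨l, hl, hz⟩
    have h9 : l = e ∨ l = i ∨ l = j := by have := h1 l hl z hz; omega
    rcases h9 with rfl | rfl | rfl
    · exact Or.inl (sm hl hz huv)
    · exact Or.inr (Or.inl (sm hl hz ha))
    · exact Or.inr (Or.inr (sm hl hz hb))
  · rcases h8 with ⟨rfl, -⟩ | ⟨-, rfl⟩
    · exact ⟨a, ha⟩
    · exact ⟨b, hb⟩

end DCtr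

open DCtr in
theorem p_DCtr (h1 : S_Con) (h2 : S_Cmp) (h3 : S_C2) (h4 : S_Dc) : S_DCtr := by
  intro k n L c c' E S U e u v hk hL hE hd h hU hsim hS he huv ⟨_, hs, g1, g2⟩
  have hm : ∀ x y, Ad n L E x y → x ∈ U ∧ x ≠ y := fun x y e => ⟨h.mem x y e, h.ne e⟩
  have hd1 : ∀ A ⊆ E.erase e, con k e A + A.card + (c' + 1) = c + comps n L (E.erase e \ A) := by
    intro A hA
    have a1 := hd (insert e A) (insert_subset he (hA.trans (erase_subset _ _)))
    rw [card_insert_of_notMem fun e => notMem_erase _ _ (hA e), sdiff_insert,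
      ← erase_sdiff_comm] at a1
    unfold con
    omega
  have sd : ∀ x y, E.erase e \ {x, y} = E \ {e, x, y} := fun x y => by
    ext j; simp only [mem_sdiff, mem_erase, mem_insert, mem_singleton]; tauto
  have a0 := hd1 ∅ (empty_subset _)
  rw [sdiff_empty, card_empty] at a0
  obtain ⟨c0, c1⟩ := h3 n L (E.erase e) U hL ((erase_subset _ _).trans hE)
    (by have := h.four; omega) (fun x y ⟨j, hj, e⟩ => hm x y ⟨j, mem_of_mem_erase hj, e⟩)
    (t2_del h (u := u) (v := v) fun x y ⟨j, hj, hxy⟩ => by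
      by_cases hje : j = e
      · exact Or.inr (Ends_same hxy (hje ▸ huv))
      · exact Or.inl ⟨j, mem_erase.2 ⟨hje, hj⟩, hxy⟩)
  have c2 := conn_dual hd1 c0
  have par : ∀ x ∈ S, ∀ y ∈ S, x ≠ e → y ≠ e → x ≠ y → Par (con k e) x y →
      (∃ a b, Al (Ad n L E) (Ad n L S) v u a b) ∧ ∃ z, Ends L x v z := by
    intro x hx y hy a1 a2 a3 a4
    have a5 := hd1 {x, y} (insert_subset (mem_erase.2 ⟨a1, hS hx⟩)
      (singleton_subset_iff.2 (mem_erase.2 ⟨a2, hS hy⟩)))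
    rw [card_pair a3, sd] at a5
    obtain ⟨p, rfl | rfl, a6⟩ := cut3 h2 h4 h he (hS hx) (hS hy) huv hs
      (by have := a4.2.2; omega)
    · obtain ⟨a, b, a7⟩ := (star_al h he hx hy huv a6).1
      exact absurd a7 (g1 a b)
    · exact star_al h he hx hy huv.symm a6
  have rk : k E + 3 ≤ k ∅ := by
    have ne := h.ne ⟨e, he, huv⟩
    obtain ⟨a, ⟨x, hx, ha⟩, a1, -⟩ := h.deg (h.mem u v ⟨e, he, huv⟩) v v
    obtain ⟨b, ⟨y, hy, hb⟩, a2, -⟩ := h.deg (h.mem v u ⟨e, he, huv.symm⟩) u u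
    have b1 : ∀ z, ¬ Ends L x v z := fun z hz => (ha.eq hz).elim ne.symm a1.symm
    have b2 : ∀ z, ¬ Ends L y u z := fun z hz => (hb.eq hz).elim ne a2.symm
    have a3 : x ≠ e := fun a => b1 u (a ▸ huv.symm)
    have a4 : y ≠ e := fun a => b2 v (a ▸ huv)
    have a5 : x ≠ y := fun a => b1 b (a ▸ hb)
    have a6 : {x, y} ⊆ E.erase e := insert_subset (mem_erase.2 ⟨a3, hx⟩)
      (singleton_subset_iff.2 (mem_erase.2 ⟨a4, hy⟩))
    have a7 := hd1 _ a6
    have a8 := hk.anti (insert_subset he (a6.trans (erase_subset _ _)))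
    have a9 := hd ∅ (empty_subset _)
    rw [card_pair a5, sd] at a7
    rw [sdiff_empty, card_empty] at a9
    unfold con at a7
    by_contra hn
    obtain ⟨p, rfl | rfl, a10⟩ := cut3 h2 h4 h he hx hy huv hs (by omega)
    · obtain ⟨z, hz⟩ := (star_al h (S := E) he hy hx huv fun j hj z hz => by
        have := a10 j hj z hz; omega).2
      exact b2 z hz
    · obtain ⟨z, hz⟩ := (star_al h (S := E) he hx hy huv.symm a10).2
      exact b1 z hz
  by_cases hA : ∃ a b, Al (Ad n L E) (Ad n L S) v u a b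
  swap
  · exact ⟨E.erase e, he, .refl _, c2, by rw [insert_erase he], rk, fun x hx y hy a1 a2 =>
      hA (par x (mem_inter.1 hx).1 y (mem_inter.1 hy).1 (ne_of_mem_erase (mem_inter.1 hx).2)
        (ne_of_mem_erase (mem_inter.1 hy).2) a1 a2).1⟩
  obtain ⟨a, b, hA⟩ := hA
  have nab := g2 a b hA
  obtain ⟨a1, a2, a3, ⟨x, hx, ha⟩, ⟨y, hy, hb⟩, a4⟩ := hA
  have va := h.ne ⟨x, hS hx, ha⟩
  have vb := h.ne ⟨y, hS hy, hb⟩
  have vu := h.ne ⟨e, he, huv.symm⟩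
  have xe : x ≠ e := fun e => (ha.eq (e ▸ huv)).elim vu.symm a2.symm
  have ye : y ≠ e := fun e => (hb.eq (e ▸ huv)).elim vu.symm a3.symm
  have xy : x ≠ y := fun e => (ha.eq (e ▸ hb.symm)).elim vb.symm a1.symm
  have hx' : x ∈ E.erase e := mem_erase.2 ⟨xe, hS hx⟩
  have hy' : y ∈ E.erase e := mem_erase.2 ⟨ye, hS hy⟩
  let E1 := ((E.erase e).erase x).erase y
  have sub : E1 ⊆ E.erase e := (erase_subset _ _).trans (erase_subset _ _)
  have hE1 : ∀ j, j ∈ E1 ↔ j ∈ E ∧ ∀ z, ¬ Ends L j v z := fun j => by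
    simp only [E1, mem_erase]
    refine ⟨fun ⟨b1, b2, b3, b4⟩ => ⟨b4, fun z hz => ?_⟩, fun ⟨b1, b2⟩ =>
      ⟨fun e => b2 b (e ▸ hb), fun e => b2 a (e ▸ ha), fun e => b2 u (e ▸ huv.symm), b1⟩⟩
    rcases a4 z ⟨j, b4, hz⟩ with rfl | rfl | rfl
    · exact b3 (hsim j b4 e he _ _ hz huv.symm)
    · exact b2 (hsim j b4 x (hS hx) _ _ hz ha)
    · exact b1 (hsim j b4 y (hS hy) _ _ hz hb)
  obtain ⟨m1, m2, m3, m4⟩ := h1 n L x a v hL ha.symm va.symm
  obtain ⟨m5, m6, m7, m8⟩ := h1 n _ y a b m1 ((m4 y a b).2 ⟨v, b, hb, by simp, by simp [vb.symm]⟩) a1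
  have ad : ∀ p q, Ad n (mrgL (mrgL L a v) a b) E1 p q ↔ ∃ p' q', Ad n L E p' q' ∧ p' ≠ v ∧
      q' ≠ v ∧ (if p' = b then a else p') = p ∧ (if q' = b then a else q') = q := fun p q => by
    constructor
    · rintro ⟨j, hj, b1⟩
      obtain ⟨_, _, b2, b3, b4⟩ := (m8 j p q).1 b1
      obtain ⟨p', q', b5, rfl, rfl⟩ := (m4 j _ _).1 b2
      obtain ⟨b6, b7⟩ := (hE1 j).1 hj
      have b8 : p' ≠ v := fun e => b7 q' (e ▸ b5)
      have b9 : q' ≠ v := fun e => b7 p' (e ▸ b5.symm)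
      rw [if_neg b8] at b3
      rw [if_neg b9] at b4
      exact ⟨p', q', ⟨j, b6, b5⟩, b8, b9, b3, b4⟩
    · rintro ⟨p', q', ⟨j, hj, b1⟩, b2, b3, b4, b5⟩
      exact ⟨j, (hE1 j).2 ⟨hj, fun z hz => (b1.eq hz).elim b2.symm b3.symm⟩, (m8 j p q).2
        ⟨p', q', (m4 j _ _).2 ⟨p', q', b1, if_neg b2, if_neg b3⟩, b4, b5⟩⟩
  have hm2 : ∀ p q, Ad n (mrgL (mrgL L a v) a b) E1 p q → p ∈ (U.erase v).erase b ∧ p ≠ q := by
    intro p q b0
    obtain ⟨p', q', b1, b2, b3, rfl, rfl⟩ := (ad p q).1 b0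
    have b4 := hm _ _ b1
    have b5 := h.mem' ⟨x, hS hx, ha⟩
    split_ifs with b6 b7 b7
    · exact absurd (b6.trans b7.symm) b4.2
    · exact ⟨by simp [a1, va.symm, b5], fun e => nab (e ▸ b6 ▸ b1.symm)⟩
    · exact ⟨by simp [b6, b2, b4.1], fun e => nab (e ▸ b7 ▸ b1)⟩
    · exact ⟨by simp [b6, b2, b4.1], b4.2⟩
  obtain ⟨c3, -⟩ := h3 n _ E1 ((U.erase v).erase b) m5
    (by rw [m6, m2]; exact sub.trans ((erase_subset _ _).trans hE))
    (by
      obtain ⟨z, b1, b2, b3⟩ := h.deg (h.mem' ⟨x, hS hx, ha⟩) v u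
      have b4 : z ≠ b := fun e => nab (e ▸ b1)
      refine le_trans (card_eq_three.2 ⟨u, a, z, a2.symm, b3.symm, h.ne b1, rfl⟩).ge
        (card_le_card ?_)
      simp [insert_subset_iff, a3.symm, vu.symm, a1, va.symm, b4, b2, h.mem' b1, h.mem _ _ b1,
        h.mem u v ⟨e, he, huv⟩]) hm2
    (t2_mrg h ⟨x, hS hx, ha⟩ vb a4 (fun _ _ => Ad.symm) (fun p q e => (hm2 p q e).1)
      fun p q b1 b2 b3 b4 => (ad _ _).2 ⟨p, q, b1, b2, b4, if_neg b3, rfl⟩)
  have hd2 : ∀ A ⊆ E1, con k e A + A.card + (c' + 3) =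
      c + comps n (mrgL (mrgL L a v) a b) (E1 \ A) := fun A hA => by
    have b1 := hd1 A (hA.trans sub)
    have b2 : E.erase e \ A = insert x (insert y (E1 \ A)) := by
      rw [← insert_sdiff_of_notMem _ fun e => notMem_erase _ _ (hA e),
        ← insert_sdiff_of_notMem _ fun e => notMem_erase _ _ (mem_of_mem_erase (hA e)),
        insert_erase (mem_erase.2 ⟨xy.symm, hy'⟩), insert_erase hx']
    rw [m7, m3, ← b2]
    omega
  obtain ⟨s1, -⟩ := c2.single (hk.con e) hx' hy' xy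
  obtain ⟨s2, -⟩ := c2.single (hk.con e) hy' hx' xy.symm
  refine ⟨E1, he, .step hx' hy' hx hy xy ⟨s1, s2, ?_⟩ (.refl _), conn_dual hd2 c3, ?_, rk,
    fun p hp q hq b1 b2 => ?_⟩
  · have b1 := hd1 {x, y} (insert_subset hx' (singleton_subset_iff.2 hy'))
    have b2 := (hk.con e).anti (singleton_subset_iff.2 (mem_insert_self x {y}))
    have b3 := h2.1 n L E1 (U.erase v) ⟨u, mem_erase.2 ⟨vu.symm, h.mem u v ⟨e, he, huv⟩⟩⟩
      fun p q ⟨j, hj, b3⟩ => mem_erase.2 ⟨fun e => ((hE1 j).1 hj).2 q (e ▸ b3),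
        h.mem p q ⟨j, ((hE1 j).1 hj).1, b3⟩⟩
    have b4 := card_erase_add_one (h.mem v u ⟨e, he, huv.symm⟩)
    rw [card_pair xy, sdiff_insert, sdiff_singleton_eq_erase, erase_right_comm] at b1
    change _ = c + comps n L E1 at b1
    omega
  · have b1 := hd2 E1 Subset.rfl
    have b2 := hd E Subset.rfl
    have b3 := card_erase_add_one he
    have b4 := card_erase_add_one hx'
    have b5 : E1.card + 1 = _ := card_erase_add_one (mem_erase.2 ⟨xy.symm, hy'⟩)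
    rw [Finset.sdiff_self, comps_empty] at b1 b2
    unfold con at b1
    omega
  · obtain ⟨z, hz⟩ := (par p (mem_inter.1 hp).1 q (mem_inter.1 hq).1
      (ne_of_mem_erase (sub (mem_inter.1 hp).2)) (ne_of_mem_erase (sub (mem_inter.1 hq).2)) b1 b2).2
    exact ((hE1 p).1 (mem_inter.1 hp).2).2 z hz

end Pool.Agent.P.MP_e0c037_lc.SG
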