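import Pool.Agent.P.MP_e0c037_lc.SG.Base
import Pool.Agent.P.MP_e0c037_lc.Main

/-! The parts put together. -/

namespace Pool.Agent.P.MP_e0c037_lc.SG

open Finset Pool.Agent.Lib.helper21

theorem Zk_shift_add {k k' : KF} {E : Finset ℕ} {q : ℝ} {v : ℕ → ℝ} {c : ℕ}
    (hk : ∀ A ⊆ E, k A + c = k' A) : Zk q k' v E = q ^ c * Zk q k v E := by
  unfold Zk
  rw [mul_sum]
  refine sum_congr rfl fun A hA => ?_
  rw [← hk A (mem_powerset.1 hA), pow_add]
  ring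

theorem pos_XG (h1 : S_KnSeq) (h2 : S_KnZ) {q : ℝ} (q0 : 0 < q) (q1 : q < 1) :
    ∃ N, ∀ k E, XG k E → k E + N ≤ k ∅ → Pos q k E := by
  obtain ⟨N, hN⟩ := h1 q q0 q1
  refine ⟨N, fun k E ⟨n, L, c, U, a1, a2, a3, a4, a5, a6, a7⟩ hr => ?_⟩
  have b1 := h2 n L E U q a1 a2 a5 a6 a7
  rw [Zk_shift_add a3] at b1
  have b2 := hN U.card (by omega)
  have b3 : sg k E = -(-1) ^ U.card := by
    unfold sg
    have : k ∅ + k E + 1 = U.card + 2 * k E := by omega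
    have e : (-1 : ℝ) ^ (k ∅ + k E + 1) = (-1) ^ U.card := by
      rw [this, pow_add, pow_mul]; simp
    rw [← e, pow_succ]; ring
  unfold Pos
  refine pos_of_mul_pos_left (b := q ^ c) ?_ (pow_pos q0 c).le
  have b4 := mul_pos (pow_pos q0 (n - U.card)) (neg_pos.2 b2)
  calc 0 < _ := b4
    _ = sg k E * (q ^ c * Zk q k (fun _ => -2) E) := by rw [b1, b3]; ring
    _ = _ := by ring

theorem easy_one : Easy 1 (-2) ∧ Easy 1 (-1 / 2) := by
  have key : ∀ (G : Inp) (v : ℝ), dichromatic G.1 G.2 1 v = (v + 1) ^ G.2.length := fun G v => by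
    unfold dichromatic
    have := Finset.sum_pow_mul_eq_add_pow v 1 (range G.2.length)
    simpa using this
  refine ⟨⟨fun G => (-1) ^ G.2.length, by fun_prop, fun G _ => ?_⟩,
    ⟨fun _ => 1, PT.const _, fun G _ => ?_⟩⟩
  · rw [key, show (-2 + 1 : ℝ) = -1 by norm_num]
    rcases Nat.even_or_odd G.2.length with h | h <;> simp [h.neg_one_pow]
  · rw [key, sign_pos (by positivity)]; rfl

theorem easy_lt (hMc : S_Mc) (hCL : S_CL) (hSt : S_Step) (hSy : S_Sys) (hP : S_ClaimP)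
    (hB : S_BoundR) (hM : S_Main) (hSz : S_Size) (h1 : S_KnSeq) (h2 : S_KnZ) (hA : S_Algo)
    (hD : S_Dual) {q : ℝ} (q0 : 0 < q) (q1 : q < 1) : Easy q (-2) ∧ Easy q (-q / 2) := by
  obtain ⟨B, J, t, hS⟩ := hSy q q0 q1
  obtain ⟨⟨κ, o1⟩, ⟨κ', o2⟩, d1, d2⟩ := hD
  have main := fun C X (m : Mc C) (c : CL C X) => hM C X q B J t m (hSt C X m c).2 hS
    (hP C q B J t m (hSt C X m c).1 hS)
    (hB C q B J t m (hSt C X m c).1 hS (hP C q B J t m (hSt C X m c).1 hS))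
  constructor
  · obtain ⟨N, hN⟩ := main Gr XG hMc.1 hCL.1 (pos_XG h1 h2 q0 q1)
    obtain ⟨f, pf, hf⟩ := hA κ _ q ((2 * N) ^ 2 + 2) o1 q0 fun G hG K hK c r m => by
      have g : Gr (comps G.1 G.2) K := ⟨isK_comps _ _, G.1, G.2, 0, hG, hK, fun _ _ => rfl⟩
      have s := hSz.1 _ _ g c r (by omega)
      refine hN _ _ g c r ?_
      by_contra hn
      have : (2 * (comps G.1 G.2 ∅ - comps G.1 G.2 K)) ^ 2 ≤ (2 * N) ^ 2 :=
        Nat.pow_le_pow_left (by omega) 2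
      omega
    exact ⟨f, pf, fun G hG => by rw [hf G hG]; simp [dichromatic, Zk]⟩
  · obtain ⟨N, hN⟩ := main Du XD hMc.2 hCL.2
      ⟨14, fun k E x h => by unfold XD at x; omega⟩
    obtain ⟨f, pf, hf⟩ := hA κ' _ q (3 * N + 2) o2 q0 fun G hG K hK c r m => by
      have g : Du (kd G) K := hMc.2.del _ _ _ (d1 G hG) hK
      have s := hSz.2 _ _ g c r (by omega)
      exact hN _ _ g c r (by omega)
    refine ⟨fun G => (-1) ^ G.2.length * f G, by fun_prop, fun G hG => ?_⟩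
    dsimp only
    rw [d2, sign_mul, hf G hG, SignType.coe_mul]
    congr 1
    rcases Nat.even_or_odd G.2.length with h | h
    · rw [h.neg_one_pow, sign_pos (h.pow_pos (by norm_num))]; rfl
    · rw [h.neg_one_pow, sign_neg (h.pow_neg (by norm_num))]; rfl

theorem Easy.tm {q v : ℝ} (h : Easy q v) :
    ∃ f : ℕ × List (ℕ × ℕ) → ℤ,
      Nonempty (Turing.TM2ComputableInPolyTime encGraph encInt f) ∧
      ∀ (n : ℕ) (L : List (ℕ × ℕ)), (∀ e ∈ L, e.1 < n ∧ e.2 < n) →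
        f (n, L) = (SignType.sign (dichromatic n L q v) : ℤ) := by
  obtain ⟨f, pf, hf⟩ := h
  refine ⟨f, ?_, fun n L hL => hf (n, L) hL⟩
  rw [encGraph_eq]
  exact PT.toTM2 (β := ℤ) pf

theorem hard_seg (h1 : S_Hard) (h2 : S_Gad) {q v : ℝ} (q1 : 1 < q) (q2 : q ≤ 32 / 27)
    (hv : v = -2 ∨ v = -q / 2) (f : List Bool → ℕ) (hf : R3.SharpP f) : R3.Reduces f q v := by
  obtain ⟨a, y, a', z, b1, b2, b3, b4, b5, b6, b7⟩ := h2 q v q1 q2 hv
  exact h1 q v a y a' z q1 b1 b2 b3 b4 b5 b6 b7 f hf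

end Pool.Agent.P.MP_e0c037_lc.SG
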