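import Pool.Agent.P.MP_e0c037_lc.SG.Base
import Pool.Agent.P.MP_e0c037_lc.Main

/-! The polynomial-time algorithm for the sign, from an oracle for the component counts. -/

namespace Pool.Agent.P.MP_e0c037_lc.SG

open Finset Pool.Agent.Lib.helper21

namespace AlgoS

/-- The ranks and sizes of all subsets of a small part. -/
def prf (κ : Inp × List ℕ → ℕ) (M : ℕ) (G : Inp) (K : List ℕ) : List (ℕ × ℕ) :=
  (subs M K).map fun A => (κ (G, []) - κ (G, A), A.length)

variable {κ : Inp × List ℕ → ℕ} {k : Inp → KF}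

theorem prf_spec (o : Orc κ k) {G : Inp} (hG : Valid G) {M : ℕ} {K : List ℕ} (hK : K.Nodup)
    (hK' : ∀ i ∈ K, i < G.2.length) (hM : K.length ≤ M) {q : ℝ} (hq : 0 < q) (v : ℝ) :
    ((prf κ M G K).length ≤ 2 ^ M ∧ ∀ p ∈ prf κ M G K, p.1 ≤ M ∧ p.2 ≤ M) ∧
    Zk q (k G) (fun _ => v) K.toFinset =
      q ^ k G ∅ * ((prf κ M G K).map fun p => q⁻¹ ^ p.1 * v ^ p.2).sum := by
  have h := o.isK G
  have h0 : κ (G, []) = k G ∅ := by simpa using o.eq G hG [] (by simp)
  have key : ∀ A ∈ subs M K, κ (G, A) = k G A.toFinset ∧ A.toFinset.card = A.length ∧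
      A.length ≤ M := fun A hA => by
    have hs := subs_sub M K A hA
    exact ⟨o.eq G hG A fun i hi => hK' i (hs.subset hi),
      List.toFinset_card_of_nodup (hK.sublist hs), hs.length_le.trans hM⟩
  refine ⟨⟨by simpa [prf] using subs_len M K, fun p hp => ?_⟩, ?_⟩
  · obtain ⟨A, hA, rfl⟩ := List.mem_map.1 hp
    obtain ⟨a1, a2, a3⟩ := key A hA
    have := h.rank_le A.toFinset
    constructor <;> dsimp only <;> omega
  · unfold Zk prf
    rw [← subs_sum M K _ hK hM, List.map_map, ← List.sum_map_mul_left]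
    congr 1
    refine List.map_congr_left fun A hA => ?_
    obtain ⟨a1, a2, -⟩ := key A hA
    have a4 := h.anti (empty_subset A.toFinset)
    simp only [Function.comp, prod_const, a1, a2, h0]
    obtain ⟨d, hd⟩ := Nat.exists_eq_add_of_le a4
    generalize k G A.toFinset = c at hd
    rw [hd, Nat.add_sub_cancel_left, pow_add, inv_pow]
    have := (pow_pos hq d).ne'
    field_simp

end AlgoS

open AlgoS

theorem p_Algo (h1 : S_Kept) (h2 : S_Parts) : S_Algo := by
  intro κ k q M o hq hM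
  obtain ⟨kept, p0, hk⟩ := h1 κ k o
  obtain ⟨pts, p1, hp⟩ := h2 κ k o
  obtain ⟨g, hg1, hg2⟩ := pt_table
    (fun l => (SignType.sign (l.map fun p => q⁻¹ ^ p.1 * (-2 : ℝ) ^ p.2).sum : ℤ))
    (finite_short (2 ^ M) M)
  have p2 := pt_subs M
  have p3 := o.pt
  refine ⟨fun G => ((pts (G, kept G)).map fun K => cond (decide (M ≤ K.length))
    ((-1 : ℤ) ^ (κ (G, []) + κ (G, K))) (g (prf κ M G K))).prod, ?_, fun G hG => ?_⟩
  · unfold prf
    fun_prop
  obtain ⟨k1, k2, k3, k4⟩ := hk G hG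
  obtain ⟨d1, d⟩ := hp G hG (kept G) k1 k2
  rw [k4 q, d.sign (o.isK G) hq, cast_prod, List.map_map, List.map_map]
  refine congrArg List.prod ?_
  refine List.map_congr_left fun K hK => ?_
  obtain ⟨a1, a2, -⟩ := d.part _ (List.mem_map_of_mem hK)
  have a3 : ∀ i ∈ K, i < G.2.length := fun i hi =>
    k2 i (List.mem_toFinset.1 (a1 (List.mem_toFinset.2 hi)))
  simp only [Function.comp, Bool.cond_decide]
  split_ifs with hh
  · have b1 := hM G hG K.toFinset
      (fun i hi => mem_range.2 (a3 i (List.mem_toFinset.1 hi))) a2 (k3.mono a1)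
      (by rwa [List.toFinset_card_of_nodup (d1 K hK)])
    unfold Pos sg at b1
    have h0 : κ (G, []) = k G ∅ := by simpa using o.eq G hG [] (by simp)
    rw [o.eq G hG K a3, h0]
    generalize Zk q (k G) (fun _ => -2) K.toFinset = z at b1
    generalize k G ∅ + k G K.toFinset = m at b1
    rcases Nat.even_or_odd m with hm | hm
    · rw [hm.neg_one_pow] at b1 ⊢
      rw [sign_pos (by simpa using b1)]; rfl
    · rw [hm.neg_one_pow] at b1 ⊢
      rw [sign_neg (by simpa using b1)]; rfl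
  · obtain ⟨b1, b2⟩ := prf_spec o hG (d1 K hK) a3 (le_of_not_ge hh) hq (-2)
    rw [hg2 _ b1, b2, sign_mul, sign_pos (pow_pos hq _), one_mul]

end Pool.Agent.P.MP_e0c037_lc.SG
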