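import Pool.Agent.P.MP_e0c037_lc.SG.Base

/-! Positivity of `al` and the range of the effective weight. -/

namespace Pool.Agent.P.MP_e0c037_lc.SG

open Finset Function

namespace ClaimP

/-- The conclusion for a pair of numbers. -/
def Ok (B a g : ℝ) : Prop := 0 < a ∧ |g| ≤ B * a

theorem Ok.comb {B a g a' g' c : ℝ} (h : Ok B a g) (h' : Ok B a' g') (hc : 0 < c) :
    Ok B (a + c * a') (g + c * g') := by
  refine ⟨add_pos h.1 (mul_pos hc h'.1), (abs_add_le _ _).trans ?_⟩
  rw [abs_mul, abs_of_pos hc]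
  have := mul_le_mul_of_nonneg_left h'.2 hc.le
  have := h.2
  linarith

theorem Ok.smul {B a g c : ℝ} (h : Ok B a g) (hc : 0 < c) : Ok B (c * a) (c * g) := by
  refine ⟨mul_pos hc h.1, ?_⟩
  rw [abs_mul, abs_of_pos hc]
  have := mul_le_mul_of_nonneg_left h.2 hc.le
  linarith

/-- The claim for all data of size below `n`. -/
def Below (C : KF → Finset ℕ → Prop) (q B : ℝ) (n : ℕ) : Prop :=
  ∀ k E S f (v : ℕ → ℝ), E.card + S.card < n → C k E → Conn k E → S ⊆ E → Red k S → f ∈ E →
    f ∉ S → 2 ≤ E.card → (3 ≤ E.card ∨ S = ∅) → (∀ x ∈ S, v x = -2) →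
    (∀ x ∈ E, x ≠ f → x ∉ S → |1 + v x| ≤ B) → Ok B (al q k v E f) (ga q k v E f)

variable {C : KF → Finset ℕ → Prop} {q B : ℝ} {n : ℕ} {k : KF} {E S E1 : Finset ℕ} {e f g : ℕ}
  {v : ℕ → ℝ}

theorem ctr (hM : Mc C) (ih : Below C q B n) (hC : C k E) (c : Ctr k E S e E1) (hf : f ∈ E)
    (hef : e ≠ f) (hfS : f ∉ S) (hn : E.card + S.card ≤ n) (hv : ∀ x ∈ S, x ≠ e → v x = -2)
    (hw : ∀ x ∈ E, x ≠ e → x ≠ f → x ∉ S → |1 + v x| ≤ B) :
    Ok B (al q (con k e) v (E.erase e) f) (ga q (con k e) v (E.erase e) f) := by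
  have h := hM.isK k E hC
  obtain ⟨a1, a2⟩ := c.al_eq (q := q) h hfS hv
  have h3 := c.three h
  have c1 := card_le_card c.subset
  have c2 := card_erase_lt_of_mem c.mem
  have c3 := card_le_card (inter_subset_left : S ∩ E1 ⊆ S)
  rw [a1, a2]
  refine ih _ E1 (S ∩ E1) f v (by omega) (hM.del _ _ _ (hM.con k E e hC c.mem) c.subset) c.conn
    inter_subset_right c.red (c.mem' hf hef.symm hfS) (fun hh => hfS (mem_inter.1 hh).1)
    (by omega) (Or.inl h3) (fun x hx => ?_) fun x hx hxf hxS => ?_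
  · exact hv x (mem_inter.1 hx).1 (ne_of_mem_erase (c.subset (mem_inter.1 hx).2))
  · exact hw x (mem_of_mem_erase (c.subset hx)) (ne_of_mem_erase (c.subset hx)) hxf
      fun hh => hxS (mem_inter.2 ⟨hh, hx⟩)

theorem small (hS : S ⊆ E) (hf : f ∈ E) (he : e ∈ E) (heg : e ≠ g) (hef : e ≠ f)
    (hgf : g ≠ f) (hfS : f ∉ S) : 3 ≤ (E.erase g).card ∨ (S.erase g).erase e = ∅ := by
  by_cases h : (S.erase g).erase e = ∅
  · exact Or.inr h
  obtain ⟨x, hx⟩ := nonempty_iff_ne_empty.2 h
  simp only [mem_erase] at hx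
  have hxf : x ≠ f := fun hh => hfS (hh ▸ hx.2.2)
  exact Or.inl (two_lt_card_iff.2 ⟨x, e, f, mem_erase.2 ⟨hx.2.1, hS hx.2.2⟩,
    mem_erase.2 ⟨heg, he⟩, mem_erase.2 ⟨hgf.symm, hf⟩, hx.1, hxf, hef⟩)

theorem below (hM : Mc C) (hSt : Step C) {J : ℕ} {t : ℕ → ℝ} (hy : Sy q B J t) (n : ℕ) :
    Below C q B n := by
  induction n with
  | zero => intro k E S f v hn; omega
  | succ n ih =>
  intro k E S f v hn hC hc hS hr hf hfS h2 h3 hv hw
  have h := hM.isK k E hC
  have hB0 := hy.B0
  have hB1 := hy.B1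
  have hor : ∀ x ∈ E, x ≠ f → v x = -2 ∨ |1 + v x| ≤ B := fun x hx hxf => by
    by_cases hxS : x ∈ S
    · exact Or.inl (hv x hxS)
    · exact Or.inr (hw x hx hxf hxS)
  rcases h2.eq_or_lt with h2 | h2
  · obtain ⟨e, hef, rfl⟩ := card_two hf h2.symm
    have hS0 : S = ∅ := h3.resolve_left (by omega)
    obtain ⟨m, a1, a2⟩ := al_two (v := v) h hef hc hy.q1.ne
    have := pow_pos hy.q0 m
    rw [a1, a2]
    refine ⟨this, ?_⟩
    rw [abs_mul, abs_of_pos this]
    exact mul_le_mul_of_nonneg_right (hw e (by simp) hef (by simp [hS0])) this.le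
  rcases hSt k E S f hC hc hS hr hf hfS h2 with ⟨e, he, g, hg, heg, hef, hgf, heS, hh⟩ |
    ⟨e, he, g, hg, heg, hef, hgf, hh⟩ | ⟨e, he, hef, c1, E1, c⟩ |
    ⟨e, heS, g, hgS, heg, ⟨E1, c1⟩, E2, c2⟩
  · obtain ⟨c1, -, a1, a2⟩ := al_par (q := q) (v := v) h hc he hg heg hef hgf hh
    have n1 := card_erase_of_mem hg
    have n2 := card_erase_le (s := S) (a := g)
    have sm := small hS hf he heg hef hgf hfS
    rw [erase_eq_of_notMem (s := S.erase g) fun hh => heS (mem_of_mem_erase hh)] at sm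
    rw [a1, a2]
    refine ih k _ (S.erase g) f _ (by omega) (hM.del _ _ _ hC (erase_subset _ _)) c1
      (erase_subset_erase _ hS) (hr.mono (erase_subset _ _)) (mem_erase.2 ⟨hgf.symm, hf⟩)
      (fun hh => hfS (mem_of_mem_erase hh)) (by omega) sm (fun x hx => ?_) fun x hx hxf hxS => ?_
    · rw [update_of_ne (by rintro rfl; exact heS (mem_of_mem_erase hx))]
      exact hv x (mem_of_mem_erase hx)
    · by_cases hxe : x = e
      · rw [hxe, update_self, show 1 + (v e + v g + v e * v g) = (1 + v e) * (1 + v g) by ring,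
          abs_mul]
        have b1 := hw e he hef heS
        have b2 : |1 + v g| ≤ 1 := by
          rcases hor g hg hgf with b | b
          · rw [b]; norm_num
          · linarith
        nlinarith [abs_nonneg (1 + v e), abs_nonneg (1 + v g)]
      · rw [update_of_ne hxe]
        exact hw x (mem_of_mem_erase hx) hxf fun hh =>
          hxS (mem_erase.2 ⟨ne_of_mem_erase hx, hh⟩)
  · obtain ⟨t1, t2⟩ := hy.ser _ _ (hor e he hef) (hor g hg hgf)
    obtain ⟨a1, a2⟩ := al_ser (q := q) (v := v) h hc hf he hg heg hef hgf hh t1.ne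
    have n1 := card_erase_of_mem hg
    have n2 := card_erase_le (s := S) (a := g)
    have n3 := card_erase_le (s := S.erase g) (a := e)
    rw [a1, a2]
    refine Ok.smul (ih _ _ ((S.erase g).erase e) f _ (by omega) (hM.con _ _ _ hC hg)
      (conn_ser h hc he hg heg hh) ((erase_subset _ _).trans (erase_subset_erase _ hS))
      (red_ser h hc he hg heg hh hS hr) (mem_erase.2 ⟨hgf.symm, hf⟩)
      (fun hh => hfS (mem_of_mem_erase (mem_of_mem_erase hh))) (by omega)
      (small hS hf he heg hef hgf hfS) (fun x hx => ?_) fun x hx hxf hxS => ?_) (by linarith)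
    · rw [update_of_ne (ne_of_mem_erase hx)]
      exact hv x (mem_of_mem_erase (mem_of_mem_erase hx))
    · by_cases hxe : x = e
      · rw [hxe, update_self]; exact t2
      · rw [update_of_ne hxe]
        exact hw x (mem_of_mem_erase hx) hxf fun hh =>
          hxS (mem_erase.2 ⟨hxe, mem_erase.2 ⟨ne_of_mem_erase hx, hh⟩⟩)
  · obtain ⟨s1, s2⟩ := hc.single h he hf hef
    have p2 := ctr hM ih hC c hf hef hfS (by omega) (fun x hx _ => hv x hx)
      fun x hx _ => hw x hx
    by_cases heS : e ∈ S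
    · obtain ⟨a1, a2⟩ := al_rew (q := q) (v := v) he hef s1 s2 (-2 / 3)
      have n1 := card_erase_lt_of_mem heS
      rw [a1, a2]
      refine Ok.comb (ih k E (S.erase e) f _ (by omega) hC hc ((erase_subset _ _).trans hS)
        (hr.mono (erase_subset _ _)) hf (fun hh => hfS (mem_of_mem_erase hh)) h2.le (Or.inl h2)
        (fun x hx => ?_) fun x hx hxf hxS => ?_) p2 (by rw [hv e heS]; norm_num)
      · rw [update_of_ne (ne_of_mem_erase hx)]
        exact hv x (mem_of_mem_erase hx)
      · by_cases hxe : x = e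
        · rw [hxe, update_self, abs_le]; constructor <;> linarith
        · rw [update_of_ne hxe]
          exact hw x hx hxf fun hh => hxS (mem_erase.2 ⟨hxe, hh⟩)
    · obtain ⟨a1, a2⟩ := al_dc (q := q) (v := v) he hef s1 s2
      have n1 := card_erase_lt_of_mem he
      have n2 := three_of_rank h c1 (by have := c.rk; omega)
      rw [a1, a2, sub_eq_add_neg, sub_eq_add_neg, ← neg_mul, ← neg_mul]
      refine Ok.comb (ih k _ S f v (by omega) (hM.del _ _ _ hC (erase_subset _ _)) c1
        (subset_erase.2 ⟨hS, heS⟩) hr (mem_erase.2 ⟨hef.symm, hf⟩) hfS (by omega) (Or.inl n2) hv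
        fun x hx => hw x (mem_of_mem_erase hx)) p2 ?_
      have := (abs_le.1 (hw e he hef heS)).2
      linarith
  · have he := hS heS
    have hg := hS hgS
    have hef : e ≠ f := fun hh => hfS (hh ▸ heS)
    have hgf : g ≠ f := fun hh => hfS (hh ▸ hgS)
    obtain ⟨s1, -⟩ := hc.single h he hf hef
    obtain ⟨s2, -⟩ := hc.single h hg hf hgf
    obtain ⟨a1, a2⟩ := al_two_id (q := q) (v := v) he hg heg hef hgf s1 s2 (hv e heS) (hv g hgS)
    have key : ∀ {e g : ℕ} {E1 : Finset ℕ}, e ≠ f → Ctr k E (S.erase g) e E1 →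
        Ok B (al q (con k e) (update v g (-4 / 3)) (E.erase e) f)
          (ga q (con k e) (update v g (-4 / 3)) (E.erase e) f) := by
      intro e g E1 hef c
      have n2 := card_erase_le (s := S) (a := g)
      refine ctr hM ih hC c hf hef (fun hh => hfS (mem_of_mem_erase hh)) (by omega)
        (fun x hx _ => ?_) fun x hx _ hxf hxS => ?_
      · rw [update_of_ne (ne_of_mem_erase hx)]
        exact hv x (mem_of_mem_erase hx)
      · by_cases hxg : x = g
        · rw [hxg, update_self, abs_le]; constructor <;> linarith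
        · rw [update_of_ne hxg]
          exact hw x hx hxf fun hh => hxS (mem_erase.2 ⟨hxg, hh⟩)
    have n1 := card_erase_lt_of_mem heS
    have n2 := card_erase_le (s := S.erase e) (a := g)
    rw [a1, a2]
    refine Ok.comb (Ok.comb (ih k E ((S.erase e).erase g) f _ (by omega) hC hc
      ((erase_subset _ _).trans ((erase_subset _ _).trans hS))
      (hr.mono ((erase_subset _ _).trans (erase_subset _ _))) hf
      (fun hh => hfS (mem_of_mem_erase (mem_of_mem_erase hh))) h2.le (Or.inl h2)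
      (fun x hx => ?_) fun x hx hxf hxS => ?_) (key hef c1) (by norm_num)) (key hgf c2)
      (by norm_num)
    · rw [update_of_ne (ne_of_mem_erase hx),
        update_of_ne (ne_of_mem_erase (mem_of_mem_erase hx))]
      exact hv x (mem_of_mem_erase (mem_of_mem_erase hx))
    · by_cases hxg : x = g
      · rw [hxg, update_self, abs_le]; constructor <;> linarith
      rw [update_of_ne hxg]
      by_cases hxe : x = e
      · rw [hxe, update_self, abs_le]; constructor <;> linarith
      · rw [update_of_ne hxe]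
        exact hw x hx hxf fun hh => hxS (mem_erase.2 ⟨hxg, mem_erase.2 ⟨hxe, hh⟩⟩)

end ClaimP

theorem p_ClaimP : S_ClaimP := fun _ _ _ _ _ hM hSt hy k E S f v =>
  ClaimP.below hM hSt hy _ k E S f v (Nat.lt_succ_self _)

end Pool.Agent.P.MP_e0c037_lc.SG
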