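import Pool.Agent.P.MP_e0c037_lc.SG.Base

/-! Component counts of edge sets inside a vertex set. -/

namespace Pool.Agent.P.MP_e0c037_lc.SG

open Finset SimpleGraph

namespace Cmp

variable {n : ℕ} {L : List (ℕ × ℕ)} {A : Finset ℕ} {U : Finset (Fin n)}

theorem stay {P : Fin n → Prop} (h : ∀ w, P w → ∀ x, Ad n L A w x → P x) {a b : Fin n} (ha : P a)
    (r : (spanning n L A).Reachable a b) : P b := by
  rw [reachable_iff_reflTransGen] at r
  induction r with
  | refl => exact ha
  | tail _ hxy ih => exact h _ ih _ (adj_iff.1 hxy).2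

theorem reach1 {a b : Fin n} (h : Ad n L A a b) : (spanning n L A).Reachable a b := by
  by_cases e : a = b
  · rw [e]
  · exact Adj.reachable (adj_iff.2 ⟨e, h⟩)

theorem iso (h : ∀ x y, Ad n L A x y → x ∈ U) {a b : Fin n} (ha : a ∉ U)
    (r : (spanning n L A).Reachable a b) : b = a :=
  stay (P := fun x => x = a) (fun _ hw _ hx => absurd (h _ _ (hw ▸ hx)) ha) rfl r

theorem card_ins {u : Fin n} (hu : u ∈ U) : (insert u Uᶜ).card + U.card = n + 1 := by
  rw [card_insert_of_notMem (by simpa using hu), card_compl, Fintype.card_fin]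
  have := card_le_univ U
  rw [Fintype.card_fin] at this
  omega

theorem reachU (h : ∀ x y, Ad n L A x y → x ∈ U)
    (hc : ∀ W ⊆ U, W.Nonempty → (∀ w ∈ W, ∀ x, Ad n L A w x → x ∈ W) → W = U) {a b : Fin n}
    (ha : a ∈ U) (hb : b ∈ U) : (spanning n L A).Reachable a b := by
  classical
  have e := hc (U.filter fun x => (spanning n L A).Reachable a x) (filter_subset _ _)
    ⟨a, mem_filter.2 ⟨ha, Reachable.refl _⟩⟩ fun w hw x hx =>
      mem_filter.2 ⟨h _ _ hx.symm, (mem_filter.1 hw).2.trans (reach1 hx)⟩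
  rw [← e] at hb
  exact (mem_filter.1 hb).2

theorem conn_of_T2 (h3 : 3 ≤ U.card) (h : ∀ x y, Ad n L A x y → x ∈ U ∧ x ≠ y)
    (h2 : T2 U (Ad n L A)) :
    ∀ W ⊆ U, W.Nonempty → (∀ w ∈ W, ∀ x, Ad n L A w x → x ∈ W) → W = U := by
  intro W hW hne hcl
  by_contra hn
  obtain ⟨c, hcU, hcW⟩ := exists_of_ssubset (ssubset_of_subset_of_ne hW hn)
  obtain ⟨w, hw⟩ := hne
  have h1 := h2 W hW c ⟨w, hw⟩ hcW fun w hw x hx => Or.inl (hcl w hw x hx)
  have h4 := h2 {c} (singleton_subset_iff.2 hcU) w (singleton_nonempty c)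
    (fun hh => hcW (mem_singleton.1 hh ▸ hw)) fun y hy x hx => by
      rw [mem_singleton.1 hy] at hx
      rcases h1 x (h _ _ hx.symm).1 with h5 | h5
      · exact absurd (hcl x h5 c hx.symm) hcW
      · exact absurd h5 (h _ _ hx.symm).2
  have h5 : U ⊆ {c, w} := fun x hx => by simpa using h4 x hx
  have := (card_le_card h5).trans card_le_two
  omega

end Cmp

open Cmp in
theorem p_Cmp : S_Cmp := by
  classical
  have cc : ∀ n L (A : Finset ℕ), comps n L A =
      (univ.image (spanning n L A).connectedComponentMk).card := fun n L A =>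
    card_comp fun x y => ConnectedComponent.eq
  refine ⟨fun n L A U ⟨u, hu⟩ h => ?_, fun n L A U h hc ⟨u, hu⟩ => ?_, fun n L A D hlt => ?_⟩
  · rw [cc, ← card_ins hu]
    refine Nat.add_le_add_right (card_le_card_of_injOn (spanning n L A).connectedComponentMk
      (fun x _ => mem_image_of_mem _ (mem_univ x)) fun x hx y hy hxy => ?_) _
    have r := ConnectedComponent.eq.1 hxy
    rcases mem_insert.1 hx with hx | hx
    · rcases mem_insert.1 hy with hy | hy
      · rw [hx, hy]
      · exact iso h (mem_compl.1 hy) r.symm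
    · exact (iso h (mem_compl.1 hx) r).symm
  · rw [cc, ← card_ins hu]
    refine Nat.add_le_add_right (le_trans (card_le_card fun z hz => ?_)
      (card_image_le (f := (spanning n L A).connectedComponentMk))) _
    obtain ⟨x, -, rfl⟩ := mem_image.1 hz
    by_cases hx : x ∈ U
    · exact mem_image.2 ⟨u, mem_insert_self _ _, ConnectedComponent.eq.2 (reachU h hc hu hx)⟩
    · exact mem_image_of_mem _ (mem_insert_of_mem (mem_compl.2 hx))
  · by_contra hn
    have key : ∀ x y, (spanning n L (A ∪ D)).Reachable x y → (spanning n L A).Reachable x y := by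
      intro x y r
      refine stay (P := fun z => (spanning n L A).Reachable x z) (fun w hw z hz => ?_)
        (Reachable.refl x) r
      obtain ⟨i, hi, e⟩ := hz
      rcases mem_union.1 hi with hi | hi
      · exact hw.trans (reach1 ⟨i, hi, e⟩)
      · by_contra h0
        exact hn ⟨univ.filter fun z => (spanning n L A).Reachable x z, fun a ha b hb =>
          mem_filter.2 ⟨mem_univ _, (mem_filter.1 ha).2.trans (reach1 hb)⟩, w,
          mem_filter.2 ⟨mem_univ _, hw⟩, z, fun h1 => h0 (mem_filter.1 h1).2, i, hi, e⟩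
    have e : comps n L (A ∪ D) = (univ.image (spanning n L A).connectedComponentMk).card :=
      card_comp fun x y => ConnectedComponent.eq.trans
        ⟨fun r => r.mono (spanning_mono subset_union_left), key x y⟩
    rw [e, cc] at hlt
    exact lt_irrefl _ hlt

open Cmp in
theorem p_C2 (hC : S_Cmp) : S_C2 := by
  classical
  intro n L E U hL hE h3 h h2
  have hU : ∀ x y, Ad n L E x y → x ∈ U := fun x y hxy => (h x y hxy).1
  have hc := conn_of_T2 h3 h h2
  have hne : U.Nonempty := card_pos.1 (by omega)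
  refine ⟨?_, le_antisymm (hC.2.1 n L E U hU hc hne) (hC.1 n L E U hne hU)⟩
  have hk := isK_comps n L
  have ends : ∀ i ∈ E, ∃ x y : Fin n, Ends L i x y := fun i hi =>
    exists_ends hL (mem_range.1 (hE hi))
  refine conn_of_sp hk fun S hS ⟨i0, hi0⟩ ⟨j0, hj0⟩ hs => ?_
  have ex : ∃ w a b : Fin n, ∃ i ∈ S, ∃ j ∈ E \ S, Ends L i w a ∧ Ends L j w b := by
    by_contra hn
    obtain ⟨a0, b0, e0⟩ := ends i0 (hS hi0)
    obtain ⟨c0, d0, e1⟩ := ends j0 (mem_sdiff.1 hj0).1
    obtain ⟨i, hi, z, hz⟩ := stay (P := fun x => ∃ i ∈ S, ∃ y, Ends L i x y)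
      (fun x ⟨i, hi, z, hz⟩ y ⟨j, hj, e⟩ => by
        by_cases hjS : j ∈ S
        · exact ⟨j, hjS, x, e.symm⟩
        · exact absurd ⟨x, z, y, i, hi, j, mem_sdiff.2 ⟨hj, hjS⟩, hz, e⟩ hn)
      ⟨i0, hi0, b0, e0⟩
      (reachU hU hc (hU _ _ ⟨i0, hS hi0, e0⟩) (hU _ _ ⟨j0, (mem_sdiff.1 hj0).1, e1⟩))
    exact hn ⟨c0, z, d0, i, hi, j0, hj0, hz, e1⟩
  obtain ⟨w, a, b, i, hi, j, hj, ea, eb⟩ := ex
  have aa : Ad n L E w a := ⟨i, hS hi, ea⟩
  have ab : Ad n L E w b := ⟨j, (mem_sdiff.1 hj).1, eb⟩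
  let F := E.filter fun l => ∀ y, ¬ Ends L l w y
  have r2 : (spanning n L F).Reachable a b := by
    have t := h2 ((U.erase w).filter fun x => (spanning n L F).Reachable a x)
      ((filter_subset _ _).trans (erase_subset _ _)) w
      ⟨a, mem_filter.2 ⟨mem_erase.2 ⟨(h _ _ aa.symm).2, hU _ _ aa.symm⟩, Reachable.refl _⟩⟩
      (fun hh => notMem_erase w U (mem_filter.1 hh).1) (fun y hy x hx => by
        by_cases hxw : x = w
        · exact Or.inr hxw
        · obtain ⟨hy1, hy2⟩ := mem_filter.1 hy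
          obtain ⟨l, hl, e⟩ := hx
          refine Or.inl (mem_filter.2 ⟨mem_erase.2 ⟨hxw, hU _ _ ⟨l, hl, e.symm⟩⟩,
            hy2.trans (reach1 ⟨l, mem_filter.2 ⟨hl, fun t ht => ?_⟩, e⟩)⟩)
          rcases e.eq ht with h1 | h1
          · exact ne_of_mem_erase hy1 h1.symm
          · exact hxw h1.symm) b (hU _ _ ab.symm)
    rcases t with t | t
    · exact (mem_filter.1 t).2
    · exact absurd t (h _ _ ab.symm).2
  have r3 : (spanning n L (insert i F)).Reachable w b :=
    (reach1 ⟨i, mem_insert_self _ _, ea⟩).trans (r2.mono (spanning_mono (subset_insert _ _)))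
  have r4 : ¬ (spanning n L (F \ S)).Reachable w b := fun r =>
    (h _ _ ab.symm).2 (stay (P := fun x => x = w) (fun x hx y ⟨l, hl, e⟩ =>
      absurd (hx ▸ e) ((mem_filter.1 (mem_sdiff.1 hl).1).2 y)) rfl r)
  have c1 := eb.comps.1 r3
  have c2 := eb.comps.2 r4
  have hA : insert i (F ∩ S) ⊆ S := insert_subset hi inter_subset_right
  have hB : F \ S ⊆ E \ S := sdiff_subset_sdiff (filter_subset _ _) Subset.rfl
  have m1 := hs.modular hk hS hA hB
  have m2 := hs.modular hk hS hA (insert_subset hj hB)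
  rw [union_insert] at m2
  rw [insert_union, union_comm, sdiff_union_inter] at m1 m2
  omega

end Pool.Agent.P.MP_e0c037_lc.SG
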