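import Pool.Agent.P.MP_e0c037_lc.SG.Base

/-! The dual count: oracle, class membership and the duality formula. -/

namespace Pool.Agent.P.MP_e0c037_lc.SG

open Finset Pool.Agent.Lib.helper21

namespace DualP

theorem sd_ins {R A : Finset ℕ} {e : ℕ} (h : e ∈ R \ A) :
    R \ A = insert e (R \ insert e A) ∧ (R \ A).card = (R \ insert e A).card + 1 := by
  have h1 : R \ A = insert e (R \ insert e A) := by rw [sdiff_insert, insert_erase h]
  refine ⟨h1, ?_⟩
  rw [h1, card_insert_of_notMem (by simp)]

theorem sd_out {R A : Finset ℕ} {e : ℕ} (h : e ∉ R \ A) : R \ insert e A = R \ A := by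
  rw [sdiff_insert, erase_eq_of_notMem h]

theorem isK_kd (G : Inp) : IsK (kd G) := by
  have h := isK_comps G.1 G.2
  refine ⟨fun A e => ?_, fun A e => ?_, fun A B e hAB h1 => ?_⟩
  · unfold kd
    by_cases he : e ∈ range G.2.length \ A
    · obtain ⟨a1, a2⟩ := sd_ins he
      have := h.ge (range G.2.length \ insert e A) e
      rw [← a1] at this
      omega
    · rw [sd_out he]
  · unfold kd
    by_cases he : e ∈ range G.2.length \ A
    · obtain ⟨a1, a2⟩ := sd_ins he
      have := h.le (range G.2.length \ insert e A) e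
      rw [← a1] at this
      omega
    · rw [sd_out he]
      omega
  · unfold kd at h1 ⊢
    by_cases he : e ∈ range G.2.length \ B
    · obtain ⟨a1, a2⟩ := sd_ins (sdiff_subset_sdiff Subset.rfl hAB he)
      obtain ⟨b1, b2⟩ := sd_ins he
      have := ser_eq h (F := range G.2.length \ insert e A) (g := e) (by rw [← a1]; omega)
        (A := range G.2.length \ insert e B)
        (sdiff_subset_sdiff Subset.rfl (insert_subset_insert _ hAB))
      rw [← b1] at this
      omega
    · rw [sd_out he]

/-- The positions outside `A`. -/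
def cpl (G : Inp) (A : List ℕ) : List ℕ := (List.range G.2.length).filter fun i => !memb i A

theorem cpl_eq (G : Inp) (A : List ℕ) : (cpl G A).toFinset = range G.2.length \ A.toFinset := by
  ext i
  simp [cpl, memb_iff]

theorem orc_kd : Orc (fun p => (cpl p.1 p.2).length + kk p.1 (cpl p.1 p.2)) kd := by
  refine ⟨by unfold cpl memb; fun_prop, isK_kd, fun G hG A _ => ?_⟩
  have h1 : (cpl G A).Nodup := List.nodup_range.filter _
  have h2 : ∀ i ∈ cpl G A, i < G.2.length := fun i hi =>
    List.mem_range.1 (List.mem_of_mem_filter hi)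
  show (cpl G A).length + kk G (cpl G A) = _
  rw [kk_eq hG h2, ← List.toFinset_card_of_nodup h1, cpl_eq]
  rfl

end DualP

open DualP

theorem p_Dual : S_Dual := by
  refine ⟨⟨fun p => kk p.1 p.2, pt_kk0, fun G => isK_comps G.1 G.2, fun G hG A hA => kk_eq hG hA⟩,
    ⟨_, orc_kd⟩, fun G hG => ⟨isK_kd G, G.1, G.2, G.2.length, 0, hG, Subset.rfl, fun A hA => ?_⟩,
    fun G q => ?_⟩
  · have h1 := card_sdiff_add_card_eq_card hA
    rw [card_range] at h1
    unfold kd
    omega
  · unfold dichromatic Zk
    rw [mul_sum]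
    refine sum_nbij' (fun A => range G.2.length \ A) (fun A => range G.2.length \ A)
      (fun A _ => mem_powerset.2 sdiff_subset) (fun A _ => mem_powerset.2 sdiff_subset)
      (fun A hA => Finset.sdiff_sdiff_eq_self (mem_powerset.1 hA))
      (fun A hA => Finset.sdiff_sdiff_eq_self (mem_powerset.1 hA)) fun A hA => ?_
    have hA' := mem_powerset.1 hA
    have h1 := card_sdiff_add_card_eq_card hA'
    rw [card_range] at h1
    unfold kd
    rw [Finset.sdiff_sdiff_eq_self hA', prod_const]
    generalize (range G.2.length \ A).card = b at h1 ⊢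
    have h2 : ((-1 / 2 : ℝ) * -2) ^ b = 1 := by norm_num
    rw [mul_pow] at h2
    rw [← h1, pow_add, pow_add, show -q / 2 = -1 / 2 * q by ring, mul_pow]
    linear_combination (-(q ^ comps G.1 G.2 A * ((-1 / 2) ^ A.card * q ^ A.card))) * h2

end Pool.Agent.P.MP_e0c037_lc.SG
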