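import Pool.Agent.P.MP_e0c037_lc.SG.Base

/-! Escape from the interval `[-1, 1]` under products and series composition. -/

namespace Pool.Agent.P.MP_e0c037_lc.SG

namespace Esc

/-- The negative of the series coordinate. -/
noncomputable def W (q s : ℝ) : ℝ := (q - 1 + s) / (1 - s)

theorem X_eq (q : ℝ) {s : ℝ} (hs : s ≠ 1) : 1 - q / (1 - s) = -W q s := by
  have h : 1 - s ≠ 0 := sub_ne_zero.mpr hs.symm
  unfold W
  field_simp
  ring

theorem P_mul (q : ℝ) {s : ℝ} (hs : s ≠ 1) : W q s * (1 - s) = q - 1 + s := by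
  have h : 1 - s ≠ 0 := sub_ne_zero.mpr hs.symm
  unfold W
  field_simp

theorem P_eq {q s r : ℝ} (hs : s ≠ 1) (h : r * (1 - s) = q - 1 + s) : W q s = r := by
  have h1 : 1 - s ≠ 0 := sub_ne_zero.mpr hs.symm
  unfold W
  rw [div_eq_iff h1, h]

theorem le_P {q s r : ℝ} (hs : s < 1) (h : r * (1 - s) ≤ q - 1 + s) : r ≤ W q s := by
  unfold W
  rw [le_div_iff₀ (by linarith)]
  exact h

theorem P_le {q s r : ℝ} (hs : s < 1) (h : q - 1 + s ≤ r * (1 - s)) : W q s ≤ r := by
  unfold W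
  rw [div_le_iff₀ (by linarith)]
  exact h

/-- The closure property used throughout. -/
def Key (q : ℝ) (I : ℝ → Prop) : Prop :=
  ∀ y z, I y → I z → y ≠ 1 → z ≠ 1 → W q y * W q z ≠ 1 →
    W q y * W q z ≤ 1 - q / 2 ∧ I (q / (1 - W q y * W q z) - 1)

theorem key {q : ℝ} {I : ℝ → Prop} (hq : 1 < q) (hneg : ∀ y, I y → I (-y))
    (hle : ∀ y, I y → y ≤ 1)
    (hs : ∀ y z, I y → I z → y ≠ 1 → z ≠ 1 → (1 - q / (1 - y)) * (1 - q / (1 - z)) ≠ 1 →
      I (1 - q / (1 - (1 - q / (1 - y)) * (1 - q / (1 - z))))) : Key q I := by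
  intro y z hy hz hy1 hz1 hu
  have h := hs y z hy hz hy1 hz1 (by rw [X_eq q hy1, X_eq q hz1, neg_mul_neg]; exact hu)
  rw [X_eq q hy1, X_eq q hz1, neg_mul_neg] at h
  generalize W q y * W q z = u at hu h
  have h' : I (q / (1 - u) - 1) := by
    have := hneg _ h
    rwa [neg_sub] at this
  refine ⟨?_, h'⟩
  have a1 := hle _ h
  have a2 := hle _ h'
  have hu1 : 0 < 1 - u := by
    rcases lt_or_gt_of_ne (sub_ne_zero.mpr hu.symm) with h0 | h0
    · have : q / (1 - u) < 0 := div_neg_of_pos_of_neg (by linarith) h0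
      linarith
    · exact h0
  have : q / (1 - u) ≤ 2 := by linarith
  rw [div_le_iff₀ hu1] at this
  linarith

/-- One step of the iteration stays below `1`. -/
theorem step {q c s0 s : ℝ} {I : ℝ → Prop} (hq : 1 < q) (hq2 : q < 2) (K : Key q I) (h0 : I s0)
    (h01 : s0 ≠ 1) (hc : W q s0 = c) (hc1 : 1 / 2 ≤ c) (hc2 : c * c ≤ 1 - q / 2) (hs : I s)
    (hs1 : s < 1) (hne : s ≠ s0 ∨ c * c < 1 - q / 2) :
    c * W q s < 1 - q / 2 ∧ I (q / (1 - c * W q s) - 1) := by
  have hs1' : s ≠ 1 := hs1.ne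
  have hsq := K s s hs hs hs1' hs1'
  have hm := K s0 s h0 hs h01 hs1'
  rw [hc] at hm
  have e0 := P_mul q h01
  have e1 := P_mul q hs1'
  rw [hc] at e0
  generalize W q s = p at *
  have hu : c * p ≠ 1 := by
    intro hu
    have h1 : (c * c) * (p * p) = 1 := by
      calc (c * c) * (p * p) = (c * p) * (c * p) := by ring
        _ = 1 := by rw [hu]; ring
    have h2 : 1 < p * p := by nlinarith [mul_self_nonneg p]
    have := (hsq h2.ne').1
    linarith
  obtain ⟨h1, h2⟩ := hm hu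
  refine ⟨lt_of_le_of_ne h1 ?_, h2⟩
  intro hu'
  have hp0 : 0 < p := by
    by_contra hp
    have : c * p ≤ 0 := mul_nonpos_of_nonneg_of_nonpos (by linarith) (not_lt.mp hp)
    linarith
  have hp1 : p < 1 := by nlinarith
  have h3 : p * p < 1 := by nlinarith
  have h4 := (hsq h3.ne).1
  have h5 : p ≤ c := by nlinarith
  have h6 : c ≤ p := by nlinarith
  have h7 : p = c := le_antisymm h5 h6
  subst h7
  rcases hne with hne | hne
  · apply hne
    have : (1 + p) * (s - s0) = 0 := by linarith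
    rcases mul_eq_zero.mp this with h | h
    · linarith
    · linarith
  · linarith

theorem lt_one {q u : ℝ} (hq : 0 < q) (hu : u < 1 - q / 2) : q / (1 - u) - 1 < 1 := by
  have : q / (1 - u) < 2 := by
    rw [div_lt_iff₀ (by linarith)]
    linarith
  linarith

theorem le_G {q u r : ℝ} (hu : u < 1) (h : (r + 1) * (1 - u) ≤ q) : r ≤ q / (1 - u) - 1 := by
  have : r + 1 ≤ q / (1 - u) := by
    rw [le_div_iff₀ (by linarith)]
    exact h
  linarith

theorem G_le {q u r : ℝ} (hu : u < 1) (h : q ≤ (r + 1) * (1 - u)) : q / (1 - u) - 1 ≤ r := by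
  have : q / (1 - u) ≤ r + 1 := by
    rw [div_le_iff₀ (by linarith)]
    exact h
  linarith

theorem grow {q c s : ℝ} (hq : 1 < q) (hc1 : 1 / 2 ≤ c) (hs : 1 / 3 ≤ s) (hs1 : s < 1)
    (hu : c * W q s < 1) : s + (q - 1) ≤ q / (1 - c * W q s) - 1 := by
  apply le_G hu
  have h1 : 2 * s / (1 + s) ≤ W q s := by
    apply le_P hs1
    rw [div_mul_eq_mul_div, div_le_iff₀ (by linarith)]
    nlinarith
  rw [div_le_iff₀ (by linarith)] at h1
  have hp : 0 ≤ W q s := le_P hs1 (by linarith)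
  generalize W q s = p at *
  have h2 : 1 / 2 * p ≤ c * p := mul_le_mul_of_nonneg_right hc1 hp
  have h3 : (1 + s) * (1 / 2 * p) ≤ (q + s) * (c * p) :=
    mul_le_mul (by linarith) h2 (by linarith) (by linarith)
  nlinarith

/-- The iteration cannot go on for ever. -/
theorem iter {q c s0 t : ℝ} {I : ℝ → Prop} (hq : 1 < q) (hq2 : q < 2) (K : Key q I) (h0 : I s0)
    (h01 : s0 ≠ 1) (hc : W q s0 = c) (hc1 : 1 / 2 ≤ c) (hc2 : c * c ≤ 1 - q / 2) (ht : I t)
    (ht1 : t < 1) (ht3 : 1 / 3 ≤ t) (hne : s0 < t ∨ c * c < 1 - q / 2) : False := by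
  have H : ∀ n : ℕ, ∃ s, I s ∧ s < 1 ∧ t + n * (q - 1) ≤ s := by
    intro n
    induction n with
    | zero => exact ⟨t, ht, ht1, by simp⟩
    | succ n ih =>
      obtain ⟨s, hs, hs1, hts⟩ := ih
      have hn : (0 : ℝ) ≤ n * (q - 1) := mul_nonneg (Nat.cast_nonneg n) (by linarith)
      have hne' : s ≠ s0 ∨ c * c < 1 - q / 2 :=
        hne.imp (fun h => ne_of_gt (by linarith)) id
      obtain ⟨h1, h2⟩ := step hq hq2 K h0 h01 hc hc1 hc2 hs hs1 hne'
      refine ⟨_, h2, lt_one (by linarith) h1, ?_⟩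
      have := grow hq hc1 (by linarith) hs1 (by linarith)
      push_cast
      linarith
  obtain ⟨n, hn⟩ := exists_nat_gt (1 / (q - 1))
  rw [div_lt_iff₀ (by linarith)] at hn
  obtain ⟨s, -, hs1, hts⟩ := H n
  linarith

/-- The boundary case `c ^ 2 = 1 - q / 2`. -/
theorem edge {q c s0 : ℝ} {I : ℝ → Prop} (hq : 1 < q) (hq2 : q ≤ 32 / 27) (K : Key q I)
    (h0 : I s0) (h00 : I (s0 * s0)) (hs0 : s0 * (4 - q) = q) (hc : W q s0 = c)
    (hcq : c * (4 - 2 * q) = 6 * q - q ^ 2 - 4) (hc1 : 1 / 2 ≤ c) (hc2 : c * c = 1 - q / 2) :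
    False := by
  have hcu : c ≤ 0.71 := by nlinarith
  have hqu : q ≤ 1.08 := by
    by_contra h
    rw [not_le] at h
    nlinarith
  have hcl : 0.678 ≤ c := by nlinarith
  have hql : 1.06 ≤ q := by
    by_contra h
    rw [not_le] at h
    nlinarith
  have hcu' : c ≤ 0.686 := by nlinarith
  have s0l : 0.36 ≤ s0 := by nlinarith
  have s0u : s0 ≤ 0.37 := by nlinarith
  have h01 : s0 ≠ 1 := by linarith [s0u] |> fun h : s0 < 1 => h.ne
  have tl : 0.129 ≤ s0 * s0 := by nlinarith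
  have tu : s0 * s0 ≤ 0.137 := by nlinarith
  generalize s0 * s0 = t at *
  obtain ⟨a1, a2⟩ := step hq (by linarith) K h0 h01 hc hc1 hc2.le h00 (by linarith)
    (Or.inl (ne_of_lt (by linarith)))
  have p1l : 0.216 ≤ W q t := le_P (by linarith) (by linarith)
  have p1u : W q t ≤ 0.252 := P_le (by linarith) (by linarith)
  have u1l : 0.146 ≤ c * W q t := by nlinarith
  have u1u : c * W q t ≤ 0.173 := by nlinarith
  generalize c * W q t = u at *
  have s2l : 0.24 ≤ q / (1 - u) - 1 := le_G (by linarith) (by linarith)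
  have s2u : q / (1 - u) - 1 ≤ 0.31 := G_le (by linarith) (by linarith)
  generalize q / (1 - u) - 1 = s at *
  obtain ⟨b1, b2⟩ := step hq (by linarith) K h0 h01 hc hc1 hc2.le a2 (by linarith)
    (Or.inl (ne_of_lt (by linarith)))
  have p2l : 0.39 ≤ W q s := le_P (by linarith) (by linarith)
  have u2l : 0.26 ≤ c * W q s := by nlinarith
  have s3u := lt_one (by linarith) b1
  generalize c * W q s = w at *
  have s3l : 0.4 ≤ q / (1 - w) - 1 := le_G (by linarith) (by linarith)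
  exact iter hq (by linarith) K h0 h01 hc hc1 hc2.le b2 s3u (by linarith) (Or.inl (by linarith))

end Esc

open Esc in
theorem p_Esc : S_Esc := by
  intro q I hq hq2 hm hmul hs
  by_contra hno
  have hle : ∀ y, I y → y ≤ 1 := fun y hy => not_lt.mp fun h => hno ⟨y, hy, h⟩
  have hneg : ∀ y, I y → I (-y) := fun y hy => by
    have := hmul _ _ hm hy
    rwa [neg_one_mul] at this
  have K : Key q I := key hq hneg hle hs
  have h4 : 0 < 4 - q := by linarith
  have h2 : 0 < 4 - 2 * q := by linarith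
  obtain ⟨s0, hs0⟩ : ∃ s0 : ℝ, s0 * (4 - q) = q := ⟨q / (4 - q), by field_simp⟩
  obtain ⟨c, hcq⟩ : ∃ c : ℝ, c * (4 - 2 * q) = 6 * q - q ^ 2 - 4 :=
    ⟨(6 * q - q ^ 2 - 4) / (4 - 2 * q), div_mul_cancel₀ _ h2.ne'⟩
  have s0l : 1 / 3 ≤ s0 := by nlinarith
  have s0u : s0 < 1 / 2 := by nlinarith
  have h01 : s0 ≠ 1 := ne_of_lt (by linarith)
  have hm1 : (-1 : ℝ) ≠ 1 := by norm_num
  have pm : W q (-1) = -(1 - q / 2) := P_eq hm1 (by ring)
  have h0 : I s0 := by
    have h := K _ _ hm hm hm1 hm1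
    rw [pm, neg_mul_neg] at h
    have hlt : (1 - q / 2) * (1 - q / 2) < 1 := by nlinarith
    have e : q / (1 - (1 - q / 2) * (1 - q / 2)) - 1 = s0 :=
      le_antisymm (G_le hlt (by nlinarith)) (le_G hlt (by nlinarith))
    rw [← e]
    exact (h hlt.ne).2
  have hc : W q s0 = c := by
    apply P_eq h01
    apply mul_right_cancel₀ h4.ne'
    linear_combination hcq - (c + 1) * hs0
  have hc1 : 1 / 2 ≤ c := by nlinarith
  by_cases hone : c = 1
  · subst hone
    have hq8 : q ^ 2 = 8 * q - 8 := by linarith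
    have hn1 : -s0 ≠ 1 := ne_of_lt (by linarith)
    have pn : W q (-s0) = -((1 - q / 2) * (1 - q / 2)) := by
      apply P_eq hn1
      apply mul_right_cancel₀ h4.ne'
      linear_combination (1 - (1 - q / 2) * (1 - q / 2)) * hs0
    have h := K _ _ hm (hneg _ h0) hm1 hn1
    have e : W q (-1) * W q (-s0) = 3 - 5 * q / 2 := by
      rw [pm, pn]
      linear_combination (-(q / 8) - 1 / 4) * hq8
    rw [e] at h
    have hlt : 3 - 5 * q / 2 < 1 := by linarith
    have h1 := (h hlt.ne).2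
    have s1u : q / (1 - (3 - 5 * q / 2)) - 1 ≤ 1 / 2 := G_le hlt (by nlinarith)
    have s1e : (q / (1 - (3 - 5 * q / 2)) - 1 + 1) * (1 - (3 - 5 * q / 2)) = q := by
      rw [sub_add_cancel, div_mul_cancel₀ _ (by linarith)]
    generalize q / (1 - (3 - 5 * q / 2)) - 1 = s1 at *
    have hs1 : s1 ≠ 1 := ne_of_lt (by linarith)
    have p1 : W q s1 = q / 2 := by
      apply P_eq hs1
      apply mul_right_cancel₀ (show (1 - (3 - 5 * q / 2)) ≠ 0 from ne_of_gt (by linarith))
      linear_combination (-(q / 2) - 1) * s1e + (-1 / 2) * hq8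
    have h' := K _ _ h0 h1 h01 hs1
    rw [hc, p1, one_mul] at h'
    have := (h' (ne_of_lt (by linarith))).1
    linarith
  · have hcc : c * c ≠ 1 := by
      intro h
      apply hone
      nlinarith
    have h := K _ _ h0 h0 h01 h01
    rw [hc] at h
    rcases (h hcc).1.lt_or_eq with hlt | heq
    · exact iter hq (by linarith) K h0 h01 hc hc1 hlt.le h0 (by linarith) s0l (Or.inr hlt)
    · exact edge hq hq2 K h0 (hmul _ _ h0 h0) hs0 hc hcq hc1 heq

end Pool.Agent.P.MP_e0c037_lc.SG
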