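import Pool.Agent.P.MP_e0c037_lc.SG.Base

/-! The class lemma for three-connected simple graphs: contraction of edges. -/

namespace Pool.Agent.P.MP_e0c037_lc.SG

open Finset

namespace GA

variable {V : Type} {U : Finset V} {adj sp sp' fe : V → V → Prop} {u v w c c' : V}
  {W W' : Finset V}

/-- The data of a twin region. -/
structure Tr (U : Finset V) (adj sp : V → V → Prop) (u v : V) (W : Finset V) (c : V) : Prop where
  sub : W ⊆ U
  ne : W.Nonempty
  hu : u ∉ W
  hv : v ∉ W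
  hc : c ∉ W
  nb : ∀ w ∈ W, ∀ x, adj w x → x ∈ W ∨ x = u ∨ x = v ∨ x = c
  tw : ∀ w ∈ W, (sp w u ∧ sp w v) ∨ (¬ adj w u ∧ ¬ adj w v)

theorem Tr.of_trip (h : Trip U adj sp u v) : ∃ W c, Tr U adj sp u v W c :=
  let ⟨W, h1, c, h2, h3, h4, h5, h6, h7⟩ := h; ⟨W, c, h1, h2, h3, h4, h5, h6, h7⟩

theorem Tr.symm (h : Tr U adj sp u v W c) : Tr U adj sp v u W c :=
  ⟨h.sub, h.ne, h.hv, h.hu, h.hc, fun w hw x hx => by have := h.nb w hw x hx; tauto,
    fun w hw => by have := h.tw w hw; tauto⟩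

theorem Tr.mono (h : Tr U adj sp u v W c) (hs : ∀ x y, sp x y → sp' x y) :
    Tr U adj sp' u v W c :=
  ⟨h.sub, h.ne, h.hu, h.hv, h.hc, h.nb,
    fun x hx => (h.tw x hx).imp_left fun hh => ⟨hs _ _ hh.1, hs _ _ hh.2⟩⟩

theorem Tr.unrem {a b : V} (h : Tr U adj (rem sp a b) u v W c) : Tr U adj sp u v W c :=
  h.mono fun _ _ hh => hh.1

/-- A twin region contains a common neighbour. -/
theorem Tr.common (T : T3 U adj) (huv : adj u v) (h : Tr U adj sp u v W c) :
    ∃ w ∈ W, sp w u ∧ sp w v := by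
  by_contra hn
  have h1 : ∀ w ∈ W, ¬ adj w u ∧ ¬ adj w v := fun w hw =>
    (h.tw w hw).resolve_left fun hh => hn ⟨w, hw, hh⟩
  have h2 := T.cut W h.sub c c h.ne h.hc h.hc fun w hw x hx => by
    rcases h.nb w hw x hx with h3 | rfl | rfl | h3
    · exact Or.inl h3
    · exact absurd hx (h1 w hw).1
    · exact absurd hx (h1 w hw).2
    · exact Or.inr (Or.inl h3)
  have h3 := h2 u (T.mem _ _ huv)
  have h4 := h2 v (T.mem' huv)
  have h5 := T.ne huv
  have := h.hu
  have := h.hv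
  grind

/-- No end of the retained edge lies in `W`. -/
def Av (fe : V → V → Prop) (W : Finset V) : Prop := ∀ w ∈ W, ∀ x, ¬ fe w x

/-- Every twin region that avoids the retained edge has at least `n` vertices. -/
def Mn (U : Finset V) (adj sp fe : V → V → Prop) (n : ℕ) : Prop :=
  ∀ a b W c, adj a b → ¬ fe a b → Tr U adj sp a b W c → Av fe W → n ≤ W.card

/-- The first two alternatives. -/
def Ok (U : Finset V) (adj sp fe : V → V → Prop) : Prop :=
  (∃ a b c d, sp a b ∧ sp c d ∧ ¬ Same a b c d ∧ ¬ Trip U adj (rem sp c d) a b ∧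
      ¬ Trip U adj (rem sp a b) c d) ∨
    ((∃ a b, adj a b ∧ ¬ fe a b ∧ ¬ Trip U adj sp a b) ∧ ∃ c d, adj c d ∧ ¬ fe c d ∧ ¬ sp c d)

/-- A least twin region with a chosen common neighbour. -/
structure Cf (U : Finset V) (adj sp fe : V → V → Prop) (u v : V) (W : Finset V) (c w : V) :
    Prop where
  uv : adj u v
  nf : ¬ fe u v
  tr : Tr U adj sp u v W c
  av : Av fe W
  mn : Mn U adj sp fe W.card
  cU : c ∈ U
  cu : c ≠ u
  cv : c ≠ v
  wW : w ∈ W
  wu : sp w u
  wv : sp w v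

theorem Cf.symm (T : T3 U adj) (M : Mk adj sp fe) (h : Cf U adj sp fe u v W c w) :
    Cf U adj sp fe v u W c w :=
  ⟨T.symm _ _ h.uv, fun hh => h.nf (M.fes _ _ hh), h.tr.symm, h.av, h.mn, h.cU, h.cv, h.cu,
    h.wW, h.wv, h.wu⟩

theorem Cf.nosub (h : Cf U adj sp fe u v W c w) {a b c0 : V} {W0 : Finset V} (hab : adj a b)
    (hf : ¬ fe a b) (hs : ∀ y ∈ W0, y ∈ W ∧ y ≠ w) : ¬ Tr U adj sp a b W0 c0 := by
  intro ht
  have h1 := h.mn a b W0 c0 hab hf ht fun y hy => h.av y (hs y hy).1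
  have h2 : W0 ⊂ W := ⟨fun y hy => (hs y hy).1, fun hh => (hs w (hh h.wW)).2 rfl⟩
  exact absurd (card_lt_card h2) (not_lt.2 h1)

theorem nfe (M : Mk adj sp fe) {a b : V} (h : sp a b) : ¬ fe a b := fun hh => (M.fea _ _ hh).2 h

/-- The position of the second region. -/
theorem Cf.pos (T : T3 U adj) (M : Mk adj sp fe) (h : Cf U adj sp fe u v W c w)
    (h' : Tr U adj (rem sp v w) u w W' c') :
    v ∉ W' ∧ c ∈ W' ∧ ∀ y ∈ W', y ∈ W ∨ y = c := by
  classical
  have awu := M.spa _ _ h.wu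
  have awv := M.spa _ _ h.wv
  have hv : v ∉ W' := fun hh => by
    rcases h'.tw v hh with h1 | h1
    · exact h1.2.2 (Or.inl ⟨rfl, rfl⟩)
    · exact h1.2 (T.symm _ _ awv)
  have hy : ∀ y ∈ W', y ∈ W ∨ y = c := by
    by_contra hn
    have hne : (W'.filter fun y => y ∉ W ∧ y ≠ c).Nonempty := by
      by_contra h2
      refine hn fun y hy => ?_
      by_contra h3
      exact h2 ⟨y, mem_filter.2 ⟨hy, fun h4 => h3 (Or.inl h4), fun h4 => h3 (Or.inr h4)⟩⟩
    have h2 := T.cut _ ((filter_subset _ _).trans h'.sub) c c' hne (by simp)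
      (fun hh => h'.hc (mem_filter.1 hh).1) fun y hy x hx => by
        obtain ⟨y1, y2, y3⟩ := mem_filter.1 hy
        have y4 : ∀ z ∈ W, ¬ adj y z := fun z hz hh => by
          rcases h.tr.nb z hz y (T.symm _ _ hh) with h3 | rfl | rfl | h3
          · exact y2 h3
          · exact h'.hu y1
          · exact hv y1
          · exact y3 h3
        have y5 : ¬ adj y u := by
          rcases h'.tw y y1 with h3 | h3
          · exact absurd (M.spa _ _ h3.2.1) (y4 w h.wW)
          · exact h3.1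
        rcases h'.nb y y1 x hx with h3 | rfl | rfl | h3
        · by_cases h4 : x = c
          · exact Or.inr (Or.inl h4)
          · exact Or.inl (mem_filter.2 ⟨h3, fun h5 => y4 x h5 hx, h4⟩)
        · exact absurd hx y5
        · exact absurd hx (y4 _ h.wW)
        · exact Or.inr (Or.inr h3)
    have h3 := h2 u (T.mem _ _ h.uv)
    have h4 := h2 v (T.mem' h.uv)
    have h5 := T.ne h.uv
    have := h.cu
    have := h.cv
    have := h'.hu
    simp only [mem_filter] at h3 h4
    grind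
  refine ⟨hv, ?_, hy⟩
  by_contra hc
  refine h.nosub (T.symm _ _ awu) (nfe M (M.sps _ _ h.wu)) (fun y y1 => ⟨?_, ?_⟩) h'.unrem
  · exact (hy y y1).resolve_right fun e => hc (e ▸ y1)
  · exact fun e => h'.hv (e ▸ y1)

/-- The case of a vertex outside the region and its boundary. -/
theorem Cf.outer (T : T3 U adj) (M : Mk adj sp fe) (h : Cf U adj sp fe u v W c w)
    (h' : Tr U adj (rem sp v w) u w W' c')
    (hX : ∃ x ∈ U, x ∉ W ∧ x ≠ u ∧ x ≠ v ∧ x ≠ c) : Ok U adj sp fe := by
  classical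
  obtain ⟨hv, hc, hy⟩ := h.pos T M h'
  have awu := M.spa _ _ h.wu
  have awv := M.spa _ _ h.wv
  have wU := h.tr.sub h.wW
  have wu := T.ne awu
  have wv := T.ne awv
  have uv := T.ne h.uv
  have wc : w ≠ c := fun e => h.tr.hc (e ▸ h.wW)
  have cu := h.cu
  have cv := h.cv
  -- `c'` is an outer neighbour of `c`
  obtain ⟨acc, c1, c2, c3⟩ : adj c c' ∧ c' ∉ W ∧ c' ≠ u ∧ c' ≠ v := by
    by_contra hn
    obtain ⟨x0, x1, x2⟩ := hX
    have h2 := T.cut (U.filter fun x => x ∉ W ∧ x ≠ u ∧ x ≠ v ∧ x ≠ c) (filter_subset _ _) u v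
      ⟨x0, mem_filter.2 ⟨x1, x2⟩⟩ (by simp) (by simp) fun y hy' x hx => by
        obtain ⟨y1, y2, y3, y4, y5⟩ := mem_filter.1 hy'
        by_cases e1 : x = u
        · exact Or.inr (Or.inl e1)
        by_cases e2 : x = v
        · exact Or.inr (Or.inr e2)
        refine Or.inl (mem_filter.2 ⟨T.mem' hx, fun hh => ?_, e1, e2, fun hh => ?_⟩)
        · have := h.tr.nb x hh y (T.symm _ _ hx)
          tauto
        · subst hh
          have h3 := T.symm _ _ hx
          rcases h'.nb x hc y h3 with h4 | h4 | h4 | h4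
          · exact (hy y h4).elim y2 y5
          · exact y3 h4
          · exact y2 (h4 ▸ h.wW)
          · exact hn ⟨h4 ▸ h3, h4 ▸ y2, h4 ▸ y3, h4 ▸ y4⟩
    have h3 := h2 w wU
    have := h.wW
    simp only [mem_filter] at h3
    tauto
  have cc := T.ne acc
  have cw : c' ≠ w := fun e => c1 (e ▸ h.wW)
  have dis : ∀ y ∈ W', y ∉ W := by
    intro y0 y1 y2
    refine h.nosub (a := u) (b := w) (c0 := c) (W0 := W ∩ W') (T.symm _ _ awu)
      (nfe M (M.sps _ _ h.wu))
      (fun y hh => ⟨(mem_inter.1 hh).1, fun e => h'.hv (e ▸ (mem_inter.1 hh).2)⟩)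
      ⟨inter_subset_left.trans h.tr.sub, ⟨y0, mem_inter.2 ⟨y2, y1⟩⟩,
        fun hh => h.tr.hu (mem_inter.1 hh).1, fun hh => h'.hv (mem_inter.1 hh).2,
        fun hh => h.tr.hc (mem_inter.1 hh).1, fun y hh x hx => ?_,
        fun y hh => h'.unrem.tw y (mem_inter.1 hh).2⟩
    have h1 := h.tr.nb y (mem_inter.1 hh).1 x hx
    have h2 := h'.nb y (mem_inter.1 hh).2 x hx
    simp only [mem_inter]
    grind
  have nc : ∀ x, adj c x → x = u ∨ x = w ∨ x = c' := fun x hx => by
    rcases h'.nb c hc x hx with h1 | h1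
    · exact absurd ((hy x h1).resolve_left (dis x h1)).symm (T.ne hx)
    · exact h1
  obtain ⟨scu, scw⟩ : sp c u ∧ sp c w := by
    rcases h'.unrem.tw c hc with h1 | h1
    · exact h1
    · obtain ⟨x, x1, x2, -⟩ := T.deg h.cU c' c'
      rcases nc x x1 with rfl | rfl | rfl
      · exact absurd x1 h1.1
      · exact absurd x1 h1.2
      · exact absurd rfl x2
  have acu := M.spa _ _ scu
  have acw := M.spa _ _ scw
  have one : ∀ y ∈ W, y = w := by
    intro y0 y1
    by_contra y2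
    refine h.nosub (c0 := w) (W0 := W.erase w) h.uv h.nf
      (fun y hh => ⟨mem_of_mem_erase hh, ne_of_mem_erase hh⟩)
      ⟨(erase_subset _ _).trans h.tr.sub, ⟨y0, mem_erase.2 ⟨y2, y1⟩⟩,
        fun hh => h.tr.hu (mem_of_mem_erase hh), fun hh => h.tr.hv (mem_of_mem_erase hh),
        notMem_erase _ _, fun y hh x hx => ?_, fun y hh => h.tr.tw y (mem_of_mem_erase hh)⟩
    obtain ⟨z1, z2⟩ := mem_erase.1 hh
    rcases h.tr.nb y z2 x hx with h1 | h1 | h1 | rfl
    · by_cases e : x = w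
      · exact Or.inr (Or.inr (Or.inr e))
      · exact Or.inl (mem_erase.2 ⟨e, h1⟩)
    · exact Or.inr (Or.inl h1)
    · exact Or.inr (Or.inr (Or.inl h1))
    · rcases nc y (T.symm _ _ hx) with rfl | rfl | rfl
      · exact absurd z2 h.tr.hu
      · exact absurd rfl z1
      · exact absurd z2 c1
  have nw : ∀ x, adj w x → x = u ∨ x = v ∨ x = c := fun x hx => by
    rcases h.tr.nb w h.wW x hx with h1 | h1
    · exact absurd (one x h1).symm (T.ne hx)
    · exact h1
  refine Or.inl ⟨w, c, v, w, M.sps _ _ scw, M.sps _ _ h.wv, by unfold Same; tauto, ?_, ?_⟩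
  · intro ht
    obtain ⟨W0, c0, t⟩ := Tr.of_trip ht
    have v0 : v ∉ W0 := fun hh => by
      rcases t.tw v hh with h1 | h1
      · exact h1.1.2 (Or.inl ⟨rfl, rfl⟩)
      · exact h1.1 (T.symm _ _ awv)
    have u0 : u ∈ W0 := by
      obtain ⟨z, z1, z2, -⟩ := t.common T (T.symm _ _ acw)
      rcases nw z (T.symm _ _ (M.spa _ _ z2.1)) with rfl | rfl | rfl
      · exact z1
      · exact absurd z1 v0
      · exact absurd z1 t.hv
    obtain rfl : v = c0 := by
      have := t.nb u u0 v h.uv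
      grind
    have c0' : c' ∉ W0 := fun hh => by
      rcases t.tw c' hh with h1 | h1
      · have := nw c' (T.symm _ _ (M.spa _ _ h1.1.1))
        grind
      · exact h1.2 (T.symm _ _ acc)
    have h2 := T.cut (U.filter fun x => x ∉ W0 ∧ x ≠ w ∧ x ≠ c ∧ x ≠ v) (filter_subset _ _) c v
      ⟨c', mem_filter.2 ⟨T.mem' acc, c0', cw, cc.symm, c3⟩⟩ (by simp) (by simp)
      fun y hy' x hx => by
        obtain ⟨y1, y2, y3, y4, y5⟩ := mem_filter.1 hy'
        have h3 := t.nb x
        have h4 := nw y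
        have h5 := T.symm _ _ hx
        have h6 := T.mem' hx
        simp only [mem_filter]
        grind
    have h3 := h2 w wU
    simp only [mem_filter] at h3
    tauto
  · intro ht
    obtain ⟨W0, c0, t⟩ := Tr.of_trip ht
    have c0' : c ∉ W0 := fun hh => by
      rcases t.tw c hh with h1 | h1
      · exact h1.2.2 (Or.inr ⟨rfl, rfl⟩)
      · exact h1.2 acw
    have u0 : u ∈ W0 := by
      obtain ⟨z, z1, -, z2⟩ := t.common T (T.symm _ _ awv)
      rcases nw z (T.symm _ _ (M.spa _ _ z2.1)) with rfl | rfl | rfl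
      · exact z1
      · exact absurd z1 t.hu
      · exact absurd z1 c0'
    obtain rfl : c = c0 := by
      have := t.nb u u0 c (T.symm _ _ acu)
      grind
    obtain ⟨x0, x1, x2, x3⟩ := T.deg (T.mem' h.uv) u w
    have x4 : x0 ≠ c := fun e => by
      have := nc v (T.symm _ _ (e ▸ x1))
      grind
    have x5 := (T.ne x1).symm
    have x6 : x0 ∉ W0 := fun hh => by
      rcases t.tw x0 hh with h1 | h1
      · have := nw x0 (T.symm _ _ (M.spa _ _ h1.2.1))
        grind
      · exact h1.1 (T.symm _ _ x1)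
    have h2 := T.cut (U.filter fun x => x ∉ W0 ∧ x ≠ w ∧ x ≠ c ∧ x ≠ v) (filter_subset _ _) c v
      ⟨x0, mem_filter.2 ⟨T.mem' x1, x6, x3, x4, x5⟩⟩ (by simp) (by simp)
      fun y hy' x hx => by
        obtain ⟨y1, y2, y3, y4, y5⟩ := mem_filter.1 hy'
        have h3 := t.nb x
        have h4 := nw y
        have h5 := T.symm _ _ hx
        have h6 := T.mem' hx
        simp only [mem_filter]
        grind
    have h3 := h2 w wU
    simp only [mem_filter] at h3
    tauto

/-- The third alternative in local form. -/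
def Tw (U : Finset V) (adj fe : V → V → Prop) (u v : V) (W : Finset V) (w : V) : Prop :=
  (∀ x y, ¬ fe x y) ∧ U.card ≤ W.card + 3 ∧ (∀ y ∈ U, y ≠ u → y ≠ v → (adj y u ↔ adj y v)) ∧
    ∀ y ∈ U, y ≠ u → y ≠ v → y ≠ w → (adj y u ↔ adj y w)

/-- The case without outer vertices. -/
theorem Cf.inner (T : T3 U adj) (M : Mk adj sp fe) (h : Cf U adj sp fe u v W c w)
    (h' : Tr U adj (rem sp v w) u w W' c')
    (hX : ∀ x ∈ U, x ∈ W ∨ x = u ∨ x = v ∨ x = c) :
    Ok U adj sp fe ∨ Tw U adj fe u v W w := by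
  classical
  obtain ⟨hv, hc, hy⟩ := h.pos T M h'
  have awu := M.spa _ _ h.wu
  have awv := M.spa _ _ h.wv
  have wu := T.ne awu
  have wv := T.ne awv
  have uv := T.ne h.uv
  have cu := h.cu
  have cv := h.cv
  have hf : (∀ x y, ¬ fe x y) ∨ fe c v := by
    by_contra hn
    refine hn (Or.inl fun x y hxy => ?_)
    have n1 : ¬ fe c v := fun hh => hn (Or.inr hh)
    have n2 : ¬ fe c u := fun hh => by
      rcases h'.unrem.tw c hc with h1 | h1
      · exact nfe M h1.1 hh
      · exact h1.1 (M.fea _ _ hh).1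
    have n3 := h.nf
    have hyx := M.fes _ _ hxy
    have axy := (M.fea _ _ hxy).1
    have x1 := (hX x (T.mem _ _ axy)).resolve_left fun hh => h.av x hh y hxy
    have y1 := (hX y (T.mem' axy)).resolve_left fun hh => h.av y hh x hyx
    have := T.ne axy
    grind
  have hall : ∀ y ∈ W, y ≠ w → y ∈ W' := by
    rcases hf with hf | hf
    · have h1 := h.mn u w W' c' (T.symm _ _ awu) (hf _ _) h'.unrem fun y _ x => hf y x
      have h2 : W' ⊆ insert c (W.erase w) := fun y y1 => by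
        rcases hy y y1 with h3 | h3
        · exact mem_insert_of_mem (mem_erase.2 ⟨fun e => h'.hv (e ▸ y1), h3⟩)
        · exact h3 ▸ mem_insert_self _ _
      have h3 : (insert c (W.erase w)).card ≤ W'.card :=
        (card_insert_le _ _).trans (by rw [card_erase_add_one h.wW]; exact h1)
      intro y y1 y2
      rw [eq_of_subset_of_card_le h2 h3]
      exact mem_insert_of_mem (mem_erase.2 ⟨y2, y1⟩)
    · obtain rfl : v = c' := by
        have := h'.nb c hc v (M.fea _ _ hf).1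
        grind
      intro y0 y1 y2
      by_contra y3
      refine h.nosub (c0 := w) (W0 := W.filter fun y => y ≠ w ∧ y ∉ W') h.uv h.nf
        (fun y hh => ⟨(mem_filter.1 hh).1, (mem_filter.1 hh).2.1⟩)
        ⟨(filter_subset _ _).trans h.tr.sub, ⟨y0, mem_filter.2 ⟨y1, y2, y3⟩⟩,
          fun hh => h.tr.hu (mem_filter.1 hh).1, fun hh => h.tr.hv (mem_filter.1 hh).1,
          by simp, fun y hh x hx => ?_, fun y hh => h.tr.tw y (mem_filter.1 hh).1⟩
      obtain ⟨z1, z2, z3⟩ := mem_filter.1 hh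
      have h1 := h.tr.nb y z1 x hx
      have h2 := h'.nb x
      have h3 := T.symm _ _ hx
      have h4 := h.tr.hu
      have h5 := h.tr.hv
      simp only [mem_filter]
      grind
  by_cases htw : (sp c u ∧ sp c v) ∨ (¬ adj c u ∧ ¬ adj c v)
  · have iff : ∀ {y a b : V}, (sp y a ∧ sp y b) ∨ (¬ adj y a ∧ ¬ adj y b) →
        (adj y a ↔ adj y b) := fun hh => hh.elim
      (fun h1 => iff_of_true (M.spa _ _ h1.1) (M.spa _ _ h1.2)) fun h1 => iff_of_false h1.1 h1.2
    refine Or.inr ⟨hf.resolve_right fun hh => ?_, ?_, fun y y1 y2 y3 => ?_,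
      fun y y1 y2 y3 y4 => ?_⟩
    · exact htw.elim (fun h1 => nfe M h1.2 hh) fun h1 => h1.2 (M.fea _ _ hh).1
    · have h1 : U ⊆ insert u (insert v (insert c W)) := fun x hx => by
        have := hX x hx
        simp only [mem_insert]
        tauto
      have h2 := card_le_card h1
      have h3 := card_insert_le u (insert v (insert c W))
      have h4 := card_insert_le v (insert c W)
      have h5 := card_insert_le c W
      omega
    · rcases hX y y1 with h1 | h1 | h1 | rfl
      · exact iff (h.tr.tw y h1)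
      · exact absurd h1 y2
      · exact absurd h1 y3
      · exact iff htw
    · rcases hX y y1 with h1 | h1 | h1 | rfl
      · exact iff (h'.unrem.tw y (hall y h1 y4))
      · exact absurd h1 y2
      · exact absurd h1 y3
      · exact iff (h'.unrem.tw y hc)
  · have n1 : ¬ Trip U adj (rem sp u v) v w := fun ht => by
      obtain ⟨W0, c0, t⟩ := Tr.of_trip ht
      refine h.nosub (T.symm _ _ awv) (nfe M (M.sps _ _ h.wv)) (fun y y1 => ⟨?_, ?_⟩) t.unrem
      · rcases hX y (t.sub y1) with h1 | rfl | rfl | rfl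
        · exact h1
        · rcases t.tw y y1 with h1 | h1
          · exact absurd (Or.inl ⟨rfl, rfl⟩) h1.1.2
          · exact absurd h.uv h1.1
        · exact absurd y1 t.hu
        · have h1 := t.unrem.tw y y1
          have h2 := h'.unrem.tw y hc
          have h3 := M.spa y w
          tauto
      · exact fun e => t.hv (e ▸ y1)
    have n2 : ¬ Trip U adj (rem sp v w) u v := fun ht => by
      obtain ⟨W0, c0, t⟩ := Tr.of_trip ht
      refine h.nosub h.uv h.nf (fun y y1 => ⟨?_, ?_⟩) t.unrem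
      · rcases hX y (t.sub y1) with h1 | rfl | rfl | rfl
        · exact h1
        · exact absurd y1 t.hu
        · exact absurd y1 t.hv
        · exact absurd (t.unrem.tw y y1) htw
      · rintro rfl
        rcases t.tw y y1 with h1 | h1
        · exact h1.2.2 (Or.inr ⟨rfl, rfl⟩)
        · exact h1.2 awv
    by_cases s : sp u v
    · exact Or.inl (Or.inl ⟨v, w, u, v, M.sps _ _ h.wv, s, by unfold Same; tauto, n1, n2⟩)
    · refine Or.inl (Or.inr ⟨⟨v, w, T.symm _ _ awv, nfe M (M.sps _ _ h.wv), fun ht => n1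
        (ht.mono fun x y hxy => ⟨hxy, ?_⟩)⟩, u, v, h.uv, h.nf, s⟩)
      rintro (⟨rfl, rfl⟩ | ⟨rfl, rfl⟩)
      · exact s hxy
      · exact s (M.sps _ _ hxy)

theorem Cf.core (T : T3 U adj) (M : Mk adj sp fe) (h : Cf U adj sp fe u v W c w)
    (h' : Trip U adj (rem sp v w) u w) : Ok U adj sp fe ∨ Tw U adj fe u v W w := by
  obtain ⟨W', c', t⟩ := Tr.of_trip h'
  by_cases hX : ∃ x ∈ U, x ∉ W ∧ x ≠ u ∧ x ≠ v ∧ x ≠ c
  · exact Or.inl (h.outer T M t hX)
  · refine h.inner T M t fun x hx => ?_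
    by_contra hn
    exact hX ⟨x, hx, by tauto⟩

theorem Cf.step (T : T3 U adj) (M : Mk adj sp fe) (h : Cf U adj sp fe u v W c w) :
    Ok U adj sp fe ∨ Tw U adj fe u v W w := by
  by_cases h1 : Trip U adj (rem sp v w) u w
  · exact h.core T M h1
  by_cases h2 : Trip U adj (rem sp u w) v w
  · refine ((h.symm T M).core T M h2).imp_right fun ⟨a, b, d, e⟩ => ⟨a, b, ?_, ?_⟩
    · exact fun y y1 y2 y3 => (d y y1 y3 y2).symm
    · exact fun y y1 y2 y3 y4 => (d y y1 y3 y2).symm.trans (e y y1 y3 y2 y4)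
  have uv := T.ne h.uv
  have wu := T.ne (M.spa _ _ h.wu)
  exact Or.inl (Or.inl ⟨u, w, v, w, M.sps _ _ h.wu, M.sps _ _ h.wv, by unfold Same; tauto, h1, h2⟩)

/-- Twins everywhere: the graph is complete. -/
theorem Cf.complete (T : T3 U adj) (M : Mk adj sp fe) (h : Cf U adj sp fe u v W c w)
    (hn : ¬ Ok U adj sp fe) : (∀ x y, ¬ fe x y) ∧ ∀ x ∈ U, ∀ y ∈ U, x ≠ y → adj x y := by
  classical
  obtain ⟨hf, hc, huv, -⟩ := (h.step T M).resolve_left hn
  have uU := T.mem _ _ h.uv
  have vU := T.mem' h.uv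
  have uv := T.ne h.uv
  have hs := M.all hf
  have key : ∀ z, adj z u → z ≠ v → ∀ y ∈ U, y ≠ u → y ≠ v → y ≠ z → (adj y u ↔ adj y z) := by
    intro z zu zv
    have zU := T.mem _ _ zu
    have zu' := T.ne zu
    have h4 := T.four
    have e1 : ((U.erase u).erase v).card + 2 = U.card := by
      have a := card_erase_add_one uU
      have b := card_erase_add_one (mem_erase.2 ⟨uv.symm, vU⟩)
      omega
    obtain ⟨c1, c2, c3⟩ := exists_mem_ne (by omega : 1 < ((U.erase u).erase v).card) z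
    have e2 := card_erase_add_one c2
    have hz : z ∈ ((U.erase u).erase v).erase c1 := by simp [c3.symm, zv, zu', zU]
    have h1 : Cf U adj sp fe u v (((U.erase u).erase v).erase c1) c1 z := by
      refine ⟨h.uv, h.nf, ⟨fun x hx => ?_, ⟨z, hz⟩, by simp, by simp, by simp,
        fun y _ x hx => ?_, fun y hy => ?_⟩, fun y _ x => hf y x,
        fun a b W0 c0 a1 a2 a3 a4 => le_trans (by omega) (h.mn a b W0 c0 a1 a2 a3 a4),
        mem_of_mem_erase (mem_of_mem_erase c2), ne_of_mem_erase (mem_of_mem_erase c2),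
        ne_of_mem_erase c2, hz, hs _ _ zu, hs _ _ ((huv z zU zu' zv).1 zu)⟩
      · exact mem_of_mem_erase (mem_of_mem_erase (mem_of_mem_erase hx))
      · have := T.mem' hx
        simp only [mem_erase]
        tauto
      · simp only [mem_erase] at hy
        have h2 := huv y hy.2.2.2 hy.2.2.1 hy.2.1
        by_cases h3 : adj y u
        · exact Or.inl ⟨hs _ _ h3, hs _ _ (h2.1 h3)⟩
        · exact Or.inr ⟨h3, fun h5 => h3 (h2.2 h5)⟩
    exact ((h1.step T M).resolve_left hn).2.2.2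
  have avu := T.symm _ _ h.uv
  have hall : ∀ y ∈ U, y ≠ u → adj y u := by
    intro y0 y1 y2
    by_contra y3
    have h2 := T.cut (U.filter fun y => y ≠ u ∧ ¬ adj y u) (filter_subset _ _) u u
      ⟨y0, mem_filter.2 ⟨y1, y2, y3⟩⟩ (by simp) (by simp) fun y hy x hx => by
        obtain ⟨z1, z2, z3⟩ := mem_filter.1 hy
        have z4 : y ≠ v := fun e => z3 (e ▸ avu)
        refine Or.inl (mem_filter.2 ⟨T.mem' hx, fun e => z3 (e ▸ hx), fun hh => z3 ?_⟩)
        by_cases e : x = v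
        · exact (huv y z1 z2 z4).2 (e ▸ hx)
        · exact (key x hh e y z1 z2 z4 (T.ne hx)).2 hx
    have h3 := h2 v vU
    simp only [mem_filter] at h3
    tauto
  refine ⟨hf, fun x hx y hy hxy => ?_⟩
  by_cases e1 : y = u
  · exact e1 ▸ hall x hx (e1 ▸ hxy)
  by_cases e2 : x = u
  · exact e2 ▸ T.symm _ _ (hall y hy e1)
  by_cases e3 : y = v
  · exact e3 ▸ (huv x hx e2 (e3 ▸ hxy)).1 (hall x hx e2)
  by_cases e4 : x = v
  · exact e4 ▸ T.symm _ _ ((huv y hy e1 e3).1 (hall y hy e1))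
  exact (key y (hall y hy e1) e3 x hx e2 e4 hxy).1 (hall x hx e2)

/-- No twin region avoids the retained edge. -/
theorem caseA (T : T3 U adj) (M : Mk adj sp fe)
    (hA : ∀ a b W c, adj a b → ¬ fe a b → Tr U adj sp a b W c → ¬ Av fe W) : Ok U adj sp fe := by
  obtain ⟨s, t, sU, hst⟩ : ∃ s t, s ∈ U ∧ ∀ x, adj s x → x ≠ t → ¬ fe s x ∧ ¬ Trip U adj sp s x := by
    by_cases hf : ∃ s t, fe s t
    · obtain ⟨s, t, hf⟩ := hf
      have ast := (M.fea _ _ hf).1
      refine ⟨s, t, T.mem _ _ ast, fun x hx xt => ?_⟩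
      have n1 : ¬ fe s x := fun hh => by
        rcases M.fe1 _ _ _ _ hh hf with h1 | h1
        · exact xt h1.2
        · exact T.ne ast h1.1
      refine ⟨n1, fun ht => ?_⟩
      obtain ⟨W, c, tr⟩ := Tr.of_trip ht
      refine hA s x W c hx n1 tr fun y hy z hz => ?_
      rcases M.fe1 _ _ _ _ hz hf with ⟨rfl, -⟩ | ⟨rfl, -⟩
      · exact tr.hu hy
      · rcases tr.tw y hy with h1 | h1
        · exact nfe M (M.sps _ _ h1.1) hf
        · exact h1.1 (T.symm _ _ ast)
    · obtain ⟨s, hs⟩ := card_pos.1 (by have := T.four; omega : 0 < U.card)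
      refine ⟨s, s, hs, fun x hx _ => ⟨fun hh => hf ⟨_, _, hh⟩, fun ht => ?_⟩⟩
      obtain ⟨W, c, tr⟩ := Tr.of_trip ht
      exact hA s x W c hx (fun hh => hf ⟨_, _, hh⟩) tr fun y _ z hz => hf ⟨_, _, hz⟩
  obtain ⟨x, x1, x2, -⟩ := T.deg sU t t
  obtain ⟨y, y1, y2, y3⟩ := T.deg sU t x
  obtain ⟨x3, x4⟩ := hst x x1 x2
  obtain ⟨y4, y5⟩ := hst y y1 y2
  by_cases sx : sp s x
  · by_cases sy : sp s y
    · have := T.ne y1
      exact Or.inl ⟨s, x, s, y, sx, sy, by unfold Same; tauto,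
        fun ht => x4 (ht.mono fun _ _ hh => hh.1), fun ht => y5 (ht.mono fun _ _ hh => hh.1)⟩
    · exact Or.inr ⟨⟨s, x, x1, x3, x4⟩, s, y, y1, y4, sy⟩
  · exact Or.inr ⟨⟨s, x, x1, x3, x4⟩, s, x, x1, x3, sx⟩

/-- A least twin region. -/
theorem exists_cf (T : T3 U adj) (M : Mk adj sp fe)
    (hB : ∃ n, ∃ a b W c, adj a b ∧ ¬ fe a b ∧ Tr U adj sp a b W c ∧ Av fe W ∧ W.card = n) :
    ∃ u v W c w, Cf U adj sp fe u v W c w := by
  classical
  obtain ⟨u, v, W, c, h1, h2, h3, h4, h5⟩ := Nat.find_spec hB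
  have hm : Mn U adj sp fe W.card := fun a b W0 c0 a1 a2 a3 a4 =>
    h5 ▸ Nat.find_min' hB ⟨a, b, W0, c0, a1, a2, a3, a4, rfl⟩
  obtain ⟨w, w1, w2, w3⟩ := h3.common T h1
  obtain ⟨c1, c2, c3⟩ : c ∈ U ∧ c ≠ u ∧ c ≠ v := by
    by_contra hn
    have nb : ∀ y ∈ W, ∀ x, adj y x → x ∈ W ∨ x = u ∨ x = v := fun y hy x hx => by
      have a := h3.nb y hy x hx
      have b := T.mem' hx
      grind
    have hU := T.cut W h3.sub u v h3.ne h3.hu h3.hv nb
    have e1 : U ⊆ insert u (insert v W) := fun x hx => by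
      have := hU x hx
      simp only [mem_insert]
      tauto
    have e2 := card_le_card e1
    have e3 := card_insert_le u (insert v W)
    have e4 := card_insert_le v W
    have e5 := T.four
    have e6 := card_erase_add_one w1
    have := hm u v (W.erase w) w h1 h2 ⟨(erase_subset _ _).trans h3.sub, card_pos.1 (by omega),
      fun hh => h3.hu (mem_of_mem_erase hh), fun hh => h3.hv (mem_of_mem_erase hh),
      notMem_erase _ _, fun y hy x hx => by
        have := nb y (mem_of_mem_erase hy) x hx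
        simp only [mem_erase]
        tauto, fun y hy => h3.tw y (mem_of_mem_erase hy)⟩
      fun y hy => h4 y (mem_of_mem_erase hy)
    omega
  exact ⟨u, v, W, c, w, h1, h2, h3, h4, hm, c1, c2, c3, w1, w2, w3⟩

end GA

theorem p_GA : S_GA := by
  intro V _ U adj sp fe T M
  by_cases hn : GA.Ok U adj sp fe
  · exact hn.imp_right Or.inl
  refine Or.inr (Or.inr ?_)
  obtain ⟨u, v, W, c, w, h⟩ := GA.exists_cf T M (by
    by_contra hB
    exact hn (GA.caseA T M fun a b W c h1 h2 h3 h4 => hB ⟨_, a, b, W, c, h1, h2, h3, h4, rfl⟩))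
  exact h.complete T M hn

end Pool.Agent.P.MP_e0c037_lc.SG
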