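import Pool.Agent.P.MP_e0c037_lc.SG.Base

/-! Good edges for deletion inside a region. -/

namespace Pool.Agent.P.MP_e0c037_lc.SG

open Finset

namespace GD

variable {V : Type} [DecidableEq V] {U A : Finset V} {adj sp sp' fe : V → V → Prop}
  {u v w a b c : V}

omit [DecidableEq V] in
/-- A further neighbour along an edge that is not special excludes the pattern. -/
theorem no_al (hw : adj u w) (hwv : w ≠ v) (hs : ¬ sp u w) (x y : V) : ¬ Al adj sp u v x y := by
  rintro ⟨-, -, -, h4, h5, h6⟩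
  rcases h6 w hw with h | h | h
  · exact hwv h
  · exact hs (h ▸ h4)
  · exact hs (h ▸ h5)

omit [DecidableEq V] in
theorem rem_self : ¬ rem sp u w u w := fun h => h.2 (Or.inl ⟨rfl, rfl⟩)

omit [DecidableEq V] in
theorem rem_le (a b : V) : ∀ x y, rem sp a b x y → sp x y := fun _ _ h => h.1

omit [DecidableEq V] in
theorem not_same (huw : u ≠ w) (h : v ≠ w) : ¬ Same u v u w := by
  rintro (⟨-, e⟩ | ⟨e, -⟩)
  · exact h e
  · exact huw e

omit [DecidableEq V] in
theorem al_swap (h : Al adj sp u v a b) : Al adj sp u v b a :=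
  ⟨h.1.symm, h.2.2.1, h.2.1, h.2.2.2.2.1, h.2.2.2.1, fun x hx => by
    rcases h.2.2.2.2.2 x hx with e | e | e
    · exact Or.inl e
    · exact Or.inr (Or.inr e)
    · exact Or.inr (Or.inl e)⟩

omit [DecidableEq V] in
/-- Two distinct neighbours other than `v` are the two elements of the pattern. -/
theorem al_adj (t : T3 U adj) {x y : V} (h : Al adj sp u v x y) (hxy : adj x y) (ha : adj u a)
    (hb : adj u b) (hav : a ≠ v) (hbv : b ≠ v) (hab : a ≠ b) : adj a b := by
  rcases (h.2.2.2.2.2 a ha).resolve_left hav with e | e <;>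
    rcases (h.2.2.2.2.2 b hb).resolve_left hbv with e' | e'
  · exact absurd (e.trans e'.symm) hab
  · exact e ▸ e' ▸ hxy
  · exact e ▸ e' ▸ t.symm _ _ hxy
  · exact absurd (e.trans e'.symm) hab

/-- Each vertex of the region has two allowed edges. -/
theorem two (t : T3 U adj) (r : Reg U adj fe A) (hu : u ∈ A) :
    ∃ v w, v ≠ w ∧ (adj u v ∧ v ∈ A ∧ ¬ fe u v) ∧ adj u w ∧ w ∈ A ∧ ¬ fe u w := by
  have hU := r.sub hu
  have g : ∀ x, ¬ (x ∉ A ∨ fe u x) → x ∈ A ∧ ¬ fe u x := fun x hx => by tauto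
  obtain ⟨x, hx, -, -⟩ := t.deg hU u u
  obtain ⟨y, hy, hyx, -⟩ := t.deg hU x x
  obtain ⟨z, hz, hzx, hzy⟩ := t.deg hU x y
  by_cases bx : x ∉ A ∨ fe u x
  · exact ⟨z, y, hzy, ⟨hz, g z fun h => hzx (r.one u hu z x hz hx h bx)⟩, hy,
      g y fun h => hyx (r.one u hu y x hy hx h bx)⟩
  by_cases bY : y ∉ A ∨ fe u y
  · exact ⟨z, x, hzx, ⟨hz, g z fun h => hzy (r.one u hu z y hz hy h bY)⟩, hx, g x bx⟩
  · exact ⟨y, x, hyx, ⟨hy, g y bY⟩, hx, g x bx⟩

/-- The conclusion. -/
def Con (U : Finset V) (adj sp fe : V → V → Prop) : Prop :=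
  (∃ a b c d, sp a b ∧ sp c d ∧ ¬ Same a b c d ∧ Gd U adj (rem sp c d) a b ∧
      Gd U adj (rem sp a b) c d) ∨
    ((∃ a b, ¬ fe a b ∧ Gd U adj sp a b) ∧ ∃ c d, adj c d ∧ ¬ fe c d ∧ ¬ sp c d) ∨
    ((∀ x y, ¬ fe x y) ∧ U.card = 4)

/-- Two special edges at `u` whose other ends are not blocked. -/
theorem mutual_at (t : T3 U adj) (m : Mk adj sp fe) (r : Reg U adj fe A) (hu : u ∈ A)
    (hv : v ∈ A) (hw : w ∈ A) (hvw : v ≠ w) (s1 : sp u v) (s2 : sp u w)
    (b1 : ∀ x y, Al adj sp v u x y → ¬ adj x y) (b2 : ∀ x y, Al adj sp w u x y → ¬ adj x y) :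
    Con U adj sp fe := by
  have a1 := m.spa _ _ s1
  have a2 := m.spa _ _ s2
  refine Or.inl ⟨u, v, u, w, s1, s2, not_same (t.ne a2) hvw,
    ⟨a1, r.star u hu v hv a1 fun h => (m.fea _ _ h).2 s1, no_al a2 hvw.symm rem_self,
      fun x y h => b1 x y (h.mono (rem_le _ _))⟩,
    ⟨a2, r.star u hu w hw a2 fun h => (m.fea _ _ h).2 s2, no_al a1 hvw rem_self,
      fun x y h => b2 x y (h.mono (rem_le _ _))⟩⟩

/-- No allowed edge is blocked. -/
theorem free (t : T3 U adj) (m : Mk adj sp fe) (r : Reg U adj fe A)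
    (h : ∀ u ∈ A, ∀ v ∈ A, adj u v → ¬ fe u v → ∀ x y, Al adj sp u v x y → ¬ adj x y) :
    Con U adj sp fe := by
  obtain ⟨u, hu⟩ := r.ne
  obtain ⟨v, w, hvw, ⟨a1, v1, f1⟩, a2, w1, f2⟩ := two t r hu
  have b1 := h v v1 u hu (t.symm _ _ a1) fun e => f1 (m.fes _ _ e)
  have b2 := h w w1 u hu (t.symm _ _ a2) fun e => f2 (m.fes _ _ e)
  by_cases s2 : sp u w
  · by_cases s1 : sp u v
    · exact mutual_at t m r hu v1 w1 hvw s1 s2 b1 b2
    · exact Or.inr (Or.inl ⟨⟨u, w, f2, a2, r.star u hu w w1 a2 f2, no_al a1 hvw s1, b2⟩,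
        u, v, a1, f1, s1⟩)
  · exact Or.inr (Or.inl ⟨⟨u, v, f1, a1, r.star u hu v v1 a1 f1, no_al a2 hvw.symm s2, b1⟩,
      u, w, a2, f2, s2⟩)

/-- Two adjacent blocked vertices with the same outer neighbour. -/
theorem four (t : T3 U adj) (m : Mk adj sp fe) (r : Reg U adj fe A) (hu : u ∈ A) (hv : v ∈ A)
    (ha : a ∈ A) (hb : b ∈ A) (huv : adj u v) (f1 : ¬ fe u v) (h1 : Al adj sp u v a b)
    (h2 : Al adj sp a u b v) (hbv : adj b v) : Con U adj sp fe := by
  obtain ⟨hab, hav, hbv', sa, sb, nu⟩ := h1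
  obtain ⟨-, hbu, hvu, sab, sav, na⟩ := h2
  by_cases s : sp b v
  · have hU : ∀ x ∈ U, x ∈ ({u, a} : Finset V) ∨ x = v ∨ x = b := by
      refine t.cut {u, a} (insert_subset (r.sub hu) (singleton_subset_iff.2 (r.sub ha))) v b
        (by simp) (by simp [hvu, hav.symm]) (by simp [hbu, hab.symm]) fun w hw x hx => ?_
      simp only [mem_insert, mem_singleton] at hw ⊢
      rcases hw with rfl | rfl
      · have := nu x hx; tauto
      · have := na x hx; tauto
    have hU' : ∀ x ∈ U, x = u ∨ x = a ∨ x = v ∨ x = b := fun x hx => by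
      have := hU x hx
      simp only [mem_insert, mem_singleton] at this
      tauto
    refine Or.inr (Or.inr ⟨fun x y hf => ?_, le_antisymm ?_ t.four⟩)
    · obtain ⟨axy, nxy⟩ := m.fea _ _ hf
      have nyx := (m.fea _ _ (m.fes _ _ hf)).2
      have hne := t.ne axy
      have f2 : ¬ fe v u := fun e => f1 (m.fes _ _ e)
      rcases hU' x (t.mem _ _ axy) with rfl | rfl | rfl | rfl <;>
        rcases hU' y (t.mem' axy) with rfl | rfl | rfl | rfl <;>
        first
          | exact hne rfl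
          | exact nxy (by assumption)
          | exact nyx (by assumption)
          | exact f1 hf
          | exact f2 hf
    · exact (card_le_card (fun x hx => by simpa using hU' x hx : U ⊆ {u, a, v, b})).trans
        card_le_four
  · exact mutual_at t m r ha hb hv hbv' sab sav
      (fun x y h => absurd h (no_al hbv hav.symm s x y))
      fun x y h => absurd h (no_al (t.symm _ _ hbv) hab.symm (fun e => s (m.sps _ _ e)) x y)

/-- Two adjacent blocked vertices with different outer neighbours. -/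
theorem five (t : T3 U adj) (m : Mk adj sp fe) (r : Reg U adj fe A) (hu : u ∈ A)
    (ha : a ∈ A) (hb : b ∈ A) (huv : adj u v) (h1 : Al adj sp u v a b)
    (h2 : Al adj sp a u b c) (hcv : c ≠ v) : Con U adj sp fe := by
  obtain ⟨hab, hav, hbv, sa, sb, nu⟩ := h1
  obtain ⟨hbc, hbu, hcu, sab, sac, na⟩ := h2
  have aua := m.spa _ _ sa
  have aac := m.spa _ _ sac
  have hca := (t.ne aac).symm
  have hvu := (t.ne huv).symm
  refine mutual_at t m r hb ha hu (t.ne aua).symm (m.sps _ _ sab) (m.sps _ _ sb)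
    (fun x y h hxy => ?_) fun x y h hxy => ?_
  · have := nu c (al_adj t h hxy (t.symm _ _ aua) aac hbu.symm hbc.symm hcu.symm)
    tauto
  · have := na v (al_adj t h hxy aua huv hab hbv.symm hav)
    tauto

/-- A blocked allowed edge. -/
theorem blocked (t : T3 U adj) (m : Mk adj sp fe) (r : Reg U adj fe A) (hu : u ∈ A) (hv : v ∈ A)
    (ha : a ∈ A) (hb : b ∈ A) (huv : adj u v) (f1 : ¬ fe u v) (h1 : Al adj sp u v a b)
    (hab : adj a b) {x y : V} (h2 : Al adj sp a u x y) (hxy : adj x y) : Con U adj sp fe := by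
  have key : ∀ c, Al adj sp a u b c → adj b c → Con U adj sp fe := fun c h hc => by
    by_cases e : c = v
    · exact four t m r hu hv ha hb huv f1 h1 (e ▸ h) (e ▸ hc)
    · exact five t m r hu ha hb huv h1 h e
  rcases h2.2.2.2.2.2 b hab with e | e | e
  · exact absurd e.symm (t.ne (m.spa _ _ h1.2.2.2.2.1))
  · exact key y (e ▸ h2) (e ▸ hxy)
  · exact key x (e ▸ al_swap h2) (e ▸ t.symm _ _ hxy)

end GD

open GD in
theorem p_GD : S_GD := by
  intro V _ U adj sp fe A t m r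
  change Con U adj sp fe
  by_cases h : ∀ u ∈ A, ∀ v ∈ A, adj u v → ¬ fe u v → ∀ x y, Al adj sp u v x y → ¬ adj x y
  · exact free t m r h
  push Not at h
  obtain ⟨u, hu, v, hv, huv, f1, a, b, h1, hab⟩ := h
  have sa := h1.2.2.2.1
  have sb := h1.2.2.2.2.1
  have ha := r.tri u hu a b (m.spa _ _ sa) (m.spa _ _ sb) hab
  have hb := r.tri u hu b a (m.spa _ _ sb) (m.spa _ _ sa) (t.symm _ _ hab)
  by_cases b1 : ∀ x y, Al adj sp a u x y → ¬ adj x y
  · by_cases b2 : ∀ x y, Al adj sp b u x y → ¬ adj x y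
    · exact mutual_at t m r hu ha hb h1.1 sa sb b1 b2
    · push Not at b2
      obtain ⟨x, y, h2, hxy⟩ := b2
      exact blocked t m r hu hv hb ha huv f1 (al_swap h1) (t.symm _ _ hab) h2 hxy
  · push Not at b1
    obtain ⟨x, y, h2, hxy⟩ := b1
    exact blocked t m r hu hv ha hb huv f1 h1 hab h2 hxy

end Pool.Agent.P.MP_e0c037_lc.SG
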