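import Pool.Agent.P.MP_e0c037_lc.SG.Base

/-! Gadgets on the segments `y = -1` and `x = -1`. -/

namespace Pool.Agent.P.MP_e0c037_lc.SG

namespace Gad

variable {q v : ℝ}

/-- Implemented parallel weights. -/
def Pa (q v y : ℝ) : Prop := ∃ a, a ≠ 0 ∧ R3.Impl q v a (a * y - a)

/-- Implemented parallel weights with a positive factor. -/
def Pp (q v y : ℝ) : Prop := ∃ a, 0 < a ∧ R3.Impl q v a (a * y - a)

/-- Implemented series weights. -/
def Q (q v x : ℝ) : Prop := ∃ b, b ≠ 0 ∧ R3.Impl q v ((b * x - b) / q) b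

theorem Pa.mul (hq : 1 < q) {y z : ℝ} (h : Pa q v y) (h' : Pa q v z) : Pa q v (y * z) := by
  obtain ⟨a, ha, i⟩ := h
  obtain ⟨b, hb, j⟩ := h'
  refine ⟨a * b, mul_ne_zero ha hb, ?_⟩
  have := R3.Impl.par hq i j
  rwa [show a * y * (b * z) = a * b * (y * z) by ring] at this

theorem Pp.mul (hq : 1 < q) {y z : ℝ} (h : Pp q v y) (h' : Pp q v z) : Pp q v (y * z) := by
  obtain ⟨a, ha, i⟩ := h
  obtain ⟨b, hb, j⟩ := h'
  refine ⟨a * b, mul_pos ha hb, ?_⟩
  have := R3.Impl.par hq i j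
  rwa [show a * y * (b * z) = a * b * (y * z) by ring] at this

theorem Pa.sq (hq : 1 < q) {y : ℝ} (h : Pa q v y) : Pp q v (y * y) := by
  obtain ⟨a, ha, i⟩ := h
  refine ⟨a * a, mul_self_pos.2 ha, ?_⟩
  have := R3.Impl.par hq i i
  rwa [show a * y * (a * y) = a * a * (y * y) by ring] at this

theorem Pp.pow (hq : 1 < q) {y : ℝ} (h : Pp q v y) (k : ℕ) : Pp q v (y ^ (k + 1)) := by
  induction k with
  | zero => simpa using h
  | succ k ih => rw [pow_succ]; exact ih.mul hq h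

theorem Q.mul (hq : 1 < q) {y z : ℝ} (h : Q q v y) (h' : Q q v z) : Q q v (y * z) := by
  obtain ⟨a, ha, i⟩ := h
  obtain ⟨b, hb, j⟩ := h'
  refine ⟨a * b, mul_ne_zero ha hb, ?_⟩
  have := R3.Impl.ser hq i j
  rwa [show a * y * (b * z) = a * b * (y * z) by ring] at this

theorem Pa.toQ (hq : 1 < q) {y : ℝ} (h : Pa q v y) (hy : y ≠ 1) : Q q v (1 - q / (1 - y)) := by
  obtain ⟨a, ha, i⟩ := h
  have h1 : 1 - y ≠ 0 := sub_ne_zero.2 hy.symm
  have h0 : q ≠ 0 := by positivity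
  refine ⟨a * y - a, ?_, ?_⟩
  · rw [show a * y - a = -(a * (1 - y)) by ring]
    exact neg_ne_zero.2 (mul_ne_zero ha h1)
  · rwa [show ((a * y - a) * (1 - q / (1 - y)) - (a * y - a)) / q = a by field_simp; ring]

theorem conv (hq : 1 < q) {x b : ℝ} (i : R3.Impl q v ((b * x - b) / q) b) (hx : x ≠ 1) :
    R3.Impl q v ((b * x - b) / q)
      ((b * x - b) / q * (1 - q / (1 - x)) - (b * x - b) / q) := by
  have h1 : 1 - x ≠ 0 := sub_ne_zero.2 hx.symm
  have h0 : q ≠ 0 := by positivity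
  rwa [show (b * x - b) / q * (1 - q / (1 - x)) - (b * x - b) / q = b by field_simp; ring]

theorem Q.toP (hq : 1 < q) {x : ℝ} (h : Q q v x) (hx : x ≠ 1) : Pa q v (1 - q / (1 - x)) := by
  obtain ⟨b, hb, i⟩ := h
  have h1 : 1 - x ≠ 0 := sub_ne_zero.2 hx.symm
  have h0 : q ≠ 0 := by positivity
  refine ⟨(b * x - b) / q, div_ne_zero ?_ h0, conv hq i hx⟩
  rw [show b * x - b = -(b * (1 - x)) by ring]
  exact neg_ne_zero.2 (mul_ne_zero hb h1)

theorem base : Pp q v (1 + v) := ⟨1, one_pos, by simpa using R3.Impl.base⟩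

theorem Pp.toP {y : ℝ} (h : Pp q v y) : Pa q v y := let ⟨a, ha, i⟩ := h; ⟨a, ha.ne', i⟩

theorem fin (hq : 1 < q) {y0 y1 w : ℝ} (h0 : Pa q v y0) (g0 : 1 < y0) (h1 : Pp q v y1)
    (g1 : y1 < 0) (h2 : Pa q v w) (g2 : w ≠ 0) (g3 : w * w < 1) :
    ∃ a y a' z : ℝ, 0 < a ∧ y ≤ -2 ∧ R3.Impl q v a (a * y - a) ∧ 0 < a' ∧ 0 < z ∧ z * y ^ 2 ≤ 1 ∧
      R3.Impl q v a' (a' * z - a') := by
  have s0 : 1 < y0 * y0 := by nlinarith
  obtain ⟨k, hk⟩ := pow_unbounded_of_one_lt (2 / (-y1)) s0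
  have hk' : 2 / (-y1) ≤ (y0 * y0) ^ (k + 1) :=
    hk.le.trans (pow_le_pow_right₀ s0.le (Nat.le_succ k))
  rw [div_le_iff₀ (by linarith)] at hk'
  obtain ⟨a, ha, i⟩ := ((h0.sq hq).pow hq k).mul hq h1
  set y := (y0 * y0) ^ (k + 1) * y1 with hy
  have hy2 : y ≤ -2 := by rw [hy]; linarith
  have hw : 0 < w * w := mul_self_pos.2 g2
  have hp : 0 < y ^ 2 := by nlinarith
  obtain ⟨m, hm⟩ := exists_pow_lt_of_lt_one (one_div_pos.2 hp) g3
  have hm' : (w * w) ^ (m + 1) ≤ 1 / y ^ 2 :=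
    (pow_le_pow_of_le_one hw.le g3.le (Nat.le_succ m)).trans hm.le
  rw [le_div_iff₀ hp] at hm'
  obtain ⟨a', ha', j⟩ := (h2.sq hq).pow hq m
  exact ⟨a, y, a', _, ha, hy2, i, ha', pow_pos hw _, hm', j⟩

end Gad

open Gad in
theorem p_Gad (h : S_Esc) : S_Gad := by
  intro q v hq hq' hv
  have h0 : q ≠ 0 := by positivity
  have h4 : 0 < 4 - q := by linarith
  have e1 : 1 - q / (1 - (1 - q / 2) * (1 - q / 2)) = -(q / (4 - q)) := by
    rw [show 1 - (1 - q / 2) * (1 - q / 2) = q * (4 - q) / 4 by ring]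
    field_simp
    ring
  have n1 : (1 - q / 2) * (1 - q / 2) < 1 := by nlinarith
  have s0 : 0 < q / (4 - q) := by positivity
  have s1 : q / (4 - q) < 1 := by rw [div_lt_one h4]; linarith
  rcases hv with rfl | rfl
  · have b : Pp q (-2) (-1) := by
      have := base (q := q) (v := -2)
      rwa [show (1 : ℝ) + -2 = -1 by norm_num] at this
    obtain ⟨y0, a0, g0⟩ := h q (Pa q (-2)) hq hq' b.toP (fun _ _ => Pa.mul hq)
      fun y z a c hy hz hn => ((a.toQ hq hy).mul hq (c.toQ hq hz)).toP hq hn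
    have c := b.toP.toQ hq (by norm_num)
    rw [show (1 : ℝ) - -1 = 2 by norm_num] at c
    have d := (c.mul hq c).toP hq n1.ne
    rw [e1] at d
    exact fin hq a0 g0 b (by norm_num) d (neg_ne_zero.2 s0.ne') (by nlinarith)
  · have b : Pp q (-q / 2) (1 - q / 2) := by
      have := base (q := q) (v := -q / 2)
      rwa [show 1 + -q / 2 = 1 - q / 2 by ring] at this
    have c := b.toP.toQ hq (by intro e; linarith)
    rw [show 1 - q / (1 - (1 - q / 2)) = -1 by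
      rw [show 1 - (1 - q / 2) = q / 2 by ring]; field_simp; ring] at c
    obtain ⟨x0, a0, g0⟩ := h q (Q q (-q / 2)) hq hq' c (fun _ _ => Q.mul hq)
      fun y z a c hy hz hn => ((a.toP hq hy).mul hq (c.toP hq hz)).toQ hq hn
    have y0 := a0.toP hq g0.ne'
    have gy : 1 < 1 - q / (1 - x0) := by
      have : q / (1 - x0) < 0 := div_neg_of_pos_of_neg (by linarith) (by linarith)
      linarith
    obtain ⟨a, ha, i⟩ := b.mul hq b
    set s := q / (4 - q) with hs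
    set B := a * ((1 - q / 2) * (1 - q / 2)) - a with hB
    have B0 : B < 0 := by rw [hB]; nlinarith
    have i' : R3.Impl q (-q / 2) ((B * -s - B) / q) B := by
      rwa [show (B * -s - B) / q = a by rw [hB, hs]; field_simp; ring]
    obtain ⟨m, hm⟩ := exists_pow_lt_of_lt_one (show 0 < q - 1 by linarith) s1
    have hm' : s ^ (2 * m + 1) < q - 1 :=
      (pow_le_pow_of_le_one s0.le s1.le (by omega)).trans_lt hm
    have j := R3.Impl.ser_pow hq i' (2 * m)
    have od : Odd (2 * m + 1) := odd_two_mul_add_one m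
    rw [mul_pow, od.neg_pow] at j
    have t0 : 0 < s ^ (2 * m + 1) := pow_pos s0 _
    have B1 : B ^ (2 * m + 1) < 0 := od.pow_neg B0
    have k := conv hq j (by linarith)
    refine fin hq y0 gy ⟨_, div_pos (by nlinarith) (by linarith), k⟩ ?_ b.toP
      (by intro e; linarith) n1
    rw [sub_neg, lt_div_iff₀ (by linarith)]
    linarith

end Pool.Agent.P.MP_e0c037_lc.SG
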