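import Pool.Agent.P.MP_e0c037_lc.SG.Base

/-! The sign of the clique recursion. -/

namespace Pool.Agent.P.MP_e0c037_lc.SG

namespace KnSeq

/-- The signed recursion. -/
def p (q : ℝ) (n j : ℕ) : ℝ := (-1) ^ n * sq q n j

theorem p_zero (q : ℝ) (j : ℕ) : p q 0 j = 1 := by simp [p, sq]

theorem p_succ0 (q : ℝ) (n : ℕ) : p q (n + 1) 0 = -q * p q n 1 := by
  simp only [p, sq]; push_cast; ring

theorem p_succ (q : ℝ) (n j : ℕ) :
    p q (n + 1) (j + 1) = ((j : ℝ) + 1 - q) * p q n (j + 2) + ((j : ℝ) + 1) * p q n j := by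
  simp only [p, sq, Nat.add_sub_cancel]; push_cast; ring

variable {q : ℝ}

theorem inv (h0 : 0 < q) (h1 : q < 1) (n : ℕ) :
    (∀ k, |p q n k| ≤ p q n (k + 2)) ∧ 0 ≤ 3 * p q n 1 + p q n 3 := by
  induction n with
  | zero => simp only [p_zero]; norm_num
  | succ n ih =>
    obtain ⟨a, b⟩ := ih
    have up : ∀ k, 0 ≤ p q n (k + 2) := fun k => (abs_nonneg _).trans (a k)
    refine ⟨fun k => ?_, ?_⟩
    · cases k with
      | zero =>
        have e1 := p_succ q n 1
        have a1 := abs_le.1 (a 1)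
        have u := up 1
        rw [p_succ0, show 0 + 2 = 1 + 1 from rfl, e1, abs_le]
        norm_num at a1 u ⊢
        constructor <;> nlinarith
      | succ m =>
        have e1 := p_succ q n m
        have e2 := p_succ q n (m + 2)
        have a1 := abs_le.1 (a m)
        have a2 := (abs_le.1 (a (m + 2))).2
        have u := up m
        have hm : (0 : ℝ) ≤ m := Nat.cast_nonneg m
        rw [show m + 1 + 2 = m + 2 + 1 from rfl, e1, e2, abs_le]
        push_cast
        have t1 : 0 ≤ ((m : ℝ) + 1) * (p q n m + p q n (m + 2)) :=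
          mul_nonneg (by linarith) (by linarith)
        have t2 : 0 ≤ ((m : ℝ) + 1) * (p q n (m + 2) - p q n m) :=
          mul_nonneg (by linarith) (by linarith)
        have t3 : 0 ≤ ((m : ℝ) + 2 + 1 - q) * (p q n (m + 2 + 2) - p q n (m + 2)) :=
          mul_nonneg (by linarith) (by linarith)
        have t4 : 0 ≤ ((m : ℝ) + 1 - q) * p q n (m + 2) := mul_nonneg (by linarith) u
        constructor <;> nlinarith
    · have e1 := p_succ q n 0
      have e2 := p_succ q n 2
      have a1 := abs_le.1 (a 0)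
      have u := up 0
      have u2 := up 2
      norm_num at a1 u u2 e1 e2
      rw [e1, e2]
      nlinarith [mul_nonneg (sub_nonneg.2 h1.le) u, mul_nonneg (sub_nonneg.2 h1.le) u2]

theorem two0 (n : ℕ) : p q (n + 2) 0 = -(q * ((1 - q) * p q n 2 + p q n 0)) := by
  have e := p_succ q n 0
  rw [p_succ0, show (1 : ℕ) = 0 + 1 from rfl, e]
  norm_num

theorem two2 (h0 : 0 < q) (h1 : q < 1) (n : ℕ) : 3 * p q n 2 ≤ p q (n + 2) 2 := by
  have e1 := p_succ q (n + 1) 1
  have e2 := p_succ q n 0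
  have e3 := p_succ q n 2
  have a0 := abs_le.1 ((inv h0 h1 n).1 0)
  have a2 := (abs_le.1 ((inv h0 h1 n).1 2)).2
  have u : 0 ≤ p q n 2 := (abs_nonneg _).trans ((inv h0 h1 n).1 0)
  norm_num at e1 e2 e3 a0 a2
  rw [e1, e2, e3]
  have t1 : 0 ≤ (2 - q) * (3 - q) * (p q n 4 - p q n 2) :=
    mul_nonneg (mul_nonneg (by linarith) (by linarith)) (by linarith)
  have t2 : 0 ≤ (1 - q) * (9 - q) * p q n 2 :=
    mul_nonneg (mul_nonneg (by linarith) (by linarith)) u
  nlinarith

theorem grow (h0 : 0 < q) (h1 : q < 1) :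
    ∀ n : ℕ, ((n : ℝ) + 1) / 2 ≤ p q n 2 ∧ |p q n 0| ≤ 1 + (1 - q) * p q n 2 / 2
  | 0 => by
    simp only [p_zero]; norm_num; linarith
  | 1 => by
    have e := p_succ q 0 1
    have e0 := p_succ0 q 0
    simp only [p_zero] at e e0
    norm_num at e e0
    rw [e, e0, abs_neg, abs_of_pos h0]
    constructor
    · norm_num; linarith
    · nlinarith
  | n + 2 => by
    obtain ⟨a, b⟩ := grow h0 h1 n
    have c := two2 h0 h1 n
    have hn : (0 : ℝ) ≤ n := Nat.cast_nonneg n
    refine ⟨by push_cast; linarith, ?_⟩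
    have u : 0 ≤ (1 - q) * p q n 2 := mul_nonneg (by linarith) (by linarith)
    have c' : (1 - q) * (3 * p q n 2) ≤ (1 - q) * p q (n + 2) 2 :=
      mul_le_mul_of_nonneg_left c (by linarith)
    have d : |(1 - q) * p q n 2 + p q n 0| ≤ (1 - q) * p q n 2 + |p q n 0| := by
      refine (abs_add_le _ _).trans ?_
      rw [abs_of_nonneg u]
    rw [two0, abs_neg, abs_mul, abs_of_pos h0]
    have d2 : q * |(1 - q) * p q n 2 + p q n 0| ≤ |(1 - q) * p q n 2 + p q n 0| :=
      mul_le_of_le_one_left (abs_nonneg _) h1.le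
    linarith

end KnSeq

open KnSeq in
theorem p_KnSeq : S_KnSeq := by
  intro q h0 h1
  obtain ⟨N, hN⟩ := exists_nat_gt (4 / (1 - q))
  refine ⟨N + 2, fun n hn => ?_⟩
  obtain ⟨m, rfl⟩ : ∃ m, n = m + 2 := ⟨n - 2, by omega⟩
  have hm : (N : ℝ) ≤ m := by exact_mod_cast (by omega : N ≤ m)
  obtain ⟨a, b⟩ := grow h0 h1 m
  have e := two0 (q := q) m
  have hq : 0 < 1 - q := by linarith
  rw [div_lt_iff₀ hq] at hN
  have c : (1 - q) * (((m : ℝ) + 1) / 2) ≤ (1 - q) * p q m 2 := mul_le_mul_of_nonneg_left a hq.le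
  have d : (N : ℝ) * (1 - q) ≤ m * (1 - q) := mul_le_mul_of_nonneg_right hm hq.le
  have f := (abs_le.1 b).1
  have g : 0 < (1 - q) * p q m 2 + p q m 0 := by nlinarith
  change p q (m + 2) 0 < 0
  rw [e]
  exact neg_neg_of_pos (mul_pos h0 g)

end Pool.Agent.P.MP_e0c037_lc.SG
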