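import Pool.Agent.P.MP_e0c037_lc.SG.Base

/-! The polynomial of a clique with all weights `-2`. -/

namespace Pool.Agent.P.MP_e0c037_lc.SG

open Finset Function

namespace KnZ

/-- Sign of a condition. -/
def sn (P : Prop) [Decidable P] : ℝ := if P then -1 else 1

variable {n x : ℕ}

theorem count (L : List (ℕ × ℕ)) (A : Finset ℕ) [∀ i (σ : Fin n → Fin x),
    Decidable (∀ a b, Ends L i a b → σ a = σ b)] :
    (x : ℝ) ^ comps n L A = ∑ σ : Fin n → Fin x,
      ∏ i ∈ A, if ∀ a b, Ends L i a b → σ a = σ b then (1 : ℝ) else 0 := by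
  classical
  have h2 : ∀ σ : Fin n → Fin x, (∀ i ∈ A, ∀ a b, Ends L i a b → σ a = σ b) ↔
      ∀ a b, (spanning n L A).Adj a b → σ a = σ b := fun σ =>
    ⟨fun h a b hab => let ⟨_, i, hi, e⟩ := adj_iff.1 hab; h i hi a b e, fun h i hi a b e => by
      by_cases hab : a = b
      · rw [hab]
      · exact h a b (adj_iff.2 ⟨hab, i, hi, e⟩)⟩
  simp only [prod_boole, h2]
  rw [sum_boole, ← Fintype.card_subtype, ← Nat.card_eq_fintype_card, comps]
  have e : {σ : Fin n → Fin x // ∀ a b, (spanning n L A).Adj a b → σ a = σ b} ≃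
      ((spanning n L A).ConnectedComponent → Fin x) :=
    { toFun := fun σ => SimpleGraph.ConnectedComponent.lift σ.1 fun a b p _ => by
        induction p with
        | nil => rfl
        | cons h p ih => exact (σ.2 _ _ h).trans (ih (by simp_all))
      invFun := fun f => ⟨fun a => f ((spanning n L A).connectedComponentMk a), fun a b h =>
        congrArg f (SimpleGraph.ConnectedComponent.connectedComponentMk_eq_of_adj h)⟩
      left_inv := fun σ => rfl
      right_inv := fun f => funext fun c => c.ind fun a => rfl }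
  rw [Nat.card_congr e, Nat.card_fun]
  simp

/-- Resampling of one coordinate. -/
theorem resample (v : Fin n) (f : (Fin n → Fin x) → ℝ) :
    (x : ℝ) * ∑ σ, f σ = ∑ a : Fin x, ∑ σ, f (update σ v a) := by
  have hi : Involutive fun p : Fin x × (Fin n → Fin x) => (p.2 v, update p.2 v p.1) := by
    rintro ⟨a, σ⟩
    simp
  have h := Equiv.sum_comp hi.toPerm fun p : Fin x × (Fin n → Fin x) => f p.2
  rw [Fintype.sum_prod_type, Fintype.sum_prod_type] at h
  simp only [Involutive.coe_toPerm, sum_const, card_univ, Fintype.card_fin, nsmul_eq_mul] at h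
  exact h.symm

/-- Weight of a colouring. -/
def W (T : Finset (Fin n)) (J : Finset (Fin x)) (σ : Fin n → Fin x) : ℝ :=
  ∏ y ∈ T, (sn (σ y ∈ J) * ∏ w ∈ T, sn (w < y ∧ σ w = σ y))

/-- Toggling of a colour. -/
def tg (J : Finset (Fin x)) (a : Fin x) : Finset (Fin x) :=
  if a ∈ J then J.erase a else insert a J

theorem sn_tg (J : Finset (Fin x)) (a c : Fin x) :
    sn (c ∈ tg J a) = sn (c = a) * sn (c ∈ J) := by
  unfold tg sn
  by_cases h1 : a ∈ J <;> by_cases h2 : c = a <;> by_cases h3 : c ∈ J <;> simp_all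

theorem W_insert {T : Finset (Fin n)} {v : Fin n} (hv : ∀ w ∈ T, w < v) (J : Finset (Fin x))
    (σ : Fin n → Fin x) (a : Fin x) :
    W (insert v T) J (update σ v a) = sn (a ∈ J) * W T (tg J a) σ := by
  have h0 : v ∉ T := fun h => lt_irrefl _ (hv v h)
  have h1 : ∀ w ∈ T, update σ v a w = σ w := fun w hw => update_of_ne (hv w hw).ne _ _
  unfold W
  rw [prod_insert h0, prod_insert h0, update_self, mul_assoc]
  congr 1
  have e1 : sn (v < v ∧ a = a) = 1 := by simp [sn]
  rw [e1, one_mul, ← prod_mul_distrib]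
  refine prod_congr rfl fun y hy => ?_
  have e2 : sn (v < y ∧ a = σ y) = 1 := by simp [sn, (hv y hy).le]
  have e3 : sn (y < v ∧ σ y = a) = sn (σ y = a) := by simp [sn, hv y hy]
  rw [prod_insert h0, update_self, h1 y hy, sn_tg, e2, e3, one_mul, mul_assoc]
  congr 2
  exact prod_congr rfl fun w hw => by rw [h1 w hw]

theorem W_sum (hx : x ≠ 0) (T : Finset (Fin n)) (J : Finset (Fin x)) :
    ∑ σ, W T J σ = (x : ℝ) ^ (n - T.card) * sq x T.card J.card := by
  induction T using Finset.induction_on_max generalizing J with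
  | empty => simp [W, sq]
  | insert v T hv ih =>
    have h0 : v ∉ T := fun h => lt_irrefl _ (hv v h)
    have hc : T.card + 1 ≤ n := by
      have := card_le_univ (insert v T)
      rwa [card_insert_of_notMem h0, Fintype.card_fin] at this
    have hx' : (x : ℝ) ≠ 0 := Nat.cast_ne_zero.2 hx
    have hJ : J.card ≤ x := by simpa using card_le_univ J
    refine mul_left_cancel₀ hx' ?_
    have e1 : ∀ a, sn (a ∈ J) * ((x : ℝ) ^ (n - T.card) * sq x T.card (tg J a).card) =
        (x : ℝ) ^ (n - T.card) * if a ∈ J then -sq x T.card (J.card - 1)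
          else sq x T.card (J.card + 1) := fun a => by
      unfold sn tg
      by_cases h : a ∈ J
      · simp [h]
      · simp [h]
    have e2 : n - T.card = n - (T.card + 1) + 1 := by omega
    rw [resample v]
    simp only [W_insert hv, ← mul_sum, ih, e1]
    rw [sum_ite, sum_const, sum_const, card_insert_of_notMem h0, sq, filter_mem_eq_inter,
      univ_inter, filter_not, filter_mem_eq_inter, univ_inter, card_univ_sdiff, Fintype.card_fin,
      nsmul_eq_mul, nsmul_eq_mul, Nat.cast_sub hJ, e2, pow_succ]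
    ring

theorem sq_poly (m j : ℕ) : R3.IsPoly fun q => sq q m j := by
  induction m generalizing j with
  | zero => exact R3.IsPoly.const 1
  | succ m ih =>
    exact ((R3.IsPoly.id.sub (.const _)).mul (ih _)).sub ((R3.IsPoly.const _).mul (ih _))

end KnZ

open KnZ in
theorem p_KnZ : S_KnZ := by
  classical
  intro n L E U q hL hE h1 h2 h3
  refine R3.poly_ext (f := fun q => Zk q (comps n L) (fun _ => -2) E)
    (g := fun q => q ^ (n - U.card) * sq q U.card 0) (by unfold Zk; fun_prop)
    ((R3.IsPoly.id.pow _).mul (sq_poly _ _)) (fun x hx => ?_) q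
  have := W_sum (x := x) (by omega) U ∅
  rw [card_empty] at this
  rw [← this, Zk]
  simp only [count (n := n) (x := x) L, sum_mul, ← prod_mul_distrib]
  rw [sum_comm]
  refine sum_congr rfl fun σ _ => ?_
  rw [← prod_one_add]
  have e1 : W U (∅ : Finset (Fin x)) σ =
      ∏ p ∈ (U ×ˢ U).filter fun p => p.2 < p.1, sn (σ p.2 = σ p.1) := by
    rw [W, prod_filter, prod_product]
    refine prod_congr rfl fun y _ => ?_
    have : sn (σ y ∈ (∅ : Finset (Fin x))) = 1 := by simp [sn]
    rw [this, one_mul]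
    refine prod_congr rfl fun w _ => ?_
    by_cases h : w < y <;> simp [sn, h]
  have h4 : ∀ p ∈ (U ×ˢ U).filter fun p => p.2 < p.1, ∃ i ∈ E, Ends L i p.2 p.1 := fun p hp => by
    obtain ⟨a, b⟩ := mem_filter.1 hp
    exact h2 _ (mem_product.1 a).2 _ (mem_product.1 a).1 b.ne
  choose f f1 f2 using h4
  rw [e1]
  refine (prod_bij f f1 (fun p hp r hr e => ?_) (fun i hi => ?_) fun p hp => ?_).symm
  · have a := (mem_filter.1 hp).2
    have b := (mem_filter.1 hr).2
    rcases Ends_same (f2 p hp) (e ▸ f2 r hr) with ⟨c, d⟩ | ⟨c, d⟩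
    · exact Prod.ext d c
    · rw [c, d] at a
      exact absurd a b.asymm
  · obtain ⟨a, b, e⟩ := exists_ends hL (mem_range.1 (hE hi))
    obtain ⟨ha, hab⟩ := h1 a b ⟨i, hi, e⟩
    obtain ⟨hb, -⟩ := h1 b a ⟨i, hi, e.symm⟩
    rcases hab.lt_or_gt with c | c
    · have m : (b, a) ∈ (U ×ˢ U).filter fun p => p.2 < p.1 :=
        mem_filter.2 ⟨mem_product.2 ⟨hb, ha⟩, c⟩
      exact ⟨_, m, h3 _ (f1 _ m) i hi a b (f2 _ m) e⟩
    · have m : (a, b) ∈ (U ×ˢ U).filter fun p => p.2 < p.1 :=
        mem_filter.2 ⟨mem_product.2 ⟨ha, hb⟩, c⟩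
      exact ⟨_, m, h3 _ (f1 _ m) i hi b a (f2 _ m) e.symm⟩
  · have e2 : (∀ a b, Ends L (f p hp) a b → σ a = σ b) ↔ σ p.2 = σ p.1 :=
      ⟨fun h => h _ _ (f2 p hp), fun h a b e => by
        rcases Ends_same (f2 p hp) e with ⟨c, d⟩ | ⟨c, d⟩
        · rw [← c, ← d, h]
        · rw [← c, ← d, h]⟩
    simp only [e2, sn]
    split_ifs <;> norm_num

end Pool.Agent.P.MP_e0c037_lc.SG
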