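import Pool.Agent.P.MP_e0c037_lc.SG.Base

/-! The sign rule for connected reduced counts of large rank. -/

namespace Pool.Agent.P.MP_e0c037_lc.SG

open Finset Function

namespace MainS

/-- Large rank and a small weight at one element give a positive sign. -/
theorem key {C : KF → Finset ℕ → Prop} {q B : ℝ} {J : ℕ} {t : ℕ → ℝ} (mc : Mc C)
    (sy : Sy q B J t) (cp : ClaimP C q B) (br : BoundR C q B J t) :
    ∃ N0 : ℕ, ∀ k E S f (v : ℕ → ℝ), C k E → Conn k E → S ⊆ E → Red k S → f ∈ E → f ∉ S →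
      |1 + v f| ≤ 1 / 3 → (∀ x ∈ S, v x = -2) → (∀ x ∈ E, x ≠ f → x ∉ S → |1 + v x| ≤ t 1) →
      k E + N0 ≤ k ∅ → 0 < sg k E * Zk q k v E := by
  have hB0 := sy.B0
  have hq1 := sy.q1
  obtain ⟨m, hm⟩ := exists_pow_lt_of_lt_one
    (mul_pos (by linarith : (0 : ℝ) < 3 * B - 1) (by linarith : (0 : ℝ) < 1 - q))
    (max_lt sy.B1 (by norm_num : (3 / 4 : ℝ) < 1))
  refine ⟨m * 2 ^ J + 3, fun k E S f v hC hc hS hr hf hfS hvf hv hv' hN => ?_⟩
  have h := mc.isK k E hC
  have hcard := h.rank_le E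
  have b1 := br k E S f (update v f (3 * B * (1 + v f) - 1)) (fun x => if x ∈ S then 0 else 1) m
    hC hc hS hr hf hfS (by omega)
    (by
      rw [update_self, add_sub_cancel, abs_mul, abs_of_pos (by linarith : (0 : ℝ) < 3 * B)]
      nlinarith)
    (fun x hx => ⟨by rw [update_of_ne (fun hh : x = f => hfS (hh ▸ hx))]; exact hv x hx, if_pos hx⟩)
    (fun x hx hxf hxS => by
      simp only [if_neg hxS]
      exact ⟨le_rfl, sy.J1, by rw [update_of_ne hxf]; exact hv' x hx hxf hxS⟩)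
    (by omega)
  obtain ⟨p1, -⟩ := cp k E S f v hC hc hS hr hf hfS (by omega) (Or.inl (by omega)) hv
    fun x hx hxf hxS => (hv' x hx hxf hxS).trans sy.tB
  obtain ⟨a1, a2⟩ := al_update (q := q) (k := k) (v := v) (E := E) (f := f)
    (3 * B * (1 + v f) - 1)
  rw [Z_eq hq1.ne hf, a1, a2, update_self] at b1
  rw [Z_eq hq1.ne hf]
  have b2 := mul_lt_mul_of_pos_right hm p1
  refine pos_of_mul_pos_left (b := 3 * B) ?_ (by linarith)
  nlinarith

/-- The contraction term of a mutual pair. -/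
theorem ctr {C : KF → Finset ℕ → Prop} {q : ℝ} {t : ℕ → ℝ} {N0 : ℕ} (mc : Mc C)
    (K : ∀ k E S f (v : ℕ → ℝ), C k E → Conn k E → S ⊆ E → Red k S → f ∈ E → f ∉ S →
      |1 + v f| ≤ 1 / 3 → (∀ x ∈ S, v x = -2) → (∀ x ∈ E, x ≠ f → x ∉ S → |1 + v x| ≤ t 1) →
      k E + N0 ≤ k ∅ → 0 < sg k E * Zk q k v E)
    {k : KF} {E E1 : Finset ℕ} {e g : ℕ} (hC : C k E) (hg : g ∈ E) (heg : e ≠ g)
    (c : Ctr k E (E.erase g) e E1) (hN : k E + (N0 + 1) ≤ k ∅) :
    0 < sg (con k e) (E.erase e) *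
      Zk q (con k e) (update (fun _ => (-2 : ℝ)) g (-4 / 3)) (E.erase e) := by
  have h := mc.isK k E hC
  have hv : ∀ x ∈ E.erase g, update (fun _ => (-2 : ℝ)) g (-4 / 3) x = -2 := fun x hx => by
    rw [update_of_ne (ne_of_mem_erase hx)]
  rw [c.Z_eq h fun x hx _ => hv x hx, ← c.sg_eq]
  refine K (con k e) E1 (E.erase g ∩ E1) g _ (mc.del _ _ _ (mc.con k E e hC c.mem) c.subset)
    c.conn inter_subset_right c.red (c.mem' hg heg.symm (notMem_erase _ _))
    (fun hh => notMem_erase _ _ (mem_inter.1 hh).1) ?_ (fun x hx => hv x (mem_inter.1 hx).1)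
    (fun x hx hxg hxS => absurd
      (mem_inter.2 ⟨mem_erase.2 ⟨hxg, mem_of_mem_erase (c.subset hx)⟩, hx⟩) hxS) ?_
  · rw [update_self, abs_le]; constructor <;> norm_num
  · have h1 := c.span
    have h2 := h.ge ∅ e
    unfold con
    omega

end MainS

theorem p_Main : S_Main := by
  intro C X q B J t mc top sy cp br ⟨NX, hX⟩
  obtain ⟨N0, K⟩ := MainS.key mc sy cp br
  have hq0 := sy.q0
  have hq1 := sy.q1
  refine ⟨N0 + NX + 4, fun k E hC hc hr hN => ?_⟩
  have h := mc.isK k E hC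
  have hcard := h.rank_le E
  unfold Pos
  rcases top k E hC hc hr (by omega) with ⟨e, he, g, hg, heg, hh⟩ |
    ⟨e, he, g, hg, heg, ⟨E1, c1⟩, E2, c2⟩ | hx
  · have hq : q + -2 + -2 ≠ 0 := by linarith
    rw [sgZ_ser (v := fun _ => (-2 : ℝ)) h hc he hg heg hh hq]
    refine mul_pos (by linarith) (K (con k g) (E.erase g) ((E.erase g).erase e) e _
      (mc.con k E g hC hg) (conn_ser h hc he hg heg hh) (erase_subset _ _)
      (red_ser h hc he hg heg hh Subset.rfl hr) (mem_erase.2 ⟨heg, he⟩) (notMem_erase _ _) ?_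
      (fun x hx => by rw [update_of_ne (ne_of_mem_erase hx)])
      (fun x hx hxe hxS => absurd (mem_erase.2 ⟨hxe, hx⟩) hxS) ?_)
    · rw [update_self]
      have e1 : 1 + -2 * -2 / (q + -2 + -2) = -(q / (4 - q)) := by
        have : 4 - q ≠ 0 := by linarith
        field_simp
        ring
      rw [e1, abs_neg, abs_of_pos (div_pos hq0 (by linarith)), div_le_iff₀ (by linarith)]
      linarith
    · have h2 := h.ge ∅ g
      unfold con
      rw [insert_erase hg]
      omega
  · obtain ⟨s1, -⟩ := hc.single h he hg heg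
    obtain ⟨s2, -⟩ := hc.single h hg he heg.symm
    rw [sgZ_two (v := fun _ => (-2 : ℝ)) he hg heg s1 s2 rfl rfl]
    have t1 := K k E ((E.erase e).erase g) e
      (update (update (fun _ => (-2 : ℝ)) e (-2 / 3)) g (-2 / 3)) hC hc
      ((erase_subset _ _).trans (erase_subset _ _))
      (hr.mono ((erase_subset _ _).trans (erase_subset _ _))) he
      (fun hh => notMem_erase _ _ (mem_of_mem_erase hh))
      (by rw [update_of_ne heg, update_self, abs_le]; constructor <;> norm_num)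
      (fun x hx => by
        rw [update_of_ne (ne_of_mem_erase hx),
          update_of_ne (ne_of_mem_erase (mem_of_mem_erase hx))])
      (fun x hx hxe hxS => by
        have hxg : x = g := by
          by_contra hn
          exact hxS (mem_erase.2 ⟨hn, mem_erase.2 ⟨hxe, hx⟩⟩)
        rw [hxg, update_self]
        refine le_trans ?_ sy.t1
        rw [abs_le]; constructor <;> norm_num)
      (by omega)
    have t2 := MainS.ctr mc K hC hg heg c1 (by omega)
    have t3 := MainS.ctr mc K hC he heg.symm c2 (by omega)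
    linarith
  · exact hX k E hx (by omega)

end Pool.Agent.P.MP_e0c037_lc.SG
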