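import Pool.Agent.P.MP_e0c037_lc.SG.Base

/-! The decomposition of a sublist of edges into connected parts, with an oracle. -/

namespace Pool.Agent.P.MP_e0c037_lc.SG

open Finset Pool.Agent.Lib.helper21

namespace Parts

variable {κ : Inp × List ℕ → ℕ} {k : Inp → KF}

/-- The parts that remain separators of `T`. -/
def keep (κ : Inp × List ℕ → ℕ) (G : Inp) (P : List (List ℕ)) (T : List ℕ) : List (List ℕ) :=
  P.filter fun K => decide (κ (G, K) + κ (G, T.filter fun i => !memb i K) = κ (G, []) + κ (G, T))

/-- One step of the decomposition. -/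
def pstep (κ : Inp × List ℕ → ℕ) (G : Inp) (P : List (List ℕ)) (T : List ℕ) : List (List ℕ) :=
  (T.filter fun i => (keep κ G P T).all fun K => !memb i K) :: keep κ G P T

/-- The nonempty suffixes, shortest first. -/
def sfx (D : List ℕ) : List (List ℕ) :=
  (List.range D.length).map fun j => D.drop (D.length - (j + 1))

/-- The parts. -/
def parts (κ : Inp × List ℕ → ℕ) (p : Inp × List ℕ) : List (List ℕ) :=
  (sfx p.2).foldl (pstep κ p.1) []

theorem sfx_cons (e : ℕ) (D : List ℕ) : sfx (e :: D) = sfx D ++ [e :: D] := by
  unfold sfx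
  rw [List.length_cons, List.range_succ, List.map_append, List.map_singleton, Nat.sub_self,
    List.drop_zero]
  congr 1
  refine List.map_congr_left fun j hj => ?_
  have := List.mem_range.1 hj
  rw [show D.length + 1 - (j + 1) = D.length - (j + 1) + 1 by omega, List.drop_succ_cons]

theorem pt_keep (hκ : PT κ) :
    PT fun p : Inp × List (List ℕ) × List ℕ => keep κ p.1 p.2.1 p.2.2 := by
  unfold keep memb; fun_prop

theorem pt_parts (hκ : PT κ) : PT (parts κ) := by
  have h := pt_keep hκ
  refine PT.foldl_add (f := fun p : Inp × List ℕ => pstep κ p.1)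
    (by unfold pstep memb; fun_prop) (by unfold sfx; fun_prop) (by fun_prop)
    (fun p => 2 * sz p.2 + 2) (PT.bdNat (by fun_prop)) fun p P T => ?_
  have h1 : sz (keep κ p.1 P T) ≤ sz P := sz_filter _ _
  have h2 := sz_filter (fun i => (keep κ p.1 P T).all fun K => !memb i K) T
  unfold pstep
  rw [sz_cons]
  dsimp only
  omega

theorem parts_inv (o : Orc κ k) {G : Inp} (hG : Valid G) (D : List ℕ) (hD : D.Nodup)
    (hb : ∀ i ∈ D, i < G.2.length) :
    (∀ K ∈ parts κ (G, D), K.Nodup) ∧
      Dec (k G) D.toFinset ((parts κ (G, D)).map List.toFinset) := by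
  induction D with
  | nil => exact ⟨by simp [parts, sfx], by simp [parts, sfx], by simp [parts, sfx], by simp⟩
  | cons e D ih =>
    obtain ⟨h1, d⟩ := ih hD.of_cons fun i hi => hb i (List.mem_cons_of_mem _ hi)
    have e0 : parts κ (G, e :: D) = pstep κ G (parts κ (G, D)) (e :: D) := by
      unfold parts
      rw [sfx_cons, List.foldl_append, List.foldl_cons, List.foldl_nil]
    rw [e0]
    generalize parts κ (G, D) = P at h1 d
    have hs : (keep κ G P (e :: D)).Sublist P := List.filter_sublist
    have hk : ∀ K ∈ P, K ∈ keep κ G P (e :: D) ↔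
        Sp (k G) (insert e D.toFinset) K.toFinset := by
      intro K hK
      have hK' : ∀ i ∈ K, i < G.2.length := fun i hi => hb i (List.mem_cons_of_mem _
        (List.mem_toFinset.1 ((d.part _ (List.mem_map_of_mem hK)).1 (List.mem_toFinset.2 hi))))
      unfold keep Sp
      rw [List.mem_filter, decide_eq_true_iff, o.eq G hG K hK',
        o.eq G hG _ fun i hi => hb i (List.mem_filter.1 hi).1, o.eq G hG _ hb,
        o.eq G hG [] (by simp), List.toFinset_nil, ← List.toFinset_cons]
      have : ((e :: D).filter fun i => !memb i K).toFinset =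
          (e :: D).toFinset \ K.toFinset := by
        ext x; simp only [List.mem_toFinset, List.mem_filter, mem_sdiff, Bool.not_eq_true',
          memb_iff]
      rw [this]
      tauto
    constructor
    · intro K hK
      rcases List.mem_cons.1 hK with rfl | hK
      · exact hD.filter _
      · exact h1 K (hs.subset hK)
    · unfold pstep
      rw [List.map_cons, List.toFinset_cons]
      refine d.step (o.isK G) (hs.map _) (fun K hK => ?_) fun x => ?_
      · obtain ⟨K', h2, rfl⟩ := List.mem_map.1 hK
        constructor
        · intro h3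
          obtain ⟨K'', h4, h5⟩ := List.mem_map.1 h3
          rw [← h5]; exact (hk _ (hs.subset h4)).1 h4
        · intro h3
          exact List.mem_map_of_mem ((hk _ h2).2 h3)
      · rw [← List.toFinset_cons]
        simp only [List.mem_toFinset, List.mem_filter, List.all_eq_true, Bool.not_eq_true',
          memb_iff, List.forall_mem_map]

end Parts

theorem p_Parts : S_Parts := fun κ _ o =>
  ⟨Parts.parts κ, Parts.pt_parts o.pt, fun _ hG D hD hb => Parts.parts_inv o hG D hD hb⟩

end Pool.Agent.P.MP_e0c037_lc.SG
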