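import Pool.Agent.P.MP_e0c037_lc.SG.Base

/-! The number of elements is bounded in terms of the rank. -/

namespace Pool.Agent.P.MP_e0c037_lc.SG

open Finset SimpleGraph

namespace Size

variable {n : ℕ} {L : List (ℕ × ℕ)}

theorem ad_of_reach {A : Finset ℕ} {x y : Fin n} (h : (spanning n L A).Reachable x y)
    (hxy : x ≠ y) : ∃ z, Ad n L A x z := by
  rw [reachable_iff_reflTransGen] at h
  rcases h.cases_head with h | ⟨c, h, -⟩
  · exact absurd h hxy
  · exact ⟨c, (adj_iff.1 h).2⟩

theorem ne_of_comps {i : ℕ} {x y : Fin n} (e : Ends L i x y) (h : comps n L {i} + 1 = n) :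
    x ≠ y := by
  rintro rfl
  have h1 := (e.comps (A := ∅)).1 (Reachable.refl _)
  rw [insert_empty_eq, comps_empty] at h1
  omega

theorem cover (A : Finset ℕ) (hA : ∀ i ∈ A, ∃ x y : Fin n, Ends L i x y ∧ x ≠ y) :
    ∃ U : Finset (Fin n), (∀ x y, Ad n L A x y → x ∈ U) ∧ U.card + 2 * comps n L A ≤ 2 * n := by
  induction A using Finset.induction_on with
  | empty =>
    refine ⟨∅, ?_, by simp [comps_empty]⟩
    rintro x y ⟨i, hi, -⟩
    simp at hi
  | insert i A _ ih =>
    obtain ⟨U, h1, h2⟩ := ih fun j hj => hA j (mem_insert_of_mem hj)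
    obtain ⟨x, y, e, hxy⟩ := hA i (mem_insert_self _ _)
    by_cases hr : (spanning n L A).Reachable x y
    · refine ⟨U, ?_, by rw [e.comps.1 hr]; exact h2⟩
      rintro z t ⟨j, hj, e'⟩
      rcases mem_insert.1 hj with rfl | hj
      · rcases e.eq e' with rfl | rfl
        · obtain ⟨w, hw⟩ := ad_of_reach hr hxy
          exact h1 _ _ hw
        · obtain ⟨w, hw⟩ := ad_of_reach hr.symm hxy.symm
          exact h1 _ _ hw
      · exact h1 z t ⟨j, hj, e'⟩
    · have h3 := e.comps.2 hr
      have h4 := card_insert_le x (insert y U)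
      have h5 := card_insert_le y U
      refine ⟨insert x (insert y U), ?_, by omega⟩
      rintro z t ⟨j, hj, e'⟩
      rcases mem_insert.1 hj with rfl | hj
      · rcases e.eq e' with rfl | rfl <;> simp
      · exact mem_insert_of_mem (mem_insert_of_mem (h1 z t ⟨j, hj, e'⟩))

theorem gr {k : KF} {E : Finset ℕ} (hG : Gr k E) (hc : Conn k E) (hr : Red k E)
    (h2 : 2 ≤ E.card) : E.card ≤ (2 * (k ∅ - k E)) ^ 2 := by
  obtain ⟨hk, n, L, c, hL, hE, hA⟩ := hG
  have s1 : ∀ i ∈ E, k {i} + 1 = k ∅ := fun i hi => by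
    obtain ⟨j, hj, hji⟩ := exists_mem_ne (by omega : 1 < E.card) i
    exact (hc.single hk hi hj hji.symm).1
  have a0 := hA ∅ (empty_subset _)
  have aE := hA E Subset.rfl
  rw [comps_empty] at a0
  have ne : ∀ i ∈ E, ∀ x y : Fin n, Ends L i x y → x ≠ y := fun i hi x y e => by
    have b1 := s1 i hi
    have b2 := hA {i} (singleton_subset_iff.2 hi)
    exact ne_of_comps e (by omega)
  obtain ⟨U, u1, u2⟩ := cover (n := n) (L := L) E fun i hi => by
    obtain ⟨x, y, e⟩ := exists_ends hL (mem_range.1 (hE hi))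
    exact ⟨x, y, e, ne i hi x y e⟩
  have h3 : E.card ≤ (U ×ˢ U).card := by
    refine card_le_card_of_forall_subsingleton (fun i p => Ends L i p.1 p.2) ?_ ?_
    · intro i hi
      obtain ⟨x, y, e⟩ := exists_ends hL (mem_range.1 (hE hi))
      exact ⟨(x, y), mem_product.2 ⟨u1 x y ⟨i, hi, e⟩, u1 y x ⟨i, hi, e.symm⟩⟩, e⟩
    · rintro ⟨x, y⟩ - i ⟨hi, ei⟩ j ⟨hj, ej⟩
      by_contra hij
      refine hr i hi j hj hij ⟨s1 i hi, s1 j hj, ?_⟩
      have b1 := (ei.comps (A := {j})).1
        (Adj.reachable (adj_iff.2 ⟨ne j hj _ _ ej, j, mem_singleton_self _, ej⟩))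
      have b2 := hA {i, j} (insert_subset hi (singleton_subset_iff.2 hj))
      have b3 := hA {j} (singleton_subset_iff.2 hj)
      have b4 := s1 j hj
      omega
  rw [card_product, ← pow_two] at h3
  exact h3.trans (Nat.pow_le_pow_left (by omega) 2)

theorem iso {F : Finset ℕ} {i : ℕ} {u y : Fin n} (e : Ends L i u y) (h : u ≠ y)
    (hF : ∀ j ∈ F, ¬ ∃ z, Ends L j u z) : comps n L (insert i F) + 1 = comps n L F := by
  refine e.comps.2 fun hr => ?_
  obtain ⟨z, j, hj, e'⟩ := ad_of_reach hr h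
  exact hF j hj ⟨z, e'⟩

theorem du (hC : S_Cmp) {k : KF} {E : Finset ℕ} (hG : Du k E) (hc : Conn k E) (hr : Red k E)
    (h2 : 2 ≤ E.card) : E.card ≤ 3 * (k ∅ - k E) := by
  classical
  obtain ⟨hk, n, L, c, c', hL, hE, hA⟩ := hG
  have s1 : ∀ i ∈ E, k {i} + 1 = k ∅ ∧ k (E.erase i) = k E := fun i hi => by
    obtain ⟨j, hj, hji⟩ := exists_mem_ne (by omega : 1 < E.card) i
    exact hc.single hk hi hj hji.symm
  have a0 := hA ∅ (empty_subset _)
  have aE := hA E Subset.rfl
  rw [sdiff_empty, card_empty] at a0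
  rw [Finset.sdiff_self, comps_empty] at aE
  have nb : ∀ i ∈ E, comps n L (E.erase i) = comps n L E := fun i hi => by
    have b1 := (s1 i hi).1
    have b2 := hA {i} (singleton_subset_iff.2 hi)
    rw [sdiff_singleton_eq_erase, card_singleton] at b2
    omega
  have ne : ∀ i ∈ E, ∀ x y : Fin n, Ends L i x y → x ≠ y := fun i hi x y e => by
    have b1 := (s1 i hi).2
    have b2 := hA (E.erase i) (erase_subset _ _)
    have b3 := card_erase_add_one hi
    rw [sdiff_erase_self hi] at b2
    exact ne_of_comps e (by omega)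
  let U : Finset (Fin n) := univ.filter fun u => ∃ y, Ad n L E u y
  have u1 : ∀ x y, Ad n L E x y → x ∈ U := fun x y h => mem_filter.2 ⟨mem_univ _, y, h⟩
  have u0 : U.Nonempty := by
    obtain ⟨i, hi⟩ := card_pos.1 (by omega : 0 < E.card)
    obtain ⟨x, y, e⟩ := exists_ends hL (mem_range.1 (hE hi))
    exact ⟨x, u1 x y ⟨i, hi, e⟩⟩
  have h3 := hC.1 n L E U u0 u1
  have h4 : U.card * 3 ≤ E.card * 2 := by
    refine card_mul_le_card_mul (fun u i => ∃ z, Ends L i u z) ?_ ?_
    · intro u hu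
      obtain ⟨y, e, he, ee⟩ := (mem_filter.1 hu).2
      by_cases c1 : ∃ g ∈ E.erase e, ∃ z, Ends L g u z
      · obtain ⟨g, hg, z, eg⟩ := c1
        have hge := ne_of_mem_erase hg
        have hg' := mem_of_mem_erase hg
        by_cases c2 : ∃ j ∈ (E.erase e).erase g, ∃ z, Ends L j u z
        · obtain ⟨j, hj, ej⟩ := c2
          refine two_lt_card_iff.2 ⟨e, g, j, ?_, ?_, ?_, hge.symm,
            (ne_of_mem_erase (mem_of_mem_erase hj)).symm, (ne_of_mem_erase hj).symm⟩
          · exact (mem_bipartiteAbove _).2 ⟨he, y, ee⟩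
          · exact (mem_bipartiteAbove _).2 ⟨hg', z, eg⟩
          · exact (mem_bipartiteAbove _).2 ⟨mem_of_mem_erase (mem_of_mem_erase hj), ej⟩
        · exfalso
          have b1 := iso (F := (E.erase e).erase g) eg (ne g hg' _ _ eg)
            fun j hj hz => c2 ⟨j, hj, hz⟩
          rw [insert_erase hg, nb e he] at b1
          refine hr e he g hg' hge.symm ⟨(s1 e he).1, (s1 g hg').1, ?_⟩
          have b2 := hA {e, g} (insert_subset he (singleton_subset_iff.2 hg'))
          have b3 : E \ {e, g} = (E.erase e).erase g := by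
            ext x
            simp only [mem_sdiff, mem_insert, mem_singleton, mem_erase]
            tauto
          rw [b3, card_pair hge.symm] at b2
          omega
      · exfalso
        have b1 := iso (F := E.erase e) ee (ne e he _ _ ee) fun j hj hz => c1 ⟨j, hj, hz⟩
        rw [insert_erase he, nb e he] at b1
        omega
    · intro i hi
      obtain ⟨x, y, e⟩ := exists_ends hL (mem_range.1 (hE hi))
      refine le_trans (card_le_card (t := {x, y}) fun z hz => ?_) card_le_two
      obtain ⟨-, t, e'⟩ := (mem_bipartiteBelow _).1 hz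
      simpa using e.eq e'
  omega

end Size

theorem p_Size (h : S_Cmp) : S_Size :=
  ⟨fun _ _ a b c d => Size.gr a b c d, fun _ _ a b c d => Size.du h a b c d⟩

end Pool.Agent.P.MP_e0c037_lc.SG
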