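import Pool.Agent.P.MP_e0c037_lc.SG.Base

/-! Deletion inside a least two-separating set, and deletion of the base point of a parallel
connection. -/

namespace Pool.Agent.P.MP_e0c037_lc.SG

open Finset

namespace Sum

variable {k : KF} {E Y P R A A' B B' : Finset ℕ} {e f g h : ℕ}

theorem del_key (hk : IsK k) (hc : Conn k E) (hY : Y ⊆ E) (hf : f ∈ E \ Y) (h3 : 3 ≤ Y.card)
    (hl : lam k E Y ≤ 1) (hm : MinY k E Y) (he : e ∈ Y) (hA : A ⊆ E.erase e) (hne : A.Nonempty)
    (hfA : f ∉ A) : k A + k (E.erase e \ A) < k ∅ + k (E.erase e) := by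
  obtain ⟨hfE, hfY⟩ := mem_sdiff.1 hf
  have hef : e ≠ f := fun hh => hfY (hh ▸ he)
  have heE := hY he
  obtain ⟨-, s2⟩ := hc.single hk heE hfE hef
  have hAE : A ⊆ E := hA.trans (erase_subset _ _)
  have heA : e ∉ A := fun hh => by simpa using hA hh
  by_contra hn
  have e1 : E \ A = insert e (E.erase e \ A) := by
    ext a; simp only [mem_insert, mem_sdiff, mem_erase]
    by_cases ha : a = e
    · subst ha; tauto
    · tauto
  have e2 : E \ insert e A = E.erase e \ A := by
    ext a; simp only [mem_insert, mem_sdiff, mem_erase]; tauto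
  have a1 := hk.ge A e
  have a2 := hk.ge (E.erase e \ A) e
  have l1 : lam k E A ≤ 1 := by unfold lam; rw [e1]; omega
  have l2 : lam k E (insert e A) ≤ 1 := by unfold lam; rw [e2]; omega
  have b1 := hk.lam_sub E A Y
  have b2 := hk.lam_sub E (insert e A) Y
  have b3 := hc.one_le (union_subset hAE hY) ⟨e, by simp [he]⟩ hfE (by simp [hfA, hfY])
  have b4 := hc.one_le (union_subset (insert_subset heE hAE) hY) ⟨e, by simp [he]⟩ hfE
    (by simp [hfA, hfY, hef.symm])
  have c1 : (A ∩ Y).card ≤ 1 := by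
    by_contra hh
    have := hm (A ∩ Y) inter_subset_right
      (fun h0 => heA (mem_inter.1 (h0.symm ▸ he : e ∈ A ∩ Y)).1) (by omega)
    omega
  rw [insert_inter_of_mem he] at b2
  have c2 : (insert e (A ∩ Y)).card = (A ∩ Y).card + 1 :=
    card_insert_of_notMem fun hh => heA (mem_inter.1 hh).1
  have c3 : (A ∩ Y).card = 0 := by
    by_contra hh
    have := hm (insert e (A ∩ Y)) (insert_subset he inter_subset_right)
      (fun h0 => by rw [h0] at c2; omega) (by omega)
    omega
  have hd : ∀ x, x ∈ A → x ∉ Y := fun x h1 h2 => by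
    have : x ∈ A ∩ Y := mem_inter.2 ⟨h1, h2⟩
    rw [card_eq_zero.1 c3] at this
    exact notMem_empty _ this
  have d1 := hk.lam_pos hY (insert_subset heE hAE)
  have e3 : Y \ insert e A = Y.erase e := by
    ext x; simp only [mem_insert, mem_sdiff, mem_erase]; have := hd x; tauto
  have e4 : insert e A \ Y = A := by
    ext x; simp only [mem_insert, mem_sdiff]; have := hd x
    by_cases hx : x = e
    · subst hx; tauto
    · tauto
  rw [e3, e4] at d1
  have d2 := hc.one_le hAE hne hfE hfA
  have d3 := card_erase_of_mem he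
  have := hm (Y.erase e) (erase_subset _ _) (fun h0 => by rw [h0] at d3; omega) (by omega)
  omega

theorem dmono (hk : IsK k) (hA : A ⊆ A') (hB : B ⊆ B') :
    k (A ∪ B) + k A' + k B' ≤ k (A' ∪ B') + k A + k B := by
  have h1 := hk.dimin hA B
  have h2 := hk.dimin hB A'
  rw [union_comm B, union_comm B'] at h2
  omega

theorem cl (hk : IsK k) (p : Par k g h)
    (h1 : k ∅ + k (insert g A ∪ insert h B) ≤ k (insert g A) + k (insert h B) + 1)
    (h2 : k A + k B + 1 ≤ k ∅ + k (A ∪ B)) : k (insert g A) = k A ∧ k (insert h B) = k B := by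
  have p1 := par_eq hk p.1 p.2.2 (A ∪ B)
  have p2 := par_eq hk p.symm.1 p.symm.2.2 (A ∪ B)
  rw [insert_union, union_insert, p2] at h1
  rw [Finset.insert_comm h g, p2] at p1
  have a1 := hk.le A g
  have a2 := hk.ge A g
  have a3 := hk.le B h
  have a4 := hk.ge B h
  have a5 := hk.ge (A ∪ B) g
  by_cases c1 : k (insert g A) = k A
  · have := hk.dim A (A ∪ B) g subset_union_left c1
    omega
  · by_cases c2 : k (insert h B) = k B
    · have := hk.dim B (A ∪ B) h subset_union_right c2
      omega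
    · omega

theorem side (hc : Conn k P) (hg : g ∈ P) (hu : A ∪ A' = P.erase g) (hd : Disjoint A A')
    (h1 : k (insert g A) = k A) (hne : A'.Nonempty) : k A + k A' < k ∅ + k P := by
  have m : ∀ x, x ∈ A ∨ x ∈ A' ↔ x ≠ g ∧ x ∈ P := fun x => by
    rw [← mem_union, hu, mem_erase]
  have hd' := disjoint_left.1 hd
  have e1 : P \ A' = insert g A := by
    ext x; simp only [mem_insert, mem_sdiff]; have := m x; have := @hd' x
    by_cases hx : x = g
    · subst hx; tauto
    · tauto
  have := hc A' (fun x hx => ((m x).1 (Or.inr hx)).2) hne (by rw [e1]; simp)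
  rw [e1] at this
  omega

theorem split_le (hk : IsK k) (hu : A ∪ A' = P.erase g) (hd : Disjoint A A')
    (h1 : k (P.erase g) = k P) : k A + k A' ≤ k ∅ + k P := by
  have := hk.sup A A'
  rw [hu, disjoint_iff_inter_eq_empty.1 hd] at this
  omega

theorem ne_of_cl (h1 : k {g} + 1 = k ∅) (h2 : k (insert g A) = k A) : A.Nonempty := by
  rw [nonempty_iff_ne_empty]
  rintro rfl
  rw [insert_empty_eq] at h2
  omega

theorem sum_key (hk : IsK k) (hg : g ∈ P) (hh : h ∈ R) (p : Par k g h) (cP : Conn k P)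
    (cR : Conn k R) (sP : k (P.erase g) = k P) (sR : k (R.erase h) = k R)
    (hl : k ∅ + k (P ∪ R) ≤ k P + k R + 1) (uA : A ∪ A' = P.erase g) (dA : Disjoint A A')
    (uB : B ∪ B' = R.erase h) (dB : Disjoint B B') (n1 : A.Nonempty ∨ B.Nonempty)
    (n2 : A'.Nonempty ∨ B'.Nonempty) : k (A ∪ B) + k (A' ∪ B') < k ∅ + k (P ∪ R) := by
  have iA : A ⊆ P := (uA ▸ subset_union_left : A ⊆ P.erase g).trans (erase_subset _ _)
  have iA' : A' ⊆ P := (uA ▸ subset_union_right : A' ⊆ P.erase g).trans (erase_subset _ _)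
  have iB : B ⊆ R := (uB ▸ subset_union_left : B ⊆ R.erase h).trans (erase_subset _ _)
  have iB' : B' ⊆ R := (uB ▸ subset_union_right : B' ⊆ R.erase h).trans (erase_subset _ _)
  have m0 := dmono hk (singleton_subset_iff.2 hg) (singleton_subset_iff.2 hh)
  have e0 : ({g} : Finset ℕ) ∪ {h} = {g, h} := rfl
  rw [e0] at m0
  obtain ⟨q1, q2, q3⟩ := id p
  have m1 := dmono hk iA iB
  have m2 := dmono hk iA' iB'
  have m3 := dmono hk (insert_subset hg iA) (insert_subset hh iB)
  have m4 := dmono hk (insert_subset hg iA') (insert_subset hh iB')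
  have t1 := split_le hk uA dA sP
  have t2 := split_le hk uB dB sR
  by_cases c1 : k A + k B + 1 ≤ k ∅ + k (A ∪ B)
  · obtain ⟨x1, x2⟩ := cl hk p (by omega) c1
    by_cases c2 : k A' + k B' + 1 ≤ k ∅ + k (A' ∪ B')
    · obtain ⟨y1, y2⟩ := cl hk p (by omega) c2
      have := side cP hg uA dA x1 (ne_of_cl q1 y1)
      have := side cR hh uB dB x2 (ne_of_cl q2 y2)
      omega
    · rcases n2 with n | n
      · have := side cP hg uA dA x1 n
        omega
      · have := side cR hh uB dB x2 n
        omega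
  · by_cases c2 : k A' + k B' + 1 ≤ k ∅ + k (A' ∪ B')
    · obtain ⟨y1, y2⟩ := cl hk p (by omega) c2
      rcases n1 with n | n
      · have := side cP hg ((union_comm _ _).trans uA) dA.symm y1 n
        omega
      · have := side cR hh ((union_comm _ _).trans uB) dB.symm y2 n
        omega
    · omega

end Sum

theorem p_Del : S_Del := by
  intro k E Y f e hk hc hY hf h3 hl hm he X hX h1 h2
  by_cases hfX : f ∈ X
  · have := Sum.del_key hk hc hY hf h3 hl hm he (sdiff_subset : E.erase e \ X ⊆ _) h2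
      (by simp [hfX])
    rw [Finset.sdiff_sdiff_eq_self hX] at this
    omega
  · exact Sum.del_key hk hc hY hf h3 hl hm he hX h1 hfX

theorem p_Sum : S_Sum := by
  intro k P R g h hk hd hg hh p cP cR nP nR hl
  obtain ⟨g', hg', ng⟩ := exists_mem_ne (by omega : 1 < P.card) g
  obtain ⟨h', hh', nh⟩ := exists_mem_ne (by omega : 1 < R.card) h
  obtain ⟨-, sP⟩ := cP.single hk hg hg' ng.symm
  obtain ⟨-, sR⟩ := cR.single hk hh hh' nh.symm
  have hl' : k ∅ + k (P ∪ R) ≤ k P + k R + 1 := by
    unfold lam at hl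
    rw [union_sdiff_cancel_left hd] at hl
    omega
  have e0 : k (P.erase g ∪ R.erase h) = k (P ∪ R) := by
    have a1 := hk.dim (R.erase h) (P.erase g ∪ R.erase h) h subset_union_right
      (by rw [insert_erase hh, sR])
    have a2 := hk.dim (P.erase g) (P.erase g ∪ R) g subset_union_left
      (by rw [insert_erase hg, sP])
    rw [← union_insert, insert_erase hh] at a1
    rw [← insert_union, insert_erase hg] at a2
    omega
  refine ⟨fun S hS n1 n2 => ?_, e0⟩
  have hd' := disjoint_left.1 hd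
  have m : ∀ x ∈ S, x ≠ g ∧ x ∈ P ∨ x ≠ h ∧ x ∈ R := fun x hx => by
    simpa only [mem_union, mem_erase] using hS hx
  have e1 : S ∩ P ∪ S ∩ R = S := by
    ext x; simp only [mem_union, mem_inter]; have := m x; tauto
  have e2 : P.erase g \ S ∪ R.erase h \ S = (P.erase g ∪ R.erase h) \ S :=
    (union_sdiff_distrib _ _ _).symm
  have := Sum.sum_key (A := S ∩ P) (A' := P.erase g \ S) (B := S ∩ R) (B' := R.erase h \ S)
    hk hg hh p cP cR sP sR hl'
    (by
      ext x; simp only [mem_union, mem_inter, mem_sdiff, mem_erase]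
      have := m x; have := @hd' x; tauto)
    (disjoint_left.2 fun x h1 h2 => (mem_sdiff.1 h2).2 (mem_inter.1 h1).1)
    (by
      ext x; simp only [mem_union, mem_inter, mem_sdiff, mem_erase]
      have := m x; have := @hd' x; tauto)
    (disjoint_left.2 fun x h1 h2 => (mem_sdiff.1 h2).2 (mem_inter.1 h1).1)
    (by rw [← union_nonempty, e1]; exact n1) (by rw [← union_nonempty, e2]; exact n2)
  rw [e1, e2] at this
  omega

end Pool.Agent.P.MP_e0c037_lc.SG
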