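import Pool.Agent.P.MP_e0c037_lc.SG.Base

/-! Three-connected component counts come from simple three-connected graphs. -/

namespace Pool.Agent.P.MP_e0c037_lc.SG

open Finset SimpleGraph

namespace T3p

variable {n : ℕ} {L : List (ℕ × ℕ)}

theorem reach {A T : Finset ℕ} {W : Finset (Fin n)} (hA : ∀ x y, Ad n L A x y → x ∈ W)
    (hT : ∀ x y, Ad n L T x y → x ∉ W) {x y : Fin n} (hx : x ∈ W)
    (h : (spanning n L (A ∪ T)).Reachable x y) : y ∈ W ∧ (spanning n L A).Reachable x y := by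
  rw [reachable_iff_reflTransGen] at h
  induction h with
  | refl => exact ⟨hx, Reachable.refl _⟩
  | tail _ h2 ih =>
    obtain ⟨hne, j, hj, e⟩ := adj_iff.1 h2
    rcases mem_union.1 hj with hj | hj
    · exact ⟨hA _ _ ⟨j, hj, Ends.symm e⟩,
        ih.2.trans (Adj.reachable (adj_iff.2 ⟨hne, j, hj, e⟩))⟩
    · exact absurd ih.1 (hT _ _ ⟨j, hj, e⟩)

theorem add (hL : Valid (n, L)) {T : Finset ℕ} {W : Finset (Fin n)}
    (hT : ∀ x y, Ad n L T x y → x ∉ W) (A : Finset ℕ) (hl : A ⊆ range L.length)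
    (hA : ∀ x y, Ad n L A x y → x ∈ W) :
    comps n L (A ∪ T) + n = comps n L A + comps n L T := by
  induction A using Finset.induction_on with
  | empty => rw [empty_union, comps_empty, add_comm]
  | insert i A _ ih =>
    have hA' : ∀ x y, Ad n L A x y → x ∈ W := fun x y ⟨j, hj, e⟩ =>
      hA x y ⟨j, mem_insert_of_mem hj, e⟩
    have h1 := ih ((subset_insert _ _).trans hl) hA'
    obtain ⟨x, y, e⟩ := exists_ends hL (mem_range.1 (hl (mem_insert_self _ _)))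
    have hx : x ∈ W := hA x y ⟨i, mem_insert_self _ _, e⟩
    rw [insert_union]
    by_cases hr : (spanning n L A).Reachable x y
    · rw [e.comps.1 hr, e.comps.1 (hr.mono (spanning_mono subset_union_left))]
      exact h1
    · have b1 := e.comps.2 hr
      have b2 := (e.comps (A := A ∪ T)).2 fun hh => hr (reach hA' hT hx hh).2
      omega

theorem ne_of_comps {i : ℕ} {x y : Fin n} (e : Ends L i x y) (h : comps n L {i} + 1 = n) :
    x ≠ y := by
  rintro rfl
  have h1 := (e.comps (A := ∅)).1 (Reachable.refl _)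
  rw [insert_empty_eq, comps_empty] at h1
  omega

end T3p

open T3p in
theorem p_T3 (h : S_Cmp) : S_T3 := by
  classical
  intro n L E hL hE ⟨hc, ht⟩ h4
  have hk := isK_comps n L
  have s1 : ∀ i ∈ E, comps n L {i} + 1 = n := fun i hi => by
    obtain ⟨j, hj, hji⟩ := exists_mem_ne (by omega : 1 < E.card) i
    have := (hc.single hk hi hj hji.symm).1
    rwa [comps_empty] at this
  have ne : ∀ i ∈ E, ∀ x y : Fin n, Ends L i x y → x ≠ y := fun i hi x y e =>
    ne_of_comps e (s1 i hi)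
  have sim : ∀ i ∈ E, ∀ j ∈ E, ∀ x y : Fin n, Ends L i x y → Ends L j x y → i = j := by
    intro i hi j hj x y ei ej
    by_contra hij
    have b1 := (ei.comps (A := {j})).1
      (Adj.reachable (adj_iff.2 ⟨ne j hj _ _ ej, j, mem_singleton_self _, ej⟩))
    have hs : ({i, j} : Finset ℕ) ⊆ E := insert_subset hi (singleton_subset_iff.2 hj)
    have b2 := card_sdiff_add_card_eq_card hs
    have b3 := card_pair hij
    have b4 := ht {i, j} hs (by omega) (by omega)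
    have b5 := hk.anti (sdiff_subset : E \ {i, j} ⊆ E)
    have b6 := s1 j hj
    unfold lam at b4
    rw [comps_empty] at b4
    omega
  obtain ⟨U, hU⟩ : ∃ U : Finset (Fin n), ∀ u, u ∈ U ↔ ∃ y, Ad n L E u y :=
    ⟨univ.filter fun u => ∃ y, Ad n L E u y, fun u => by simp⟩
  have u1 : ∀ x y, Ad n L E x y → x ∈ U := fun x y hh => (hU x).2 ⟨y, hh⟩
  have u0 : U.Nonempty := by
    obtain ⟨i, hi⟩ := card_pos.1 (by omega : 0 < E.card)
    obtain ⟨x, y, e⟩ := exists_ends hL (mem_range.1 (hE hi))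
    exact ⟨x, u1 x y ⟨i, hi, e⟩⟩
  have meet : ∀ W : Finset (Fin n), ∃ Z ⊆ E,
      (∀ i ∈ E, ∀ x y, Ends L i x y → x ∈ W → i ∈ Z) ∧
      (∀ i ∈ Z, ∀ x y, Ends L i x y → x ∈ W ∨ (y ∈ W ∧ Ad n L E y x)) := fun W => by
    refine ⟨E.filter fun i => ∃ x y, Ends L i x y ∧ x ∈ W, filter_subset _ _,
      fun i hi x y e hx => mem_filter.2 ⟨hi, x, y, e, hx⟩, fun i hi x y e => ?_⟩
    obtain ⟨hi, z, t, e', hz⟩ := mem_filter.1 hi
    rcases Ends_same e e' with ⟨rfl, -⟩ | ⟨-, rfl⟩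
    · exact Or.inl hz
    · exact Or.inr ⟨hz, i, hi, e.symm⟩
  have con : ∀ W ⊆ U, W.Nonempty → (∀ w ∈ W, ∀ x, Ad n L E w x → x ∈ W) → W = U := by
    intro W hW ⟨w, hw⟩ hcl
    by_contra hne
    obtain ⟨x0, hx0, hx0'⟩ := exists_of_ssubset (ssubset_of_subset_of_ne hW hne)
    obtain ⟨Z, hZ, z1, z2⟩ := meet W
    have a1 : ∀ x y, Ad n L Z x y → x ∈ W := fun x y ⟨i, hi, e⟩ =>
      (z2 i hi x y e).elim id fun hh => hcl y hh.1 x hh.2
    have a2 : ∀ x y, Ad n L (E \ Z) x y → x ∉ W := fun x y ⟨i, hi, e⟩ hx =>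
      (mem_sdiff.1 hi).2 (z1 i (mem_sdiff.1 hi).1 x y e hx)
    have a3 := add hL a2 Z (hZ.trans hE) a1
    rw [union_sdiff_of_subset hZ] at a3
    obtain ⟨y, i, hi, e⟩ := (hU w).1 (hW hw)
    obtain ⟨y0, j, hj, e0⟩ := (hU x0).1 hx0
    have a4 := hc Z hZ ⟨i, z1 i hi w y e hw⟩
      ⟨j, mem_sdiff.2 ⟨hj, fun hh => hx0' (a1 _ _ ⟨j, hh, e0⟩)⟩⟩
    rw [comps_empty] at a4
    omega
  have c1 := h.1 n L E U u0 u1
  have c2 := h.2.1 n L E U u1 con u0
  have lb : ∀ (Z : Finset ℕ) (U1 U2 : Finset (Fin n)), U1.Nonempty → U2.Nonempty →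
      (∀ x y, Ad n L Z x y → x ∈ U1) → (∀ x y, Ad n L (E \ Z) x y → x ∈ U2) →
      lam (comps n L) E Z + U.card + 1 ≤ U1.card + U2.card := by
    intro Z U1 U2 n1 n2 a1 a2
    have b1 := h.1 n L Z U1 n1 a1
    have b2 := h.1 n L (E \ Z) U2 n2 a2
    unfold lam
    rw [comps_empty]
    omega
  have deg : ∀ u ∈ U, ∃ i ∈ E, ∃ j ∈ E, i ≠ j ∧ (∃ y, Ends L i u y) ∧ ∃ y, Ends L j u y := by
    intro u hu
    obtain ⟨y, i, hi, e⟩ := (hU u).1 hu
    by_contra hn
    have hn' : ∀ j ∈ E, ∀ z, Ends L j u z → j = i := fun j hj z ej => by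
      by_contra hji
      exact hn ⟨j, hj, i, hi, hji, ⟨z, ej⟩, y, e⟩
    obtain ⟨j, hj, hji⟩ := exists_mem_ne (by omega : 1 < E.card) i
    have a1 := hc.one_le (singleton_subset_iff.2 hi) (singleton_nonempty i) hj
      (by simpa using hji)
    have a2 := lb {i} {u, y} (U.erase u) (insert_nonempty _ _)
      ⟨y, mem_erase.2 ⟨(ne i hi _ _ e).symm, u1 y u ⟨i, hi, e.symm⟩⟩⟩
      (fun x z ⟨l, hl, el⟩ => by
        rw [mem_singleton.1 hl] at el
        simpa using e.eq el)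
      (fun x z ⟨l, hl, el⟩ => mem_erase.2
        ⟨fun hx => (mem_sdiff.1 hl).2
          (mem_singleton.2 (hn' l (mem_sdiff.1 hl).1 z (hx ▸ el))),
          u1 x z ⟨l, (mem_sdiff.1 hl).1, el⟩⟩)
    have a3 := card_erase_add_one hu
    have a4 := card_le_two (a := u) (b := y)
    omega
  have four : 4 ≤ U.card := by
    have a1 : E.card ≤ (powersetCard 2 U).card := by
      refine card_le_card_of_forall_subsingleton
        (fun i p => ∃ x y : Fin n, Ends L i x y ∧ p = {x, y}) ?_ ?_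
      · intro i hi
        obtain ⟨x, y, e⟩ := exists_ends hL (mem_range.1 (hE hi))
        exact ⟨{x, y}, mem_powersetCard.2 ⟨insert_subset (u1 x y ⟨i, hi, e⟩)
          (singleton_subset_iff.2 (u1 y x ⟨i, hi, e.symm⟩)), card_pair (ne i hi _ _ e)⟩,
          x, y, e, rfl⟩
      · rintro p - i ⟨hi, x, y, ei, rfl⟩ j ⟨hj, z, t, ej, hp⟩
        have hxy := ne i hi _ _ ei
        have hx : x ∈ ({z, t} : Finset (Fin n)) := hp ▸ mem_insert_self _ _
        have hy : y ∈ ({z, t} : Finset (Fin n)) :=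
          hp ▸ mem_insert_of_mem (mem_singleton_self _)
        simp only [mem_insert, mem_singleton] at hx hy
        rcases hx with rfl | rfl <;> rcases hy with rfl | rfl
        · exact absurd rfl hxy
        · exact sim i hi j hj _ _ ei ej
        · exact sim i hi j hj _ _ ei ej.symm
        · exact absurd rfl hxy
    rw [card_powersetCard] at a1
    by_contra hn
    have a2 := Nat.choose_le_choose 2 (by omega : U.card ≤ 3)
    have a3 : Nat.choose 3 2 = 3 := rfl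
    omega
  refine ⟨U, ⟨fun x y hh => hh.symm, fun x ⟨i, hi, e⟩ => ne i hi _ _ e rfl, u1, four, ?_⟩,
    by omega, sim⟩
  intro W hW a b ⟨w, hw⟩ ha hb hcl x0 hx0
  by_contra hn
  obtain ⟨Z, hZ, z1, z2⟩ := meet W
  have a1 : ∀ x y, Ad n L Z x y → x ∈ insert a (insert b W) := fun x y ⟨i, hi, e⟩ => by
    simp only [mem_insert]
    rcases z2 i hi x y e with hh | hh
    · exact Or.inr (Or.inr hh)
    · have := hcl y hh.1 x hh.2
      tauto
  have a2 : ∀ x y, Ad n L (E \ Z) x y → x ∈ U \ W := fun x y ⟨i, hi, e⟩ =>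
    mem_sdiff.2 ⟨u1 x y ⟨i, (mem_sdiff.1 hi).1, e⟩,
      fun hx => (mem_sdiff.1 hi).2 (z1 i (mem_sdiff.1 hi).1 x y e hx)⟩
  have a3 := lb Z _ _ (insert_nonempty _ _) ⟨x0, mem_sdiff.2 ⟨hx0, fun hh => hn (Or.inl hh)⟩⟩ a1 a2
  have a4 := card_insert_le a (insert b W)
  have a5 := card_insert_le b W
  have a6 := card_sdiff_add_card_eq_card hW
  have off : ∀ j ∈ E, ∀ y, Ends L j x0 y → j ∈ E \ Z := fun j hj y e =>
    mem_sdiff.2 ⟨hj, fun hh => hn (by
      have := a1 x0 y ⟨j, hh, e⟩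
      simp only [mem_insert] at this
      tauto)⟩
  obtain ⟨i, hi, j, hj, hij, ⟨y, ei⟩, y', ej⟩ := deg w (hW hw)
  obtain ⟨i0, hi0, j0, hj0, hij0, ⟨y0, ei0⟩, y0', ej0⟩ := deg x0 hx0
  have a7 := ht Z hZ (one_lt_card.2 ⟨i, z1 i hi w y ei hw, j, z1 j hj w y' ej hw, hij⟩)
    (one_lt_card.2 ⟨i0, off i0 hi0 y0 ei0, j0, off j0 hj0 y0' ej0, hij0⟩)
  omega

end Pool.Agent.P.MP_e0c037_lc.SG
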