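import Pool.Agent.P.MP_e0c037_lc.SG.Base

/-! Existence of the torso as a connected minor. -/

namespace Pool.Agent.P.MP_e0c037_lc.SG

open Finset

namespace TorAux

variable {k : KF} {E : Finset ℕ} {g : ℕ}

theorem cross (h : IsK k) (hc : Conn k E) (hg : g ∈ E) {X Z : Finset ℕ} (hX : X ⊆ E.erase g)
    (hZ : Z ⊆ E.erase g) (s1 : k {g} + 1 = k ∅)
    (h1 : k ∅ + k E ≤ k X + k (E.erase g \ X))
    (h2 : k {g} + k E ≤ k (insert g Z) + k (insert g (E.erase g \ Z))) :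
    ¬ (X ∩ Z).Nonempty ∨ ¬ ((E.erase g \ X) ∩ (E.erase g \ Z)).Nonempty := by
  by_contra hn
  rw [not_or, not_not, not_not] at hn
  obtain ⟨n1, n2⟩ := hn
  have hgX : g ∉ X := fun hh => by simpa using hX hh
  have hgZ : g ∉ Z := fun hh => by simpa using hZ hh
  have a1 := h.sup X (insert g Z)
  have a2 := h.sup (E.erase g \ X) (insert g (E.erase g \ Z))
  have e1 : X ∩ insert g Z = X ∩ Z := inter_insert_of_notMem hgX
  have e2 : (E.erase g \ X) ∩ insert g (E.erase g \ Z) = (E.erase g \ X) ∩ (E.erase g \ Z) :=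
    inter_insert_of_notMem (by simp)
  have e3 : E \ (X ∩ Z) = (E.erase g \ X) ∪ insert g (E.erase g \ Z) := by
    ext a
    simp only [mem_union, mem_sdiff, mem_inter, mem_insert, mem_erase]
    by_cases ha : a = g
    · subst ha; tauto
    · tauto
  have e4 : E \ ((E.erase g \ X) ∩ (E.erase g \ Z)) = X ∪ insert g Z := by
    ext a
    have t1 := @hX a
    have t2 := @hZ a
    simp only [mem_erase] at t1 t2
    simp only [mem_union, mem_sdiff, mem_inter, mem_insert, mem_erase]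
    by_cases ha : a = g
    · subst ha; tauto
    · tauto
  have b1 := hc (X ∩ Z) (inter_subset_left.trans (hX.trans (erase_subset _ _))) n1
    ⟨g, by simp [hg, hgX]⟩
  have b2 := hc ((E.erase g \ X) ∩ (E.erase g \ Z))
    (inter_subset_left.trans (sdiff_subset.trans (erase_subset _ _))) n2 ⟨g, by simp [hg]⟩
  rw [e3] at b1
  rw [e4] at b2
  rw [e1] at a1
  rw [e2] at a2
  omega

/-- Every element can be deleted or contracted. -/
theorem tutte (h : IsK k) (hc : Conn k E) (hg : g ∈ E) :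
    Conn k (E.erase g) ∨ Conn (con k g) (E.erase g) := by
  by_contra hn
  rw [not_or] at hn
  obtain ⟨n1, n2⟩ := hn
  unfold Conn at n1
  unfold Conn con at n2
  push Not at n1 n2
  obtain ⟨X, hX, ⟨x, hx⟩, ⟨x', hx'⟩, h1⟩ := n1
  obtain ⟨Z, hZ, ⟨z, hz⟩, ⟨z', hz'⟩, h2⟩ := n2
  have hxE := mem_erase.1 (hX hx)
  obtain ⟨s1, s2⟩ := hc.single h hg hxE.2 hxE.1.symm
  rw [insert_erase hg, insert_empty_eq] at h2
  rw [s2] at h1
  have c1 := cross h hc hg hX hZ s1 h1 h2
  have c2 := cross h hc hg hX (sdiff_subset : E.erase g \ Z ⊆ E.erase g) s1 h1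
    (by rw [Finset.sdiff_sdiff_eq_self hZ]; omega)
  rw [Finset.sdiff_sdiff_eq_self hZ] at c2
  have hz1 := hZ hz
  have hx1 := hX hx
  rcases c1 with c1 | c1 <;> rcases c2 with c2 | c2
  · by_cases t : x ∈ Z
    · exact c1 ⟨x, mem_inter.2 ⟨hx, t⟩⟩
    · exact c2 ⟨x, mem_inter.2 ⟨hx, mem_sdiff.2 ⟨hx1, t⟩⟩⟩
  · by_cases t : z ∈ X
    · exact c1 ⟨z, mem_inter.2 ⟨t, hz⟩⟩
    · exact c2 ⟨z, mem_inter.2 ⟨mem_sdiff.2 ⟨hz1, t⟩, hz⟩⟩
  · by_cases t : z' ∈ X
    · exact c2 ⟨z', mem_inter.2 ⟨t, hz'⟩⟩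
    · exact c1 ⟨z', mem_inter.2 ⟨mem_sdiff.2 ⟨(mem_sdiff.1 hz').1, t⟩, hz'⟩⟩
  · by_cases t : x' ∈ Z
    · exact c2 ⟨x', mem_inter.2 ⟨hx', t⟩⟩
    · exact c1 ⟨x', mem_inter.2 ⟨hx', mem_sdiff.2 ⟨(mem_sdiff.1 hx').1, t⟩⟩⟩

theorem main {C : KF → Finset ℕ → Prop} (hC : Mc C) (Y : Finset ℕ) (f : ℕ) (hY : Y.Nonempty)
    (n : ℕ) : ∀ k E, (E \ Y).card = n + 1 → C k E → Conn k E → Y ⊆ E → f ∈ E \ Y →
      lam k E Y ≤ 1 → ∃ k', C k' (insert f Y) ∧ Conn k' (insert f Y) ∧ Tor k k' E Y f := by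
  induction n with
  | zero =>
    intro k E hn hk hc hYE hf _
    obtain ⟨a, ha⟩ := card_eq_one.1 hn
    have hfa : f = a := by rw [ha] at hf; simpa using hf
    subst hfa
    have hE : E = insert f Y := by
      rw [← union_sdiff_of_subset hYE, ha]
      ext x; simp only [mem_union, mem_singleton, mem_insert]; tauto
    obtain ⟨y, hy⟩ := hY
    have hf' := mem_sdiff.1 hf
    obtain ⟨s1, -⟩ := hc.single (hC.isK _ _ hk) hf'.1 (hYE hy) fun hh => hf'.2 (hh ▸ hy)
    refine ⟨k, hE ▸ hk, hE ▸ hc, fun A _ => ⟨rfl, ?_⟩⟩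
    have e : A ∪ {f} = insert f A := by
      ext x; simp only [mem_union, mem_singleton, mem_insert]; tauto
    rw [ha, e]
    omega
  | succ n ih =>
    intro k E hn hk hc hYE hf hl
    have h := hC.isK _ _ hk
    obtain ⟨g, hg, hgf⟩ := exists_mem_ne (by omega : 1 < (E \ Y).card) f
    have hg' := mem_sdiff.1 hg
    have hf' := mem_sdiff.1 hf
    have e1 : E.erase g \ Y = (E \ Y).erase g := by
      ext x; simp only [mem_sdiff, mem_erase]; tauto
    have e2 : insert g (E.erase g \ Y) = E \ Y := by rw [e1, insert_erase hg]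
    have e3 : ∀ A, insert g (A ∪ (E.erase g \ Y)) = A ∪ (E \ Y) := fun A => by
      rw [← union_insert, e2]
    have hn' : (E.erase g \ Y).card = n + 1 := by rw [e1, card_erase_of_mem hg, hn]; rfl
    have hYE' : Y ⊆ E.erase g := fun x hx => mem_erase.2 ⟨fun hh => hg'.2 (hh ▸ hx), hYE hx⟩
    have hfE : f ∈ E.erase g := mem_erase.2 ⟨hgf.symm, hf'.1⟩
    have hf2 : f ∈ E.erase g \ Y := mem_sdiff.2 ⟨hfE, hf'.2⟩
    obtain ⟨s1, s2⟩ := hc.single h hg'.1 hf'.1 hgf
    rcases tutte h hc hg'.1 with c | c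
    · have l1 := c.one_le hYE' hY hfE hf'.2
      have a1 := h.le (E.erase g \ Y) g
      rw [e2] at a1
      have a2 : k (insert g (E.erase g \ Y)) = k (E.erase g \ Y) := by
        rw [e2]; unfold lam at l1 hl; omega
      obtain ⟨k', c1, c2, c3⟩ := ih k (E.erase g) hn' (hC.del _ _ _ hk (erase_subset _ _)) c hYE'
        hf2 (by rw [e2] at a2; unfold lam at hl ⊢; omega)
      refine ⟨k', c1, c2, fun A hA => ⟨(c3 A hA).1, ?_⟩⟩
      have b1 := (c3 A hA).2
      have b2 := h.dim _ (A ∪ (E.erase g \ Y)) g subset_union_right a2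
      rw [e3] at b2
      rw [e2] at a2
      omega
    · have l1 := c.one_le hYE' hY hfE hf'.2
      have a1 := h.ge Y g
      have l2 : lam (con k g) (E.erase g) Y =
          (k {g} : ℤ) + k E - k (insert g Y) - k (E \ Y) := by
        unfold lam con
        rw [e2, insert_erase hg'.1, insert_empty_eq]
      have a2 : k Y = k (insert g Y) + 1 := by
        rw [l2] at l1; unfold lam at hl; omega
      obtain ⟨k', c1, c2, c3⟩ := ih (con k g) (E.erase g) hn' (hC.con _ _ _ hk hg'.1) c hYE'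
        hf2 (by rw [l2]; unfold lam at hl; omega)
      refine ⟨k', c1, c2, fun A hA => ?_⟩
      obtain ⟨b1, b2⟩ := c3 A hA
      have b3 := ser_eq h a2 hA
      unfold con at b1 b2
      rw [insert_empty_eq] at b1
      rw [e2, e3] at b2
      exact ⟨by omega, b2⟩

end TorAux

theorem p_Tor : S_Tor := by
  intro C hC k E Y f hk hc hYE hf hY hl
  have hp : 0 < (E \ Y).card := card_pos.2 ⟨f, hf⟩
  exact TorAux.main hC Y f hY ((E \ Y).card - 1) k E (by omega) hk hc hYE hf hl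

end Pool.Agent.P.MP_e0c037_lc.SG
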