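import Pool.Agent.P.MP_e0c037_lc.SG.Glue
import Pool.Agent.P.MP_e0c037_lc.SG.Tor
import Pool.Agent.P.MP_e0c037_lc.SG.Sum
import Pool.Agent.P.MP_e0c037_lc.SG.Lift
import Pool.Agent.P.MP_e0c037_lc.SG.Step
import Pool.Agent.P.MP_e0c037_lc.SG.Sys
import Pool.Agent.P.MP_e0c037_lc.SG.ClaimP
import Pool.Agent.P.MP_e0c037_lc.SG.BoundR
import Pool.Agent.P.MP_e0c037_lc.SG.MainS
import Pool.Agent.P.MP_e0c037_lc.SG.GA
import Pool.Agent.P.MP_e0c037_lc.SG.Reg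
import Pool.Agent.P.MP_e0c037_lc.SG.GD
import Pool.Agent.P.MP_e0c037_lc.SG.Contr
import Pool.Agent.P.MP_e0c037_lc.SG.Cmp
import Pool.Agent.P.MP_e0c037_lc.SG.T3
import Pool.Agent.P.MP_e0c037_lc.SG.GCtr
import Pool.Agent.P.MP_e0c037_lc.SG.DCtr
import Pool.Agent.P.MP_e0c037_lc.SG.CL
import Pool.Agent.P.MP_e0c037_lc.SG.Size
import Pool.Agent.P.MP_e0c037_lc.SG.KnSeq
import Pool.Agent.P.MP_e0c037_lc.SG.KnZ
import Pool.Agent.P.MP_e0c037_lc.SG.Kept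
import Pool.Agent.P.MP_e0c037_lc.SG.Parts
import Pool.Agent.P.MP_e0c037_lc.SG.AlgoS
import Pool.Agent.P.MP_e0c037_lc.SG.Dual
import Pool.Agent.P.MP_e0c037_lc.SG.Esc
import Pool.Agent.P.MP_e0c037_lc.SG.Hard
import Pool.Agent.P.MP_e0c037_lc.SG.Gad

/-! The classification on the two segments. -/

namespace Pool.Agent.P.MP_e0c037_lc.SG

theorem easy_seg {q v : ℝ} (q0 : 0 < q) (q1 : q ≤ 1) (hv : v = -2 ∨ v = -q / 2) : Easy q v := by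
  have h : Easy q (-2) ∧ Easy q (-q / 2) := by
    rcases q1.eq_or_lt with rfl | q1
    · exact easy_one
    · exact easy_lt (p_Mc p_Con)
        (p_CL p_GA (p_Reg p_Dc) p_GD (p_T3 p_Cmp) (p_GCtr p_Con (p_C2 p_Cmp))
          (p_DCtr p_Con p_Cmp (p_C2 p_Cmp) p_Dc))
        (p_Step p_Tor p_Del (p_Lift p_Sum)) p_Sys p_ClaimP p_BoundR p_Main (p_Size p_Cmp) p_KnSeq
        p_KnZ (p_Algo p_Kept p_Parts) p_Dual q0 q1
  rcases hv with rfl | rfl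
  exacts [h.1, h.2]

theorem hard_seg' {q v : ℝ} (q1 : 1 < q) (q2 : q ≤ 32 / 27) (hv : v = -2 ∨ v = -q / 2)
    (f : List Bool → ℕ) (hf : R3.SharpP f) : R3.Reduces f q v :=
  hard_seg p_Hard (p_Gad p_Esc) q1 q2 hv f hf

end Pool.Agent.P.MP_e0c037_lc.SG
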