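import Pool.Agent.P.MP_e0c037_lc.SG.Base

/-! Small edge cuts of three-connected graphs and the choice of a region. -/

namespace Pool.Agent.P.MP_e0c037_lc.SG

open Finset

namespace Reg'

variable {V : Type} [DecidableEq V] {U : Finset V} {adj : V → V → Prop}

/-- The set of edges leaving `B`. -/
noncomputable def cs (U : Finset V) (adj : V → V → Prop) (B : Finset V) : Finset (V × V) :=
  open Classical in (B ×ˢ (U \ B)).filter fun p => adj p.1 p.2

theorem dc_eq (B : Finset V) : dc U adj B = (cs U adj B).card := rfl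

theorem mem_cs {B : Finset V} {p : V × V} :
    p ∈ cs U adj B ↔ p.1 ∈ B ∧ p.2 ∈ U ∧ p.2 ∉ B ∧ adj p.1 p.2 := by
  unfold cs
  simp only [mem_filter, mem_product, mem_sdiff, and_assoc]

theorem mk_mem (h : T3 U adj) {B : Finset V} {x y : V} (hx : x ∈ B) (hy : y ∉ B)
    (hxy : adj x y) : (x, y) ∈ cs U adj B :=
  mem_cs.2 ⟨hx, h.mem' hxy, hy, hxy⟩

theorem compl (h : T3 U adj) (B : Finset V) (hB : B ⊆ U) : dc U adj (U \ B) = dc U adj B := by
  rw [dc_eq, dc_eq]
  refine card_nbij' Prod.swap Prod.swap ?_ ?_ (fun p _ => rfl) fun p _ => rfl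
  · intro p hp
    obtain ⟨a, b, c, d⟩ := mem_cs.1 (mem_coe.1 hp)
    obtain ⟨a1, a2⟩ := mem_sdiff.1 a
    refine mem_coe.2 (mem_cs.2 ⟨?_, a1, a2, h.symm _ _ d⟩)
    by_contra hn
    exact c (mem_sdiff.2 ⟨b, hn⟩)
  · intro p hp
    obtain ⟨a, b, c, d⟩ := mem_cs.1 (mem_coe.1 hp)
    exact mem_coe.2 (mem_cs.2 ⟨mem_sdiff.2 ⟨b, c⟩, hB a, fun hh => (mem_sdiff.1 hh).2 a,
      h.symm _ _ d⟩)

theorem sub (A B : Finset V) :
    dc U adj (A ∩ B) + dc U adj (A ∪ B) ≤ dc U adj A + dc U adj B := by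
  rw [dc_eq, dc_eq, dc_eq, dc_eq, ← card_union_add_card_inter,
    ← card_union_add_card_inter (cs U adj A)]
  refine add_le_add (card_le_card fun p hp => ?_) (card_le_card fun p hp => ?_)
  · simp only [mem_union, mem_cs, mem_inter] at hp ⊢
    tauto
  · simp only [mem_union, mem_cs, mem_inter] at hp ⊢
    tauto

theorem four (h : T3 U adj) (B : Finset V) (hB : B ⊆ U) (h2 : B.card = 2) : 4 ≤ dc U adj B := by
  obtain ⟨a, b, hab, rfl⟩ := card_eq_two.1 h2
  have ha : a ∈ U := hB (by simp)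
  have hb : b ∈ U := hB (by simp)
  obtain ⟨x1, p1, p2, -⟩ := h.deg ha b b
  obtain ⟨x2, p3, p4, p5⟩ := h.deg ha b x1
  obtain ⟨y1, q1, q2, -⟩ := h.deg hb a a
  obtain ⟨y2, q3, q4, q5⟩ := h.deg hb a y1
  have hs : ({(a, x1), (a, x2), (b, y1), (b, y2)} : Finset (V × V)) ⊆ cs U adj {a, b} := by
    intro p hp
    simp only [mem_insert, mem_singleton] at hp
    rcases hp with rfl | rfl | rfl | rfl
    · exact mk_mem h (by simp) (by simp [p2, (h.ne p1).symm]) p1
    · exact mk_mem h (by simp) (by simp [p4, (h.ne p3).symm]) p3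
    · exact mk_mem h (by simp) (by simp [q2, (h.ne q1).symm]) q1
    · exact mk_mem h (by simp) (by simp [q4, (h.ne q3).symm]) q3
  have hc := card_le_card hs
  rw [card_insert_of_notMem (by simp [hab, p5.symm]), card_insert_of_notMem (by simp [hab]),
    card_insert_of_notMem (by simp [q5.symm]), card_singleton] at hc
  rw [dc_eq]
  omega

theorem cover_one {α : Type} {P : α → Prop} {s : Finset α} (hs : s.card ≤ 1) (d : α) (hd : P d)
    (hP : ∀ p ∈ s, P p) : ∃ p, P p ∧ ∀ r ∈ s, r = p := by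
  rcases s.eq_empty_or_nonempty with rfl | ⟨p, hp⟩
  · exact ⟨d, hd, fun r hr => absurd hr (notMem_empty r)⟩
  · exact ⟨p, hP p hp, fun r hr => card_le_one.1 hs r hr p hp⟩

theorem cover_two {α : Type} [DecidableEq α] {P : α → Prop} {s : Finset α} (hs : s.card ≤ 2)
    (d : α) (hd : P d) (hP : ∀ p ∈ s, P p) :
    ∃ p p', P p ∧ P p' ∧ ∀ r ∈ s, r = p ∨ r = p' := by
  rcases s.eq_empty_or_nonempty with rfl | ⟨p, hp⟩
  · exact ⟨d, d, hd, hd, fun r hr => absurd hr (notMem_empty r)⟩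
  · obtain ⟨p', h1, h2⟩ := cover_one (P := P) (s := s.erase p)
      (by rw [card_erase_of_mem hp]; omega) d hd fun r hr => hP r (mem_of_mem_erase hr)
    refine ⟨p, p', hP p hp, h1, fun r hr => ?_⟩
    by_cases e : r = p
    · exact Or.inl e
    · exact Or.inr (h2 r (mem_erase.2 ⟨e, hr⟩))

theorem three (h : T3 U adj) (B : Finset V) (hB : B ⊆ U) (hne : B.Nonempty) (hU : B ≠ U) :
    3 ≤ dc U adj B := by
  by_contra hn
  obtain ⟨u, hu⟩ := hne
  obtain ⟨p, p', hp, hp', hc⟩ := cover_two (P := fun r : V × V => r.1 ∈ B) (s := cs U adj B)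
    (by rw [dc_eq] at hn; omega) (u, u) hu fun r hr => (mem_cs.1 hr).1
  have hW : (B.erase p.1).erase p'.1 = ∅ := by
    by_contra hW
    have h1 := h.cut ((B.erase p.1).erase p'.1)
      (((erase_subset _ _).trans (erase_subset _ _)).trans hB) p.1 p'.1
      (nonempty_iff_ne_empty.2 hW) (by simp) (by simp) (by
        intro w hw x hx
        simp only [mem_erase] at hw ⊢
        by_cases hxB : x ∈ B
        · tauto
        · rcases hc _ (mk_mem h hw.2.2 hxB hx) with e | e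
          · exact absurd (congrArg Prod.fst e) hw.2.1
          · exact absurd (congrArg Prod.fst e) hw.1)
    refine hU (Subset.antisymm hB fun x hx => ?_)
    rcases h1 x hx with e | e | e
    · exact mem_of_mem_erase (mem_of_mem_erase e)
    · exact e ▸ hp
    · exact e ▸ hp'
  have h2 : B.card ≤ 2 := by
    have h3 := pred_card_le_card_erase (s := B) (a := p.1)
    have h4 := pred_card_le_card_erase (s := B.erase p.1) (a := p'.1)
    rw [hW, card_empty] at h4
    omega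
  by_cases h3 : B.card = 2
  · have := four h B hB h3
    omega
  · obtain ⟨x, a1, a2, a3⟩ := h.deg (hB hu) p.2 p'.2
    have hx : x ∉ B := fun hx => h.ne a1 (card_le_one.1 (by omega) u hu x hx)
    rcases hc _ (mk_mem h hu hx a1) with e | e
    · exact a2 (congrArg Prod.snd e)
    · exact a3 (congrArg Prod.snd e)

theorem five (h : T3 U adj) (B : Finset V) (hB : B ⊆ U) (h2 : 2 ≤ B.card) (h3 : dc U adj B ≤ 3)
    (u : V) (hu : u ∈ B) (x y : V) (hx : x ∉ B) (hy : y ∉ B) (hux : adj u x) (huy : adj u y) :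
    x = y := by
  by_contra hxy
  have m1 := mk_mem h hu hx hux
  have m2 : (u, y) ∈ (cs U adj B).erase (u, x) :=
    mem_erase.2 ⟨fun e => hxy (congrArg Prod.snd e).symm, mk_mem h hu hy huy⟩
  obtain ⟨p, hp, hc⟩ := cover_one (P := fun r : V × V => r.2 ∉ B)
    (s := ((cs U adj B).erase (u, x)).erase (u, y))
    (by rw [card_erase_of_mem m2, card_erase_of_mem m1]; rw [dc_eq] at h3; omega) (u, x) hx
    fun r hr => (mem_cs.1 (mem_of_mem_erase (mem_of_mem_erase hr))).2.2.1
  have h1 := h.cut (B.erase u) ((erase_subset _ _).trans hB) u p.2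
    (card_pos.1 (by rw [card_erase_of_mem hu]; omega)) (notMem_erase _ _)
    (fun hh => hp (mem_of_mem_erase hh)) (by
      intro w hw t ht
      obtain ⟨w1, w2⟩ := mem_erase.1 hw
      by_cases htB : t ∈ B
      · rw [mem_erase]; tauto
      · have e := hc (w, t) (mem_erase.2 ⟨fun e => w1 (congrArg Prod.fst e),
          mem_erase.2 ⟨fun e => w1 (congrArg Prod.fst e), mk_mem h w2 htB ht⟩⟩)
        exact Or.inr (Or.inr (congrArg Prod.snd e)))
  have key : ∀ t, t ∉ B → adj u t → t = p.2 := fun t ht hut => by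
    rcases h1 t (h.mem' hut) with e | e | e
    · exact absurd (mem_of_mem_erase e) ht
    · exact absurd (e ▸ hu) ht
    · exact e
  exact hxy ((key x hx hux).trans (key y hy huy).symm)

theorem star_of {u v : V} {B : Finset V} (hB : B ⊆ U) (hu : u ∈ B) (hv : v ∉ B) (hvU : v ∈ U)
    (h : ¬ (2 ≤ B.card ∧ 2 ≤ (U \ B).card)) : B = {u} ∨ B = U.erase v := by
  by_cases h1 : 2 ≤ B.card
  · right
    have h2 : (U \ B).card ≤ 1 := by omega
    ext x
    rw [mem_erase]
    refine ⟨fun hx => ⟨fun e => hv (e ▸ hx), hB hx⟩, fun hx => ?_⟩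
    by_contra hn
    exact hx.1 (card_le_one.1 h2 x (mem_sdiff.2 ⟨hx.2, hn⟩) v (mem_sdiff.2 ⟨hvU, hv⟩))
  · left
    exact eq_singleton_iff_unique_mem.2 ⟨hu, fun x hx => card_le_one.1 (by omega) x hx u hu⟩

end Reg'

theorem p_Dc : S_Dc := fun _ _ _ _ h =>
  ⟨Reg'.compl h, fun A _ B _ => Reg'.sub A B, Reg'.three h, Reg'.four h,
    fun B hB h2 _ h3 u hu x y hx hy => Reg'.five h B hB h2 h3 u hu x y hx hy⟩

theorem p_Reg (h : S_Dc) : S_Reg := by
  intro V _ U adj sp fe hT hM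
  classical
  obtain ⟨d1, d2, d3, d4, d5⟩ := h V U adj hT
  by_cases hex : ∃ B ⊆ U, 2 ≤ B.card ∧ 2 ≤ (U \ B).card ∧ dc U adj B ≤ 3
  swap
  · refine ⟨U, Subset.rfl, card_pos.1 (by have := hT.four; omega), ?_, ?_, ?_⟩
    · intro u _ v hv _ _ B hB huB hvB h3
      exact Reg'.star_of hB huB hvB hv fun hh => hex ⟨B, hB, hh.1, hh.2, h3⟩
    · intro u _ x y hx hy h1 h2
      have f1 := h1.resolve_left (not_not.2 (hT.mem' hx))
      have f2 := h2.resolve_left (not_not.2 (hT.mem' hy))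
      rcases hM.fe1 _ _ _ _ f1 f2 with e | e
      · exact e.2
      · exact e.2.trans e.1
    · intro u _ x y hx _ _
      exact hT.mem' hx
  have hF : (U.powerset.filter fun B => 2 ≤ B.card ∧ 2 ≤ (U \ B).card ∧ dc U adj B ≤ 3 ∧
      ∀ x ∈ B, ∀ y ∈ B, ¬ fe x y).Nonempty := by
    obtain ⟨B, hB, b1, b2, b3⟩ := hex
    by_cases hf : ∀ x ∈ B, ∀ y ∈ B, ¬ fe x y
    · exact ⟨B, mem_filter.2 ⟨mem_powerset.2 hB, b1, b2, b3, hf⟩⟩
    · push Not at hf
      obtain ⟨x, hx, y, hy, hxy⟩ := hf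
      refine ⟨U \ B, mem_filter.2 ⟨mem_powerset.2 sdiff_subset, b2, ?_, ?_, ?_⟩⟩
      · rwa [Finset.sdiff_sdiff_eq_self hB]
      · rwa [d1 B hB]
      · intro z hz w _ hzw
        rcases hM.fe1 _ _ _ _ hxy hzw with e | e
        · exact (mem_sdiff.1 hz).2 (e.1 ▸ hx)
        · exact (mem_sdiff.1 hz).2 (e.2 ▸ hy)
  obtain ⟨A, hA, hmin⟩ := exists_min_image _ card hF
  obtain ⟨hAU, a1, a2, a3, a4⟩ := mem_filter.1 hA
  rw [mem_powerset] at hAU
  have hne : A.Nonempty := card_pos.1 (by omega)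
  have hAne : A ≠ U := fun e => by rw [e, sdiff_self] at a2; simp at a2
  -- a proper subset of `A` with a small cut has at most one element
  have small : ∀ B ⊆ A, ∀ v ∈ A, v ∉ B → dc U adj B ≤ 3 → B.card ≤ 1 := by
    intro B hB v hv hvB h3
    by_contra hn
    have h1 := hmin B (mem_filter.2 ⟨mem_powerset.2 (hB.trans hAU), by omega,
      a2.trans (card_le_card (sdiff_subset_sdiff Subset.rfl hB)), h3,
      fun x hx y hy => a4 x (hB hx) y (hB hy)⟩)
    have h2 : B.card < A.card := card_lt_card ⟨hB, fun hh => hvB (hh hv)⟩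
    omega
  have cross : ∀ B ⊆ U, ∀ v ∈ A, v ∉ B → dc U adj B ≤ 3 → ¬ U \ B ⊆ A → (A ∩ B).card ≤ 1 := by
    intro B hB v hv hvB h3 hn
    refine small _ inter_subset_left v hv (fun hh => hvB (mem_inter.1 hh).2) ?_
    have h1 := d2 A hAU B hB
    have h2 := d3 (A ∪ B) (union_subset hAU hB) (hne.mono subset_union_left) fun e => hn (by
      intro x hx
      obtain ⟨x1, x2⟩ := mem_sdiff.1 hx
      rw [← e] at x1
      exact (mem_union.1 x1).resolve_right x2)
    omega
  refine ⟨A, hAU, hne, ?_, ?_, ?_⟩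
  · intro u hu v hv _ _ B hB huB hvB h3
    refine Reg'.star_of hB huB hvB (hAU hv) fun hh => ?_
    have h3' : dc U adj (U \ B) ≤ 3 := by rwa [d1 B hB]
    have hu' : u ∉ U \ B := fun e => (mem_sdiff.1 e).2 huB
    by_cases c1 : B ⊆ A
    · have := small B c1 v hv hvB h3
      omega
    by_cases c2 : U \ B ⊆ A
    · have := small _ c2 u hu hu' h3'
      omega
    have e1 := cross B hB v hv hvB h3 c2
    have e2 := cross (U \ B) sdiff_subset u hu hu' h3'
      (by rwa [Finset.sdiff_sdiff_eq_self hB])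
    have e3 : A ⊆ A ∩ B ∪ A ∩ (U \ B) := fun x hx => by
      have := hAU hx
      simp only [mem_union, mem_inter, mem_sdiff]
      tauto
    have e4 := (card_le_card e3).trans (card_union_le _ _)
    have := d4 A hAU (by omega)
    omega
  · intro u hu x y hx hy h1 h2
    exact d5 A hAU a1 hAne a3 u hu x y (fun e => h1.elim (· e) (a4 u hu x e))
      (fun e => h2.elim (· e) (a4 u hu y e)) hx hy
  · intro u hu x y hx hy hxy
    by_contra hn
    by_cases hyA : y ∈ A
    · have hc : U \ A ≠ U := fun e => by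
        have : u ∈ U \ A := e.symm ▸ hAU hu
        exact (mem_sdiff.1 this).2 hu
      exact hT.ne hy (d5 (U \ A) sdiff_subset a2 hc (by rwa [d1 A hAU]) x
        (mem_sdiff.2 ⟨hT.mem' hx, hn⟩) u y (fun e => (mem_sdiff.1 e).2 hu)
        (fun e => (mem_sdiff.1 e).2 hyA) (hT.symm _ _ hx) hxy)
    · exact hT.ne hxy (d5 A hAU a1 hAne a3 u hu x y hn hyA hx hy)

end Pool.Agent.P.MP_e0c037_lc.SG
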