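import Pool.Agent.P.MP_e0c037_lc.SG.Defs

/-! Basic lemmas shared by the parts. -/

namespace Pool.Agent.P.MP_e0c037_lc.SG

open Finset Function

variable {k k' : KF} {E E' E1 S S' F : Finset ℕ} {e f g x y : ℕ} {q : ℝ} {v : ℕ → ℝ}

theorem Par.symm (h : Par k x y) : Par k y x := ⟨h.2.1, h.1, by rw [pair_comm]; exact h.2.2⟩

theorem Red.mono (h : Red k S) (hS : S' ⊆ S) : Red k S' :=
  fun x hx y hy => h x (hS hx) y (hS hy)

theorem Rm.subset (h : Rm k S E E') : E' ⊆ E := by
  induction h with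
  | refl => exact Subset.rfl
  | step _ _ _ _ _ _ _ ih => exact ih.trans ((erase_subset _ _).trans (erase_subset _ _))

theorem Rm.mem (h : Rm k S E E') (hx : x ∈ E) (hS : x ∉ S) : x ∈ E' := by
  induction h with
  | refl => exact hx
  | step _ _ h3 h4 _ _ _ ih =>
    exact ih (mem_erase.2 ⟨fun hh => hS (hh ▸ h4), mem_erase.2 ⟨fun hh => hS (hh ▸ h3), hx⟩⟩)

theorem Rm.trans {E'' : Finset ℕ} (h : Rm k S E E') (h' : Rm k S E' E'') : Rm k S E E'' := by
  induction h with
  | refl => exact h'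
  | step a b c d e f _ ih => exact .step a b c d e f (ih h')

/-- A parallel pair of weight `-2` can be removed. -/
theorem Zk_cancel (hx : x ∈ E) (hy : y ∈ E) (hxy : x ≠ y)
    (h1 : ∀ A, k (insert y (insert x A)) = k (insert x A))
    (h2 : ∀ A, k (insert x (insert y A)) = k (insert y A)) (vx : v x = -2) (vy : v y = -2) :
    Zk q k v E = Zk q k v ((E.erase x).erase y) := by
  rw [Zk_par hx hy hxy h1 h2, Zk_erase (mem_erase.2 ⟨hxy, hx⟩), update_self, vx, vy,
    Zk_update (notMem_erase _ _), erase_right_comm]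
  ring

theorem Par.eq (h : IsK k) (p : Par k x y) (T A : Finset ℕ) :
    k (insert y (insert x A) ∪ T) = k (insert x A ∪ T) := by
  rw [insert_union, insert_union]; exact par_eq h p.1 p.2.2 _

theorem Rm.Zk_eq (h : IsK k) (r : Rm k S E E') (hv : ∀ x ∈ S, x ∈ E → v x = -2) :
    Zk q k v E = Zk q k v E' := by
  induction r with
  | refl => rfl
  | step a b c d e p _ ih =>
    rw [Zk_cancel a b e (par_eq h p.1 p.2.2) (par_eq h p.symm.1 p.symm.2.2) (hv _ c a) (hv _ d b)]
    exact ih fun x hx hx' => hv x hx (mem_of_mem_erase (mem_of_mem_erase hx'))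

theorem Rm.Zk_erase_eq (h : IsK k) (r : Rm k S E E') (hf : f ∉ S)
    (hv : ∀ x ∈ S, x ∈ E → v x = -2) :
    Zk q k v (E.erase f) = Zk q k v (E'.erase f) ∧
      Zk q (con k f) v (E.erase f) = Zk q (con k f) v (E'.erase f) := by
  induction r with
  | refl => exact ⟨rfl, rfl⟩
  | @step E E' x y a b c d e p _ ih =>
    have a' : x ∈ E.erase f := mem_erase.2 ⟨fun hh => hf (hh ▸ c), a⟩
    have b' : y ∈ E.erase f := mem_erase.2 ⟨fun hh => hf (hh ▸ d), b⟩
    have p1 := par_eq h p.1 p.2.2
    have p2 := par_eq h p.symm.1 p.symm.2.2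
    have e1 : ((E.erase f).erase x).erase y = ((E.erase x).erase y).erase f := by
      rw [erase_right_comm (a := f), erase_right_comm (a := f)]
    obtain ⟨i1, i2⟩ := ih fun x hx hx' => hv x hx (mem_of_mem_erase (mem_of_mem_erase hx'))
    rw [Zk_cancel a' b' e p1 p2 (hv _ c a) (hv _ d b),
      Zk_cancel (k := con k f) a' b' e
        (fun A => by unfold con; rw [Finset.insert_comm f y, Finset.insert_comm f x, p1])
        (fun A => by unfold con; rw [Finset.insert_comm f x, Finset.insert_comm f y, p2])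
        (hv _ c a) (hv _ d b), e1]
    exact ⟨i1, i2⟩

theorem Ctr.subset (c : Ctr k E S e E1) : E1 ⊆ E.erase e := c.rm.subset

theorem Ctr.mem' (c : Ctr k E S e E1) (hf : f ∈ E) (hfe : f ≠ e) (hS : f ∉ S) : f ∈ E1 :=
  c.rm.mem (mem_erase.2 ⟨hfe, hf⟩) hS

theorem three_of_rank (h : IsK k) (hc : Conn k E) (hr : k E + 2 ≤ k ∅) : 3 ≤ E.card := by
  have h1 := h.rank_le E
  by_contra hn
  obtain ⟨x, y, hxy, rfl⟩ := card_eq_two.1 (show E.card = 2 by omega)
  have h2 := hc {x} (by simp) (by simp) ⟨y, by simp [hxy.symm]⟩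
  have e1 : ({x, y} : Finset ℕ) \ {x} = {y} := by
    ext z; simp only [mem_sdiff, mem_insert, mem_singleton]
    constructor
    · tauto
    · rintro rfl; exact ⟨Or.inr rfl, hxy.symm⟩
  rw [e1] at h2
  have h3 := h.ge ∅ x
  have h4 := h.ge ∅ y
  rw [insert_empty_eq] at h3 h4
  omega

theorem Ctr.three (h : IsK k) (c : Ctr k E S e E1) : 3 ≤ E1.card := by
  refine three_of_rank (h.con e) c.conn ?_
  have h1 := c.span
  have h2 := c.rk
  have h3 := h.ge ∅ e
  unfold con
  omega

theorem Ctr.sg_eq (c : Ctr k E S e E1) : sg (con k e) E1 = sg (con k e) (E.erase e) := by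
  unfold sg con; rw [c.span, insert_erase c.mem]

/-- The contraction and the reduced contraction have the same polynomial. -/
theorem Ctr.Z_eq (h : IsK k) (c : Ctr k E S e E1) (hv : ∀ x ∈ S, x ≠ e → v x = -2) :
    Zk q (con k e) v (E.erase e) = Zk q (con k e) v E1 :=
  c.rm.Zk_eq (h.con e) fun x hx hx' => hv x hx (ne_of_mem_erase hx')

theorem Ctr.al_eq (h : IsK k) (c : Ctr k E S e E1) (hf : f ∉ S)
    (hv : ∀ x ∈ S, x ≠ e → v x = -2) :
    al q (con k e) v (E.erase e) f = al q (con k e) v E1 f ∧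
      ga q (con k e) v (E.erase e) f = ga q (con k e) v E1 f := by
  obtain ⟨a, b⟩ := c.rm.Zk_erase_eq (q := q) (h.con e) hf
    fun x hx hx' => hv x hx (ne_of_mem_erase hx')
  unfold al ga
  rw [a, b, c.sg_eq]
  exact ⟨rfl, rfl⟩

/-- Change of the weight of one element. -/
theorem al_rew (he : e ∈ E) (hef : e ≠ f) (h1 : k {e} + 1 = k ∅) (h2 : k (E.erase e) = k E)
    (w : ℝ) :
    al q k v E f = al q k (update v e w) E f + (w - v e) * al q (con k e) v (E.erase e) f ∧
    ga q k v E f = ga q k (update v e w) E f + (w - v e) * ga q (con k e) v (E.erase e) f := by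
  obtain ⟨a1, a2⟩ := al_dc (q := q) (v := v) he hef h1 h2
  obtain ⟨b1, b2⟩ := al_dc (q := q) (v := update v e w) he hef h1 h2
  have n1 : e ∉ (E.erase e).erase f := fun hh => notMem_erase e E (mem_of_mem_erase hh)
  have c1 : ∀ k'', al q k'' (update v e w) (E.erase e) f = al q k'' v (E.erase e) f ∧
      ga q k'' (update v e w) (E.erase e) f = ga q k'' v (E.erase e) f := fun k'' => by
    unfold al ga
    simp only [Zk_update n1, and_self]
  rw [a1, a2, b1, b2, (c1 _).1, (c1 _).2, (c1 _).1, (c1 _).2, update_self]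
  constructor <;> ring

/-- The two-element identity. -/
theorem Zk_two (he : e ∈ E) (hg : g ∈ E) (heg : e ≠ g) (ve : v e = -2) (vg : v g = -2) :
    Zk q k v E = Zk q k (update (update v e (-2 / 3)) g (-2 / 3)) E -
      4 / 3 * Zk q (con k e) (update v g (-4 / 3)) (E.erase e) -
      4 / 3 * Zk q (con k g) (update v e (-4 / 3)) (E.erase g) := by
  have hg' : g ∈ E.erase e := mem_erase.2 ⟨heg.symm, hg⟩
  have he' : e ∈ E.erase g := mem_erase.2 ⟨heg, he⟩
  have n1 : g ∉ (E.erase e).erase g := notMem_erase _ _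
  have n2 : e ∉ (E.erase e).erase g := fun hh => notMem_erase e E (mem_of_mem_erase hh)
  rw [Zk_erase he, Zk_erase (v := update _ _ _) he, Zk_erase (k := k) hg',
    Zk_erase (k := con k e) hg', Zk_erase (k := k) (v := update _ _ _) hg',
    Zk_erase (k := con k e) (v := update (update _ _ _) _ _) hg',
    Zk_erase (k := con k e) (v := update v _ _) hg', Zk_erase (k := con k g) he',
    erase_right_comm (a := g), con_comm k g e]
  simp only [Zk_update n1, Zk_update n2, update_self, update_of_ne heg, ve, vg]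
  ring

theorem al_two_id (he : e ∈ E) (hg : g ∈ E) (heg : e ≠ g) (hef : e ≠ f) (hgf : g ≠ f)
    (h1 : k {e} + 1 = k ∅) (h2 : k {g} + 1 = k ∅) (ve : v e = -2) (vg : v g = -2) :
    al q k v E f = al q k (update (update v e (-2 / 3)) g (-2 / 3)) E f +
      4 / 3 * al q (con k e) (update v g (-4 / 3)) (E.erase e) f +
      4 / 3 * al q (con k g) (update v e (-4 / 3)) (E.erase g) f ∧
    ga q k v E f = ga q k (update (update v e (-2 / 3)) g (-2 / 3)) E f +
      4 / 3 * ga q (con k e) (update v g (-4 / 3)) (E.erase e) f +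
      4 / 3 * ga q (con k g) (update v e (-4 / 3)) (E.erase g) f := by
  have he' : e ∈ E.erase f := mem_erase.2 ⟨hef, he⟩
  have hg' : g ∈ E.erase f := mem_erase.2 ⟨hgf, hg⟩
  unfold al ga
  rw [sg_con he h1, sg_con hg h2, Zk_two (k := k) he' hg' heg ve vg,
    Zk_two (k := con k f) he' hg' heg ve vg, con_comm k f e, con_comm k f g,
    erase_right_comm (a := f), erase_right_comm (a := f)]
  constructor <;> ring

theorem sgZ_two (he : e ∈ E) (hg : g ∈ E) (heg : e ≠ g) (h1 : k {e} + 1 = k ∅)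
    (h2 : k {g} + 1 = k ∅) (ve : v e = -2) (vg : v g = -2) :
    sg k E * Zk q k v E = sg k E * Zk q k (update (update v e (-2 / 3)) g (-2 / 3)) E +
      4 / 3 * (sg (con k e) (E.erase e) * Zk q (con k e) (update v g (-4 / 3)) (E.erase e)) +
      4 / 3 * (sg (con k g) (E.erase g) * Zk q (con k g) (update v e (-4 / 3)) (E.erase g)) := by
  rw [sg_con he h1, sg_con hg h2, Zk_two he hg heg ve vg]
  ring

/-- Parallel reduction. -/
theorem al_par (h : IsK k) (hc : Conn k E) (he : e ∈ E) (hg : g ∈ E) (heg : e ≠ g) (hef : e ≠ f)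
    (hgf : g ≠ f) (hh : k {e, g} + 1 = k ∅) :
    Conn k (E.erase g) ∧ k (E.erase g) = k E ∧
    al q k v E f = al q k (update v e (v e + v g + v e * v g)) (E.erase g) f ∧
      ga q k v E f = ga q k (update v e (v e + v g + v e * v g)) (E.erase g) f := by
  obtain ⟨s1, -⟩ := hc.single h he hg heg
  obtain ⟨s3, s4⟩ := hc.single h hg he heg.symm
  have he' : e ∈ E.erase f := mem_erase.2 ⟨hef, he⟩
  have hg' : g ∈ E.erase f := mem_erase.2 ⟨hgf, hg⟩
  have p1 := par_eq h s1 hh
  have p2 := par_eq h s3 (by rw [pair_comm]; exact hh)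
  have c1 : ∀ A, con k f (insert g (insert e A)) = con k f (insert e A) := fun A => by
    unfold con
    rw [Finset.insert_comm f g, Finset.insert_comm f e, p1]
  have c2 : ∀ A, con k f (insert e (insert g A)) = con k f (insert g A) := fun A => by
    unfold con
    rw [Finset.insert_comm f e, Finset.insert_comm f g, p2]
  refine ⟨conn_par h hc he hg heg hh, s4, ?_⟩
  unfold al ga
  rw [sg_del s4, Zk_par he' hg' heg p1 p2, Zk_par he' hg' heg c1 c2, erase_right_comm]
  exact ⟨rfl, rfl⟩

theorem ser_facts (h : IsK k) (hc : Conn k E) (he : e ∈ E) (hg : g ∈ E) (heg : e ≠ g)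
    (hh : k ((E.erase g).erase e) = k E + 1) :
    (∀ A ⊆ (E.erase g).erase e, k A = k (insert e A) + 1) ∧
      ∀ A ⊆ (E.erase g).erase e, k A = k (insert g A) + 1 := by
  obtain ⟨-, s2⟩ := hc.single h he hg heg
  obtain ⟨-, s4⟩ := hc.single h hg he heg.symm
  have e0 : insert g ((E.erase g).erase e) = E.erase e := by
    rw [erase_right_comm, insert_erase (mem_erase.2 ⟨heg.symm, hg⟩)]
  have e1 : insert e ((E.erase g).erase e) = E.erase g := insert_erase (mem_erase.2 ⟨heg, he⟩)
  exact ⟨fun A hA => ser_eq h (by rw [e1]; omega) hA, fun A hA => ser_eq h (by rw [e0]; omega) hA⟩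

/-- A series reduction creates no new parallel pair away from the merged element. -/
theorem red_ser (h : IsK k) (hc : Conn k E) (he : e ∈ E) (hg : g ∈ E) (heg : e ≠ g)
    (hh : k ((E.erase g).erase e) = k E + 1) (hS : S ⊆ E) (hr : Red k S) :
    Red (con k g) ((S.erase g).erase e) := by
  obtain ⟨-, p⟩ := ser_facts h hc he hg heg hh
  have hs : (S.erase g).erase e ⊆ (E.erase g).erase e :=
    erase_subset_erase _ (erase_subset_erase _ hS)
  intro x hx y hy hxy ⟨a1, a2, a3⟩
  have b0 := p ∅ (empty_subset _)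
  have b1 := p {x} (singleton_subset_iff.2 (hs hx))
  have b2 := p {y} (singleton_subset_iff.2 (hs hy))
  have b3 := p {x, y} (insert_subset (hs hx) (singleton_subset_iff.2 (hs hy)))
  unfold con at a1 a2 a3
  exact hr x (mem_of_mem_erase (mem_of_mem_erase hx)) y (mem_of_mem_erase (mem_of_mem_erase hy))
    hxy ⟨by omega, by omega, by omega⟩

theorem sgZ_ser (h : IsK k) (hc : Conn k E) (he : e ∈ E) (hg : g ∈ E) (heg : e ≠ g)
    (hh : k ((E.erase g).erase e) = k E + 1) (hq : q + v e + v g ≠ 0) :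
    sg k E * Zk q k v E = -(q + v e + v g) * (sg (con k g) (E.erase g) *
      Zk q (con k g) (update v e (v e * v g / (q + v e + v g))) (E.erase g)) := by
  obtain ⟨p1, p2⟩ := ser_facts h hc he hg heg hh
  obtain ⟨s3, -⟩ := hc.single h hg he heg.symm
  rw [sg_con hg s3, Zk_ser he hg heg p1 p2 hq]
  ring

/-- Series reduction. -/
theorem al_ser (h : IsK k) (hc : Conn k E) (hf : f ∈ E) (he : e ∈ E) (hg : g ∈ E) (heg : e ≠ g)
    (hef : e ≠ f) (hgf : g ≠ f) (hh : k ((E.erase g).erase e) = k E + 1)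
    (hq : q + v e + v g ≠ 0) :
    al q k v E f = -(q + v e + v g) *
        al q (con k g) (update v e (v e * v g / (q + v e + v g))) (E.erase g) f ∧
      ga q k v E f = -(q + v e + v g) *
        ga q (con k g) (update v e (v e * v g / (q + v e + v g))) (E.erase g) f := by
  obtain ⟨p1, p2⟩ := ser_facts h hc he hg heg hh
  obtain ⟨s3, -⟩ := hc.single h hg he heg.symm
  have he' : e ∈ E.erase f := mem_erase.2 ⟨hef, he⟩
  have hg' : g ∈ E.erase f := mem_erase.2 ⟨hgf, hg⟩
  have i1 : ((E.erase f).erase g).erase e ⊆ (E.erase g).erase e :=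
    erase_subset_erase _ (erase_subset_erase _ (erase_subset _ _))
  have i2 : ∀ A ⊆ ((E.erase f).erase g).erase e, insert f A ⊆ (E.erase g).erase e :=
    fun A hA => insert_subset (by simp [hf, hef.symm, hgf.symm]) (hA.trans i1)
  have c1 : ∀ A ⊆ ((E.erase f).erase g).erase e, con k f A = con k f (insert e A) + 1 :=
    fun A hA => by unfold con; rw [Finset.insert_comm f e]; exact p1 _ (i2 A hA)
  have c2 : ∀ A ⊆ ((E.erase f).erase g).erase e, con k f A = con k f (insert g A) + 1 :=
    fun A hA => by unfold con; rw [Finset.insert_comm f g]; exact p2 _ (i2 A hA)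
  unfold al ga
  rw [sg_con hg s3, Zk_ser he' hg' heg (fun A hA => p1 A (hA.trans i1))
    (fun A hA => p2 A (hA.trans i1)) hq, Zk_ser he' hg' heg c1 c2 hq, erase_right_comm,
    con_comm k f g]
  constructor <;> ring

/-- Counts that differ by a constant on the subsets of `E`. -/
theorem conn_congr {c c' : ℕ} (hk : ∀ A ⊆ E, k A + c = k' A + c') (h : Conn k E) : Conn k' E := by
  intro A hA h1 h2
  have := h A hA h1 h2
  have := hk A hA
  have := hk (E \ A) sdiff_subset
  have := hk ∅ (empty_subset _)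
  have := hk E Subset.rfl
  omega

theorem par_congr {c c' : ℕ} (hk : ∀ A ⊆ E, k A + c = k' A + c') (hx : x ∈ E) (hy : y ∈ E)
    (h : Par k x y) : Par k' x y := by
  have := hk ∅ (empty_subset _)
  have := hk {x} (singleton_subset_iff.2 hx)
  have := hk {y} (singleton_subset_iff.2 hy)
  have := hk {x, y} (insert_subset hx (singleton_subset_iff.2 hy))
  obtain ⟨a, b, d⟩ := h
  exact ⟨by omega, by omega, by omega⟩

theorem Rm.congr {c c' : ℕ} (r : Rm k S E E') (hk : ∀ A ⊆ E, k A + c = k' A + c') :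
    Rm k' S E E' := by
  induction r with
  | refl => exact .refl _
  | step a b c d e p _ ih =>
    exact .step a b c d e (par_congr hk a b p)
      (ih fun A hA => hk A (hA.trans ((erase_subset _ _).trans (erase_subset _ _))))

theorem Ctr.congr {c c' : ℕ} (h : Ctr k E S e E1) (hk : ∀ A ⊆ E, k A + c = k' A + c') :
    Ctr k' E S e E1 := by
  have h1 : ∀ A ⊆ E.erase e, con k e A + c = con k' e A + c' := fun A hA =>
    hk _ (insert_subset h.mem (hA.trans (erase_subset _ _)))
  have h2 := h1 E1 h.subset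
  have h3 := hk E Subset.rfl
  have h4 := hk ∅ (empty_subset _)
  have h5 := h.span
  have h6 := h.rk
  unfold con at h2
  exact ⟨h.mem, h.rm.congr h1, conn_congr (fun A hA => h1 A (hA.trans h.subset)) h.conn,
    by omega, by omega, fun x hx y hy hxy p => h.red x hx y hy hxy
      (par_congr (fun A hA => (h1 A hA).symm) (h.subset (mem_inter.1 hx).2)
        (h.subset (mem_inter.1 hy).2) p)⟩

section graphs

variable {V : Type} {U : Finset V} {adj sp sp' : V → V → Prop} {u w a b : V}

theorem T3.mem' (h : T3 U adj) (hw : adj u w) : w ∈ U := h.mem _ _ (h.symm _ _ hw)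

theorem T3.ne (h : T3 U adj) (hw : adj u w) : u ≠ w := fun e => h.irr w (e ▸ hw)

/-- Minimum degree three. -/
theorem T3.deg (h : T3 U adj) (hu : u ∈ U) (a b : V) : ∃ x, adj u x ∧ x ≠ a ∧ x ≠ b := by
  classical
  by_contra hn
  have hn' : ∀ x, adj u x → x = a ∨ x = b := fun x hx => by
    by_contra h2
    exact hn ⟨x, hx, fun e => h2 (Or.inl e), fun e => h2 (Or.inr e)⟩
  have key : ∀ a b, a ≠ u → b ≠ u → ¬ ∀ x, adj u x → x = a ∨ x = b := by
    intro a b ha hb hh
    have h1 := h.cut {u} (by simpa) a b (by simp) (by simpa) (by simpa)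
      fun w hw x hx => Or.inr (hh x (mem_singleton.1 hw ▸ hx))
    have h2 : U ⊆ {u, a, b} := fun x hx => by simpa using h1 x hx
    have h3 := card_le_card h2
    have h4 := card_le_three (a := u) (b := a) (c := b)
    have := h.four
    omega
  obtain ⟨c, -, hc⟩ := exists_mem_ne (by have := h.four; omega : 1 < U.card) u
  have ne : ∀ x, adj u x → x ≠ u := fun x hx => (h.ne hx).symm
  by_cases ha : a = u <;> by_cases hb : b = u
  · exact key c c hc hc fun x hx => absurd ((hn' x hx).elim (·.trans ha) (·.trans hb)) (ne x hx)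
  · exact key b b hb hb fun x hx =>
      Or.inl ((hn' x hx).resolve_left fun e => ne x hx (e.trans ha))
  · exact key a a ha ha fun x hx =>
      Or.inl ((hn' x hx).resolve_right fun e => ne x hx (e.trans hb))
  · exact key a b ha hb hn'

theorem Trip.mono (h : Trip U adj sp u w) (hs : ∀ x y, sp x y → sp' x y) : Trip U adj sp' u w := by
  obtain ⟨W, h1, c, h2, h3, h4, h5, h6, h7⟩ := h
  exact ⟨W, h1, c, h2, h3, h4, h5, h6,
    fun x hx => (h7 x hx).imp_left fun hh => ⟨hs _ _ hh.1, hs _ _ hh.2⟩⟩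

theorem Al.mono (h : Al adj sp u w a b) (hs : ∀ x y, sp x y → sp' x y) : Al adj sp' u w a b :=
  ⟨h.1, h.2.1, h.2.2.1, hs _ _ h.2.2.2.1, hs _ _ h.2.2.2.2.1, h.2.2.2.2.2⟩

theorem Gd.mono [DecidableEq V] (h : Gd U adj sp u w) (hs : ∀ x y, sp' x y → sp x y) :
    Gd U adj sp' u w :=
  ⟨h.1, h.2.1, fun a b hh => h.2.2.1 a b (hh.mono hs), fun a b hh => h.2.2.2 a b (hh.mono hs)⟩

end graphs

theorem Ad.symm {n : ℕ} {L : List (ℕ × ℕ)} {x y : Fin n} (h : Ad n L E x y) : Ad n L E y x :=
  let ⟨i, hi, e⟩ := h; ⟨i, hi, e.symm⟩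

theorem exists_ends {n : ℕ} {L : List (ℕ × ℕ)} (hL : Valid (n, L)) {i : ℕ} (hi : i < L.length) :
    ∃ x y : Fin n, Ends L i x y := by
  obtain ⟨ha, hb⟩ := hL _ (List.getElem_mem hi)
  exact ⟨⟨_, ha⟩, ⟨_, hb⟩, Or.inl (List.getElem?_eq_getElem hi)⟩

theorem Ends_same {n : ℕ} {L : List (ℕ × ℕ)} {i : ℕ} {x y z t : Fin n} (h : Ends L i x y)
    (h' : Ends L i z t) : Same x y z t := by
  rcases h with h | h <;> rcases h' with h' | h' <;> rw [h] at h' <;>
    simp only [Option.some.injEq, Prod.mk.injEq, Fin.val_inj] at h' <;> simp [Same, h'.1, h'.2]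

end Pool.Agent.P.MP_e0c037_lc.SG
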