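import Pool.Agent.P.MP_e0c037_lc.TwoConn
import Pool.Agent.P.MP_e0c037_lc.Algo
import Pool.Agent.P.MP_e0c037_lc.R3.Sub
import Pool.Agent.P.MP_e0c037_lc.R3.Defs

/-! The segments `y = -1` and `x = -1`: definitions and interface statements. -/

namespace Pool.Agent.P.MP_e0c037_lc.SG

open Finset Pool.Agent.Lib.helper21

/-- Component counts on sets of positions. -/
abbrev KF := Finset ℕ → ℕ

/-- Parallel elements. -/
def Par (k : KF) (x y : ℕ) : Prop := k {x} + 1 = k ∅ ∧ k {y} + 1 = k ∅ ∧ k {x, y} + 1 = k ∅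

/-- No two elements of `S` are parallel. -/
def Red (k : KF) (S : Finset ℕ) : Prop := ∀ x ∈ S, ∀ y ∈ S, x ≠ y → ¬ Par k x y

/-- Successive removal of parallel pairs of elements of `S`. -/
inductive Rm (k : KF) (S : Finset ℕ) : Finset ℕ → Finset ℕ → Prop
  | refl (E : Finset ℕ) : Rm k S E E
  | step {E E' : Finset ℕ} {x y : ℕ} : x ∈ E → y ∈ E → x ∈ S → y ∈ S → x ≠ y → Par k x y →
      Rm k S ((E.erase x).erase y) E' → Rm k S E E'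

/-- A good contraction. -/
structure Ctr (k : KF) (E S : Finset ℕ) (e : ℕ) (E1 : Finset ℕ) : Prop where
  mem : e ∈ E
  rm : Rm (con k e) S (E.erase e) E1
  conn : Conn (con k e) E1
  span : k (insert e E1) = k E
  rk : k E + 3 ≤ k ∅
  red : Red (con k e) (S ∩ E1)

/-- A mutual pair. -/
def Mut (k : KF) (E S : Finset ℕ) : Prop :=
  ∃ e1 ∈ S, ∃ e2 ∈ S, e1 ≠ e2 ∧ (∃ E1, Ctr k E (S.erase e2) e1 E1) ∧
    ∃ E2, Ctr k E (S.erase e1) e2 E2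

/-- Three-connectivity. -/
def Tc (k : KF) (E : Finset ℕ) : Prop :=
  Conn k E ∧ ∀ Z ⊆ E, 2 ≤ Z.card → 2 ≤ (E \ Z).card → 2 ≤ lam k E Z

/-- The class lemma. -/
def CL (C X : KF → Finset ℕ → Prop) : Prop :=
  ∀ k E S F, C k E → Tc k E → 4 ≤ E.card → S ⊆ E → F ⊆ E → F.card ≤ 1 → Disjoint S F →
    (F = ∅ → S = E) →
    Mut k E S ∨ ((∃ e ∈ E \ F, ∃ E1, Ctr k E S e E1) ∧ ¬ E \ F ⊆ S) ∨ (F = ∅ ∧ X k E)

/-- A minor-closed class. -/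
structure Mc (C : KF → Finset ℕ → Prop) : Prop where
  isK : ∀ k E, C k E → IsK k
  del : ∀ k E F, C k E → F ⊆ E → C k F
  con : ∀ k E e, C k E → e ∈ E → C (con k e) (E.erase e)

/-- `k'` on `insert f Y` is the torso of `k` on `E` with respect to `Y`. -/
def Tor (k k' : KF) (E Y : Finset ℕ) (f : ℕ) : Prop :=
  ∀ A ⊆ Y, k' A + k ∅ = k A + k' ∅ ∧
    k' (insert f A) + 1 + k (E \ Y) = k' ∅ + k (A ∪ (E \ Y))

/-- No proper subset of `Y` with two elements is two-separating. -/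
def MinY (k : KF) (E Y : Finset ℕ) : Prop := ∀ Z ⊆ Y, Z ≠ Y → 2 ≤ Z.card → 2 ≤ lam k E Z

def S_Tor : Prop :=
  ∀ C, Mc C → ∀ k E Y f, C k E → Conn k E → Y ⊆ E → f ∈ E \ Y → Y.Nonempty → lam k E Y ≤ 1 →
    ∃ k', C k' (insert f Y) ∧ Conn k' (insert f Y) ∧ Tor k k' E Y f

def S_Del : Prop :=
  ∀ (k : KF) E Y f e, IsK k → Conn k E → Y ⊆ E → f ∈ E \ Y → 3 ≤ Y.card → lam k E Y ≤ 1 →
    MinY k E Y → e ∈ Y → Conn k (E.erase e)

/-- Deleting the base point of a parallel connection. -/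
def S_Sum : Prop :=
  ∀ (k : KF) P R g h, IsK k → Disjoint P R → g ∈ P → h ∈ R → Par k g h → Conn k P → Conn k R →
    2 ≤ P.card → 2 ≤ R.card → lam k (P ∪ R) P ≤ 1 →
    Conn k (P.erase g ∪ R.erase h) ∧ k (P.erase g ∪ R.erase h) = k (P ∪ R)

def S_Lift : Prop :=
  ∀ (k k' : KF) E Y S f e H1, IsK k → IsK k' → Conn k E → Y ⊆ E → f ∈ E \ Y → 3 ≤ Y.card →
    lam k E Y ≤ 1 → MinY k E Y → Tor k k' E Y f → S ⊆ E → Red k S →
    (f ∉ S ∨ 2 ≤ (E \ Y).card) → e ∈ Y → Ctr k' (insert f Y) (S ∩ Y) e H1 →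
    ∃ E1, Ctr k E S e E1

/-- The four moves. -/
def Step (C : KF → Finset ℕ → Prop) : Prop :=
  ∀ k E S f, C k E → Conn k E → S ⊆ E → Red k S → f ∈ E → f ∉ S → 3 ≤ E.card →
    (∃ e ∈ E, ∃ g ∈ E, e ≠ g ∧ e ≠ f ∧ g ≠ f ∧ e ∉ S ∧ k {e, g} + 1 = k ∅) ∨
    (∃ e ∈ E, ∃ g ∈ E, e ≠ g ∧ e ≠ f ∧ g ≠ f ∧ k ((E.erase g).erase e) = k E + 1) ∨
    (∃ e ∈ E, e ≠ f ∧ Conn k (E.erase e) ∧ ∃ E1, Ctr k E S e E1) ∨ Mut k E S

/-- The first move. -/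
def Top (C X : KF → Finset ℕ → Prop) : Prop :=
  ∀ k E, C k E → Conn k E → Red k E → 4 ≤ E.card →
    (∃ e ∈ E, ∃ g ∈ E, e ≠ g ∧ k ((E.erase g).erase e) = k E + 1) ∨ Mut k E E ∨ X k E

def S_Step : Prop := ∀ C X, Mc C → CL C X → Step C ∧ Top C X

/-- The graded system of bounds. -/
structure Sy (q B : ℝ) (J : ℕ) (t : ℕ → ℝ) : Prop where
  q0 : 0 < q
  q1 : q < 1
  B0 : 1 / 3 < B
  B1 : B < 1
  J1 : 1 ≤ J
  t1 : 1 / 3 ≤ t 1
  tB : t 1 ≤ B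
  tg : ∀ g, 1 ≤ g → g ≤ J → t g ≤ t 1
  ser : ∀ v w, (v = -2 ∨ |1 + v| ≤ B) → (w = -2 ∨ |1 + w| ≤ B) →
    q + v + w < 0 ∧ |1 + v * w / (q + v + w)| ≤ B
  gser : ∀ g, 1 ≤ g → g < J → ∀ v w, |1 + v| ≤ t g → (w = -2 ∨ |1 + w| ≤ t 1) →
    |1 + v * w / (q + v + w)| ≤ t (g + 1)
  gpar : ∀ g, 1 ≤ g → g < J → t g * t 1 ≤ t (g + 1)
  top : t J * B ≤ 1 - q

def S_Sys : Prop := ∀ q : ℝ, 0 < q → q < 1 → ∃ B J t, Sy q B J t

/-- Positivity of `al` and the range of the effective weight. -/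
def ClaimP (C : KF → Finset ℕ → Prop) (q B : ℝ) : Prop :=
  ∀ k E S f (v : ℕ → ℝ), C k E → Conn k E → S ⊆ E → Red k S → f ∈ E → f ∉ S → 2 ≤ E.card →
    (3 ≤ E.card ∨ S = ∅) → (∀ x ∈ S, v x = -2) → (∀ x ∈ E, x ≠ f → x ∉ S → |1 + v x| ≤ B) →
    0 < al q k v E f ∧ |ga q k v E f| ≤ B * al q k v E f

def S_ClaimP : Prop := ∀ C q B J t, Mc C → Step C → Sy q B J t → ClaimP C q B

/-- The bound for the negative part. -/
def BoundR (C : KF → Finset ℕ → Prop) (q B : ℝ) (J : ℕ) (t : ℕ → ℝ) : Prop :=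
  ∀ k E S f (v : ℕ → ℝ) (gr : ℕ → ℕ) (m : ℕ), C k E → Conn k E → S ⊆ E → Red k S → f ∈ E → f ∉ S →
    2 ≤ E.card → |1 + v f| ≤ B → (∀ x ∈ S, v x = -2 ∧ gr x = 0) →
    (∀ x ∈ E, x ≠ f → x ∉ S → 1 ≤ gr x ∧ gr x ≤ J ∧ |1 + v x| ≤ t (gr x)) →
    m * 2 ^ J + k E ≤ k ∅ + ∑ x ∈ E.erase f, (2 ^ gr x - 1) →
    -(sg k E * Zk q k v E) ≤ max B (3 / 4) ^ m * al q k v E f

def S_BoundR : Prop :=
  ∀ C q B J t, Mc C → Step C → Sy q B J t → ClaimP C q B → BoundR C q B J t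

/-- The sign rule. -/
def Pos (q : ℝ) (k : KF) (E : Finset ℕ) : Prop := 0 < sg k E * Zk q k (fun _ => -2) E

def S_Main : Prop :=
  ∀ C X q B J t, Mc C → Top C X → Sy q B J t → ClaimP C q B → BoundR C q B J t →
    (∃ N, ∀ k E, X k E → k E + N ≤ k ∅ → Pos q k E) →
    ∃ N, ∀ k E, C k E → Conn k E → Red k E → k E + N ≤ k ∅ → Pos q k E

/-! ### Simple graphs on a finite vertex set -/

section graphs

variable {V : Type}

/-- Two-connectivity. -/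
def T2 (U : Finset V) (adj : V → V → Prop) : Prop :=
  ∀ W ⊆ U, ∀ c, W.Nonempty → c ∉ W → (∀ w ∈ W, ∀ x, adj w x → x ∈ W ∨ x = c) →
    ∀ x ∈ U, x ∈ W ∨ x = c

/-- A three-connected simple graph on `U`. -/
structure T3 (U : Finset V) (adj : V → V → Prop) : Prop where
  symm : ∀ x y, adj x y → adj y x
  irr : ∀ x, ¬ adj x x
  mem : ∀ x y, adj x y → x ∈ U
  four : 4 ≤ U.card
  cut : ∀ W ⊆ U, ∀ a b, W.Nonempty → a ∉ W → b ∉ W →
    (∀ w ∈ W, ∀ x, adj w x → x ∈ W ∨ x = a ∨ x = b) → ∀ x ∈ U, x ∈ W ∨ x = a ∨ x = b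

/-- Equality of unordered pairs. -/
def Same (a b c d : V) : Prop := (a = c ∧ b = d) ∨ (a = d ∧ b = c)

/-- Special edges `sp` and at most one retained edge `fe`. -/
structure Mk (adj sp fe : V → V → Prop) : Prop where
  sps : ∀ x y, sp x y → sp y x
  spa : ∀ x y, sp x y → adj x y
  fes : ∀ x y, fe x y → fe y x
  fea : ∀ x y, fe x y → adj x y ∧ ¬ sp x y
  fe1 : ∀ x y z w, fe x y → fe z w → Same x y z w
  all : (∀ x y, ¬ fe x y) → ∀ x y, adj x y → sp x y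

/-- Removal of one edge. -/
def rem (sp : V → V → Prop) (a b : V) : V → V → Prop := fun x y => sp x y ∧ ¬ Same x y a b

/-- A twin region for the edge `u v`. -/
def Trip (U : Finset V) (adj sp : V → V → Prop) (u v : V) : Prop :=
  ∃ W ⊆ U, ∃ c, W.Nonempty ∧ u ∉ W ∧ v ∉ W ∧ c ∉ W ∧
    (∀ w ∈ W, ∀ x, adj w x → x ∈ W ∨ x = u ∨ x = v ∨ x = c) ∧
    ∀ w ∈ W, (sp w u ∧ sp w v) ∨ (¬ adj w u ∧ ¬ adj w v)

/-- Number of edges leaving `B`. -/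
noncomputable def dc [DecidableEq V] (U : Finset V) (adj : V → V → Prop) (B : Finset V) : ℕ :=
  open Classical in ((B ×ˢ (U \ B)).filter fun p => adj p.1 p.2).card

/-- Every cut with at most three edges separating `u` from `v` is a vertex star. -/
def Star [DecidableEq V] (U : Finset V) (adj : V → V → Prop) (u v : V) : Prop :=
  ∀ B ⊆ U, u ∈ B → v ∉ B → dc U adj B ≤ 3 → B = {u} ∨ B = U.erase v

/-- The neighbours of `u` are `v`, `a`, `b`, and the edges to `a`, `b` are special. -/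
def Al (adj sp : V → V → Prop) (u v a b : V) : Prop :=
  a ≠ b ∧ a ≠ v ∧ b ≠ v ∧ sp u a ∧ sp u b ∧ ∀ x, adj u x → x = v ∨ x = a ∨ x = b

/-- A good edge for deletion. -/
def Gd [DecidableEq V] (U : Finset V) (adj sp : V → V → Prop) (u v : V) : Prop :=
  adj u v ∧ Star U adj u v ∧ (∀ a b, ¬ Al adj sp u v a b) ∧ ∀ a b, Al adj sp v u a b → ¬ adj a b

/-- A region in which all small cuts are stars. -/
structure Reg [DecidableEq V] (U : Finset V) (adj fe : V → V → Prop) (A : Finset V) : Prop where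
  sub : A ⊆ U
  ne : A.Nonempty
  star : ∀ u ∈ A, ∀ v ∈ A, adj u v → ¬ fe u v → Star U adj u v
  one : ∀ u ∈ A, ∀ x y, adj u x → adj u y → (x ∉ A ∨ fe u x) → (y ∉ A ∨ fe u y) → x = y
  tri : ∀ u ∈ A, ∀ x y, adj u x → adj u y → adj x y → x ∈ A

end graphs

def S_GA : Prop :=
  ∀ (V : Type) [DecidableEq V] (U : Finset V) (adj sp fe : V → V → Prop), T3 U adj →
    Mk adj sp fe →
    (∃ a b c d, sp a b ∧ sp c d ∧ ¬ Same a b c d ∧ ¬ Trip U adj (rem sp c d) a b ∧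
      ¬ Trip U adj (rem sp a b) c d) ∨
    ((∃ a b, adj a b ∧ ¬ fe a b ∧ ¬ Trip U adj sp a b) ∧ ∃ c d, adj c d ∧ ¬ fe c d ∧ ¬ sp c d) ∨
    ((∀ x y, ¬ fe x y) ∧ ∀ x ∈ U, ∀ y ∈ U, x ≠ y → adj x y)

def S_Dc : Prop :=
  ∀ (V : Type) [DecidableEq V] (U : Finset V) (adj : V → V → Prop), T3 U adj →
    (∀ B ⊆ U, dc U adj (U \ B) = dc U adj B) ∧
    (∀ A ⊆ U, ∀ B ⊆ U, dc U adj (A ∩ B) + dc U adj (A ∪ B) ≤ dc U adj A + dc U adj B) ∧
    (∀ B ⊆ U, B.Nonempty → B ≠ U → 3 ≤ dc U adj B) ∧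
    (∀ B ⊆ U, B.card = 2 → 4 ≤ dc U adj B) ∧
    ∀ B ⊆ U, 2 ≤ B.card → B ≠ U → dc U adj B ≤ 3 →
      ∀ u ∈ B, ∀ x y, x ∉ B → y ∉ B → adj u x → adj u y → x = y

def S_Reg : Prop :=
  ∀ (V : Type) [DecidableEq V] (U : Finset V) (adj sp fe : V → V → Prop), T3 U adj →
    Mk adj sp fe → ∃ A, Reg U adj fe A

def S_GD : Prop :=
  ∀ (V : Type) [DecidableEq V] (U : Finset V) (adj sp fe : V → V → Prop) (A : Finset V),
    T3 U adj → Mk adj sp fe → Reg U adj fe A →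
    (∃ a b c d, sp a b ∧ sp c d ∧ ¬ Same a b c d ∧ Gd U adj (rem sp c d) a b ∧
      Gd U adj (rem sp a b) c d) ∨
    ((∃ a b, ¬ fe a b ∧ Gd U adj sp a b) ∧ ∃ c d, adj c d ∧ ¬ fe c d ∧ ¬ sp c d) ∨
    ((∀ x y, ¬ fe x y) ∧ U.card = 4)

/-! ### Multigraphs -/

/-- Adjacency through an edge with position in `E`. -/
def Ad (n : ℕ) (L : List (ℕ × ℕ)) (E : Finset ℕ) (x y : Fin n) : Prop := ∃ i ∈ E, Ends L i x y

/-- Identification of `v` with `u`. -/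
def mrg (u v x : ℕ) : ℕ := if x = v then u else x

/-- The edge list after the identification. -/
def mrgL (L : List (ℕ × ℕ)) (u v : ℕ) : List (ℕ × ℕ) := L.map fun e => (mrg u v e.1, mrg u v e.2)

def S_Con : Prop :=
  ∀ n L i (u v : Fin n), Valid (n, L) → Ends L i u v → u ≠ v →
    Valid (n, mrgL L u v) ∧ (mrgL L u v).length = L.length ∧
    (∀ A, comps n (mrgL L u v) A = comps n L (insert i A) + 1) ∧
    ∀ j (x y : Fin n), Ends (mrgL L u v) j x y ↔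
      ∃ x' y' : Fin n, Ends L j x' y' ∧ (if x' = v then u else x') = x ∧
        (if y' = v then u else y') = y

/-- A nonempty edge set inside `U` leaves many components; a drop of connectivity gives a cut. -/
def S_Cmp : Prop :=
  (∀ n L (A : Finset ℕ) (U : Finset (Fin n)), U.Nonempty →
    (∀ x y, Ad n L A x y → x ∈ U) → n + 1 ≤ comps n L A + U.card) ∧
  (∀ n L (A : Finset ℕ) (U : Finset (Fin n)), (∀ x y, Ad n L A x y → x ∈ U) →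
    (∀ W ⊆ U, W.Nonempty → (∀ w ∈ W, ∀ x, Ad n L A w x → x ∈ W) → W = U) → U.Nonempty →
    comps n L A + U.card ≤ n + 1) ∧
  ∀ n L (A D : Finset ℕ), comps n L (A ∪ D) < comps n L A →
    ∃ B : Finset (Fin n), (∀ w ∈ B, ∀ x, Ad n L A w x → x ∈ B) ∧
      ∃ w ∈ B, ∃ x, x ∉ B ∧ Ad n L D w x

def S_C2 : Prop :=
  ∀ n L (E : Finset ℕ) (U : Finset (Fin n)), Valid (n, L) → E ⊆ range L.length → 3 ≤ U.card →
    (∀ x y, Ad n L E x y → x ∈ U ∧ x ≠ y) → T2 U (Ad n L E) →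
    Conn (comps n L) E ∧ comps n L E + U.card = n + 1

def S_T3 : Prop :=
  ∀ n L (E : Finset ℕ), Valid (n, L) → E ⊆ range L.length → Tc (comps n L) E → 4 ≤ E.card →
    ∃ U : Finset (Fin n), T3 U (Ad n L E) ∧ comps n L E + U.card = n + 1 ∧
      ∀ i ∈ E, ∀ j ∈ E, ∀ x y : Fin n, Ends L i x y → Ends L j x y → i = j

/-- Graphic counts. -/
def Gr (k : KF) (E : Finset ℕ) : Prop :=
  IsK k ∧ ∃ n L c, Valid (n, L) ∧ E ⊆ range L.length ∧ ∀ A ⊆ E, k A + c = comps n L A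

/-- Cographic counts. -/
def Du (k : KF) (E : Finset ℕ) : Prop :=
  IsK k ∧ ∃ n L c c', Valid (n, L) ∧ E ⊆ range L.length ∧
    ∀ A ⊆ E, k A + A.card + c' = c + comps n L (E \ A)

/-- Complete graphs. -/
def XG (k : KF) (E : Finset ℕ) : Prop :=
  ∃ n L c, ∃ U : Finset (Fin n), Valid (n, L) ∧ E ⊆ range L.length ∧
    (∀ A ⊆ E, k A + c = comps n L A) ∧ k E + U.card = k ∅ + 1 ∧
    (∀ x y, Ad n L E x y → x ∈ U ∧ x ≠ y) ∧ (∀ x ∈ U, ∀ y ∈ U, x ≠ y → Ad n L E x y) ∧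
    ∀ i ∈ E, ∀ j ∈ E, ∀ x y : Fin n, Ends L i x y → Ends L j x y → i = j

/-- Bounded rank. -/
def XD (k : KF) (E : Finset ℕ) : Prop := k ∅ ≤ k E + 13

def S_Mc : Prop := Mc Gr ∧ Mc Du

def S_GCtr : Prop :=
  ∀ n L (E S : Finset ℕ) (U : Finset (Fin n)) e (u v : Fin n), Valid (n, L) →
    E ⊆ range L.length → T3 U (Ad n L E) → comps n L E + U.card = n + 1 →
    (∀ i ∈ E, ∀ j ∈ E, ∀ x y : Fin n, Ends L i x y → Ends L j x y → i = j) → S ⊆ E → e ∈ E →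
    Ends L e u v → ¬ Trip U (Ad n L E) (Ad n L S) u v → ∃ E1, Ctr (comps n L) E S e E1

def S_DCtr : Prop :=
  ∀ (k : KF) n L c c' (E S : Finset ℕ) (U : Finset (Fin n)) e (u v : Fin n), IsK k →
    Valid (n, L) → E ⊆ range L.length →
    (∀ A ⊆ E, k A + A.card + c' = c + comps n L (E \ A)) → T3 U (Ad n L E) →
    comps n L E + U.card = n + 1 →
    (∀ i ∈ E, ∀ j ∈ E, ∀ x y : Fin n, Ends L i x y → Ends L j x y → i = j) → S ⊆ E → e ∈ E →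
    Ends L e u v → Gd U (Ad n L E) (Ad n L S) u v → ∃ E1, Ctr k E S e E1

def S_CL : Prop := CL Gr XG ∧ CL Du XD

def S_Size : Prop :=
  (∀ k E, Gr k E → Conn k E → Red k E → 2 ≤ E.card → E.card ≤ (2 * (k ∅ - k E)) ^ 2) ∧
  ∀ k E, Du k E → Conn k E → Red k E → 2 ≤ E.card → E.card ≤ 3 * (k ∅ - k E)

/-- The clique recursion. -/
def sq (x : ℝ) : ℕ → ℕ → ℝ
  | 0, _ => 1
  | n + 1, j => (x - j) * sq x n (j + 1) - j * sq x n (j - 1)

def S_KnSeq : Prop :=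
  ∀ q : ℝ, 0 < q → q < 1 → ∃ N, ∀ n, N ≤ n → (-1) ^ n * sq q n 0 < 0

def S_KnZ : Prop :=
  ∀ n L (E : Finset ℕ) (U : Finset (Fin n)) (q : ℝ), Valid (n, L) → E ⊆ range L.length →
    (∀ x y, Ad n L E x y → x ∈ U ∧ x ≠ y) → (∀ x ∈ U, ∀ y ∈ U, x ≠ y → Ad n L E x y) →
    (∀ i ∈ E, ∀ j ∈ E, ∀ x y : Fin n, Ends L i x y → Ends L j x y → i = j) →
    Zk q (comps n L) (fun _ => -2) E = q ^ (n - U.card) * sq q U.card 0

/-! ### Algorithms -/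

/-- `κ` is a polynomial-time oracle for the component counts `k`. -/
structure Orc (κ : Inp × List ℕ → ℕ) (k : Inp → KF) : Prop where
  pt : PT κ
  isK : ∀ G, IsK (k G)
  eq : ∀ G, Valid G → ∀ A : List ℕ, (∀ i ∈ A, i < G.2.length) → κ (G, A) = k G A.toFinset

def S_Kept : Prop :=
  ∀ κ k, Orc κ k → ∃ kept : Inp → List ℕ, PT kept ∧ ∀ G, Valid G → (kept G).Nodup ∧
    (∀ i ∈ kept G, i < G.2.length) ∧ Red (k G) (kept G).toFinset ∧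
    ∀ q : ℝ, Zk q (k G) (fun _ => -2) (range G.2.length) =
      Zk q (k G) (fun _ => -2) (kept G).toFinset

def S_Parts : Prop :=
  ∀ κ k, Orc κ k → ∃ pts : Inp × List ℕ → List (List ℕ), PT pts ∧ ∀ G, Valid G →
    ∀ D : List ℕ, D.Nodup → (∀ i ∈ D, i < G.2.length) →
      (∀ K ∈ pts (G, D), K.Nodup) ∧ Dec (k G) D.toFinset ((pts (G, D)).map List.toFinset)

def S_Algo : Prop :=
  ∀ κ k (q : ℝ) (M : ℕ), Orc κ k → 0 < q →
    (∀ G, Valid G → ∀ K ⊆ range G.2.length, Conn (k G) K → Red (k G) K → M ≤ K.card →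
      Pos q (k G) K) →
    ∃ f : Inp → ℤ, PT f ∧ ∀ G, Valid G →
      f G = (SignType.sign (Zk q (k G) (fun _ => -2) (range G.2.length)) : ℤ)

/-- The dual count. -/
noncomputable def kd (G : Inp) : KF := fun A =>
  (range G.2.length \ A).card + comps G.1 G.2 (range G.2.length \ A)

def S_Dual : Prop :=
  (∃ κ, Orc κ fun G => comps G.1 G.2) ∧ (∃ κ, Orc κ kd) ∧
  (∀ G, Valid G → Du (kd G) (range G.2.length)) ∧
  ∀ (G : Inp) (q : ℝ), dichromatic G.1 G.2 q (-q / 2) =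
    (-1 / 2) ^ G.2.length * Zk q (kd G) (fun _ => -2) (range G.2.length)

/-- The sign problem is in polynomial time. -/
def Easy (q v : ℝ) : Prop :=
  ∃ f : Inp → ℤ, PT f ∧ ∀ G, Valid G → f G = (SignType.sign (dichromatic G.1 G.2 q v) : ℤ)

/-! ### Hardness -/

def S_Esc : Prop :=
  ∀ (q : ℝ) (I : ℝ → Prop), 1 < q → q ≤ 32 / 27 → I (-1) → (∀ y z, I y → I z → I (y * z)) →
    (∀ y z, I y → I z → y ≠ 1 → z ≠ 1 → (1 - q / (1 - y)) * (1 - q / (1 - z)) ≠ 1 →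
      I (1 - q / (1 - (1 - q / (1 - y)) * (1 - q / (1 - z))))) → ∃ y, I y ∧ 1 < y

def S_Hard : Prop :=
  ∀ (q v a y a' z : ℝ), 1 < q → 0 < a → y ≤ -2 → R3.Impl q v a (a * y - a) → 0 < a' → 0 < z →
    z * y ^ 2 ≤ 1 → R3.Impl q v a' (a' * z - a') → ∀ f, R3.SharpP f → R3.Reduces f q v

def S_Gad : Prop :=
  ∀ q v : ℝ, 1 < q → q ≤ 32 / 27 → (v = -2 ∨ v = -q / 2) →
    ∃ a y a' z : ℝ, 0 < a ∧ y ≤ -2 ∧ R3.Impl q v a (a * y - a) ∧ 0 < a' ∧ 0 < z ∧ z * y ^ 2 ≤ 1 ∧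
      R3.Impl q v a' (a' * z - a')

end Pool.Agent.P.MP_e0c037_lc.SG
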