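import Pool.Agent.P.MP_e0c037_lc.SG.Base

/-! Removal of parallel pairs in polynomial time. -/

namespace Pool.Agent.P.MP_e0c037_lc.SG

open Finset Pool.Agent.Lib.helper21

namespace Kept

/-- Test for parallel elements. -/
def parB (κ : Inp × List ℕ → ℕ) (G : Inp) (i j : ℕ) : Bool :=
  (decide (κ (G, [i]) + 1 = κ (G, [])) && decide (κ (G, [j]) + 1 = κ (G, []))) &&
    decide (κ (G, [i, j]) + 1 = κ (G, []))

/-- One step. -/
def kst (κ : Inp × List ℕ → ℕ) (G : Inp) (K : List ℕ) (i : ℕ) : List ℕ :=
  lcase (K.filter fun j => parB κ G i j) (i :: K) fun j _ => K.filter fun x => !decide (x = j)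

/-- The retained elements. -/
def kept (κ : Inp × List ℕ → ℕ) (G : Inp) : List ℕ :=
  (List.range G.2.length).foldl (kst κ G) []

variable {κ : Inp × List ℕ → ℕ} {k : Inp → KF}

theorem pt_kept (h : PT κ) : PT (kept κ) := by
  refine PT.foldl_add (f := kst κ) (by unfold kst parB; fun_prop) (by fun_prop) (by fun_prop)
    (fun p => 2 * p.2 + 2) (PT.bdNat (by fun_prop)) fun G K i => ?_
  unfold kst
  cases K.filter fun j => parB κ G i j with
  | nil => simp only [lcase, sz_cons, sz_nat]; omega
  | cons j t =>
    have := sz_filter (fun x => !decide (x = j)) K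
    simp only [lcase]; omega

theorem parB_iff (o : Orc κ k) {G : Inp} (hG : Valid G) {i j : ℕ} (hi : i < G.2.length)
    (hj : j < G.2.length) : parB κ G i j = true ↔ Par (k G) i j := by
  unfold parB Par
  rw [o.eq G hG [i] (by simpa), o.eq G hG [j] (by simpa), o.eq G hG [i, j] (by simp [hi, hj]),
    o.eq G hG [] (by simp)]
  simp [and_assoc]

theorem inv (o : Orc κ k) {G : Inp} (hG : Valid G) (j : ℕ) (hj : j ≤ G.2.length) :
    ((List.range j).foldl (kst κ G) []).Nodup ∧
    (∀ i ∈ (List.range j).foldl (kst κ G) [], i < j) ∧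
    Red (k G) ((List.range j).foldl (kst κ G) []).toFinset ∧
    ∀ q : ℝ, Zk q (k G) (fun _ => -2) (range G.2.length) =
      Zk q (k G) (fun _ => -2)
        (((List.range j).foldl (kst κ G) []).toFinset ∪ Ico j G.2.length) := by
  induction j with
  | zero => exact ⟨by simp, by simp, by simp [Red], fun q => by
      rw [range_eq_Ico]; simp⟩
  | succ j ih =>
    obtain ⟨h1, h2, h3, h4⟩ := ih (by omega)
    rw [List.range_succ, List.foldl_append, List.foldl_cons, List.foldl_nil]
    generalize (List.range j).foldl (kst κ G) [] = K at h1 h2 h3 h4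
    have hp : ∀ x ∈ K, parB κ G j x = true ↔ Par (k G) j x := fun x hx =>
      parB_iff o hG (by omega) (by have := h2 x hx; omega)
    have hjK : j ∉ K := fun hh => lt_irrefl _ (h2 j hh)
    unfold kst
    cases hF : K.filter fun x => parB κ G j x with
    | nil =>
      have hn : ∀ x ∈ K, ¬ Par (k G) j x := fun x hx hh => by
        have : x ∈ K.filter fun x => parB κ G j x := List.mem_filter.2 ⟨hx, (hp x hx).2 hh⟩
        rw [hF] at this
        exact List.not_mem_nil this
      simp only [lcase]
      refine ⟨List.nodup_cons.2 ⟨hjK, h1⟩, fun i hi => ?_, fun x hx y hy hxy => ?_, fun q => ?_⟩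
      · rcases List.mem_cons.1 hi with rfl | hi
        · omega
        · have := h2 i hi; omega
      · rw [List.mem_toFinset, List.mem_cons] at hx hy
        rcases hx with rfl | hx <;> rcases hy with rfl | hy
        · exact absurd rfl hxy
        · exact hn y hy
        · exact fun hh => hn x hx hh.symm
        · exact h3 x (List.mem_toFinset.2 hx) y (List.mem_toFinset.2 hy) hxy
      · rw [h4]
        congr 1
        ext x
        simp only [mem_union, List.mem_toFinset, mem_Ico, List.mem_cons]
        constructor
        · rintro (hx | hx)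
          · exact Or.inl (Or.inr hx)
          · by_cases hxj : x = j
            · exact Or.inl (Or.inl hxj)
            · exact Or.inr ⟨by omega, hx.2⟩
        · rintro ((rfl | hx) | hx)
          · exact Or.inr ⟨le_rfl, by omega⟩
          · exact Or.inl hx
          · exact Or.inr ⟨by omega, hx.2⟩
    | cons y t =>
      have hy : y ∈ K.filter fun x => parB κ G j x := by rw [hF]; exact List.mem_cons_self
      obtain ⟨hyK, hy2⟩ := List.mem_filter.1 hy
      have p := (hp y hyK).1 hy2
      have hyj := h2 y hyK
      simp only [lcase]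
      refine ⟨h1.filter _, fun i hi => ?_, h3.mono fun x hx => ?_, fun q => ?_⟩
      · have := h2 i (List.mem_filter.1 hi).1; omega
      · exact List.mem_toFinset.2 (List.mem_filter.1 (List.mem_toFinset.1 hx)).1
      · rw [h4, Zk_cancel (x := j) (y := y) (by simp; omega) (by simp [hyK]) (by omega)
          (par_eq (o.isK G) p.1 p.2.2) (par_eq (o.isK G) p.symm.1 p.symm.2.2) rfl rfl]
        congr 1
        ext x
        simp only [mem_union, List.mem_toFinset, mem_Ico, List.mem_filter, mem_erase,
          Bool.not_eq_true', decide_eq_false_iff_not]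
        constructor
        · rintro ⟨a, b, hx | hx⟩
          · exact Or.inl ⟨hx, a⟩
          · exact Or.inr ⟨by omega, hx.2⟩
        · rintro (⟨hx, a⟩ | hx)
          · exact ⟨a, fun e => hjK (e ▸ hx), Or.inl hx⟩
          · exact ⟨by omega, by omega, Or.inr ⟨by omega, hx.2⟩⟩

end Kept

theorem p_Kept : S_Kept := by
  intro κ k o
  refine ⟨Kept.kept κ, Kept.pt_kept o.pt, fun G hG => ?_⟩
  obtain ⟨h1, h2, h3, h4⟩ := Kept.inv o hG G.2.length le_rfl
  exact ⟨h1, h2, h3, fun q => by simpa [Kept.kept] using h4 q⟩

end Pool.Agent.P.MP_e0c037_lc.SG
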